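import Pool.Agent.Q196.XF.Grow

/-! Auxiliary facts, and the quadratic model of a saddle. -/

set_option autoImplicit false
set_option linter.unusedSectionVars false

open scoped Topology ContDiff Manifold RealInnerProductSpace Gradient
open Set Metric Filter Bundle Pool.Agent.Q196.XB Asymptotics

noncomputable section

namespace Pool.Agent.Q196.XF

variable {E : Type} [NormedAddCommGroup E] [InnerProductSpace ℝ E] [FiniteDimensional ℝ E]
  {N : Type} [TopologicalSpace N] [ChartedSpace E N] [IsManifold 𝓘(ℝ, E) ∞ N]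

lemma gr_congr {u : N → E} {g g' : N → ℝ} {x : N} (h : g =ᶠ[𝓝 x] g') : gr u g x = gr u g' x := by
  unfold gr
  rw [h.mfderiv_eq]

lemma gr_sec' {u : N → E} (hu : IsLocalDiffeomorph 𝓘(ℝ, E) 𝓘(ℝ, E) ∞ u) {g : N → ℝ}
    (hg : ContMDiff 𝓘(ℝ, E) 𝓘(ℝ, ℝ) ∞ g) {U : Set E} {σ : E → N} (h : Sec u U σ) {z : E}
    (hz : z ∈ U) : gr u g (σ z) = ∇ (g ∘ σ) z := by
  have := gr_sec hu h (x := σ z) ⟨z, hz, rfl⟩ (hg.mdifferentiableAt (by simp))
  rwa [h.right z hz] at this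

lemma gr_sub_const {u : N → E} (hu : IsLocalDiffeomorph 𝓘(ℝ, E) 𝓘(ℝ, E) ∞ u) {g : N → ℝ}
    (hg : ContMDiff 𝓘(ℝ, E) 𝓘(ℝ, ℝ) ∞ g) (c : ℝ) (x : N) :
    gr u (fun y => g y - c) x = gr u g x := by
  obtain ⟨U, σ, h, hxU, hx⟩ := exists_sec hu x
  have hg' : ContMDiff 𝓘(ℝ, E) 𝓘(ℝ, ℝ) ∞ (fun y => g y - c) := hg.sub contMDiff_const
  have h1 := gr_sec' hu hg h hxU
  have h2 := gr_sec' hu hg' h hxU
  rw [hx] at h1 h2
  rw [h1, h2]
  unfold gradient
  congr 1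
  have : (fun y => g y - c) ∘ σ = fun z => (g ∘ σ) z - c := rfl
  rw [this, fderiv_sub_const]

/-- interior points of the ball are interior points of the sublevel set -/
lemma ball_int {u : N → E} (hu : IsLocalDiffeomorph 𝓘(ℝ, E) 𝓘(ℝ, E) ∞ u) {ρ : N → ℝ}
    (hρ : ContMDiff 𝓘(ℝ, E) 𝓘(ℝ, ℝ) ∞ ρ) (hreg : ∀ x, ρ x = 0 → gr u ρ x ≠ 0) {Φ : E → N}
    (hΦ : IsLocalDiffeomorph 𝓘(ℝ, E) 𝓘(ℝ, E) ∞ Φ)
    (himg : Φ '' closedBall 0 1 = {x | ρ x ≤ 0}) {z : E} (hz : ‖z‖ < 1) : ρ (Φ z) < 0 := by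
  have h0 : ρ (Φ z) ≤ 0 := by
    have : Φ z ∈ Φ '' closedBall (0:E) 1 := ⟨z, mem_closedBall_zero_iff.2 hz.le, rfl⟩
    rw [himg] at this
    exact this
  rcases h0.eq_or_lt with h | h
  · exfalso
    have h3 : IsLocalMax (ρ ∘ Φ) z := by
      have h4 : ∀ᶠ y in 𝓝 z, ‖y‖ < 1 := ev_lt continuous_norm hz
      filter_upwards [h4] with y hy
      have : Φ y ∈ Φ '' closedBall (0:E) 1 := ⟨y, mem_closedBall_zero_iff.2 hy.le, rfl⟩
      rw [himg] at this
      show ρ (Φ y) ≤ ρ (Φ z)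
      rw [h]
      exact this
    have h4 := h3.fderiv_eq_zero
    apply hreg _ h
    obtain ⟨w, hw⟩ := surj_push hu hΦ z (gr u ρ (Φ z))
    have h5 := gr_push hu (g := ρ) (hΦ.contMDiff.mdifferentiableAt (by simp) :
      MDifferentiableAt 𝓘(ℝ, E) 𝓘(ℝ, E) Φ z) (hρ.mdifferentiableAt (by simp)) w
    rw [hw, h4] at h5
    exact inner_self_eq_zero.1 h5
  · exact h

/-- `ρ` is quadratic near `p`, with a nondegenerate saddle of index one in the direction `e`. -/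
structure Saddle (u : N → E) (ρ : N → ℝ) (p : N) (σ : E → N) (r : ℝ) (e : E) (α β Λ : ℝ)
    (A : E →L[ℝ] E) : Prop where
  rpos : 0 < r
  sec : Sec u (ball (u p) r) σ
  base : σ (u p) = p
  quad : ∀ z ∈ ball (u p) r, ρ (σ z) = ρ p + ⟪A (z - u p), z - u p⟫ / 2
  symm : ∀ v w, ⟪A v, w⟫ = ⟪A w, v⟫
  unit : ‖e‖ = 1
  neg : A e = -(α • e)
  αpos : 0 < α
  pos : ∀ y, ⟪e, y⟫ = 0 → β * ‖y‖ ^ 2 ≤ ⟪A y, y⟫
  βpos : 0 < β
  bound : ∀ y, ⟪A y, y⟫ ≤ Λ * ‖y‖ ^ 2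
  Λpos : 0 < Λ

/-- the component orthogonal to `e` -/
def pe (e w : E) : E := w - ⟪e, w⟫ • e

lemma pe_orth {e : E} (he : ‖e‖ = 1) (w : E) : ⟪e, pe e w⟫ = 0 := by
  unfold pe
  rw [inner_sub_right, inner_smul_right, real_inner_self_eq_norm_sq, he]; ring

lemma pe_split (e w : E) : w = ⟪e, w⟫ • e + pe e w := by
  unfold pe; abel

lemma pe_inner {e : E} (he : ‖e‖ = 1) (w v : E) : ⟪pe e w, v⟫ = ⟪pe e w, pe e v⟫ := by
  conv_lhs => rw [pe_split e v]
  rw [inner_add_right, inner_smul_right, real_inner_comm e (pe e w), pe_orth he]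
  ring

lemma pe_norm_le {e : E} (he : ‖e‖ = 1) (w : E) : ‖pe e w‖ ≤ ‖w‖ := by
  have h1 : ‖w‖ ^ 2 = ⟪e, w⟫ ^ 2 + ‖pe e w‖ ^ 2 := by
    conv_lhs => rw [pe_split e w]
    rw [norm_add_sq_real, norm_smul, he, inner_smul_left, pe_orth he, Real.norm_eq_abs, mul_one,
      sq_abs]
    simp
  have h2 := norm_nonneg w
  have h3 := norm_nonneg (pe e w)
  nlinarith [sq_nonneg ⟪e, w⟫]

lemma pe_norm_sq {e : E} (he : ‖e‖ = 1) (w : E) : ‖w‖ ^ 2 = ⟪e, w⟫ ^ 2 + ‖pe e w‖ ^ 2 := by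
  conv_lhs => rw [pe_split e w]
  rw [norm_add_sq_real, norm_smul, he, inner_smul_left, pe_orth he, Real.norm_eq_abs, mul_one,
    sq_abs]
  simp

lemma pe_cont (e : E) : Continuous (pe e) := by
  unfold pe; fun_prop

lemma pe_add (e v w : E) : pe e (v + w) = pe e v + pe e w := by
  unfold pe; rw [inner_add_right, add_smul]; abel

lemma pe_smul (e v : E) (c : ℝ) : pe e (c • v) = c • pe e v := by
  unfold pe; rw [inner_smul_right, smul_sub, mul_smul]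

lemma pe_self {e : E} (he : ‖e‖ = 1) : pe e e = 0 := by
  unfold pe; rw [real_inner_self_eq_norm_sq, he]; simp

lemma pe_of_orth {e y : E} (h : ⟪e, y⟫ = 0) : pe e y = y := by
  unfold pe; rw [h]; simp

namespace Saddle

variable {u : N → E} {ρ : N → ℝ} {p : N} {σ : E → N} {r : ℝ} {e : E} {α β Λ : ℝ} {A : E →L[ℝ] E}
  (S : Saddle u ρ p σ r e α β Λ A)
include S

lemma orth {y : E} (hy : ⟪e, y⟫ = 0) : ⟪e, A y⟫ = 0 := by
  rw [real_inner_comm, S.symm, S.neg, inner_neg_left, inner_smul_left, hy]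
  simp

lemma quad_split (w : E) : ⟪A w, w⟫ = -(α * ⟪e, w⟫ ^ 2) + ⟪A (pe e w), pe e w⟫ := by
  have h1 := pe_orth S.unit w
  have h2 := S.orth h1
  conv_lhs => rw [pe_split e w]
  rw [map_add, map_smul, S.neg, inner_add_left, inner_add_right, inner_add_right]
  simp only [inner_smul_left, inner_smul_right, inner_neg_left, smul_neg, conj_trivial,
    real_inner_self_eq_norm_sq, S.unit, h1]
  rw [real_inner_comm e (A (pe e w)), h2]
  ring

lemma inner_A (w v : E) : ⟪A w, v⟫ = -(α * ⟪e, w⟫ * ⟪e, v⟫) + ⟪A (pe e w), v⟫ := by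
  conv_lhs => rw [pe_split e w]
  rw [map_add, map_smul, S.neg, inner_add_left, inner_smul_left, inner_neg_left, inner_smul_left]
  simp only [conj_trivial]
  ring

lemma val {z : E} (hz : z ∈ ball (u p) r) : ρ (σ z) = ρ p +
    (-(α * ⟪e, z - u p⟫ ^ 2) + ⟪A (pe e (z - u p)), pe e (z - u p)⟫) / 2 := by
  rw [S.quad z hz, S.quad_split]

lemma gr_eq (hu : IsLocalDiffeomorph 𝓘(ℝ, E) 𝓘(ℝ, E) ∞ u)
    (hρ : ContMDiff 𝓘(ℝ, E) 𝓘(ℝ, ℝ) ∞ ρ) {z : E} (hz : z ∈ ball (u p) r) :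
    gr u ρ (σ z) = A (z - u p) := by
  rw [gr_sec' hu hρ S.sec hz]
  have h1 : (ρ ∘ σ) =ᶠ[𝓝 z] fun z => ρ p + ⟪A (z - u p), z - u p⟫ / 2 := by
    filter_upwards [isOpen_ball.mem_nhds hz] with y hy using S.quad y hy
  have h2 : HasFDerivAt (fun z => ρ p + ⟪A (z - u p), z - u p⟫ / 2)
      ((InnerProductSpace.toDual ℝ E) (A (z - u p))) z := by
    have h3 : HasFDerivAt (fun z : E => z - u p) (ContinuousLinearMap.id ℝ E) z :=
      (hasFDerivAt_id z).sub_const (u p)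
    have h4 : HasFDerivAt (fun z : E => A (z - u p)) A z := by
      have := A.hasFDerivAt.comp z h3
      rwa [ContinuousLinearMap.comp_id] at this
    have h5 := h4.inner ℝ h3
    have h6 := (h5.mul_const (1 / 2 : ℝ)).const_add (ρ p)
    have h7 : (fun z => ρ p + ⟪A (z - u p), z - u p⟫ / 2) =
        fun z => ρ p + ⟪A (z - u p), z - u p⟫ * (1 / 2) := by
      funext z; ring
    rw [h7]
    refine h6.congr_fderiv ?_
    ext v
    simp only [_root_.smul_apply, ContinuousLinearMap.comp_apply, ContinuousLinearMap.prod_apply,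
      fderivInnerCLM_apply, ContinuousLinearMap.id_apply, InnerProductSpace.toDual_apply_apply,
      smul_eq_mul]
    rw [S.symm v (z - u p)]
    ring
  unfold gradient
  rw [h1.fderiv_eq, h2.fderiv]
  simp

lemma A_ne {w : E} (hw : w ≠ 0) : A w ≠ 0 := by
  intro h
  have h1 := S.inner_A w e
  rw [h, inner_zero_left, real_inner_self_eq_norm_sq, S.unit, real_inner_comm e (A (pe e w)),
    S.orth (pe_orth S.unit w)] at h1
  have h2 : ⟪e, w⟫ = 0 := by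
    have := S.αpos
    have h3 : α * ⟪e, w⟫ = 0 := by linarith
    rcases mul_eq_zero.1 h3 with h4 | h4
    · linarith
    · exact h4
  have h3 := S.pos w h2
  rw [h, inner_zero_left] at h3
  have h4 := S.βpos
  have h5 := norm_pos_iff.2 hw
  have : 0 < β * ‖w‖ ^ 2 := by positivity
  linarith

end Saddle

end Pool.Agent.Q196.XF
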