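import Pool.Agent.Q196.XF.Field

/-! Charts of smoothly embedded balls. -/

set_option autoImplicit false
set_option linter.unusedSectionVars false

open scoped Topology ContDiff Manifold RealInnerProductSpace Gradient
open Set Metric Filter Bundle Pool.Agent.Q196.XB

noncomputable section

namespace Pool.Agent.Q196.XF

variable {E : Type} [NormedAddCommGroup E] [InnerProductSpace ℝ E] [FiniteDimensional ℝ E]
  {N : Type} [TopologicalSpace N] [ChartedSpace E N] [IsManifold 𝓘(ℝ, E) ∞ N]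

/-- The chain rule for gradients. -/
lemma gr_push {u : N → E} (hu : IsLocalDiffeomorph 𝓘(ℝ, E) 𝓘(ℝ, E) ∞ u) {g : N → ℝ} {Φ : E → N}
    {z : E} (hΦ : MDifferentiableAt 𝓘(ℝ, E) 𝓘(ℝ, E) Φ z)
    (hg : MDifferentiableAt 𝓘(ℝ, E) 𝓘(ℝ, ℝ) g (Φ z)) (w : E) :
    ⟪gr u g (Φ z), fderiv ℝ (u ∘ Φ) z w⟫ = fderiv ℝ (g ∘ Φ) z w := by
  have h1 : MDifferentiableAt 𝓘(ℝ, E) 𝓘(ℝ, E) u (Φ z) :=
    hu.contMDiff.mdifferentiableAt (by simp)
  have h2 := mfderiv_comp z h1 hΦ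
  have h3 := mfderiv_comp z hg hΦ
  obtain ⟨L, hL, hL'⟩ := exists_equiv hu (Φ z)
  rw [gr_inner, hL']
  have h4 : fderiv ℝ (u ∘ Φ) z w = L ((mfderiv 𝓘(ℝ, E) 𝓘(ℝ, E) Φ z) w) := by
    rw [← mfderiv_eq_fderiv, h2, hL]
    rfl
  rw [h4, L.symm_apply_apply, ← mfderiv_eq_fderiv, h3]
  rfl

lemma surj_push {u : N → E} (hu : IsLocalDiffeomorph 𝓘(ℝ, E) 𝓘(ℝ, E) ∞ u) {Φ : E → N}
    (hΦ : IsLocalDiffeomorph 𝓘(ℝ, E) 𝓘(ℝ, E) ∞ Φ) (z : E) :
    Function.Surjective (fderiv ℝ (u ∘ Φ) z) := by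
  have h1 : MDifferentiableAt 𝓘(ℝ, E) 𝓘(ℝ, E) u (Φ z) :=
    hu.contMDiff.mdifferentiableAt (by simp)
  have h0 : MDifferentiableAt 𝓘(ℝ, E) 𝓘(ℝ, E) Φ z := hΦ.contMDiff.mdifferentiableAt (by simp)
  have h2 := mfderiv_comp z h1 h0
  rw [← mfderiv_eq_fderiv, h2]
  intro v
  set L₁ := hu.mfderivToContinuousLinearEquiv (by simp) (Φ z) with hL₁
  set L₂ := hΦ.mfderivToContinuousLinearEquiv (by simp) z with hL₂
  refine ⟨L₂.symm (L₁.symm v), ?_⟩
  have e1 := hu.mfderivToContinuousLinearEquiv_coe (by simp) (Φ z)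
  have e2 := hΦ.mfderivToContinuousLinearEquiv_coe (by simp) z
  rw [← hL₁] at e1
  rw [← hL₂] at e2
  show (mfderiv 𝓘(ℝ, E) 𝓘(ℝ, E) u (Φ z)) ((mfderiv 𝓘(ℝ, E) 𝓘(ℝ, E) Φ z) (L₂.symm (L₁.symm v))) = v
  rw [← e1, ← e2]
  show L₁ (L₂ (L₂.symm (L₁.symm v))) = v
  rw [L₂.apply_symm_apply, L₁.apply_symm_apply]

/-- A smooth function which is inverse to the chart on the ball of radius two. -/
theorem exists_coord [T2Space N] [SigmaCompactSpace N] {Φ : E → N}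
    (he : Topology.IsOpenEmbedding Φ) (hΦ : IsLocalDiffeomorph 𝓘(ℝ, E) 𝓘(ℝ, E) ∞ Φ) :
    ∃ Ψ : N → E, ContMDiff 𝓘(ℝ, E) 𝓘(ℝ, E) ∞ Ψ ∧ ∀ z ∈ ball (0:E) 2, Ψ (Φ z) = z := by
  set Ψ₀ : N → E := Function.invFun Φ with hΨ₀
  have hinv : ∀ z, Ψ₀ (Φ z) = z := Function.leftInverse_invFun he.injective
  have hs : ∀ z, ContMDiffAt 𝓘(ℝ, E) 𝓘(ℝ, E) ∞ Ψ₀ (Φ z) := by
    intro z
    obtain ⟨Ξ, hz, hΞ⟩ := hΦ z
    have h1 : ContMDiffAt 𝓘(ℝ, E) 𝓘(ℝ, E) ∞ Ξ.symm (Φ z) := by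
      refine Ξ.contMDiffOn_invFun.contMDiffAt (Ξ.open_target.mem_nhds ?_)
      rw [hΞ hz]
      exact Ξ.toPartialEquiv.map_source hz
    refine h1.congr_of_eventuallyEq ?_
    have h2 : Ξ.target ∈ 𝓝 (Φ z) := Ξ.open_target.mem_nhds (by
      rw [hΞ hz]
      exact Ξ.toPartialEquiv.map_source hz)
    filter_upwards [h2] with y hy
    have h3 : Ξ.symm y ∈ Ξ.source := Ξ.toPartialEquiv.map_target hy
    have h4 : Φ (Ξ.symm y) = y := by
      rw [hΞ h3]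
      exact Ξ.toPartialEquiv.right_inv hy
    conv_lhs => rw [← h4]
    rw [hinv]
  obtain ⟨χ, K', hχ, hK', h1, h2, h3⟩ := Helper186.exists_cutoff 𝓘(ℝ, E)
    ((isCompact_closedBall (0:E) 2).image he.continuous) he.isOpen_range
    (image_subset_range Φ _)
  refine ⟨fun x => χ x • Ψ₀ x, ?_, ?_⟩
  · intro x
    by_cases hx : x ∈ range Φ
    · obtain ⟨z, rfl⟩ := hx
      exact (hχ _).smul (hs z)
    · have hx' : x ∈ K'ᶜ := fun h => hx (h1 h)
      refine (contMDiffAt_const (c := (0:E))).congr_of_eventuallyEq ?_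
      filter_upwards [hK'.isClosed.isOpen_compl.mem_nhds hx'] with y hy
      rw [h3 y hy, zero_smul]
  · intro z hz
    have : χ (Φ z) = 1 := h2.self_of_nhdsSet _ ⟨z, ball_subset_closedBall hz, rfl⟩
    show χ (Φ z) • Ψ₀ (Φ z) = z
    rw [this, one_smul, hinv]

lemma gr_coord {u : N → E} (hu : IsLocalDiffeomorph 𝓘(ℝ, E) 𝓘(ℝ, E) ∞ u) {Φ : E → N}
    (hΦ : IsLocalDiffeomorph 𝓘(ℝ, E) 𝓘(ℝ, E) ∞ Φ) {Ψ : N → E}
    (hΨ : ContMDiff 𝓘(ℝ, E) 𝓘(ℝ, E) ∞ Ψ) (hi : ∀ z ∈ ball (0:E) 2, Ψ (Φ z) = z) {g : E → ℝ}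
    (hg : ContDiff ℝ ∞ g) {z : E} (hz : z ∈ ball (0:E) 2) (w : E) :
    ⟪gr u (g ∘ Ψ) (Φ z), fderiv ℝ (u ∘ Φ) z w⟫ = fderiv ℝ g z w := by
  rw [gr_push hu (hΦ.contMDiff.mdifferentiableAt (by simp))
    ((hg.contMDiff.comp hΨ).mdifferentiableAt (by simp))]
  congr 1
  apply Filter.EventuallyEq.fderiv_eq
  filter_upwards [isOpen_ball.mem_nhds hz] with y hy
  show g (Ψ (Φ y)) = g y
  rw [hi y hy]

/-- The gradient of a defining function at the boundary of the ball in the chart. -/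
theorem bdry_grad {u : N → E} (hu : IsLocalDiffeomorph 𝓘(ℝ, E) 𝓘(ℝ, E) ∞ u) {ρ : N → ℝ}
    (hρ : ContMDiff 𝓘(ℝ, E) 𝓘(ℝ, ℝ) ∞ ρ) (hreg : ∀ x, ρ x = 0 → gr u ρ x ≠ 0) {Φ : E → N}
    (he : Topology.IsOpenEmbedding Φ) (hΦ : IsLocalDiffeomorph 𝓘(ℝ, E) 𝓘(ℝ, E) ∞ Φ)
    (himg : Φ '' closedBall 0 1 = {x | ρ x ≤ 0}) {z : E} (hz : ‖z‖ = 1) :
    ρ (Φ z) = 0 ∧ ∃ κ : ℝ, 0 < κ ∧ ∀ w, ⟪gr u ρ (Φ z), fderiv ℝ (u ∘ Φ) z w⟫ = κ * ⟪z, w⟫ := by
  have hc : ∀ y : E, ρ (Φ y) ≤ 0 ↔ ‖y‖ ≤ 1 := by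
    intro y
    have h1 : Φ y ∈ Φ '' closedBall 0 1 ↔ y ∈ closedBall (0:E) 1 := he.injective.mem_set_image
    rw [himg, mem_closedBall_zero_iff] at h1
    exact h1
  set g : E → ℝ := ρ ∘ Φ with hg
  have hgs : ContDiff ℝ ∞ g := by
    rw [← contMDiff_iff_contDiff]
    exact hρ.comp hΦ.contMDiff
  have hgd : ∀ w, HasDerivAt (fun t : ℝ => g (z + t • w)) (fderiv ℝ g z w) 0 := by
    intro w
    have h1 : HasDerivAt (fun t : ℝ => z + t • w) w 0 := by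
      simpa using ((hasDerivAt_id (0:ℝ)).smul_const w).const_add z
    have h2 : HasFDerivAt g (fderiv ℝ g z) (z + (0:ℝ) • w) := by
      rw [zero_smul, add_zero]
      exact (hgs.differentiable (by simp) z).hasFDerivAt
    exact h2.comp_hasDerivAt 0 h1
  have hle0 : ρ (Φ z) ≤ 0 := (hc z).2 hz.le
  have hge0 : 0 ≤ ρ (Φ z) := by
    have h1 : Tendsto (fun t : ℝ => g ((1 + t) • z)) (𝓝[>] 0) (𝓝 (g z)) := by
      have : ContinuousAt (fun t : ℝ => g ((1 + t) • z)) 0 := by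
        have := hgs.continuous
        fun_prop
      have h2 := this.tendsto
      simp only [add_zero, one_smul] at h2
      exact h2.mono_left nhdsWithin_le_nhds
    refine ge_of_tendsto h1 ?_
    filter_upwards [self_mem_nhdsWithin] with t ht
    have ht' : 0 < t := ht
    by_contra hneg
    have h3 : ‖(1 + t) • z‖ ≤ 1 := (hc _).1 (not_le.1 hneg).le
    rw [norm_smul, hz, mul_one, Real.norm_eq_abs, abs_of_pos (by linarith)] at h3
    linarith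
  have h0 : ρ (Φ z) = 0 := le_antisymm hle0 hge0
  refine ⟨h0, ?_⟩
  -- the derivative in inward directions
  have hin : ∀ w, ⟪z, w⟫ < 0 → fderiv ℝ g z w ≤ 0 := by
    intro w hw
    by_contra hpos
    push Not at hpos
    have h6 : ∀ᶠ t in 𝓝[>] (0:ℝ), 0 < slope (fun t : ℝ => g (z + t • w)) 0 t :=
      (hasDerivWithinAt_iff_tendsto_slope' (s := Ioi (0:ℝ)) self_notMem_Ioi).1
        (hgd w).hasDerivWithinAt |>.eventually_const_lt hpos
    have h7 : ∀ᶠ t in 𝓝[>] (0:ℝ), t * ‖w‖ ^ 2 < -(2 * ⟪z, w⟫) := by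
      refine nhdsWithin_le_nhds (ev_lt (by fun_prop) ?_)
      simp only [zero_mul]
      linarith
    obtain ⟨t, ⟨ht1, ht2⟩, ht3⟩ := ((h6.and h7).and self_mem_nhdsWithin).exists
    have ht3' : 0 < t := ht3
    rw [slope_def_field, sub_zero, zero_smul, add_zero] at ht1
    have h8 : g z = 0 := h0
    rw [h8, sub_zero, lt_div_iff₀ ht3', zero_mul] at ht1
    have h9 : ‖z + t • w‖ ≤ 1 := by
      have h10 : ‖z + t • w‖ ^ 2 ≤ 1 := by
        rw [norm_add_sq_real, hz, inner_smul_right, norm_smul, mul_pow, Real.norm_eq_abs, sq_abs]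
        nlinarith
      have := norm_nonneg (z + t • w)
      nlinarith
    have := (hc _).2 h9
    exact absurd ht1 (not_lt.2 this)
  have hin' : ∀ w, ⟪z, w⟫ ≤ 0 → fderiv ℝ g z w ≤ 0 := by
    intro w hw
    have h1 : ∀ ε : ℝ, 0 < ε → fderiv ℝ g z w - ε * fderiv ℝ g z z ≤ 0 := by
      intro ε hε
      have h2 := hin (w - ε • z) (by
        rw [inner_sub_right, inner_smul_right, real_inner_self_eq_norm_sq, hz]
        linarith)
      rw [map_sub, map_smul, smul_eq_mul] at h2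
      exact h2
    by_contra hpos
    push Not at hpos
    rcases le_or_gt (fderiv ℝ g z z) 0 with h2 | h2
    · have := h1 1 one_pos
      linarith
    · have h3 := h1 (fderiv ℝ g z w / (2 * fderiv ℝ g z z)) (by positivity)
      have h4 : fderiv ℝ g z w / (2 * fderiv ℝ g z z) * fderiv ℝ g z z = fderiv ℝ g z w / 2 := by
        field_simp
      rw [h4] at h3
      linarith
  have horth : ∀ w, ⟪z, w⟫ = 0 → fderiv ℝ g z w = 0 := by
    intro w hw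
    refine le_antisymm (hin' w hw.le) ?_
    have := hin' (-w) (by rw [inner_neg_right, hw, neg_zero])
    rw [map_neg] at this
    linarith
  have hform : ∀ w, fderiv ℝ g z w = fderiv ℝ g z z * ⟪z, w⟫ := by
    intro w
    have h1 := horth (w - ⟪z, w⟫ • z) (by
      rw [inner_sub_right, inner_smul_right, real_inner_self_eq_norm_sq, hz]; ring)
    rw [map_sub, map_smul, smul_eq_mul] at h1
    linarith
  have hz0 : 0 ≤ fderiv ℝ g z z := by
    have := hin (-z) (by rw [inner_neg_right, real_inner_self_eq_norm_sq, hz]; norm_num)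
    rw [map_neg] at this
    linarith
  have hpush : ∀ w, ⟪gr u ρ (Φ z), fderiv ℝ (u ∘ Φ) z w⟫ = fderiv ℝ g z w := fun w =>
    gr_push hu (hΦ.contMDiff.mdifferentiableAt (by simp)) (hρ.mdifferentiableAt (by simp)) w
  refine ⟨fderiv ℝ g z z, ?_, fun w => by rw [hpush, hform]⟩
  rcases hz0.eq_or_lt with h1 | h1
  · exfalso
    apply hreg (Φ z) h0
    obtain ⟨w, hw⟩ := surj_push hu hΦ z (gr u ρ (Φ z))
    have h2 := hpush w
    rw [hw, hform w, ← h1, zero_mul] at h2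
    exact inner_self_eq_zero.1 h2
  · exact h1

end Pool.Agent.Q196.XF
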