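import Pool.Agent.Q196.XF.Aux1

/-! Local analysis at the point where the descending arc of a saddle meets the boundary of a ball. -/

set_option autoImplicit false
set_option linter.unusedSectionVars false

open scoped Topology ContDiff Manifold RealInnerProductSpace Gradient
open Set Metric Filter Bundle Pool.Agent.Q196.XB Asymptotics

noncomputable section

namespace Pool.Agent.Q196.XF

variable {E : Type} [NormedAddCommGroup E] [InnerProductSpace ℝ E] [FiniteDimensional ℝ E]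
  {N : Type} [TopologicalSpace N] [ChartedSpace E N] [IsManifold 𝓘(ℝ, E) ∞ N]

/-- the direction which leaves the point `q` of the sphere -/
def tq (q z : E) : E := ⟪z, q⟫ • z - q

lemma tq_orth {q z : E} (hz : ‖z‖ = 1) : ⟪z, tq q z⟫ = 0 := by
  unfold tq
  rw [inner_sub_right, inner_smul_right, real_inner_self_eq_norm_sq, hz]; ring

lemma tq_q {q z : E} (hq : ‖q‖ = 1) (hz : ‖z‖ = 1) (hne : z ≠ q) (hzq : 0 < ⟪z, q⟫) :
    ⟪tq q z, q⟫ < 0 := by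
  unfold tq
  rw [inner_sub_left, inner_smul_left, real_inner_self_eq_norm_sq, hq]
  simp only [conj_trivial]
  have h1 : 0 < ‖z - q‖ ^ 2 := by
    have := norm_pos_iff.2 (sub_ne_zero.2 hne)
    positivity
  rw [norm_sub_sq_real, hz, hq] at h1
  nlinarith

variable {u : N → E} {ρ : N → ℝ} {p : N} {σ : E → N} {r : ℝ} {e : E} {α β Λ : ℝ} {A : E →L[ℝ] E}

theorem corner (hu : IsLocalDiffeomorph 𝓘(ℝ, E) 𝓘(ℝ, E) ∞ u)
    (hρ : ContMDiff 𝓘(ℝ, E) 𝓘(ℝ, ℝ) ∞ ρ) (S : Saddle u ρ p σ r e α β Λ A) {ρB : N → ℝ}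
    (hρB : ContMDiff 𝓘(ℝ, E) 𝓘(ℝ, ℝ) ∞ ρB) (hregB : ∀ x, ρB x = 0 → gr u ρB x ≠ 0) {Φ : E → N}
    (he : Topology.IsOpenEmbedding Φ) (hΦ : IsLocalDiffeomorph 𝓘(ℝ, E) 𝓘(ℝ, E) ∞ Φ)
    (himg : Φ '' closedBall 0 1 = {x | ρB x ≤ 0}) {x₀ : ℝ} (hx₀ : 0 < x₀)
    (hx₀r : u p + x₀ • e ∈ ball (u p) r) {q : E} (hq : ‖q‖ = 1) (hqσ : Φ q = σ (u p + x₀ • e))
    (hgr : gr u ρB (Φ q) = gr u ρ (Φ q)) :
    (∃ κ : ℝ, 0 < κ ∧ ∀ w, -(α * x₀) * ⟪e, fderiv ℝ (u ∘ Φ) q w⟫ = κ * ⟪q, w⟫) ∧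
    ∀ᶠ z in 𝓝 q, ‖z‖ = 1 → z ≠ q →
      0 < ⟪pe e (u (Φ z) - u p), fderiv ℝ (u ∘ Φ) z (tq q z)⟫ ∧
      0 < ⟪A (pe e (u (Φ z) - u p)), fderiv ℝ (u ∘ Φ) z (tq q z)⟫ := by
  have hus : ContMDiff 𝓘(ℝ, E) 𝓘(ℝ, E) ∞ u := hu.contMDiff
  set om : E → E := u ∘ Φ with hom
  have homs : ContDiff ℝ ∞ om := by
    rw [← contMDiff_iff_contDiff]
    exact hus.comp hΦ.contMDiff
  set D := fderiv ℝ om q with hD
  obtain ⟨-, κ, hκ, hκ'⟩ := bdry_grad hu hρB hregB he hΦ himg hq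
  have hgq : gr u ρ (Φ q) = A (x₀ • e) := by
    rw [hqσ, S.gr_eq hu hρ hx₀r, add_sub_cancel_left]
  have hF3 : ∀ w, -(α * x₀) * ⟪e, D w⟫ = κ * ⟪q, w⟫ := by
    intro w
    rw [← hκ' w, hgr, hgq, map_smul, S.neg, inner_smul_left, inner_neg_left, inner_smul_left]
    simp only [conj_trivial]
    ring
  refine ⟨⟨κ, hκ, hF3⟩, ?_⟩
  have hαx : 0 < α * x₀ := mul_pos S.αpos hx₀
  have horth : ∀ w, ⟪q, w⟫ = 0 → ⟪e, D w⟫ = 0 := by
    intro w hw
    have h1 := hF3 w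
    rw [hw, mul_zero] at h1
    rcases mul_eq_zero.1 h1 with h2 | h2
    · linarith
    · exact h2
  -- lower bound for `D`
  obtain ⟨c, hc, hcD⟩ : ∃ c : ℝ, 0 < c ∧ ∀ w, c * ‖w‖ ≤ ‖D w‖ := by
    have hinj : Function.Injective (D : E →ₗ[ℝ] E) :=
      LinearMap.injective_iff_surjective.2 (surj_push hu hΦ q)
    obtain ⟨K, hK, hK'⟩ := (D : E →ₗ[ℝ] E).exists_antilipschitzWith (LinearMap.ker_eq_bot.2 hinj)
    refine ⟨(K:ℝ)⁻¹, by positivity, fun w => ?_⟩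
    have h1 := hK'.le_mul_dist w 0
    rw [dist_zero_right, map_zero, dist_zero_right] at h1
    have hK0 : (0:ℝ) < K := by exact_mod_cast hK
    rw [inv_mul_le_iff₀ hK0]
    exact h1
  -- bound for the derivative
  obtain ⟨B, hB, hB'⟩ : ∃ B : ℝ, 0 < B ∧ ∀ᶠ z in 𝓝 q, ‖fderiv ℝ om z‖ ≤ B := by
    have h1 : ContinuousAt (fun z => ‖fderiv ℝ om z‖) q :=
      ((homs.continuous_fderiv (by simp)).continuousAt).norm
    refine ⟨‖fderiv ℝ om q‖ + 1, by positivity, ?_⟩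
    exact (h1.eventually_lt_const (lt_add_one _)).mono fun z hz => hz.le
  set δ : ℝ := min (min (c / 8) (β * (c / 4) / (2 * (‖A‖ + 1)))) 1 with hδ
  have hβ := S.βpos
  have hδ0 : 0 < δ := by
    have : 0 ≤ ‖A‖ := norm_nonneg A
    refine lt_min (lt_min (by positivity) (by positivity)) one_pos
  have hδ1 : δ ≤ c / 8 := (min_le_left _ _).trans (min_le_left _ _)
  have hδ2 : δ ≤ β * (c / 4) / (2 * (‖A‖ + 1)) := (min_le_left _ _).trans (min_le_right _ _)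
  have h1 := (expand (z₀ := q) homs.contDiffAt).def (half_pos hδ0)
  have h2 : ∀ᶠ z in 𝓝 q, ‖om z - om q - D (z - q)‖ ≤ δ * ‖z - q‖ :=
    ((homs.differentiable (by simp) q).hasFDerivAt.isLittleO).def hδ0
  have h3 : ∀ᶠ z in 𝓝 q, ‖z - q‖ < min (δ / B) (min 1 (c / (4 * (B + c + 1)))) := by
    refine ev_lt (f := fun z => ‖z - q‖) (by fun_prop) ?_
    simp only [sub_self, norm_zero]
    refine lt_min (by positivity) (lt_min one_pos (by positivity))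
  filter_upwards [h1, h2, h3, hB'] with z hz1 hz2 hz3 hzB hz hne
  have hh0 : 0 < ‖z - q‖ := norm_pos_iff.2 (sub_ne_zero.2 hne)
  have hs1 : ‖z - q‖ < δ / B := hz3.trans_le (min_le_left _ _)
  have hs2 : ‖z - q‖ < 1 := hz3.trans_le ((min_le_right _ _).trans (min_le_left _ _))
  have hs3 : ‖z - q‖ < c / (4 * (B + c + 1)) :=
    hz3.trans_le ((min_le_right _ _).trans (min_le_right _ _))
  set h := z - q with hh
  set k := om z - om q with hk
  have hzq : 1 - ⟪z, q⟫ = ‖h‖ ^ 2 / 2 := by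
    rw [hh, norm_sub_sq_real, hz, hq]; ring
  have hhq : ⟪h, q⟫ = -(‖h‖ ^ 2 / 2) := by
    rw [← hzq, hh, inner_sub_left, real_inner_self_eq_norm_sq, hq]; ring
  -- the moving direction
  have ht : tq q z = h - (‖h‖ ^ 2 / 2) • z := by
    unfold tq
    rw [← hzq, sub_smul, one_smul, hh]; abel
  set v := fderiv ℝ om z (tq q z) with hv
  have hvk : ‖v - k‖ ≤ δ * ‖h‖ := by
    have e1 : v - k = -(k - fderiv ℝ om z h) - (‖h‖ ^ 2 / 2) • fderiv ℝ om z z := by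
      rw [hv, ht, map_sub, map_smul]; abel
    have e2 : ‖fderiv ℝ om z z‖ ≤ B := by
      have := (fderiv ℝ om z).le_opNorm z
      rw [hz, mul_one] at this
      exact this.trans hzB
    have e3 : ‖h‖ ^ 2 / 2 * B ≤ δ / 2 * ‖h‖ := by
      have : ‖h‖ * B ≤ δ := by
        rw [lt_div_iff₀ hB] at hs1
        exact hs1.le
      nlinarith
    rw [e1]
    calc ‖-(k - fderiv ℝ om z h) - (‖h‖ ^ 2 / 2) • fderiv ℝ om z z‖
        ≤ ‖-(k - fderiv ℝ om z h)‖ + ‖(‖h‖ ^ 2 / 2) • fderiv ℝ om z z‖ := norm_sub_le _ _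
      _ ≤ δ / 2 * ‖h‖ + ‖h‖ ^ 2 / 2 * B := by
          rw [norm_neg, norm_smul, Real.norm_eq_abs, abs_of_nonneg (by positivity)]
          gcongr
      _ ≤ δ * ‖h‖ := by linarith
  -- the lower bound
  have hlow : c / 4 * ‖h‖ ≤ ‖pe e k‖ := by
    set ht' := h - ⟪h, q⟫ • q with hht'
    have f1 : ⟪q, ht'⟫ = 0 := by
      rw [hht', inner_sub_right, inner_smul_right, real_inner_self_eq_norm_sq, hq,
        real_inner_comm h q]
      ring
    have f2 : pe e (D ht') = D ht' := pe_of_orth (horth _ f1)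
    have f3 : h = ht' + ⟪h, q⟫ • q := by rw [hht']; abel
    have f4 : ‖⟪h, q⟫ • q‖ ≤ ‖h‖ ^ 2 := by
      rw [norm_smul, hq, mul_one, Real.norm_eq_abs, hhq, abs_neg, abs_of_nonneg (by positivity)]
      nlinarith [sq_nonneg ‖h‖]
    have f5 : pe e k = D ht' + pe e (⟪h, q⟫ • D q) + pe e (k - D h) := by
      have : k = D ht' + ⟪h, q⟫ • D q + (k - D h) := by
        have : D h = D ht' + ⟪h, q⟫ • D q := by
          conv_lhs => rw [f3]
          rw [map_add, map_smul]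
        rw [this]; abel
      conv_lhs => rw [this]
      rw [pe_add, pe_add, f2]
    have f6 : ‖pe e (⟪h, q⟫ • D q)‖ ≤ ‖h‖ ^ 2 * B := by
      refine (pe_norm_le S.unit _).trans ?_
      rw [norm_smul]
      have g1 : ‖⟪h, q⟫‖ ≤ ‖h‖ ^ 2 := by
        rw [norm_smul, hq, mul_one] at f4
        exact f4
      have g2 : ‖D q‖ ≤ B := by
        have := D.le_opNorm q
        rw [hq, mul_one] at this
        refine this.trans ?_
        exact hB'.self_of_nhds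
      gcongr
    have f7 : ‖pe e (k - D h)‖ ≤ δ * ‖h‖ := (pe_norm_le S.unit _).trans hz2
    have f8 : c * ‖ht'‖ ≤ ‖D ht'‖ := hcD _
    have f9 : ‖h‖ - ‖h‖ ^ 2 ≤ ‖ht'‖ := by
      have : ‖h‖ ≤ ‖ht'‖ + ‖⟪h, q⟫ • q‖ := by
        conv_lhs => rw [f3]
        exact norm_add_le _ _
      linarith
    have f10 : ‖D ht'‖ - ‖pe e (⟪h, q⟫ • D q)‖ - ‖pe e (k - D h)‖ ≤ ‖pe e k‖ := by
      have e1 : D ht' = pe e k - pe e (⟪h, q⟫ • D q) - pe e (k - D h) := by rw [f5]; abel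
      have e2 : ‖D ht'‖ ≤ ‖pe e k‖ + ‖pe e (⟪h, q⟫ • D q)‖ + ‖pe e (k - D h)‖ := by
        rw [e1]
        exact (norm_sub_le _ _).trans (by gcongr; exact norm_sub_le _ _)
      linarith
    have f11 : ‖h‖ * (B + c) ≤ c / 4 := by
      have : ‖h‖ * (4 * (B + c + 1)) < c := by
        rwa [lt_div_iff₀ (by positivity)] at hs3
      nlinarith
    nlinarith
  have hy : pe e (u (Φ z) - u p) = pe e k := by
    have e1 : u (Φ z) - u p = k + x₀ • e := by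
      have : om q = u p + x₀ • e := by
        show u (Φ q) = _
        rw [hqσ, S.sec.right _ hx₀r]
      rw [hk, this]
      show u (Φ z) - u p = u (Φ z) - (u p + x₀ • e) + x₀ • e
      abel
    rw [e1, pe_add, pe_smul, pe_self S.unit, smul_zero, add_zero]
  rw [hy]
  set y := pe e k with hyd
  have hy0 : 0 < ‖y‖ := lt_of_lt_of_le (by positivity) hlow
  have hye : ⟪e, y⟫ = 0 := pe_orth S.unit k
  have hvs : v = k + (v - k) := by abel
  constructor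
  · have e1 : ⟪y, k⟫ = ‖y‖ ^ 2 := by
      rw [hyd, pe_inner S.unit, real_inner_self_eq_norm_sq]
    have e2 : -(‖y‖ * (δ * ‖h‖)) ≤ ⟪y, v - k⟫ := by
      have := abs_real_inner_le_norm y (v - k)
      have h5 := (abs_le.1 this).1
      have h6 : ‖y‖ * ‖v - k‖ ≤ ‖y‖ * (δ * ‖h‖) := by gcongr
      linarith
    rw [hvs, inner_add_right, e1]
    have e3 : δ * ‖h‖ ≤ c / 8 * ‖h‖ := by gcongr
    have e4 : 0 < c / 8 * ‖h‖ := by positivity
    have e5 : 0 < ‖y‖ * (‖y‖ - δ * ‖h‖) := mul_pos hy0 (by linarith)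
    nlinarith
  · have e1 : ⟪A y, k⟫ = ⟪A y, y⟫ := by
      conv_lhs => rw [pe_split e k]
      rw [inner_add_right, inner_smul_right, real_inner_comm e (A y), S.orth hye]
      ring
    have e2 : -(‖A‖ * ‖y‖ * (δ * ‖h‖)) ≤ ⟪A y, v - k⟫ := by
      have := abs_real_inner_le_norm (A y) (v - k)
      have h5 := (abs_le.1 this).1
      have h6 : ‖A y‖ * ‖v - k‖ ≤ ‖A‖ * ‖y‖ * (δ * ‖h‖) := by
        gcongr
        exact A.le_opNorm y
      linarith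
    rw [hvs, inner_add_right, e1]
    have e3 := S.pos y hye
    have e4 : ‖A‖ * δ ≤ β * (c / 4) / 2 := by
      have hA : 0 ≤ ‖A‖ := norm_nonneg A
      calc ‖A‖ * δ ≤ (‖A‖ + 1) * (β * (c / 4) / (2 * (‖A‖ + 1))) := by
            gcongr
            linarith
        _ = β * (c / 4) / 2 := by field_simp
    have e5 : 0 < ‖y‖ * (β * ‖y‖ - ‖A‖ * δ * ‖h‖) := by
      refine mul_pos hy0 ?_
      have g1 : ‖A‖ * δ * ‖h‖ ≤ β * (c / 4) / 2 * ‖h‖ := by gcongr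
      have g2 : β * (c / 4 * ‖h‖) ≤ β * ‖y‖ := by gcongr
      have g3 : 0 < β * (c / 4) / 2 * ‖h‖ := by positivity
      nlinarith
    nlinarith

/-- the linear function on the ball increases in the direction `e` near `q` -/
theorem corner_dir (hu : IsLocalDiffeomorph 𝓘(ℝ, E) 𝓘(ℝ, E) ∞ u)
    (S : Saddle u ρ p σ r e α β Λ A) {Φ : E → N}
    (hΦ : IsLocalDiffeomorph 𝓘(ℝ, E) 𝓘(ℝ, E) ∞ Φ) {Ψ : N → E}
    (hΨ : ContMDiff 𝓘(ℝ, E) 𝓘(ℝ, E) ∞ Ψ) (hi : ∀ z ∈ ball (0:E) 2, Ψ (Φ z) = z) {x₀ : ℝ}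
    (hx₀ : 0 < x₀) {q : E} (hq : ‖q‖ = 1)
    (hκ : ∃ κ : ℝ, 0 < κ ∧ ∀ w, -(α * x₀) * ⟪e, fderiv ℝ (u ∘ Φ) q w⟫ = κ * ⟪q, w⟫) :
    ∀ᶠ x in 𝓝 (Φ q), 0 < ⟪gr u ((fun z : E => -⟪z, q⟫) ∘ Ψ) x, e⟫ := by
  obtain ⟨κ, hκ, hκ'⟩ := hκ
  have hl : ContDiff ℝ ∞ (fun z : E => -⟪z, q⟫) := (contDiff_id.inner ℝ contDiff_const).neg
  refine ev_gt (f := fun x => ⟪gr u ((fun z : E => -⟪z, q⟫) ∘ Ψ) x, e⟫)
    ((gr_smooth hu (hl.contMDiff.comp hΨ)).continuous.inner continuous_const) ?_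
  obtain ⟨w, hw⟩ := surj_push hu hΦ q e
  have h1 := gr_coord hu hΦ hΨ hi hl (z := q) (by rw [mem_ball_zero_iff, hq]; norm_num) w
  have h2 := hκ' w
  rw [hw] at h1 h2
  rw [real_inner_self_eq_norm_sq, S.unit] at h2
  show 0 < ⟪gr u ((fun z : E => -⟪z, q⟫) ∘ Ψ) (Φ q), e⟫
  rw [h1]
  have h3 : fderiv ℝ (fun z : E => -⟪z, q⟫) q w = -⟪w, q⟫ := by
    have : HasFDerivAt (fun z : E => -⟪z, q⟫) (-(innerSL ℝ q)) q := by
      have h4 := (innerSL ℝ q).hasFDerivAt (x := q)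
      have h5 : (fun z : E => -⟪z, q⟫) = fun z => -((innerSL ℝ q) z) := by
        funext z
        rw [innerSL_apply_apply, real_inner_comm]
      rw [h5]
      exact h4.neg
    rw [this.fderiv]
    simp [real_inner_comm]
  rw [h3, real_inner_comm]
  have hαx : 0 < α * x₀ := mul_pos S.αpos hx₀
  nlinarith

end Pool.Agent.Q196.XF
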