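import Pool.Agent.Q196.XF.Uni

/-! The flow of a gradient-like field which is linear near the saddle. -/

set_option autoImplicit false
set_option linter.unusedSectionVars false

open scoped Topology ContDiff Manifold RealInnerProductSpace Gradient
open Set Metric Filter Bundle Pool.Agent.Q196.XB Asymptotics

noncomputable section

namespace Pool.Agent.Q196.XF

variable {E : Type} [NormedAddCommGroup E] [InnerProductSpace ℝ E] [FiniteDimensional ℝ E]
  {N : Type} [TopologicalSpace N] [ChartedSpace E N] [IsManifold 𝓘(ℝ, E) ∞ N]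

variable {u : N → E} {ρ : N → ℝ} {p : N} {σ : E → N} {r : ℝ} {e : E} {α β Λ : ℝ} {A : E →L[ℝ] E}
  {c₁ a b : ℝ} {X : N → E} {Fl : ℝ → N → N}

lemma pe_neg (e w : E) : pe (-e) w = pe e w := by
  unfold pe; rw [inner_neg_left, neg_smul, smul_neg, neg_neg]

lemma Tub_neg (σ : E → N) (z₀ e : E) (a b : ℝ) : Tub σ z₀ (-e) a b = Tub σ z₀ e a b := by
  unfold Tub; simp only [pe_neg, inner_neg_left, abs_neg]

lemma TubO_neg (σ : E → N) (z₀ e : E) (a b : ℝ) : TubO σ z₀ (-e) a b = TubO σ z₀ e a b := by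
  unfold TubO; simp only [pe_neg, inner_neg_left, abs_neg]

/-- A flow which is linear in a box around the saddle and along which `ρ` increases. -/
structure CutF (u : N → E) (ρ : N → ℝ) (p : N) (σ : E → N) (r : ℝ) (e : E) (α β Λ : ℝ)
    (A : E →L[ℝ] E) (c₁ a b : ℝ) (X : N → E) (Fl : ℝ → N → N) : Prop where
  S : Saddle u ρ p σ r e α β Λ A
  hu : IsLocalDiffeomorph 𝓘(ℝ, E) 𝓘(ℝ, E) ∞ u
  hρ : ContMDiff 𝓘(ℝ, E) 𝓘(ℝ, ℝ) ∞ ρ
  comp : IsCompact {x | ρ x ≤ 0}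
  hc : c₁ < ρ p
  neg : ρ p < 0
  ha : 0 < a
  hb : 0 < b
  har : a < r
  hTB : ∀ z, |⟪e, z - u p⟫| ≤ a → ‖pe e (z - u p)‖ ≤ b → z ∈ ball (u p) r
  face : ∀ x ∈ Tub σ (u p) e a b, |⟪e, u x - u p⟫| = a → ρ x < c₁
  tneg : ∀ x ∈ Tub σ (u p) e a b, ρ x < 0
  smooth : ContMDiff 𝓘(ℝ, E) 𝓘(ℝ, E) ∞ X
  flow : IsFlow u X Fl
  box : ∀ x ∈ Tub σ (u p) e a b, X x = (u x - u p) - (2 * ⟪e, u x - u p⟫) • e
  inc : ∀ x, ρ x ≤ 0 → c₁ ≤ ρ x → x ≠ p → 0 < ⟪gr u ρ x, X x⟫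

theorem exists_cut [T2Space N] [SigmaCompactSpace N]
    (hu : IsLocalDiffeomorph 𝓘(ℝ, E) 𝓘(ℝ, E) ∞ u) (hρ : ContMDiff 𝓘(ℝ, E) 𝓘(ℝ, ℝ) ∞ ρ)
    (hcomp : IsCompact {x | ρ x ≤ 0}) (S : Saddle u ρ p σ r e α β Λ A) (hc₁ : c₁ < ρ p)
    (hp0 : ρ p < 0) (hcrit : ∀ x, ρ x ≤ 0 → c₁ ≤ ρ x → gr u ρ x = 0 → x = p)
    (ha : 0 < a) (har : a < r) (hac : 2 * (ρ p - c₁) < α * a ^ 2) :
    ∃ b X Fl, CutF u ρ p σ r e α β Λ A c₁ a b X Fl := by
  have hus : ContMDiff 𝓘(ℝ, E) 𝓘(ℝ, E) ∞ u := hu.contMDiff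
  have huc : Continuous u := hus.continuous
  have hα := S.αpos
  have hβ := S.βpos
  have hΛ := S.Λpos
  obtain ⟨b, hb0, hb2, hb3, hb4⟩ : ∃ b : ℝ, 0 < b ∧
      Λ * b ^ 2 < α * a ^ 2 - 2 * (ρ p - c₁) ∧ Λ * b ^ 2 < -(2 * ρ p) ∧ a ^ 2 + b ^ 2 < r ^ 2 := by
    have e2 : ∀ᶠ b in 𝓝[>] (0:ℝ), Λ * b ^ 2 < α * a ^ 2 - 2 * (ρ p - c₁) := by
      refine nhdsWithin_le_nhds (ev_lt (f := fun b : ℝ => Λ * b ^ 2) (by fun_prop) ?_)
      simp only [ne_eq, OfNat.ofNat_ne_zero, not_false_eq_true, zero_pow, mul_zero]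
      linarith
    have e3 : ∀ᶠ b in 𝓝[>] (0:ℝ), Λ * b ^ 2 < -(2 * ρ p) := by
      refine nhdsWithin_le_nhds (ev_lt (f := fun b : ℝ => Λ * b ^ 2) (by fun_prop) ?_)
      simp only [ne_eq, OfNat.ofNat_ne_zero, not_false_eq_true, zero_pow, mul_zero]
      linarith
    have e4 : ∀ᶠ b in 𝓝[>] (0:ℝ), a ^ 2 + b ^ 2 < r ^ 2 := by
      refine nhdsWithin_le_nhds (ev_lt (f := fun b : ℝ => a ^ 2 + b ^ 2) (by fun_prop) ?_)
      have : a ^ 2 < r ^ 2 := by nlinarith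
      simpa using this
    obtain ⟨b, ⟨h2, h3, h4⟩, h5⟩ :=
      ((e2.and (e3.and e4)).and self_mem_nhdsWithin).exists
    exact ⟨b, h5, h2, h3, h4⟩
  have hTB : ∀ z, |⟪e, z - u p⟫| ≤ a → ‖pe e (z - u p)‖ ≤ b → z ∈ ball (u p) r := by
    intro z hz1 hz2
    rw [mem_ball, dist_eq_norm]
    have h1 := pe_norm_sq S.unit (z - u p)
    have h2 : ⟪e, z - u p⟫ ^ 2 ≤ a ^ 2 := by
      rw [← sq_abs]
      have := abs_nonneg ⟪e, z - u p⟫
      nlinarith
    have h3 : ‖pe e (z - u p)‖ ^ 2 ≤ b ^ 2 := by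
      have := norm_nonneg (pe e (z - u p))
      nlinarith
    have h4 := S.rpos
    exact lt_of_pow_lt_pow_left₀ 2 h4.le (by linarith)
  have mT := fun x => mem_Tub (x := x) huc S.sec hTB
  have mTO := fun x => mem_TubO (x := x) huc S.sec hTB
  have hval : ∀ x ∈ Tub σ (u p) e a b, ρ x = ρ p + (-(α * ⟪e, u x - u p⟫ ^ 2) +
      ⟪A (pe e (u x - u p)), pe e (u x - u p)⟫) / 2 := by
    intro x hx
    have h1 := ((mT x).1 hx).1
    have h2 := S.val (S.sec.mem h1)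
    rwa [S.sec.left h1] at h2
  have hAyb : ∀ x ∈ Tub σ (u p) e a b,
      ⟪A (pe e (u x - u p)), pe e (u x - u p)⟫ ≤ Λ * b ^ 2 := by
    intro x hx
    have h1 := S.bound (pe e (u x - u p))
    have h2 := ((mT x).1 hx).2.2
    have h3 : Λ * ‖pe e (u x - u p)‖ ^ 2 ≤ Λ * b ^ 2 := by gcongr
    linarith
  have hTneg : ∀ x ∈ Tub σ (u p) e a b, ρ x < 0 := by
    intro x hx
    have h1 := hval x hx
    have h2 := hAyb x hx
    have h3 : 0 ≤ α * ⟪e, u x - u p⟫ ^ 2 := by positivity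
    linarith
  have hface : ∀ x ∈ Tub σ (u p) e a b, |⟪e, u x - u p⟫| = a → ρ x < c₁ := by
    intro x hx hxa
    have h1 := hval x hx
    have h2 := hAyb x hx
    rw [← sq_abs, hxa] at h1
    linarith
  have hTc := Tub_compact huc S.sec hTB
  have hTOo := TubO_open huc S.sec hTB
  have hpT : p ∈ TubO σ (u p) e a b := by
    rw [mTO]
    refine ⟨⟨u p, mem_ball_self S.rpos, S.base⟩, ?_, ?_⟩
    · rw [sub_self, inner_zero_right, abs_zero]; exact ha
    · rw [sub_self]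
      simp only [pe, inner_zero_right, zero_smul, sub_zero, norm_zero]
      exact hb0
  have hYs : ContMDiff 𝓘(ℝ, E) 𝓘(ℝ, E) ∞ (fun x => (u x - u p) - (2 * ⟪e, u x - u p⟫) • e) := by
    have h1 : ContDiff ℝ ∞ (fun z : E => (z - u p) - (2 * ⟪e, z - u p⟫) • e) := by
      have h2 : ContDiff ℝ ∞ (fun z : E => z - u p) := contDiff_id.sub contDiff_const
      exact h2.sub ((contDiff_const.mul (contDiff_const.inner ℝ h2)).smul contDiff_const)
    exact h1.contMDiff.comp hus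
  have hYinc : ∀ x ∈ Tub σ (u p) e a b, x ≠ p →
      0 < ⟪gr u ρ x, (u x - u p) - (2 * ⟪e, u x - u p⟫) • e⟫ := by
    intro x hx hxp
    have h1 := ((mT x).1 hx).1
    have h2 : gr u ρ x = A (u x - u p) := by
      have := S.gr_eq hu hρ (S.sec.mem h1)
      rwa [S.sec.left h1] at this
    set w := u x - u p with hw
    have hw0 : w ≠ 0 := by
      intro h0
      apply hxp
      rw [← S.sec.left h1, ← S.base]
      congr 1
      exact sub_eq_zero.1 h0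
    have h3 : ⟪e, w - (2 * ⟪e, w⟫) • e⟫ = -⟪e, w⟫ := by
      rw [inner_sub_right, inner_smul_right, real_inner_self_eq_norm_sq, S.unit]; ring
    have h4 : ⟪A (pe e w), w - (2 * ⟪e, w⟫) • e⟫ = ⟪A (pe e w), pe e w⟫ := by
      have h5 := S.orth (pe_orth S.unit w)
      rw [real_inner_comm] at h5
      conv_lhs => rw [pe_split e w]
      rw [pe_add, pe_smul, pe_self S.unit, smul_zero, zero_add]
      rw [inner_sub_right, inner_add_right, inner_smul_right, inner_smul_right,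
        pe_of_orth (pe_orth S.unit w), h5]
      ring
    rw [h2, S.inner_A, h3, h4]
    have h5 := S.pos _ (pe_orth S.unit w)
    have h6 := pe_norm_sq S.unit w
    have h7 : 0 < ‖w‖ ^ 2 := by
      have := norm_pos_iff.2 hw0
      positivity
    rcases eq_or_ne ⟪e, w⟫ 0 with h8 | h8
    · rw [h8] at h6 ⊢
      have : 0 < ‖pe e w‖ ^ 2 := by linarith
      have : 0 < β * ‖pe e w‖ ^ 2 := by positivity
      linarith
    · have h9 : 0 < ⟪e, w⟫ ^ 2 := by positivity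
      have : 0 < α * ⟪e, w⟫ ^ 2 := by positivity
      have : 0 ≤ β * ‖pe e w‖ ^ 2 := by positivity
      nlinarith
  obtain ⟨X, Fl, hXs, hFl, hX1, -, hXK⟩ := exists_flow_field hu hcomp (ι := Unit)
    (K := fun _ => {x | c₁ ≤ ρ x ∧ ρ x ≤ 0} \ TubO σ (u p) e a b)
    (fun _ => ((isClosed_le continuous_const hρ.continuous).inter
      (isClosed_le hρ.continuous continuous_const)).sdiff hTOo)
    (c := fun _ => gr u ρ) (fun _ => (gr_smooth hu hρ).continuous)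
    (S₁ := Tub σ (u p) e a b) (S₂ := ∅) hTc.isClosed isClosed_empty (disjoint_empty _)
    (Y₁ := fun x => (u x - u p) - (2 * ⟪e, u x - u p⟫) • e) (Y₂ := fun _ => 0) hYs contMDiff_const
    (fun x hx _ hxK => hYinc x hx (by rintro rfl; exact hxK.2 hpT))
    (fun x hx => absurd hx (notMem_empty x))
    (by
      intro x hx _
      by_cases hxK : x ∈ {x | c₁ ≤ ρ x ∧ ρ x ≤ 0} \ TubO σ (u p) e a b
      · refine ⟨gr u ρ x, fun _ _ => ?_⟩
        have hne : gr u ρ x ≠ 0 := fun h => hxK.2 (by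
          rw [hcrit x hxK.1.2 hxK.1.1 h]; exact hpT)
        rw [real_inner_self_eq_norm_sq]
        have := norm_pos_iff.2 hne
        positivity
      · exact ⟨0, fun _ h => absurd h hxK⟩)
  refine ⟨b, X, Fl, S, hu, hρ, hcomp, hc₁, hp0, ha, hb0, har, hTB, hface, hTneg, hXs, hFl,
    fun x hx => hX1 x hx (hTneg x hx).le, ?_⟩
  intro x hx hxc hxp
  by_cases hxT : x ∈ Tub σ (u p) e a b
  · rw [hX1 x hxT hx]
    exact hYinc x hxT hxp
  · refine hXK () x ⟨⟨hxc, hx⟩, fun h => hxT ?_⟩ hx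
    have := (mTO x).1 h
    exact (mT x).2 ⟨this.1, this.2.1.le, this.2.2.le⟩

namespace CutF

variable (C : CutF u ρ p σ r e α β Λ A c₁ a b X Fl)
include C

lemma flip : CutF u ρ p σ r (-e) α β Λ A c₁ a b X Fl where
  S := C.S.flip
  hu := C.hu
  hρ := C.hρ
  comp := C.comp
  hc := C.hc
  neg := C.neg
  ha := C.ha
  hb := C.hb
  har := C.har
  hTB := fun z h1 h2 => C.hTB z (by rwa [inner_neg_left, abs_neg] at h1) (by rwa [pe_neg] at h2)
  face := fun x hx h => C.face x (by rwa [Tub_neg] at hx) (by rwa [inner_neg_left, abs_neg] at h)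
  tneg := fun x hx => C.tneg x (by rwa [Tub_neg] at hx)
  smooth := C.smooth
  flow := C.flow
  box := fun x hx => by
    rw [Tub_neg] at hx
    rw [C.box x hx, inner_neg_left, mul_neg, neg_smul, smul_neg, neg_neg]
  inc := C.inc

lemma huc : Continuous u := C.hu.contMDiff.continuous

lemma mT {x : N} : x ∈ Tub σ (u p) e a b ↔ x ∈ σ '' ball (u p) r ∧ |⟪e, u x - u p⟫| ≤ a ∧
    ‖pe e (u x - u p)‖ ≤ b := mem_Tub C.huc C.S.sec C.hTB

lemma mTO {x : N} : x ∈ TubO σ (u p) e a b ↔ x ∈ σ '' ball (u p) r ∧ |⟪e, u x - u p⟫| < a ∧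
    ‖pe e (u x - u p)‖ < b := mem_TubO C.huc C.S.sec C.hTB

lemma out (x : N) (hx : ρ x = 0) : 0 < ⟪gr u ρ x, X x⟫ := by
  refine C.inc x hx.le ?_ ?_
  · rw [hx]; linarith [C.hc, C.neg]
  · rintro rfl
    linarith [C.neg]

lemma stay [T2Space N] {x : N} (hx : ρ x ≤ 0) {t : ℝ} (ht : 0 ≤ t) : ρ (Fl (-t) x) ≤ 0 :=
  C.flow.stay C.hρ hx (fun s _ _ _ hs => C.out _ hs) t ⟨ht, le_rfl⟩

lemma lower [T2Space N] {x : N} (hx : ρ x ≤ 0) (hxc : ρ x ≤ c₁) {t : ℝ} (ht : 0 < t) :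
    ρ (Fl (-t) x) < c₁ :=
  stay_level C.flow C.hρ C.hρ C.out (fun y hy hyc => C.inc y hy hyc.ge (by
    rintro rfl
    linarith [C.hc])) hx hxc ht

lemma lower' [T2Space N] {x : N} (hx : ρ x ≤ 0) (hxc : ρ x < c₁) {t : ℝ} (ht : 0 ≤ t) :
    ρ (Fl (-t) x) < c₁ := by
  rcases ht.eq_or_lt with h | h
  · rw [← h, neg_zero, C.flow.zero]; exact hxc
  · exact C.lower hx hxc.le h

/-- The linear flow in the box. -/
theorem boxflow [T2Space N] {x : N} (hx : x ∈ TubO σ (u p) e a b) {t : ℝ} (ht : 0 ≤ t)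
    (hta : |⟪e, u x - u p⟫| * Real.exp t ≤ a) :
    Fl (-t) x = σ (u p + ((⟪e, u x - u p⟫ * Real.exp t) • e +
      Real.exp (-t) • pe e (u x - u p))) := by
  set s := ⟪e, u x - u p⟫ with hs
  set y := pe e (u x - u p) with hy
  have hye : ⟪e, y⟫ = 0 := pe_orth C.S.unit _
  have hxm := C.mTO.1 hx
  set γ : ℝ → E := fun τ => u p + ((s * Real.exp τ) • e + Real.exp (-τ) • y) with hγ
  have hγc : Continuous γ := by fun_prop
  have horth : ∀ τ : ℝ, ⟪e, Real.exp (-τ) • y⟫ = 0 := fun τ => by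
    rw [inner_smul_right, hye, mul_zero]
  have hγ1 : ∀ τ, ⟪e, γ τ - u p⟫ = s * Real.exp τ := fun τ => (C.S.coord (horth τ)).1
  have hγ2 : ∀ τ, pe e (γ τ - u p) = Real.exp (-τ) • y := fun τ => (C.S.coord (horth τ)).2
  have hγa : ∀ τ, 0 ≤ τ → τ ≤ t → |⟪e, γ τ - u p⟫| ≤ a := by
    intro τ h0 h1
    rw [hγ1, abs_mul, abs_of_pos (Real.exp_pos _)]
    refine le_trans ?_ hta
    gcongr
  have hγa' : ∀ τ, 0 ≤ τ → τ < t → |⟪e, γ τ - u p⟫| < a := by
    intro τ h0 h1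
    rcases eq_or_ne s 0 with h2 | h2
    · rw [hγ1, h2, zero_mul, abs_zero]; exact C.ha
    · rw [hγ1, abs_mul, abs_of_pos (Real.exp_pos _)]
      refine lt_of_lt_of_le ?_ hta
      have : 0 < |s| := abs_pos.2 h2
      gcongr
  have hγb : ∀ τ, 0 ≤ τ → ‖pe e (γ τ - u p)‖ < b := by
    intro τ h0
    rw [hγ2, norm_smul, Real.norm_eq_abs, abs_of_pos (Real.exp_pos _)]
    have h1 : Real.exp (-τ) ≤ 1 := Real.exp_le_one_iff.2 (by linarith)
    calc Real.exp (-τ) * ‖y‖ ≤ 1 * ‖y‖ := by gcongr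
      _ < b := by rw [one_mul]; exact hxm.2.2
  have hγball : ∀ τ ∈ Icc 0 t, γ τ ∈ ball (u p) r := fun τ hτ =>
    C.hTB _ (hγa τ hτ.1 hτ.2) (hγb τ hτ.1).le
  set c : ℝ → N := fun τ => Fl (-τ) x with hc
  have hcc : Continuous c := (C.flow.cont_t x).comp continuous_neg
  have hσγ : ContinuousOn (fun τ => σ (γ τ)) (Icc 0 t) :=
    C.S.sec.cont.comp hγc.continuousOn hγball
  have hclosed : IsClosed ({τ | c τ = σ (γ τ)} ∩ Icc 0 t) := by
    have h1 : IsClosed {τ ∈ Icc 0 t | c τ = σ (γ τ)} :=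
      isClosed_Icc.isClosed_eq hcc.continuousOn hσγ
    have h2 : {τ | c τ = σ (γ τ)} ∩ Icc 0 t = {τ ∈ Icc 0 t | c τ = σ (γ τ)} := by
      ext τ; simp [and_comm]
    rw [h2]; exact h1
  have hx0 : γ 0 = u x := by
    simp only [hγ, Real.exp_zero, mul_one, neg_zero, one_smul]
    rw [hs, hy, ← pe_split]; abel
  have h0 : (0:ℝ) ∈ {τ | c τ = σ (γ τ)} := by
    show Fl (-0) x = σ (γ 0)
    rw [neg_zero, C.flow.zero, hx0, C.S.sec.left hxm.1]
  have hstep : ∀ τ ∈ {τ | c τ = σ (γ τ)} ∩ Ico 0 t, {τ | c τ = σ (γ τ)} ∈ 𝓝[>] τ := by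
    rintro τ ⟨hτ1, hτ2, hτ3⟩
    have hτ1' : c τ = σ (γ τ) := hτ1
    have hτb := hγball τ ⟨hτ2, hτ3.le⟩
    have hmemτ : c τ ∈ TubO σ (u p) e a b := by
      rw [hτ1', C.mTO, C.S.sec.right _ hτb]
      exact ⟨⟨_, hτb, rfl⟩, hγa' τ hτ2 hτ3, hγb τ hτ2⟩
    have h1 : ∀ᶠ w in 𝓝 τ, c w ∈ TubO σ (u p) e a b :=
      hcc.continuousAt.eventually ((TubO_open C.huc C.S.sec C.hTB).mem_nhds hmemτ)
    obtain ⟨δ, hδ, hδ'⟩ := Metric.eventually_nhds_iff.1 h1
    refine mem_nhdsGT_iff_exists_Ioo_subset.2 ⟨τ + δ, by simpa using hδ, ?_⟩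
    intro w hw
    have hmem : ∀ v ∈ Icc τ w, c v ∈ TubO σ (u p) e a b := by
      intro v hv
      apply hδ'
      rw [Real.dist_eq, abs_of_nonneg (by linarith [hv.1])]
      linarith [hv.2, hw.2]
    have hX : ∀ v ∈ Icc τ w, X (c v) = (u (c v) - u p) - (2 * ⟪e, u (c v) - u p⟫) • e := by
      intro v hv
      have := C.mTO.1 (hmem v hv)
      exact C.box _ (C.mT.2 ⟨this.1, this.2.1.le, this.2.2.le⟩)
    have hd0 : ∀ v ∈ Icc τ w, HasDerivAt (fun v => u (c v) - u p)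
        (-((u (c v) - u p) - (2 * ⟪e, u (c v) - u p⟫) • e)) v := by
      intro v hv
      have h2 : HasDerivAt (fun v => u (c v)) (-(X (c v))) v := C.flow.deriv_u_neg x v
      rw [hX v hv] at h2
      exact h2.sub_const _
    have hds : ∀ v ∈ Icc τ w, HasDerivAt (fun v => ⟪e, u (c v) - u p⟫) ⟪e, u (c v) - u p⟫ v := by
      intro v hv
      have h2 := (hasDerivAt_const v e).inner ℝ (hd0 v hv)
      refine h2.congr_deriv ?_
      rw [inner_neg_right, inner_sub_right, inner_smul_right, real_inner_self_eq_norm_sq,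
        C.S.unit, inner_zero_left]
      ring
    have hdp : ∀ v ∈ Icc τ w, HasDerivAt (fun v => pe e (u (c v) - u p))
        (-(pe e (u (c v) - u p))) v := by
      intro v hv
      have h2 := (hd0 v hv).sub ((hds v hv).smul_const e)
      refine h2.congr_deriv ?_
      unfold pe
      rw [two_mul, add_smul]
      abel
    -- conserved quantities
    have hk1 : ∀ v ∈ Icc τ w, HasDerivAt (fun v => Real.exp (-v) * ⟪e, u (c v) - u p⟫) 0 v := by
      intro v hv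
      have h2 : HasDerivAt (fun v : ℝ => Real.exp (-v)) (-(Real.exp (-v))) v := by
        have := (hasDerivAt_neg v).exp
        simpa using this
      refine (h2.mul (hds v hv)).congr_deriv ?_
      ring
    have hk2 : ∀ v ∈ Icc τ w, HasDerivAt (fun v => Real.exp v • pe e (u (c v) - u p)) 0 v := by
      intro v hv
      refine ((Real.hasDerivAt_exp v).smul (hdp v hv)).congr_deriv ?_
      rw [smul_neg, neg_add_cancel]
    have hc1 := constant_of_has_deriv_right_zero (a := τ) (b := w)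
      (fun v hv => (hk1 v hv).continuousAt.continuousWithinAt)
      (fun v hv => (hk1 v ⟨hv.1, hv.2.le⟩).hasDerivWithinAt) w ⟨hw.1.le, le_rfl⟩
    have hc2 := constant_of_has_deriv_right_zero (a := τ) (b := w)
      (fun v hv => (hk2 v hv).continuousAt.continuousWithinAt)
      (fun v hv => (hk2 v ⟨hv.1, hv.2.le⟩).hasDerivWithinAt) w ⟨hw.1.le, le_rfl⟩
    have huτ : u (c τ) = γ τ := by rw [hτ1', C.S.sec.right _ hτb]
    have hc1' : Real.exp (-w) * ⟪e, u (c w) - u p⟫ = s := by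
      have : Real.exp (-w) * ⟪e, u (c w) - u p⟫ = Real.exp (-τ) * ⟪e, u (c τ) - u p⟫ := hc1
      rw [this, huτ, hγ1, mul_comm s, ← mul_assoc, ← Real.exp_add, neg_add_cancel, Real.exp_zero,
        one_mul]
    have hc2' : Real.exp w • pe e (u (c w) - u p) = y := by
      have : Real.exp w • pe e (u (c w) - u p) = Real.exp τ • pe e (u (c τ) - u p) := hc2
      rw [this, huτ, hγ2, smul_smul, ← Real.exp_add, add_neg_cancel, Real.exp_zero, one_smul]
    have hs' : ⟪e, u (c w) - u p⟫ = s * Real.exp w := by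
      rw [← hc1', mul_comm (Real.exp (-w)), mul_assoc, ← Real.exp_add, neg_add_cancel,
        Real.exp_zero, mul_one]
    have hy' : pe e (u (c w) - u p) = Real.exp (-w) • y := by
      rw [← hc2', smul_smul, ← Real.exp_add, neg_add_cancel, Real.exp_zero, one_smul]
    have hfin : u (c w) = γ w := by
      have h5 := pe_split e (u (c w) - u p)
      rw [hs', hy'] at h5
      simp only [hγ]
      rw [← h5]; abel
    show c w = σ (γ w)
    rw [← hfin, C.S.sec.left (C.mTO.1 (hmem w ⟨hw.1.le, le_rfl⟩)).1]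
  exact hclosed.Icc_subset_of_forall_mem_nhdsWithin h0 hstep ⟨ht, le_rfl⟩

/-- Orbits on the ascending disc stay above the saddle. -/
lemma above [T2Space N] {x : N} (hx : x ∈ TubO σ (u p) e a b) (hs : ⟪e, u x - u p⟫ = 0) {t : ℝ}
    (ht : 0 ≤ t) : Fl (-t) x ∈ TubO σ (u p) e a b ∧ ⟪e, u (Fl (-t) x) - u p⟫ = 0 ∧
      ρ p ≤ ρ (Fl (-t) x) := by
  have h1 := C.boxflow hx ht (by rw [hs, abs_zero, zero_mul]; exact C.ha.le)
  rw [hs, zero_mul] at h1
  have hye : ⟪e, Real.exp (-t) • pe e (u x - u p)⟫ = 0 := by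
    rw [inner_smul_right, pe_orth C.S.unit, mul_zero]
  have hc := C.S.coord (s := 0) hye
  have hxm := C.mTO.1 hx
  have hn : ‖Real.exp (-t) • pe e (u x - u p)‖ < b := by
    rw [norm_smul, Real.norm_eq_abs, abs_of_pos (Real.exp_pos _)]
    have h1 : Real.exp (-t) ≤ 1 := Real.exp_le_one_iff.2 (by linarith)
    calc Real.exp (-t) * ‖pe e (u x - u p)‖ ≤ 1 * ‖pe e (u x - u p)‖ := by gcongr
      _ < b := by rw [one_mul]; exact hxm.2.2
  have hball : u p + ((0:ℝ) • e + Real.exp (-t) • pe e (u x - u p)) ∈ ball (u p) r :=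
    C.hTB _ (by rw [hc.1, abs_zero]; exact C.ha.le) (by rw [hc.2]; exact hn.le)
  refine ⟨?_, ?_, ?_⟩
  · rw [h1, C.mTO, C.S.sec.right _ hball, hc.1, hc.2, abs_zero]
    exact ⟨⟨_, hball, rfl⟩, C.ha, hn⟩
  · rw [h1, C.S.sec.right _ hball, hc.1]
  · rw [h1, C.S.val' hye hball]
    have h5 := C.S.pos _ hye
    have h6 := C.S.βpos
    have : 0 ≤ β * ‖Real.exp (-t) • pe e (u x - u p)‖ ^ 2 := by positivity
    nlinarith

/-- Other orbits in the box reach a face. -/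
lemma toface [T2Space N] {x : N} (hx : x ∈ TubO σ (u p) e a b) {k : ℝ} (hk : 0 < k) (hka : k ≤ a)
    (hs : 0 < ⟪e, u x - u p⟫) (hsk : ⟪e, u x - u p⟫ ≤ k) :
    ∃ t, 0 ≤ t ∧ Fl (-t) x ∈ Tub σ (u p) e a b ∧ ⟪e, u (Fl (-t) x) - u p⟫ = k ∧
      Fl (-t) x = σ (u p + (k • e + (⟪e, u x - u p⟫ / k) • pe e (u x - u p))) ∧
      ⟪e, u x - u p⟫ * Real.exp t = k := by
  set s := ⟪e, u x - u p⟫ with hsd
  have h1 : 1 ≤ k / s := by rw [le_div_iff₀ hs]; linarith
  have ht : 0 ≤ Real.log (k / s) := Real.log_nonneg h1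
  have hexp : Real.exp (Real.log (k / s)) = k / s := Real.exp_log (by positivity)
  have hsk' : s * (k / s) = k := by field_simp
  have h2 := C.boxflow hx ht (by rw [← hsd, hexp, abs_of_pos hs, hsk']; exact hka)
  rw [← hsd, Real.exp_neg, hexp, hsk', inv_div] at h2
  have hye : ⟪e, (s / k) • pe e (u x - u p)⟫ = 0 := by
    rw [inner_smul_right, pe_orth C.S.unit, mul_zero]
  have hc := C.S.coord (s := k) hye
  have hxm := C.mTO.1 hx
  have hn : ‖(s / k) • pe e (u x - u p)‖ ≤ b := by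
    rw [norm_smul, Real.norm_eq_abs, abs_of_pos (by positivity)]
    have h1 : s / k ≤ 1 := by rw [div_le_one hk]; exact hsk
    calc s / k * ‖pe e (u x - u p)‖ ≤ 1 * ‖pe e (u x - u p)‖ := by gcongr
      _ ≤ b := by rw [one_mul]; exact hxm.2.2.le
  have hball : u p + (k • e + (s / k) • pe e (u x - u p)) ∈ ball (u p) r :=
    C.hTB _ (by rw [hc.1, abs_of_pos hk]; exact hka) (by rw [hc.2]; exact hn)
  refine ⟨_, ht, ?_, ?_, h2, by rw [hexp, hsk']⟩
  · rw [h2, C.mT, C.S.sec.right _ hball, hc.1, hc.2, abs_of_pos hk]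
    exact ⟨⟨_, hball, rfl⟩, hka, hn⟩
  · rw [h2, C.S.sec.right _ hball, hc.1]

/-- Every orbit reaches the lower level or the box. -/
lemma reachO [T2Space N] {x : N} (hx : ρ x ≤ 0) :
    (∃ t, 0 ≤ t ∧ ρ (Fl (-t) x) < c₁) ∨ ∃ t, 0 ≤ t ∧ Fl (-t) x ∈ TubO σ (u p) e a b := by
  have hpT : p ∈ TubO σ (u p) e a b := by
    rw [C.mTO]
    refine ⟨⟨u p, mem_ball_self C.S.rpos, C.S.base⟩, ?_, ?_⟩
    · rw [sub_self, inner_zero_right, abs_zero]; exact C.ha
    · rw [sub_self]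
      simp only [pe, inner_zero_right, zero_smul, sub_zero, norm_zero]
      exact C.hb
  obtain ⟨t, ht, h1⟩ := reach' C.hu C.smooth.continuous C.flow C.hρ C.comp
    (O := TubO σ (u p) e a b ∪ {x | ρ x < c₁})
    ((TubO_open C.huc C.S.sec C.hTB).union (isOpen_lt C.hρ.continuous continuous_const))
    (fun y hy _ => C.out y hy) C.hρ
    (fun y hy hyO => C.inc y hy (not_lt.1 fun h => hyO (Or.inr h)) (by
      rintro rfl
      exact hyO (Or.inl hpT))) hx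
  rcases h1 with h | h
  · exact Or.inr ⟨t, ht, h⟩
  · exact Or.inl ⟨t, ht, h⟩

end CutF

end Pool.Agent.Q196.XF
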