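import Pool.Agent.Q196.XF.CutA

/-! The sublevel set below a saddle of a domain on which all maps to the circle lift has exactly
two components. -/

set_option autoImplicit false
set_option linter.unusedSectionVars false

open scoped Topology ContDiff Manifold RealInnerProductSpace Gradient
open Set Metric Filter Bundle Pool.Agent.Q196.XB Asymptotics

noncomputable section

namespace Pool.Agent.Q196.XF

variable {E : Type} [NormedAddCommGroup E] [InnerProductSpace ℝ E] [FiniteDimensional ℝ E]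
  {N : Type} [TopologicalSpace N] [ChartedSpace E N] [IsManifold 𝓘(ℝ, E) ∞ N]

variable {u : N → E} {ρ : N → ℝ} {p : N} {σ : E → N} {r : ℝ} {e : E} {α β Λ : ℝ} {A : E →L[ℝ] E}
  {c₁ a b : ℝ} {X : N → E} {Fl : ℝ → N → N}

namespace CutF

variable (C : CutF u ρ p σ r e α β Λ A c₁ a b X Fl)
include C

lemma val {x : N} (hx : x ∈ Tub σ (u p) e a b) : ρ x = ρ p + (-(α * ⟪e, u x - u p⟫ ^ 2) +
    ⟪A (pe e (u x - u p)), pe e (u x - u p)⟫) / 2 := by
  have h1 := (C.mT.1 hx).1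
  have h2 := C.S.val (C.S.sec.mem h1)
  rwa [C.S.sec.left h1] at h2

lemma exists_k : ∃ k, 0 < k ∧ k < a ∧ ∀ x ∈ TubO σ (u p) e k b, c₁ < ρ x := by
  have hα := C.S.αpos
  have e1 : ∀ᶠ k in 𝓝[>] (0:ℝ), α * k ^ 2 < 2 * (ρ p - c₁) := by
    refine nhdsWithin_le_nhds (ev_lt (f := fun b : ℝ => α * b ^ 2) (by fun_prop) ?_)
    simp only [ne_eq, OfNat.ofNat_ne_zero, not_false_eq_true, zero_pow, mul_zero]
    linarith [C.hc]
  have e2 : ∀ᶠ k in 𝓝[>] (0:ℝ), k < a := nhdsWithin_le_nhds (gt_mem_nhds C.ha)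
  obtain ⟨k, ⟨h1, h2⟩, h3⟩ := ((e1.and e2).and self_mem_nhdsWithin).exists
  have h3' : 0 < k := h3
  refine ⟨k, h3, h2, ?_⟩
  rintro x ⟨z, hz, rfl⟩
  have hzb : z ∈ ball (u p) r := C.hTB z (hz.1.le.trans h2.le) hz.2.le
  rw [C.S.val hzb]
  have h4 : ⟪e, z - u p⟫ ^ 2 ≤ k ^ 2 := by
    rw [← sq_abs]
    have := abs_nonneg ⟪e, z - u p⟫
    have := hz.1
    nlinarith
  have h5 := C.S.pos _ (pe_orth C.S.unit (z - u p))
  have h6 := C.S.βpos
  have h7 : 0 ≤ β * ‖pe e (z - u p)‖ ^ 2 := by positivity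
  have h8 : α * ⟪e, z - u p⟫ ^ 2 ≤ α * k ^ 2 := by gcongr
  linarith

lemma TubOk {k : ℝ} (hk : k < a) {x : N} (hx : x ∈ TubO σ (u p) e k b) :
    x ∈ TubO σ (u p) e a b := by
  obtain ⟨z, hz, rfl⟩ := hx
  exact ⟨z, ⟨hz.1.trans hk, hz.2⟩, rfl⟩

lemma mTOk {k : ℝ} (hk : k < a) {x : N} : x ∈ TubO σ (u p) e k b ↔ x ∈ σ '' ball (u p) r ∧
    |⟪e, u x - u p⟫| < k ∧ ‖pe e (u x - u p)‖ < b :=
  mem_TubO C.huc C.S.sec fun z h1 h2 => C.hTB z (h1.trans hk.le) h2

lemma TubOk_open {k : ℝ} (hk : k < a) : IsOpen (TubO σ (u p) e k b) :=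
  TubO_open C.huc C.S.sec fun z h1 h2 => C.hTB z (h1.trans hk.le) h2

lemma TubOk_pre {k : ℝ} (hk : k < a) : IsPreconnected (TubO σ (u p) e k b) := by
  have h1 : Convex ℝ {z : E | |⟪e, z - u p⟫| < k ∧ ‖pe e (z - u p)‖ < b} := by
    intro z hz w hw s t hs ht hst
    have e1 : (s • z + t • w) - u p = s • (z - u p) + t • (w - u p) := by
      have : u p = (s + t) • u p := by rw [hst, one_smul]
      rw [smul_sub, smul_sub]
      nth_rewrite 1 [this]
      rw [add_smul]; abel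
    constructor
    · rw [e1, inner_add_right, inner_smul_right, inner_smul_right]
      refine (abs_add_le _ _).trans_lt ?_
      rw [abs_mul, abs_mul, abs_of_nonneg hs, abs_of_nonneg ht]
      rcases hs.eq_or_lt with h | h
      · have : t = 1 := by linarith
        rw [← h, this]; linarith [hw.1]
      · have h2 : s * |⟪e, z - u p⟫| < s * k := by gcongr; exact hz.1
        have h3 : t * |⟪e, w - u p⟫| ≤ t * k := by gcongr; exact hw.1.le
        have : s * k + t * k = k := by rw [← add_mul, hst, one_mul]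
        linarith
    · rw [e1, pe_add, pe_smul, pe_smul]
      refine (norm_add_le _ _).trans_lt ?_
      rw [norm_smul, norm_smul, Real.norm_eq_abs, Real.norm_eq_abs, abs_of_nonneg hs,
        abs_of_nonneg ht]
      rcases hs.eq_or_lt with h | h
      · have : t = 1 := by linarith
        rw [← h, this]; linarith [hw.2]
      · have h2 : s * ‖pe e (z - u p)‖ < s * b := by gcongr; exact hz.2
        have h3 : t * ‖pe e (w - u p)‖ ≤ t * b := by gcongr; exact hw.2.le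
        have : s * b + t * b = b := by rw [← add_mul, hst, one_mul]
        linarith
  exact h1.isPreconnected.image _ (C.S.sec.cont.mono fun z hz =>
    C.hTB z (hz.1.le.trans hk.le) hz.2.le)

lemma p_mem {k : ℝ} (hk0 : 0 < k) : p ∈ TubO σ (u p) e k b := by
  refine ⟨u p, ⟨?_, ?_⟩, C.S.base⟩
  · rw [sub_self, inner_zero_right, abs_zero]; exact hk0
  · rw [sub_self]
    simp only [pe, inner_zero_right, zero_smul, sub_zero, norm_zero]
    exact C.hb

omit C in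
/-- open sets of points whose backward orbit enters an open set -/
lemma entry_open (hF : IsFlow u X Fl) {O : Set N} (hO : IsOpen O) :
    IsOpen {x | ∃ t, 0 ≤ t ∧ Fl (-t) x ∈ O} := by
  have : {x | ∃ t, 0 ≤ t ∧ Fl (-t) x ∈ O} = ⋃ t ∈ Ici (0:ℝ), Fl (-t) ⁻¹' O := by
    ext x; simp
  rw [this]
  exact isOpen_biUnion fun t _ => hO.preimage (hF.cont_x (-t))

/-- orbits do not pass from one piece of the sublevel set to another one -/
lemma one_piece [T2Space N] {O O' : Set N} (hO : IsOpen O) (hO' : IsOpen O')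
    (hd : Disjoint O O') (hcov : ∀ x, ρ x ≤ c₁ → x ∈ O ∨ x ∈ O') {x : N} (hx : ρ x ≤ 0) {t t' : ℝ}
    (ht : 0 ≤ t) (ht' : 0 ≤ t') (h1 : ρ (Fl (-t) x) < c₁) (h1' : Fl (-t) x ∈ O)
    (h2 : ρ (Fl (-t') x) < c₁) (h2' : Fl (-t') x ∈ O') : False := by
  have hseg : ∀ v w, 0 ≤ v → v ≤ w → ρ (Fl (-v) x) < c₁ → ∀ s ∈ Icc v w,
      ρ (Fl (-s) x) < c₁ := by
    intro v w hv _ hvc s hs
    have h3 := C.lower' (C.stay hx hv) hvc (sub_nonneg.2 hs.1)
    rw [← C.flow.add] at h3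
    convert h3 using 3
    ring
  have hpre : ∀ v w, 0 ≤ v → v ≤ w → ρ (Fl (-v) x) < c₁ → (∃ s ∈ Icc v w, Fl (-s) x ∈ O) →
      (∃ s ∈ Icc v w, Fl (-s) x ∈ O') → False := by
    intro v w hv hvw hvc ⟨s, hs, hsO⟩ ⟨s', hs', hsO'⟩
    have hK : IsPreconnected ((fun s => Fl (-s) x) '' Icc v w) :=
      isPreconnected_Icc.image _ ((C.flow.cont_t x).comp continuous_neg).continuousOn
    obtain ⟨y, -, hy, hy'⟩ := hK O O' hO hO' (by
      rintro _ ⟨q, hq, rfl⟩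
      exact hcov _ (hseg v w hv hvw hvc q hq).le) ⟨_, ⟨s, hs, rfl⟩, hsO⟩ ⟨_, ⟨s', hs', rfl⟩, hsO'⟩
    exact Set.disjoint_left.1 hd hy hy'
  rcases le_total t t' with h | h
  · exact hpre t t' ht h h1 ⟨t, ⟨le_rfl, h⟩, h1'⟩ ⟨t', ⟨h, le_rfl⟩, h2'⟩
  · exact hpre t' t ht' h h2 ⟨t, ⟨h, le_rfl⟩, h1'⟩ ⟨t', ⟨le_rfl, h⟩, h2'⟩

/-- the orbits through the small box which reach the lower level -/
lemma side_ne [T2Space N] {k : ℝ} (hk : k < a) (hkc : ∀ x ∈ TubO σ (u p) e k b, c₁ < ρ x) {x : N}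
    (hx : ρ x ≤ 0) {t t' : ℝ} (ht : 0 ≤ t) (ht' : 0 ≤ t') (h1 : Fl (-t) x ∈ TubO σ (u p) e k b)
    (h2 : ρ (Fl (-t') x) < c₁) : ⟪e, u (Fl (-t) x) - u p⟫ ≠ 0 ∧ t < t' := by
  have hlt : t < t' := by
    by_contra h
    push Not at h
    have h3 := C.lower' (C.stay hx ht') h2 (sub_nonneg.2 h)
    rw [← C.flow.add] at h3
    have h4 : -(t - t') + -t' = -t := by ring
    rw [h4] at h3
    linarith [hkc _ h1]
  refine ⟨fun h0 => ?_, hlt⟩
  have h3 := (C.above (C.TubOk hk h1) h0 (sub_nonneg.2 hlt.le)).2.2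
  rw [← C.flow.add] at h3
  have h4 : -(t' - t) + -t = -t' := by ring
  rw [h4] at h3
  linarith [C.hc]

/-- from the positive side of the small box the orbits reach the positive face -/
lemma toface' [T2Space N] {x : N} {t : ℝ} (ht : 0 ≤ t)
    (h1 : Fl (-t) x ∈ TubO σ (u p) e a b) (hs : 0 < ⟪e, u (Fl (-t) x) - u p⟫) :
    ∃ t', 0 ≤ t' ∧ Fl (-t') x ∈ Tub σ (u p) e a b ∧ ⟪e, u (Fl (-t') x) - u p⟫ = a ∧
      ρ (Fl (-t') x) < c₁ := by
  obtain ⟨t₁, ht₁, h2, h3, -⟩ := C.toface h1 C.ha le_rfl hs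
    ((abs_lt.1 (C.mTO.1 h1).2.1).2.le)
  refine ⟨t₁ + t, by positivity, ?_⟩
  have h4 : -(t₁ + t) = -t₁ + -t := by ring
  rw [h4, C.flow.add]
  exact ⟨h2, h3, C.face _ h2 (by rw [h3, abs_of_pos C.ha])⟩

/-- the positive face lies in the piece of its centre -/
lemma face_mem {O O' : Set N} (hO : IsOpen O) (hO' : IsOpen O')
    (hd : Disjoint O O') (hcov : ∀ x, ρ x ≤ c₁ → x ∈ O ∨ x ∈ O')
    (hγ : σ (u p + a • e) ∈ O') {x : N} (hx : x ∈ Tub σ (u p) e a b)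
    (hxa : ⟪e, u x - u p⟫ = a) : x ∈ O' := by
  have hxm := C.mT.1 hx
  set y := pe e (u x - u p) with hy
  have hye : ∀ t : ℝ, ⟪e, t • y⟫ = 0 := fun t => by
    rw [inner_smul_right, pe_orth C.S.unit, mul_zero]
  have hxy : u p + (a • e + (1:ℝ) • y) = u x := by
    have := pe_split e (u x - u p)
    rw [hxa, ← hy] at this
    rw [one_smul, ← this]; abel
  have hin : ∀ t ∈ Icc (0:ℝ) 1, σ (u p + (a • e + t • y)) ∈ Tub σ (u p) e a b ∧
      ⟪e, (u p + (a • e + t • y)) - u p⟫ = a ∧ u p + (a • e + t • y) ∈ ball (u p) r := by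
    intro t ht
    have hc := C.S.coord (s := a) (hye t)
    have h1 : ‖t • y‖ ≤ b := by
      rw [norm_smul, Real.norm_eq_abs, abs_of_nonneg ht.1]
      calc t * ‖y‖ ≤ 1 * ‖y‖ := by gcongr; exact ht.2
        _ ≤ b := by rw [one_mul]; exact hxm.2.2
    refine ⟨⟨_, ⟨?_, ?_⟩, rfl⟩, hc.1, C.hTB _ ?_ ?_⟩
    · rw [hc.1, abs_of_pos C.ha]
    · rw [hc.2]; exact h1
    · rw [hc.1, abs_of_pos C.ha]
    · rw [hc.2]; exact h1
  have hK : IsPreconnected ((fun t : ℝ => σ (u p + (a • e + t • y))) '' Icc 0 1) :=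
    isPreconnected_Icc.image _ (C.S.sec.cont.comp (Continuous.continuousOn (by fun_prop))
      fun t ht => (hin t ht).2.2)
  have hcK : ∀ w ∈ ((fun t : ℝ => σ (u p + (a • e + t • y))) '' Icc 0 1), w ∈ O ∨ w ∈ O' := by
    rintro _ ⟨t, ht, rfl⟩
    obtain ⟨h1, h2, h3⟩ := hin t ht
    refine hcov _ (C.face _ h1 ?_).le
    rw [C.S.sec.right _ h3, h2, abs_of_pos C.ha]
  by_contra hne
  have hx1 : x ∈ ((fun t : ℝ => σ (u p + (a • e + t • y))) '' Icc 0 1) :=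
    ⟨1, ⟨zero_le_one, le_rfl⟩, by simp only; rw [hxy, C.S.sec.left hxm.1]⟩
  have hxO : x ∈ O := (hcK x hx1).resolve_right hne
  obtain ⟨w, -, hw, hw'⟩ := hK O O' hO hO' hcK ⟨x, hx1, hxO⟩
    ⟨σ (u p + a • e), ⟨0, ⟨le_rfl, zero_le_one⟩, by simp⟩, hγ⟩
  exact Set.disjoint_left.1 hd hw hw'

/-- Every piece of the sublevel set contains one of the two ends of the descending arc. -/
theorem comp_lemma [T2Space N] (hconn : IsPreconnected {x | ρ x ≤ 0}) {O O' : Set N}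
    (hO : IsOpen O) (hO' : IsOpen O') (hd : Disjoint O O')
    (hcov : ∀ x, ρ x ≤ c₁ → x ∈ O ∨ x ∈ O') (h1 : σ (u p + a • e) ∈ O')
    (h2 : σ (u p + a • (-e)) ∈ O') : ∀ x, ρ x ≤ c₁ → x ∉ O := by
  intro x₀ hx₀ hx₀O
  obtain ⟨k, hk0, hk, hkc⟩ := C.exists_k
  have hle : c₁ < 0 := C.hc.trans C.neg
  set A' : Set N := {x | ∃ t, 0 ≤ t ∧ Fl (-t) x ∈ {y | ρ y < c₁} ∩ O} with hA'
  set B' : Set N := {x | ∃ t, 0 ≤ t ∧ Fl (-t) x ∈ {y | ρ y < c₁} ∩ O'} ∪
    {x | ∃ t, 0 ≤ t ∧ Fl (-t) x ∈ TubO σ (u p) e k b} with hB'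
  have hlev : IsOpen {y | ρ y < c₁} := isOpen_lt C.hρ.continuous continuous_const
  have hAo : IsOpen A' := entry_open C.flow (hlev.inter hO)
  have hBo : IsOpen B' := (entry_open C.flow (hlev.inter hO')).union
    (entry_open C.flow (C.TubOk_open hk))
  have hcovM : {x | ρ x ≤ 0} ⊆ A' ∪ B' := by
    intro x hx
    have hUL : (∃ t, 0 ≤ t ∧ ρ (Fl (-t) x) < c₁) → x ∈ A' ∪ B' := by
      rintro ⟨t, ht, htc⟩
      rcases hcov _ htc.le with h | h
      · exact Or.inl ⟨t, ht, htc, h⟩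
      · exact Or.inr (Or.inl ⟨t, ht, htc, h⟩)
    rcases C.reachO hx with h | ⟨t, ht, h⟩
    · exact hUL h
    · have hm := C.mTO.1 h
      rcases lt_trichotomy ⟪e, u (Fl (-t) x) - u p⟫ 0 with hs | hs | hs
      · obtain ⟨t', ht', -, -, h5⟩ := C.flip.toface' ht (x := x) (by rw [TubO_neg]; exact h)
          (by rw [inner_neg_left]; linarith)
        exact hUL ⟨t', ht', h5⟩
      · refine Or.inr (Or.inr ⟨t, ht, ?_⟩)
        rw [C.mTOk hk, hs, abs_zero]
        exact ⟨hm.1, hk0, hm.2.2⟩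
      · obtain ⟨t', ht', -, -, h5⟩ := C.toface' ht (x := x) h hs
        exact hUL ⟨t', ht', h5⟩
  have hx₀A : x₀ ∈ A' := by
    have e1 : ∀ᶠ t in 𝓝[>] (0:ℝ), Fl (-t) x₀ ∈ O := by
      have hc : ContinuousAt (fun t : ℝ => Fl (-t) x₀) 0 :=
        ((C.flow.cont_t x₀).comp continuous_neg).continuousAt
      refine nhdsWithin_le_nhds (hc.eventually (hO.mem_nhds ?_))
      simp only [neg_zero]
      rw [C.flow.zero]; exact hx₀O
    obtain ⟨t, ht1, ht2⟩ := (e1.and self_mem_nhdsWithin).exists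
    have ht2' : 0 < t := ht2
    exact ⟨t, ht2'.le, C.lower (hx₀.trans hle.le) hx₀ ht2', ht1⟩
  have hpB : p ∈ B' := Or.inr ⟨0, le_rfl, by rw [neg_zero, C.flow.zero]; exact C.p_mem hk0⟩
  obtain ⟨x, hx, ⟨t, ht, htc, htO⟩, hxB⟩ := hconn A' B' hAo hBo hcovM ⟨x₀, hx₀.trans hle.le, hx₀A⟩
    ⟨p, C.neg.le, hpB⟩
  rcases hxB with ⟨t', ht', htc', htO'⟩ | ⟨t', ht', h3⟩
  · exact C.one_piece hO hO' hd hcov hx ht ht' htc htO htc' htO'
  · have h4 := (C.side_ne hk hkc hx ht' ht h3 htc).1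
    have h3' := C.TubOk hk h3
    rcases lt_or_gt_of_ne h4 with hs | hs
    · obtain ⟨s, hs', h5, h6, h7⟩ := C.flip.toface' ht' (x := x) (by rw [TubO_neg]; exact h3')
        (by rw [inner_neg_left]; linarith)
      exact C.one_piece hO hO' hd hcov hx ht hs' htc htO h7
        (C.flip.face_mem hO hO' hd hcov h2 h5 h6)
    · obtain ⟨s, hs', h5, h6, h7⟩ := C.toface' ht' (x := x) h3' hs
      exact C.one_piece hO hO' hd hcov hx ht hs' htc htO h7
        (C.face_mem hO hO' hd hcov h1 h5 h6)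

/-- the sign of the first coordinate does not change -/
lemma sign_unique [T2Space N] {k : ℝ} (hk : k < a) (hkc : ∀ x ∈ TubO σ (u p) e k b, c₁ < ρ x)
    {x : N} (hx : ρ x ≤ 0) {t t' : ℝ} (ht : 0 ≤ t) (htt : t ≤ t')
    (h1 : Fl (-t) x ∈ TubO σ (u p) e k b) (hs : 0 < ⟪e, u (Fl (-t) x) - u p⟫)
    (h2 : Fl (-t') x ∈ TubO σ (u p) e k b) : 0 < ⟪e, u (Fl (-t') x) - u p⟫ := by
  have h1' := C.TubOk hk h1
  obtain ⟨t₁, ht₁, h3, h4, -, h6⟩ := C.toface h1' C.ha le_rfl hs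
    ((abs_lt.1 (C.mTO.1 h1').2.1).2.le)
  have hadd : Fl (-(t' - t)) (Fl (-t) x) = Fl (-t') x := by
    rw [← C.flow.add]; congr 1; ring
  rcases le_or_gt t₁ (t' - t) with h | h
  · exfalso
    have h7 : ρ (Fl (-t₁) (Fl (-t) x)) < c₁ := C.face _ h3 (by rw [h4, abs_of_pos C.ha])
    have h8 := C.lower' (C.stay (C.stay hx ht) ht₁) h7 (sub_nonneg.2 h)
    rw [← C.flow.add] at h8
    have h9 : -(t' - t - t₁) + -t₁ = -(t' - t) := by ring
    rw [h9, hadd] at h8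
    linarith [hkc _ h2]
  · have h7 := C.boxflow h1' (sub_nonneg.2 htt) (by
      rw [abs_of_pos hs, ← h6]
      gcongr)
    rw [hadd] at h7
    have hye : ⟪e, Real.exp (-(t' - t)) • pe e (u (Fl (-t) x) - u p)⟫ = 0 := by
      rw [inner_smul_right, pe_orth C.S.unit, mul_zero]
    have hc := C.S.coord (s := ⟪e, u (Fl (-t) x) - u p⟫ * Real.exp (t' - t)) hye
    have hball : u p + ((⟪e, u (Fl (-t) x) - u p⟫ * Real.exp (t' - t)) • e +
        Real.exp (-(t' - t)) • pe e (u (Fl (-t) x) - u p)) ∈ ball (u p) r := by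
      refine C.hTB _ ?_ ?_
      · rw [hc.1, abs_of_pos (by positivity), ← h6]
        gcongr
      · rw [hc.2, norm_smul, Real.norm_eq_abs, abs_of_pos (Real.exp_pos _)]
        have e1 : Real.exp (-(t' - t)) ≤ 1 := Real.exp_le_one_iff.2 (by linarith)
        calc Real.exp (-(t' - t)) * ‖pe e (u (Fl (-t) x) - u p)‖
            ≤ 1 * ‖pe e (u (Fl (-t) x) - u p)‖ := by gcongr
          _ ≤ b := by rw [one_mul]; exact (C.mTO.1 h1').2.2.le
    rw [h7, C.S.sec.right _ hball, hc.1]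
    positivity

/-- **If all maps to the circle lift, the sublevel set below the saddle is not connected.** -/
theorem not_pre [T2Space N] [NormalSpace N] (hL : Lifts {x | ρ x ≤ 0}) :
    ¬IsPreconnected {x | ρ x ≤ c₁} := by
  intro hpre
  obtain ⟨k, hk0, hk, hkc⟩ := C.exists_k
  have hle : c₁ < 0 := C.hc.trans C.neg
  have hkO := C.TubOk_open hk
  have hlev : IsOpen {y | ρ y < c₁} := isOpen_lt C.hρ.continuous continuous_const
  have hhc : Continuous (fun y => ⟪e, u y - u p⟫) := by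
    have := C.huc
    fun_prop
  set U : Set N := {x | ∃ t, 0 ≤ t ∧ Fl (-t) x ∈ {y | ρ y < c₁}} with hU
  set V : Set N := {x | ∃ t, 0 ≤ t ∧ Fl (-t) x ∈ TubO σ (u p) e k b} with hV
  set O₁ : Set N := {x | ∃ t, 0 ≤ t ∧ Fl (-t) x ∈ TubO σ (u p) e k b ∩
    {y | 0 < ⟪e, u y - u p⟫}} with hO₁
  set O₂ : Set N := {x | ∃ t, 0 ≤ t ∧ Fl (-t) x ∈ TubO σ (u p) e k b ∩
    {y | ⟪e, u y - u p⟫ < 0}} with hO₂
  have hUL : ∀ x, x ∈ TubO σ (u p) e a b → ⟪e, u x - u p⟫ ≠ 0 → x ∈ U := by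
    intro x hx hne
    have hx' : Fl (-0) x ∈ TubO σ (u p) e a b := by rw [neg_zero, C.flow.zero]; exact hx
    rcases lt_or_gt_of_ne hne with hs | hs
    · obtain ⟨s, hs', -, -, h7⟩ := C.flip.toface' le_rfl (x := x) (by rw [TubO_neg]; exact hx')
        (by rw [neg_zero, C.flow.zero, inner_neg_left]; linarith)
      exact ⟨s, hs', h7⟩
    · obtain ⟨s, hs', -, -, h7⟩ := C.toface' le_rfl (x := x) hx'
        (by rw [neg_zero, C.flow.zero]; exact hs)
      exact ⟨s, hs', h7⟩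
  have hk2 : |k / 2| < k := by rw [abs_of_pos (by positivity)]; linarith
  have hpt : ∀ e' : E, (e' = e ∨ e' = -e) → σ (u p + (k / 2) • e') ∈ TubO σ (u p) e k b ∧
      u (σ (u p + (k / 2) • e')) = u p + (k / 2) • e' := by
    intro e' he'
    have h1 : |⟪e, (u p + (k / 2) • e') - u p⟫| < k ∧ ‖pe e ((u p + (k / 2) • e') - u p)‖ < b := by
      rw [add_sub_cancel_left, inner_smul_right, pe_smul]
      rcases he' with rfl | rfl
      · rw [real_inner_self_eq_norm_sq, C.S.unit, pe_self C.S.unit, smul_zero, norm_zero]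
        simp only [one_pow, mul_one]
        exact ⟨hk2, C.hb⟩
      · have h2 : pe e (-e) = 0 := by
          have := pe_smul e e (-1)
          rw [neg_one_smul, pe_self C.S.unit, smul_zero] at this
          exact this
        rw [inner_neg_right, real_inner_self_eq_norm_sq, C.S.unit, h2, smul_zero, norm_zero]
        simp only [one_pow, mul_neg, mul_one, abs_neg]
        exact ⟨hk2, C.hb⟩
    exact ⟨⟨_, h1, rfl⟩, C.S.sec.right _ (C.hTB _ (h1.1.le.trans hk.le) h1.2.le)⟩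
  have hmem : ∀ e' : E, (e' = e ∨ e' = -e) → ⟪e, e'⟫ ≠ 0 →
      σ (u p + (k / 2) • e') ∈ {x | ρ x ≤ 0} ∩ U ∩ V := by
    intro e' he' hne
    obtain ⟨h1, h2⟩ := hpt e' he'
    have h3 := C.TubOk hk h1
    have h4 := C.mTO.1 h3
    refine ⟨⟨?_, hUL _ h3 ?_⟩, ⟨0, le_rfl, by rw [neg_zero, C.flow.zero]; exact h1⟩⟩
    · exact (C.tneg _ (C.mT.2 ⟨h4.1, h4.2.1.le, h4.2.2.le⟩)).le
    · rw [h2, add_sub_cancel_left, inner_smul_right]
      exact mul_ne_zero (by positivity) hne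
  refine uni (M := {x | ρ x ≤ 0}) (U := U) (V := V) (O₁ := O₁) (O₂ := O₂)
    (isClosed_le C.hρ.continuous continuous_const) hL (entry_open C.flow hlev)
    (entry_open C.flow hkO)
    (entry_open C.flow (hkO.inter (isOpen_lt continuous_const hhc)))
    (entry_open C.flow (hkO.inter (isOpen_lt hhc continuous_const))) ?_ ?_ ?_ ?_ ?_
    (x₁ := σ (u p + (k / 2) • e)) (x₂ := σ (u p + (k / 2) • (-e)))
    (hmem e (Or.inl rfl) (by rw [real_inner_self_eq_norm_sq, C.S.unit]; norm_num))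
    (hmem (-e) (Or.inr rfl) (by
      rw [inner_neg_right, real_inner_self_eq_norm_sq, C.S.unit]; norm_num)) ?_ ?_
  · -- covering
    intro x hx
    rcases C.reachO hx with ⟨t, ht, h⟩ | ⟨t, ht, h⟩
    · exact Or.inl ⟨t, ht, h⟩
    · have hm := C.mTO.1 h
      by_cases hs : ⟪e, u (Fl (-t) x) - u p⟫ = 0
      · refine Or.inr ⟨t, ht, ?_⟩
        rw [C.mTOk hk, hs, abs_zero]
        exact ⟨hm.1, hk0, hm.2.2⟩
      · left
        obtain ⟨s, hs', h5⟩ := hUL _ h hs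
        refine ⟨s + t, by positivity, ?_⟩
        rw [show -(s + t) = -s + -t by ring, C.flow.add]
        exact h5
  · -- the lower part
    refine pre_of_flow C.flow.cont_t C.flow.zero (Q := {x | ρ x ≤ c₁}) ?_ hpre ?_
    · intro x hx
      have hx' : ρ x ≤ c₁ := hx
      exact ⟨hx'.trans hle.le, 1, zero_le_one, C.lower (hx'.trans hle.le) hx' one_pos⟩
    · rintro x ⟨hx, t, ht, htc⟩
      have htc' : ρ (Fl (-t) x) < c₁ := htc
      refine ⟨t, ht, htc'.le, fun s hs => ⟨C.stay hx hs.1, t - s, sub_nonneg.2 hs.2, ?_⟩⟩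
      rw [← C.flow.add, show -(t - s) + -s = -t by ring]
      exact htc
  · -- the neighbourhood of the ascending disc
    refine pre_of_flow C.flow.cont_t C.flow.zero (Q := TubO σ (u p) e k b) ?_ (C.TubOk_pre hk) ?_
    · intro x hx
      have h4 := C.mTO.1 (C.TubOk hk hx)
      exact ⟨(C.tneg _ (C.mT.2 ⟨h4.1, h4.2.1.le, h4.2.2.le⟩)).le, 0, le_rfl, by
        rw [neg_zero, C.flow.zero]; exact hx⟩
    · rintro x ⟨hx, t, ht, htc⟩
      refine ⟨t, ht, htc, fun s hs => ⟨C.stay hx hs.1, t - s, sub_nonneg.2 hs.2, ?_⟩⟩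
      rw [← C.flow.add, show -(t - s) + -s = -t by ring]
      exact htc
  · rintro x ⟨⟨hx, t, ht, htc⟩, t', ht', htc'⟩
    have h1 := (C.side_ne hk hkc hx ht' ht htc' htc).1
    rcases lt_or_gt_of_ne h1 with hs | hs
    · exact Or.inr ⟨t', ht', htc', hs⟩
    · exact Or.inl ⟨t', ht', htc', hs⟩
  · rintro x ⟨⟨hx, -⟩, -⟩ ⟨t, ht, htc, hs⟩ ⟨t', ht', htc', hs'⟩
    have hs0 : 0 < ⟪e, u (Fl (-t) x) - u p⟫ := hs
    have hs0' : ⟪e, u (Fl (-t') x) - u p⟫ < 0 := hs'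
    rcases le_total t t' with h | h
    · have := C.sign_unique hk hkc hx ht h htc hs0 htc'
      linarith
    · have := C.flip.sign_unique (k := k) hk (by rw [TubO_neg]; exact hkc) hx ht' h
        (by rw [TubO_neg]; exact htc') (by rw [inner_neg_left]; linarith)
        (by rw [TubO_neg]; exact htc)
      rw [inner_neg_left] at this
      linarith
  · obtain ⟨h1, h2⟩ := hpt e (Or.inl rfl)
    refine ⟨0, le_rfl, ?_⟩
    rw [neg_zero, C.flow.zero]
    refine ⟨h1, ?_⟩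
    show 0 < ⟪e, u (σ (u p + (k / 2) • e)) - u p⟫
    rw [h2, add_sub_cancel_left, inner_smul_right, real_inner_self_eq_norm_sq, C.S.unit]
    positivity
  · obtain ⟨h1, h2⟩ := hpt (-e) (Or.inr rfl)
    refine ⟨0, le_rfl, ?_⟩
    rw [neg_zero, C.flow.zero]
    refine ⟨h1, ?_⟩
    show ⟪e, u (σ (u p + (k / 2) • (-e))) - u p⟫ < 0
    rw [h2, add_sub_cancel_left, inner_smul_right, inner_neg_right, real_inner_self_eq_norm_sq,
      C.S.unit]
    linarith

end CutF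

end Pool.Agent.Q196.XF
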