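import Pool.Agent.Q196.XF.CutB

/-! The two components of the sublevel set below a saddle are retracts. -/

set_option autoImplicit false
set_option linter.unusedSectionVars false

open scoped Topology ContDiff Manifold RealInnerProductSpace Gradient
open Set Metric Filter Bundle Pool.Agent.Q196.XB Asymptotics

noncomputable section

namespace Pool.Agent.Q196.XF

variable {E : Type} [NormedAddCommGroup E] [InnerProductSpace ℝ E] [FiniteDimensional ℝ E]
  {N : Type} [TopologicalSpace N] [ChartedSpace E N] [IsManifold 𝓘(ℝ, E) ∞ N]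

variable {u : N → E} {ρ : N → ℝ} {p : N} {σ : E → N} {r : ℝ} {e : E} {α β Λ : ℝ} {A : E →L[ℝ] E}
  {c₁ a b : ℝ} {X : N → E} {Fl : ℝ → N → N}

/-- the first time at which the backward orbit is in the sublevel set -/
def hit (ρ : N → ℝ) (c₁ : ℝ) (Fl : ℝ → N → N) (x : N) : ℝ :=
  sInf {t | 0 ≤ t ∧ ρ (Fl (-t) x) ≤ c₁}

/-- the point at which the backward orbit enters the sublevel set -/
def ret (ρ : N → ℝ) (c₁ : ℝ) (Fl : ℝ → N → N) (x : N) : N := Fl (-(hit ρ c₁ Fl x)) x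

namespace CutF

variable (C : CutF u ρ p σ r e α β Λ A c₁ a b X Fl)
include C

/-- **The two pieces.** -/
theorem split [T2Space N] [NormalSpace N] (hconn : IsPreconnected {x | ρ x ≤ 0})
    (hL : Lifts {x | ρ x ≤ 0}) : ∃ O₁ O₂ : Set N, IsOpen O₁ ∧ IsOpen O₂ ∧ Disjoint O₁ O₂ ∧
      (∀ x, ρ x ≤ c₁ → x ∈ O₁ ∨ x ∈ O₂) ∧ σ (u p + a • (-e)) ∈ O₁ ∧ σ (u p + a • e) ∈ O₂ ∧
      IsPreconnected ({x | ρ x ≤ c₁} ∩ O₁) ∧ IsPreconnected ({x | ρ x ≤ c₁} ∩ O₂) := by
  have hle : c₁ < 0 := C.hc.trans C.neg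
  have hKc : IsCompact {x | ρ x ≤ c₁} := C.comp.of_isClosed_subset
    (isClosed_le C.hρ.continuous continuous_const) (fun x (hx : ρ x ≤ c₁) => hx.trans hle.le)
  have hface : ∀ e' : E, (e' = e ∨ e' = -e) → ρ (σ (u p + a • e')) ≤ c₁ := by
    intro e' he'
    have h1 : |⟪e, (u p + a • e') - u p⟫| = a ∧ ‖pe e ((u p + a • e') - u p)‖ ≤ b := by
      rw [add_sub_cancel_left, inner_smul_right, pe_smul]
      rcases he' with rfl | rfl
      · rw [real_inner_self_eq_norm_sq, C.S.unit, pe_self C.S.unit, smul_zero, norm_zero]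
        simp only [one_pow, mul_one]
        exact ⟨abs_of_pos C.ha, C.hb.le⟩
      · have h2 : pe e (-e) = 0 := by
          have := pe_smul e e (-1)
          rw [neg_one_smul, pe_self C.S.unit, smul_zero] at this
          exact this
        rw [inner_neg_right, real_inner_self_eq_norm_sq, C.S.unit, h2, smul_zero, norm_zero]
        simp only [one_pow, mul_neg, mul_one, abs_neg]
        exact ⟨abs_of_pos C.ha, C.hb.le⟩
    have h2 : σ (u p + a • e') ∈ Tub σ (u p) e a b := ⟨_, ⟨h1.1.le, h1.2⟩, rfl⟩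
    refine (C.face _ h2 ?_).le
    rw [C.S.sec.right _ (C.hTB _ h1.1.le h1.2)]
    exact h1.1
  obtain ⟨O₁, O₂, h1, h2, h3, h4, h5, h6⟩ := exists_separation hKc (C.not_pre hL)
  have hcov : ∀ x, ρ x ≤ c₁ → x ∈ O₁ ∨ x ∈ O₂ := fun x hx => h4 hx
  have hcov' : ∀ x, ρ x ≤ c₁ → x ∈ O₂ ∨ x ∈ O₁ := fun x hx => (h4 hx).symm
  -- a statement which is symmetric in the two ends
  have key : ∀ O O' : Set N, IsOpen O → IsOpen O' → Disjoint O O' →
      (∀ x, ρ x ≤ c₁ → x ∈ O ∨ x ∈ O') → σ (u p + a • (-e)) ∈ O → σ (u p + a • e) ∈ O' →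
      IsPreconnected ({x | ρ x ≤ c₁} ∩ O) ∧ IsPreconnected ({x | ρ x ≤ c₁} ∩ O') := by
    intro O O' hO hO' hd hc hm hp
    have part : ∀ (P P' : Set N), IsOpen P → IsOpen P' → Disjoint P P' →
        (∀ x, ρ x ≤ c₁ → x ∈ P ∨ x ∈ P') → ∀ g g' : N, g ∈ P → g' ∈ P' → ρ g ≤ c₁ →
        ((g = σ (u p + a • e) ∧ g' = σ (u p + a • (-e))) ∨
          (g = σ (u p + a • (-e)) ∧ g' = σ (u p + a • e))) →
        IsPreconnected ({x | ρ x ≤ c₁} ∩ P) := by
      intro P P' hP hP' hd hc g g' hg hg' hgc hgg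
      by_contra hne
      have hPc : IsCompact ({x | ρ x ≤ c₁} ∩ P) := by
        have : {x | ρ x ≤ c₁} ∩ P = {x | ρ x ≤ c₁} \ P' := by
          ext x
          constructor
          · rintro ⟨hx1, hx2⟩
            exact ⟨hx1, fun h => Set.disjoint_left.1 hd hx2 h⟩
          · rintro ⟨hx1, hx2⟩
            exact ⟨hx1, (hc x hx1).resolve_right hx2⟩
        rw [this]
        exact hKc.diff hP'
      obtain ⟨Q, Q', hQ, hQ', hdQ, hcQ, hnQ, hnQ'⟩ := exists_separation hPc hne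
      have fin : ∀ Q Q' : Set N, IsOpen Q → IsOpen Q' → Disjoint Q Q' →
          {x | ρ x ≤ c₁} ∩ P ⊆ Q ∪ Q' → (({x | ρ x ≤ c₁} ∩ P) ∩ Q').Nonempty → g ∈ Q → False := by
        intro Q Q' hQ hQ' hdQ hcQ hnQ' hgQ
        obtain ⟨w, ⟨hw1, hw2⟩, hw3⟩ := hnQ'
        have h7 := C.comp_lemma hconn (O := P ∩ Q') (O' := (P ∩ Q) ∪ P') (hP.inter hQ')
          ((hP.inter hQ).union hP') (by
            rw [Set.disjoint_left]
            rintro x ⟨hx1, hx2⟩ (hx3 | hx3)
            · exact Set.disjoint_left.1 hdQ hx3.2 hx2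
            · exact Set.disjoint_left.1 hd hx1 hx3)
          (by
            intro x hx
            rcases hc x hx with h | h
            · rcases hcQ ⟨hx, h⟩ with h' | h'
              · exact Or.inr (Or.inl ⟨h, h'⟩)
              · exact Or.inl ⟨h, h'⟩
            · exact Or.inr (Or.inr h))
          (by
            rcases hgg with ⟨h, h'⟩ | ⟨h, h'⟩
            · rw [← h]; exact Or.inl ⟨hg, hgQ⟩
            · rw [← h']; exact Or.inr hg')
          (by
            rcases hgg with ⟨h, h'⟩ | ⟨h, h'⟩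
            · rw [← h']; exact Or.inr hg'
            · rw [← h]; exact Or.inl ⟨hg, hgQ⟩)
        exact h7 w hw1 ⟨hw2, hw3⟩
      rcases hcQ ⟨hgc, hg⟩ with h | h
      · exact fin Q Q' hQ hQ' hdQ hcQ hnQ' h
      · exact fin Q' Q hQ' hQ hdQ.symm (by rw [union_comm]; exact hcQ) hnQ h
    exact ⟨part O O' hO hO' hd hc _ _ hm hp (hface _ (Or.inr rfl)) (Or.inr ⟨rfl, rfl⟩),
      part O' O hO' hO hd.symm (fun x hx => (hc x hx).symm) _ _ hp hm (hface _ (Or.inl rfl))
        (Or.inl ⟨rfl, rfl⟩)⟩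
  rcases hcov _ (hface _ (Or.inl rfl)) with hp | hp
  · rcases hcov _ (hface _ (Or.inr rfl)) with hm | hm
    · exfalso
      obtain ⟨w, hw1, hw2⟩ := h6
      exact C.comp_lemma hconn h2 h1 h3.symm hcov' hp hm w hw1 hw2
    · obtain ⟨ha, hb⟩ := key O₂ O₁ h2 h1 h3.symm hcov' hm hp
      exact ⟨O₂, O₁, h2, h1, h3.symm, hcov', hm, hp, ha, hb⟩
  · rcases hcov _ (hface _ (Or.inr rfl)) with hm | hm
    · obtain ⟨ha, hb⟩ := key O₁ O₂ h1 h2 h3 hcov hm hp
      exact ⟨O₁, O₂, h1, h2, h3, hcov, hm, hp, ha, hb⟩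
    · exfalso
      obtain ⟨w, hw1, hw2⟩ := h5
      exact C.comp_lemma hconn h1 h2 h3 hcov hp hm w hw1 hw2

/-! ### the hitting time -/

lemma hit_spec {x : N} (h : ∃ t, 0 ≤ t ∧ ρ (Fl (-t) x) ≤ c₁) :
    0 ≤ hit ρ c₁ Fl x ∧ ρ (Fl (-(hit ρ c₁ Fl x)) x) ≤ c₁ ∧
      ∀ t, 0 ≤ t → t < hit ρ c₁ Fl x → c₁ < ρ (Fl (-t) x) := by
  set S : Set ℝ := {t | 0 ≤ t ∧ ρ (Fl (-t) x) ≤ c₁} with hS
  have hSc : IsClosed S := (isClosed_le continuous_const continuous_id).inter
    (isClosed_le (C.hρ.continuous.comp ((C.flow.cont_t x).comp continuous_neg)) continuous_const)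
  have hSb : BddBelow S := ⟨0, fun t ht => ht.1⟩
  have hmem : sInf S ∈ S := hSc.csInf_mem h hSb
  refine ⟨hmem.1, hmem.2, fun t ht htl => ?_⟩
  by_contra hle
  have : hit ρ c₁ Fl x ≤ t := csInf_le hSb ⟨ht, not_lt.1 hle⟩
  linarith

lemma hit_eq {x : N} {τ : ℝ} (hτ : 0 ≤ τ) (h1 : ρ (Fl (-τ) x) ≤ c₁)
    (h2 : ∀ t, 0 ≤ t → t < τ → c₁ < ρ (Fl (-t) x)) : hit ρ c₁ Fl x = τ := by
  obtain ⟨h3, h4, h5⟩ := C.hit_spec ⟨τ, hτ, h1⟩
  rcases lt_trichotomy (hit ρ c₁ Fl x) τ with h | h | h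
  · exact absurd h4 (not_le.2 (h2 _ h3 h))
  · exact h
  · exact absurd h1 (not_le.2 (h5 _ hτ h))

lemma ret_of_le {x : N} (hx : ρ x ≤ c₁) : ret ρ c₁ Fl x = x := by
  have h1 : hit ρ c₁ Fl x = 0 := C.hit_eq le_rfl (by rw [neg_zero, C.flow.zero]; exact hx)
    (fun t h0 h => absurd h (not_lt.2 h0))
  unfold ret
  rw [h1, neg_zero, C.flow.zero]

lemma ret_shift [T2Space N] {x : N} (hx : ρ x ≤ 0) {t : ℝ} (ht : 0 ≤ t)
    (h1 : c₁ < ρ (Fl (-t) x)) (h : ∃ s, 0 ≤ s ∧ ρ (Fl (-s) (Fl (-t) x)) ≤ c₁) :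
    ret ρ c₁ Fl (Fl (-t) x) = ret ρ c₁ Fl x := by
  obtain ⟨h3, h4, h5⟩ := C.hit_spec h
  set τ := hit ρ c₁ Fl (Fl (-t) x) with hτ
  have h6 : hit ρ c₁ Fl x = τ + t := by
    refine C.hit_eq (by positivity) ?_ ?_
    · rw [show -(τ + t) = -τ + -t by ring, C.flow.add]; exact h4
    · intro s hs hst
      rcases lt_or_ge s t with h7 | h7
      · by_contra hle
        have h8 := C.lower (C.stay hx hs) (not_lt.1 hle) (sub_pos.2 h7)
        rw [← C.flow.add, show -(t - s) + -s = -t by ring] at h8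
        linarith
      · have h8 := h5 (s - t) (sub_nonneg.2 h7) (by linarith)
        rwa [← C.flow.add, show -(s - t) + -t = -s by ring] at h8
  unfold ret
  rw [h6, ← hτ, ← C.flow.add]
  congr 1
  ring

lemma hit_cont [T2Space N] : ContinuousOn (hit ρ c₁ Fl)
    ({x | ρ x ≤ 0} ∩ {x | ∃ t, 0 ≤ t ∧ ρ (Fl (-t) x) ≤ c₁}) := by
  rintro x ⟨hx, hxt⟩
  obtain ⟨h3, h4, h5⟩ := C.hit_spec hxt
  set τ := hit ρ c₁ Fl x with hτ
  have hcs : ∀ s, Continuous fun y => ρ (Fl (-s) y) := fun s =>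
    C.hρ.continuous.comp (C.flow.cont_x (-s))
  rw [ContinuousWithinAt, tendsto_order]
  constructor
  · intro v hv
    rcases lt_or_ge v 0 with h0 | h0
    · filter_upwards [self_mem_nhdsWithin] with y hy
      exact h0.trans_le (C.hit_spec hy.2).1
    · have h6 := h5 v h0 hv
      filter_upwards [self_mem_nhdsWithin, nhdsWithin_le_nhds (ev_gt (hcs v) h6)] with y hy hyv
      by_contra hle
      push Not at hle
      obtain ⟨g1, g2, -⟩ := C.hit_spec hy.2
      rcases hle.eq_or_lt with h7 | h7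
      · rw [h7] at g2; linarith
      · have h8 := C.lower (C.stay hy.1 g1) g2 (sub_pos.2 h7)
        rw [← C.flow.add, show -(v - hit ρ c₁ Fl y) + -(hit ρ c₁ Fl y) = -v by ring] at h8
        linarith
  · intro v hv
    set w := (τ + v) / 2 with hw
    have hw1 : τ < w := by rw [hw]; linarith
    have hw2 : w < v := by rw [hw]; linarith
    have h6 : ρ (Fl (-w) x) < c₁ := by
      have h8 := C.lower (C.stay hx h3) h4 (sub_pos.2 hw1)
      rwa [← C.flow.add, show -(w - τ) + -τ = -w by ring] at h8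
    filter_upwards [nhdsWithin_le_nhds (ev_lt (hcs w) h6)] with y hy
    refine lt_of_le_of_lt ?_ hw2
    exact csInf_le ⟨0, fun t ht => ht.1⟩ ⟨by linarith, hy.le⟩

lemma ret_cont [T2Space N] : ContinuousOn (ret ρ c₁ Fl)
    ({x | ρ x ≤ 0} ∩ {x | ∃ t, 0 ≤ t ∧ ρ (Fl (-t) x) ≤ c₁}) := by
  have h1 : ContinuousOn (fun x => (-(hit ρ c₁ Fl x), x))
      ({x | ρ x ≤ 0} ∩ {x | ∃ t, 0 ≤ t ∧ ρ (Fl (-t) x) ≤ c₁}) :=
    C.hit_cont.neg.prodMk continuousOn_id
  exact C.flow.cont.comp_continuousOn h1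

/-- **The piece on the positive side inherits the lifting property.** -/
theorem lifts_piece [T2Space N] (hL : Lifts {x | ρ x ≤ 0}) {O O' : Set N} (hO : IsOpen O)
    (hO' : IsOpen O') (hd : Disjoint O O') (hcov : ∀ x, ρ x ≤ c₁ → x ∈ O ∨ x ∈ O')
    (hm : σ (u p + a • (-e)) ∈ O) (hp : σ (u p + a • e) ∈ O') :
    Lifts ({x | ρ x ≤ c₁} ∩ O') := by
  classical
  obtain ⟨k, hk0, hk, hkc⟩ := C.exists_k
  have hle : c₁ < 0 := C.hc.trans C.neg
  have huc := C.huc
  have hlev : IsOpen {y | ρ y < c₁} := isOpen_lt C.hρ.continuous continuous_const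
  set U : Set N := {x | ∃ t, 0 ≤ t ∧ Fl (-t) x ∈ {y | ρ y < c₁} ∩ O} with hU
  set U' : Set N := {x | ∃ t, 0 ≤ t ∧ Fl (-t) x ∈ {y | ρ y < c₁} ∩ O'} with hU'
  have hUo : IsOpen U := entry_open C.flow (hlev.inter hO)
  have hUo' : IsOpen U' := entry_open C.flow (hlev.inter hO')
  set R₀ := ret ρ c₁ Fl with hR₀
  set k' : ℝ := k / 2 with hk'
  have hk'0 : 0 < k' := by positivity
  have hk'k : k' < k := by rw [hk']; linarith
  set g₀ : N := σ (u p + (k' • e + (0:E))) with hg₀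
  set q := R₀ g₀ with hq
  set D : Set N := {x | ρ x ≤ 0} ∩ {x | ∃ t, 0 ≤ t ∧ ρ (Fl (-t) x) ≤ c₁} with hD
  have hUD : ∀ x, ρ x ≤ 0 → x ∈ U → x ∈ U' → False := by
    rintro x hx ⟨t, ht, htc, htO⟩ ⟨t', ht', htc', htO'⟩
    exact C.one_piece hO hO' hd hcov hx ht ht' htc htO htc' htO'
  -- points of the piece
  have hsmall : ∀ (P : Set N), IsOpen P → ∀ x, ρ x ≤ c₁ → x ∈ P →
      ∃ t, 0 < t ∧ Fl (-t) x ∈ {y | ρ y < c₁} ∩ P := by
    intro P hP x hx hxP
    have e1 : ∀ᶠ t in 𝓝[>] (0:ℝ), Fl (-t) x ∈ P := by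
      have hc : ContinuousAt (fun t : ℝ => Fl (-t) x) 0 :=
        ((C.flow.cont_t x).comp continuous_neg).continuousAt
      refine nhdsWithin_le_nhds (hc.eventually (hP.mem_nhds ?_))
      simp only [neg_zero]
      rw [C.flow.zero]; exact hxP
    obtain ⟨t, ht1, ht2⟩ := (e1.and self_mem_nhdsWithin).exists
    have ht2' : 0 < t := ht2
    exact ⟨t, ht2', C.lower (hx.trans hle.le) hx ht2', ht1⟩
  have hU'D : ∀ x, ρ x ≤ 0 → x ∈ U' → x ∈ D := fun x hx ⟨t, ht, htc, _⟩ => ⟨hx, t, ht, htc.le⟩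
  have hretU' : ∀ x, ρ x ≤ 0 → x ∈ U' → ρ (R₀ x) ≤ c₁ ∧ R₀ x ∈ O' := by
    intro x hx hxU
    obtain ⟨h3, h4, -⟩ := C.hit_spec (hU'D x hx hxU).2
    refine ⟨h4, ?_⟩
    rcases hcov _ h4 with h | h
    · exfalso
      obtain ⟨t, ht, htm⟩ := hsmall O hO _ h4 h
      refine hUD x hx ⟨t + hit ρ c₁ Fl x, by positivity, ?_⟩ hxU
      rw [show -(t + hit ρ c₁ Fl x) = -t + -(hit ρ c₁ Fl x) by ring, C.flow.add]
      exact htm
    · exact h
  -- the box
  have hboxU' : ∀ x, ρ x ≤ 0 → ∀ t, 0 ≤ t → Fl (-t) x ∈ TubO σ (u p) e a b →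
      0 < ⟪e, u (Fl (-t) x) - u p⟫ → x ∈ U' := by
    intro x hx t ht h1 h2
    obtain ⟨s, hs, h3, h4, h5⟩ := C.toface' ht h1 h2
    exact ⟨s, hs, h5, C.face_mem hO hO' hd hcov hp h3 h4⟩
  have hboxU : ∀ x, ρ x ≤ 0 → ∀ t, 0 ≤ t → Fl (-t) x ∈ TubO σ (u p) e a b →
      ⟪e, u (Fl (-t) x) - u p⟫ < 0 → x ∈ U := by
    intro x hx t ht h1 h2
    obtain ⟨s, hs, h3, h4, h5⟩ := C.flip.toface' ht (x := x) (by rw [TubO_neg]; exact h1)
      (by rw [inner_neg_left]; linarith)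
    exact ⟨s, hs, h5, C.flip.face_mem hO' hO hd.symm (fun x hx => (hcov x hx).symm) hm h3 h4⟩
  -- points of the box with first coordinate `k'`
  have hbk : ∀ y : E, ⟪e, y⟫ = 0 → ‖y‖ < b → u p + (k' • e + y) ∈ ball (u p) r ∧
      σ (u p + (k' • e + y)) ∈ TubO σ (u p) e k b ∧ ρ (σ (u p + (k' • e + y))) ≤ 0 ∧
      σ (u p + (k' • e + y)) ∈ U' := by
    intro y hy hyb
    have hc := C.S.coord (s := k') hy
    have h1 : |⟪e, (u p + (k' • e + y)) - u p⟫| < k ∧ ‖pe e ((u p + (k' • e + y)) - u p)‖ < b := by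
      rw [hc.1, hc.2, abs_of_pos hk'0]; exact ⟨hk'k, hyb⟩
    have h2 : u p + (k' • e + y) ∈ ball (u p) r := C.hTB _ (h1.1.le.trans hk.le) h1.2.le
    have h3 : σ (u p + (k' • e + y)) ∈ TubO σ (u p) e k b := ⟨_, h1, rfl⟩
    have h4 := C.TubOk hk h3
    have h5 := C.mTO.1 h4
    have h6 : ρ (σ (u p + (k' • e + y))) ≤ 0 :=
      (C.tneg _ (C.mT.2 ⟨h5.1, h5.2.1.le, h5.2.2.le⟩)).le
    refine ⟨h2, h3, h6, hboxU' _ h6 0 le_rfl (by rw [neg_zero, C.flow.zero]; exact h4) ?_⟩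
    rw [neg_zero, C.flow.zero, C.S.sec.right _ h2, hc.1]
    exact hk'0
  have hg₀' := hbk 0 (inner_zero_right _) (by rw [norm_zero]; exact C.hb)
  have hqm := hretU' g₀ hg₀'.2.2.1 hg₀'.2.2.2
  refine hL.retract (R := fun x => if x ∈ U' then R₀ x else q) ?_ ?_ ?_ ?_
  · -- continuity
    intro x₀ hx₀
    have hx₀' : ρ x₀ ≤ 0 := hx₀
    by_cases h1 : x₀ ∈ U'
    · have h2 : ContinuousWithinAt R₀ D x₀ := C.ret_cont x₀ (hU'D x₀ hx₀ h1)
      have h3 : ContinuousWithinAt R₀ {x | ρ x ≤ 0} x₀ := by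
        refine h2.mono_of_mem_nhdsWithin ?_
        filter_upwards [self_mem_nhdsWithin, nhdsWithin_le_nhds (hUo'.mem_nhds h1)] with y hy hyU
        exact hU'D y hy hyU
      refine h3.congr_of_eventuallyEq ?_ (by simp only [if_pos h1])
      filter_upwards [nhdsWithin_le_nhds (hUo'.mem_nhds h1)] with y hy
      simp only [if_pos hy]
    · by_cases h2 : x₀ ∈ U
      · refine (continuousWithinAt_const (b := q)).congr_of_eventuallyEq ?_
          (by simp only [if_neg h1])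
        filter_upwards [self_mem_nhdsWithin, nhdsWithin_le_nhds (hUo.mem_nhds h2)] with y hy hyU
        simp only [if_neg (fun h => hUD y hy hyU h)]
      · -- a point of the ascending disc
        obtain ⟨t₀, ht₀, h3, h4⟩ : ∃ t, 0 ≤ t ∧ Fl (-t) x₀ ∈ TubO σ (u p) e a b ∧
            ⟪e, u (Fl (-t) x₀) - u p⟫ = 0 := by
          rcases C.reachO hx₀' with ⟨t, ht, h⟩ | ⟨t, ht, h⟩
          · exfalso
            rcases hcov _ h.le with h' | h'
            · exact h2 ⟨t, ht, h, h'⟩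
            · exact h1 ⟨t, ht, h, h'⟩
          · refine ⟨t, ht, h, ?_⟩
            rcases lt_trichotomy ⟪e, u (Fl (-t) x₀) - u p⟫ 0 with hs | hs | hs
            · exact absurd (hboxU x₀ hx₀' t ht h hs) h2
            · exact hs
            · exact absurd (hboxU' x₀ hx₀' t ht h hs) h1
        have hm3 := C.mTO.1 h3
        have hFc : Continuous (fun x => u (Fl (-t₀) x) - u p) :=
          (huc.comp (C.flow.cont_x (-t₀))).sub continuous_const
        set sc : N → ℝ := fun x => ⟪e, u (Fl (-t₀) x) - u p⟫ with hsc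
        set yc : N → E := fun x => pe e (u (Fl (-t₀) x) - u p) with hyc
        have hscc : Continuous sc := by fun_prop
        have hycc : Continuous yc := (pe_cont e).comp hFc
        set Gz : N → E := fun x => u p + (k' • e + (sc x / k') • yc x) with hGz
        have hGzc : Continuous Gz := by fun_prop
        have hGz0 : Gz x₀ = u p + (k' • e + (0:E)) := by
          simp only [hGz, hsc]
          rw [h4, zero_div, zero_smul]
        have hGc : ContinuousAt (fun x => σ (Gz x)) x₀ := by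
          have e1 : ContinuousAt σ (Gz x₀) := by
            rw [hGz0]; exact C.S.sec.contAt hg₀'.1
          exact ContinuousAt.comp (g := σ) e1 hGzc.continuousAt
        have hnearbox : ∀ᶠ x in 𝓝[{x | ρ x ≤ 0}] x₀, Fl (-t₀) x ∈ TubO σ (u p) e k' b := by
          refine nhdsWithin_le_nhds ((C.flow.cont_x (-t₀)).continuousAt.eventually
            ((C.TubOk_open (hk'k.trans hk)).mem_nhds ?_))
          rw [C.mTOk (hk'k.trans hk), h4, abs_zero]
          exact ⟨hm3.1, hk'0, hm3.2.2⟩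
        have hGD : ∀ x, Fl (-t₀) x ∈ TubO σ (u p) e k' b →
            σ (Gz x) ∈ D ∧ c₁ < ρ (σ (Gz x)) := by
          intro x hx
          have h5 := (C.mTOk (hk'k.trans hk)).1 hx
          have h6 : ‖(sc x / k') • yc x‖ < b := by
            rw [norm_smul, Real.norm_eq_abs, abs_div, abs_of_pos hk'0]
            have h7 : |sc x| / k' ≤ 1 := by rw [div_le_one hk'0]; exact h5.2.1.le
            have h8 : 0 ≤ |sc x| / k' := by positivity
            calc |sc x| / k' * ‖yc x‖ ≤ 1 * ‖yc x‖ := by gcongr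
              _ < b := by rw [one_mul]; exact h5.2.2
          obtain ⟨g1, g2, g3, g4⟩ := hbk ((sc x / k') • yc x) (by
            rw [inner_smul_right]; simp only [hyc]; rw [pe_orth C.S.unit, mul_zero]) h6
          exact ⟨hU'D _ g3 g4, hkc _ g2⟩
        have hT : Tendsto (fun x => R₀ (σ (Gz x))) (𝓝[{x | ρ x ≤ 0}] x₀) (𝓝 q) := by
          have e1 : ContinuousWithinAt R₀ D g₀ := C.ret_cont g₀ (hU'D _ hg₀'.2.2.1 hg₀'.2.2.2)
          have e2 : Tendsto (fun x => σ (Gz x)) (𝓝[{x | ρ x ≤ 0}] x₀) (𝓝[D] g₀) := by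
            refine tendsto_nhdsWithin_of_tendsto_nhds_of_eventually_within _ ?_ ?_
            · have := hGc.tendsto
              rw [hGz0] at this
              exact this.mono_left nhdsWithin_le_nhds
            · filter_upwards [hnearbox] with x hx using (hGD x hx).1
          exact e1.tendsto.comp e2
        show Tendsto _ _ (𝓝 (if x₀ ∈ U' then R₀ x₀ else q))
        rw [if_neg h1]
        refine tendsto_def.2 fun s hs => ?_
        have hT' : ∀ᶠ x in 𝓝[{x | ρ x ≤ 0}] x₀, R₀ (σ (Gz x)) ∈ s := hT hs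
        have hself : ∀ᶠ x in 𝓝[{x | ρ x ≤ 0}] x₀, ρ x ≤ 0 := self_mem_nhdsWithin
        filter_upwards [hT', hnearbox, hself] with x hx1 hx2 hx3
        show (if x ∈ U' then R₀ x else q) ∈ s
        by_cases hxU : x ∈ U'
        · rw [if_pos hxU]
          have hx3' : ρ x ≤ 0 := hx3
          have h5 := (C.mTOk (hk'k.trans hk)).1 hx2
          have h6 := C.TubOk (hk'k.trans hk) hx2
          have hspos : 0 < ⟪e, u (Fl (-t₀) x) - u p⟫ := by
            rcases lt_trichotomy ⟪e, u (Fl (-t₀) x) - u p⟫ 0 with hs | hs | hs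
            · exact absurd hxU (fun h => hUD x hx3 (hboxU x hx3' t₀ ht₀ h6 hs) h)
            · exfalso
              obtain ⟨t, ht, htc, -⟩ := hxU
              have hx2' : Fl (-t₀) x ∈ TubO σ (u p) e k b := by
                rw [C.mTOk hk]
                exact ⟨h5.1, h5.2.1.trans hk'k, h5.2.2⟩
              exact (C.side_ne hk hkc hx3' ht₀ ht hx2' htc).1 hs
            · exact hs
          obtain ⟨t, ht, -, -, h9, -⟩ := C.toface h6 hk'0 (hk'k.trans hk).le hspos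
            (abs_lt.1 h5.2.1).2.le
          have h10 : Fl (-(t + t₀)) x = σ (Gz x) := by
            rw [show -(t + t₀) = -t + -t₀ by ring, C.flow.add, h9]
          obtain ⟨g1, g2⟩ := hGD x hx2
          have h11 := C.ret_shift hx3' (t := t + t₀) (by positivity) (by rw [h10]; exact g2)
            (by rw [h10]; exact g1.2)
          rw [h10] at h11
          rw [hR₀, ← h11]
          exact hx1
        · rw [if_neg hxU]
          exact mem_of_mem_nhds hs
  · intro x hx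
    by_cases h1 : x ∈ U'
    · simp only [if_pos h1]; exact hretU' x hx h1
    · simp only [if_neg h1]; exact hqm
  · intro x hx
    have hx1 : ρ x ≤ c₁ := hx.1
    exact hx1.trans hle.le
  · intro x hx
    obtain ⟨t, ht, h2⟩ := hsmall O' hO' x hx.1 hx.2
    have h1 : x ∈ U' := ⟨t, ht.le, h2⟩
    simp only [if_pos h1]
    exact C.ret_of_le hx.1

end CutF

end Pool.Agent.Q196.XF
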