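import Pool.Agent.Q196.XB.Gauss

/-! Construction of vector fields with positivity conditions, and backward orbits. -/

set_option autoImplicit false
set_option linter.unusedSectionVars false

open scoped Topology ContDiff Manifold RealInnerProductSpace Gradient
open Set Metric Filter Bundle Pool.Agent.Q196.XB

noncomputable section

namespace Pool.Agent.Q196.XF

variable {E : Type} [NormedAddCommGroup E] [InnerProductSpace ℝ E] [FiniteDimensional ℝ E]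
  {N : Type} [TopologicalSpace N] [ChartedSpace E N] [IsManifold 𝓘(ℝ, E) ∞ N]

/-- Vector fields with prescribed values on two disjoint closed sets which satisfy finitely many
positivity conditions on closed sets. -/
theorem exists_field [T2Space N] [SigmaCompactSpace N] {ι : Type} [Finite ι]
    {K : ι → Set N} (hK : ∀ i, IsClosed (K i)) {c : ι → N → E} (hc : ∀ i, Continuous (c i))
    {S₁ S₂ : Set N} (h₁ : IsClosed S₁) (h₂ : IsClosed S₂) (hd : Disjoint S₁ S₂)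
    {Y₁ Y₂ : N → E} (hY₁ : ContMDiff 𝓘(ℝ, E) 𝓘(ℝ, E) ∞ Y₁)
    (hY₂ : ContMDiff 𝓘(ℝ, E) 𝓘(ℝ, E) ∞ Y₂)
    (hp₁ : ∀ x ∈ S₁, ∀ i, x ∈ K i → 0 < ⟪c i x, Y₁ x⟫)
    (hp₂ : ∀ x ∈ S₂, ∀ i, x ∈ K i → 0 < ⟪c i x, Y₂ x⟫)
    (hp : ∀ x, x ∉ S₁ → x ∉ S₂ → ∃ v, ∀ i, x ∈ K i → 0 < ⟪c i x, v⟫) :
    ∃ X : N → E, ContMDiff 𝓘(ℝ, E) 𝓘(ℝ, E) ∞ X ∧ (∀ x ∈ S₁, X x = Y₁ x) ∧
      (∀ x ∈ S₂, X x = Y₂ x) ∧ ∀ i, ∀ x ∈ K i, 0 < ⟪c i x, X x⟫ := by
  let t : N → Set E := fun x => {v | (x ∈ S₁ → v ∈ ({Y₁ x} : Set E)) ∧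
    (x ∈ S₂ → v ∈ ({Y₂ x} : Set E)) ∧ ∀ i, (x ∈ K i → v ∈ {v : E | 0 < ⟪c i x, v⟫})}
  have ht : ∀ x, Convex ℝ (t x) := fun x => by
    have h3 : Convex ℝ {v : E | ∀ i, (x ∈ K i → v ∈ {v : E | 0 < ⟪c i x, v⟫})} := by
      have : {v : E | ∀ i, (x ∈ K i → v ∈ {v : E | 0 < ⟪c i x, v⟫})} =
          ⋂ i, {v : E | x ∈ K i → v ∈ {v : E | 0 < ⟪c i x, v⟫}} := by
        ext v; simp
      rw [this]
      exact convex_iInter fun i => convex_imp (convex_pos _)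
    exact (convex_imp (convex_singleton _)).inter ((convex_imp (convex_singleton _)).inter h3)
  have key : ∀ (x : N) (Y : N → E), Continuous Y → (∀ i, x ∈ K i → 0 < ⟪c i x, Y x⟫) →
      ∀ᶠ y in 𝓝 x, ∀ i, y ∈ K i → 0 < ⟪c i y, Y y⟫ := by
    intro x Y hY hx
    rw [eventually_all]
    intro i
    by_cases hi : x ∈ K i
    · have := ev_gt (f := fun y => ⟪c i y, Y y⟫) ((hc i).inner hY) (hx i hi)
      exact this.mono fun y hy _ => hy
    · have : ∀ᶠ y in 𝓝 x, y ∉ K i := (hK i).isOpen_compl.mem_nhds hi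
      exact this.mono fun y hy h => absurd h hy
  have hloc : ∀ x : N, ∃ U ∈ 𝓝 x, ∃ g : N → E, ContMDiffOn 𝓘(ℝ, E) 𝓘(ℝ, E) ∞ g U ∧
      ∀ y ∈ U, g y ∈ t y := by
    intro x
    by_cases hx₁ : x ∈ S₁
    · have hx₂ : x ∉ S₂ := fun h => Set.disjoint_left.1 hd hx₁ h
      refine ⟨_, (key x Y₁ hY₁.continuous (hp₁ x hx₁)).and (h₂.isOpen_compl.mem_nhds hx₂), Y₁,
        hY₁.contMDiffOn, ?_⟩
      intro y hy
      exact ⟨fun _ => rfl, fun h => absurd h hy.2, hy.1⟩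
    · by_cases hx₂ : x ∈ S₂
      · refine ⟨_, (key x Y₂ hY₂.continuous (hp₂ x hx₂)).and (h₁.isOpen_compl.mem_nhds hx₁), Y₂,
          hY₂.contMDiffOn, ?_⟩
        intro y hy
        exact ⟨fun h => absurd h hy.2, fun _ => rfl, hy.1⟩
      · obtain ⟨v, hv⟩ := hp x hx₁ hx₂
        have e1 : ∀ᶠ y in 𝓝 x, y ∉ S₁ := h₁.isOpen_compl.mem_nhds hx₁
        have e2 : ∀ᶠ y in 𝓝 x, y ∉ S₂ := h₂.isOpen_compl.mem_nhds hx₂
        refine ⟨_, (key x (fun _ => v) continuous_const hv).and (e1.and e2), fun _ => v,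
          contMDiffOn_const, ?_⟩
        intro y hy
        exact ⟨fun h => absurd h hy.2.1, fun h => absurd h hy.2.2, hy.1⟩
  obtain ⟨X, hX⟩ := exists_contMDiffMap_forall_mem_convex_of_local (n := ⊤) 𝓘(ℝ, E) ht hloc
  exact ⟨X, X.contMDiff, fun x hx => (hX x).1 hx, fun x hx => (hX x).2.1 hx,
    fun i x hx => (hX x).2.2 i hx⟩

/-- The same with a flow; everything holds inside a compact set. -/
theorem exists_flow_field [T2Space N] [SigmaCompactSpace N] {u : N → E}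
    (hu : IsLocalDiffeomorph 𝓘(ℝ, E) 𝓘(ℝ, E) ∞ u) {C : Set N} (hC : IsCompact C)
    {ι : Type} [Finite ι]
    {K : ι → Set N} (hK : ∀ i, IsClosed (K i)) {c : ι → N → E} (hc : ∀ i, Continuous (c i))
    {S₁ S₂ : Set N} (h₁ : IsClosed S₁) (h₂ : IsClosed S₂) (hd : Disjoint S₁ S₂)
    {Y₁ Y₂ : N → E} (hY₁ : ContMDiff 𝓘(ℝ, E) 𝓘(ℝ, E) ∞ Y₁)
    (hY₂ : ContMDiff 𝓘(ℝ, E) 𝓘(ℝ, E) ∞ Y₂)
    (hp₁ : ∀ x ∈ S₁, ∀ i, x ∈ K i → 0 < ⟪c i x, Y₁ x⟫)
    (hp₂ : ∀ x ∈ S₂, ∀ i, x ∈ K i → 0 < ⟪c i x, Y₂ x⟫)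
    (hp : ∀ x, x ∉ S₁ → x ∉ S₂ → ∃ v, ∀ i, x ∈ K i → 0 < ⟪c i x, v⟫) :
    ∃ (X : N → E) (Fl : ℝ → N → N), ContMDiff 𝓘(ℝ, E) 𝓘(ℝ, E) ∞ X ∧ IsFlow u X Fl ∧
      (∀ x ∈ S₁, x ∈ C → X x = Y₁ x) ∧
      (∀ x ∈ S₂, x ∈ C → X x = Y₂ x) ∧ ∀ i, ∀ x ∈ K i, x ∈ C → 0 < ⟪c i x, X x⟫ := by
  obtain ⟨X₀, hX₀, ha, hb, hk⟩ := exists_field hK hc h₁ h₂ hd hY₁ hY₂ hp₁ hp₂ hp
  obtain ⟨χ, K', hχ, hK', -, hχ1, hχ0⟩ := Helper186.exists_cutoff 𝓘(ℝ, E) hC isOpen_univ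
    (subset_univ C)
  set X : N → E := fun x => χ x • X₀ x with hX
  have hXs : ContMDiff 𝓘(ℝ, E) 𝓘(ℝ, E) ∞ X := hχ.smul hX₀
  have hX1 : ∀ x ∈ C, X x = X₀ x := by
    intro x hx
    have : χ x = 1 := hχ1.self_of_nhdsSet x hx
    simp only [hX]
    rw [this, one_smul]
  obtain ⟨Fl, hFl⟩ := exists_flow hu hXs hK' (fun x hx => by
    simp only [hX]
    rw [hχ0 x hx, zero_smul])
  refine ⟨X, Fl, hXs, hFl, fun x hx hxC => ?_, fun x hx hxC => ?_, fun i x hx hxC => ?_⟩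
  · rw [hX1 x hxC]; exact ha x hx
  · rw [hX1 x hxC]; exact hb x hx
  · rw [hX1 x hxC]; exact hk i x hx

/-- Backward orbits reach the set `O` outside of which `f` increases along the field; it is enough
that the field points outwards outside of `O`. -/
theorem reach' [T2Space N] {u X : N → E} (hu : IsLocalDiffeomorph 𝓘(ℝ, E) 𝓘(ℝ, E) ∞ u)
    (hX : Continuous X)
    {Fl : ℝ → N → N} (h : IsFlow u X Fl) {ρ : N → ℝ} (hρ : ContMDiff 𝓘(ℝ, E) 𝓘(ℝ, ℝ) ∞ ρ)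
    (hcomp : IsCompact {x | ρ x ≤ 0}) {O : Set N} (hO : IsOpen O)
    (hout : ∀ x, ρ x = 0 → x ∉ O → 0 < ⟪gr u ρ x, X x⟫)
    {f : N → ℝ} (hf : ContMDiff 𝓘(ℝ, E) 𝓘(ℝ, ℝ) ∞ f)
    (hfX : ∀ x, ρ x ≤ 0 → x ∉ O → 0 < ⟪gr u f x, X x⟫) {x : N} (hx : ρ x ≤ 0) :
    ∃ t, 0 ≤ t ∧ Fl (-t) x ∈ O := by
  by_contra hne
  push Not at hne
  have hin : ∀ t, 0 ≤ t → ρ (Fl (-t) x) ≤ 0 := fun t ht =>
    h.stay hρ hx (fun s hs0 _ _ hs => hout _ hs (hne s hs0)) t ⟨ht, le_rfl⟩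
  have hK : IsCompact ({x | ρ x ≤ 0} \ O) := hcomp.diff hO
  have hKn : ({x | ρ x ≤ 0} \ O).Nonempty := ⟨x, hx, by
    have := hne 0 le_rfl
    rwa [neg_zero, h.zero] at this⟩
  have hcont : Continuous (fun x => ⟪gr u f x, X x⟫ : N → ℝ) :=
    (gr_smooth hu hf).continuous.inner hX
  obtain ⟨y, hy, hymin⟩ := hK.exists_isMinOn hKn hcont.continuousOn
  set c : ℝ := ⟪gr u f y, X y⟫ with hc
  have hc0 : 0 < c := hfX y hy.1 hy.2
  obtain ⟨z, hz, hzmin⟩ := hcomp.exists_isMinOn ⟨x, hx⟩ hf.continuous.continuousOn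
  have hbound : ∀ t, 0 ≤ t → f (Fl (-t) x) ≤ f x - c * t := by
    intro t ht
    have h1 := image_le_of_deriv_right_le_deriv_boundary (f := fun t => f (Fl (-t) x))
      (f' := fun t => -⟪gr u f (Fl (-t) x), X (Fl (-t) x)⟫) (a := 0) (b := t)
      (B := fun t => f x - c * t) (B' := fun _ => -c)
      (fun s _ => (h.deriv_neg hf x s).continuousAt.continuousWithinAt)
      (fun s _ => (h.deriv_neg hf x s).hasDerivWithinAt)
      (by simp [h.zero])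
      (fun s _ => by
        have h2 : ContinuousAt (fun t : ℝ => f x - c * t) s := by fun_prop
        exact h2.continuousWithinAt)
      (fun s _ => by
        have := ((hasDerivAt_id s).const_mul c).const_sub (f x)
        simp only [mul_one] at this
        exact this.hasDerivWithinAt)
      (fun s hs => by
        have h3 : c ≤ ⟪gr u f (Fl (-s) x), X (Fl (-s) x)⟫ :=
          isMinOn_iff.1 hymin _ ⟨hin s hs.1, hne s hs.1⟩
        linarith)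
    exact h1 ⟨ht, le_rfl⟩
  have h5 := isMinOn_iff.1 hzmin
  have h6 : ∀ t, 0 ≤ t → f z ≤ f x - c * t := fun t ht =>
    (h5 _ (hin t ht)).trans (hbound t ht)
  have h7 := h6 ((f x - f z + 1) / c) (by
    have := h5 x hx
    apply div_nonneg _ hc0.le
    linarith)
  rw [mul_div_cancel₀ _ hc0.ne'] at h7
  linarith

/-- A sublevel set of `g` is backward invariant inside the domain if `g` increases along the field
at its level. -/
theorem stay_level [T2Space N] {u X : N → E} {Fl : ℝ → N → N} (h : IsFlow u X Fl) {ρ g : N → ℝ}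
    (hρ : ContMDiff 𝓘(ℝ, E) 𝓘(ℝ, ℝ) ∞ ρ) (hg : ContMDiff 𝓘(ℝ, E) 𝓘(ℝ, ℝ) ∞ g)
    (hout : ∀ x, ρ x = 0 → 0 < ⟪gr u ρ x, X x⟫) {c : ℝ}
    (hgX : ∀ x, ρ x ≤ 0 → g x = c → 0 < ⟪gr u g x, X x⟫) {x : N} (hx : ρ x ≤ 0) (hgx : g x ≤ c)
    {t : ℝ} (ht : 0 < t) : g (Fl (-t) x) < c := by
  have hin : ∀ t, 0 ≤ t → ρ (Fl (-t) x) ≤ 0 := fun t ht =>
    h.stay hρ hx (fun s hs0 _ _ hs => hout _ hs) t ⟨ht, le_rfl⟩
  have hct : Continuous (fun s : ℝ => g (Fl (-s) x)) :=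
    hg.continuous.comp ((h.cont_t x).comp continuous_neg)
  -- after any time at which the value is at most `c`, the value is smaller immediately afterwards
  have hnext : ∀ s, 0 ≤ s → g (Fl (-s) x) ≤ c → ∀ᶠ r in 𝓝[>] s, g (Fl (-r) x) < c := by
    intro s hs hle
    rcases hle.eq_or_lt with h1 | h1
    · have h2 := h.deriv_neg hg x s
      have h3 := hgX _ (hin s hs) h1
      have h6 : ∀ᶠ r in 𝓝[>] s, slope (fun r => g (Fl (-r) x)) s r < 0 :=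
        (hasDerivWithinAt_iff_tendsto_slope' (s := Ioi s) self_notMem_Ioi).1
          h2.hasDerivWithinAt |>.eventually_lt_const (by linarith)
      filter_upwards [h6, self_mem_nhdsWithin] with r h7 hr
      have hr' : s < r := hr
      rw [slope_def_field, div_lt_iff₀ (by linarith), h1] at h7
      linarith
    · exact nhdsWithin_le_nhds (ev_lt hct h1)
  have hle : ∀ s ∈ Icc 0 t, g (Fl (-s) x) ≤ c := by
    have hcl : IsClosed ({s | g (Fl (-s) x) ≤ c} ∩ Icc 0 t) :=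
      (isClosed_le hct continuous_const).inter isClosed_Icc
    refine hcl.Icc_subset_of_forall_mem_nhdsWithin ?_ ?_
    · show g (Fl (-0) x) ≤ c
      rw [neg_zero, h.zero]; exact hgx
    · rintro s ⟨hs1, hs2⟩
      exact (hnext s hs2.1 hs1).mono fun r hr => hr.le
  -- strictness
  rcases (hle t ⟨ht.le, le_rfl⟩).eq_or_lt with h1 | h1
  · exfalso
    have h2 := h.deriv_neg hg x t
    have h3 := hgX _ (hin t ht.le) h1
    have h6 : ∀ᶠ r in 𝓝[<] t, slope (fun r => g (Fl (-r) x)) t r < 0 :=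
      (hasDerivWithinAt_iff_tendsto_slope' (s := Iio t) self_notMem_Iio).1
        h2.hasDerivWithinAt |>.eventually_lt_const (by linarith)
    have h7 : ∀ᶠ r in 𝓝[<] t, 0 < r := nhdsWithin_le_nhds (lt_mem_nhds ht)
    obtain ⟨r, ⟨hr1, hr2⟩, hr3⟩ := ((h6.and h7).and self_mem_nhdsWithin).exists
    have hr3' : r < t := hr3
    rw [slope_def_field, div_lt_iff_of_neg (by linarith), h1, zero_mul] at hr1
    have := hle r ⟨hr2.le, hr3'.le⟩
    linarith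
  · exact h1

end Pool.Agent.Q196.XF
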