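import Pool.Agent.Q196.XF.BChart

/-! A domain whose points all flow backwards into a smooth ball is a smooth ball. -/

set_option autoImplicit false
set_option linter.unusedSectionVars false

open scoped Topology ContDiff Manifold RealInnerProductSpace Gradient
open Set Metric Filter Bundle Pool.Agent.Q196.XB Asymptotics

noncomputable section

namespace Pool.Agent.Q196.XF

variable {E : Type} [NormedAddCommGroup E] [InnerProductSpace ℝ E] [FiniteDimensional ℝ E]
  {N : Type} [TopologicalSpace N] [ChartedSpace E N] [IsManifold 𝓘(ℝ, E) ∞ N]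

lemma fderiv_normsq (z w : E) : fderiv ℝ (fun z : E => ‖z‖ ^ 2) z w = 2 * ⟪z, w⟫ := by
  have h5 := ((hasFDerivAt_id (𝕜 := ℝ) z)).norm_sq
  have : HasFDerivAt (fun z : E => ‖z‖ ^ 2) (2 • (innerSL ℝ z)) z := by
    refine h5.congr_fderiv ?_
    ext v
    simp
  rw [this.fderiv]
  simp

/-- first order expansion with the derivative at the moving point -/
lemma expand {om : E → E} {z₀ : E} (hom : ContDiffAt ℝ ∞ om z₀) :
    (fun w => om w - om z₀ - fderiv ℝ om w (w - z₀)) =o[𝓝 z₀] fun w => w - z₀ := by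
  have h1 : (fun w => om w - om z₀ - fderiv ℝ om z₀ (w - z₀)) =o[𝓝 z₀] fun w => w - z₀ :=
    (hom.differentiableAt (by simp)).hasFDerivAt.isLittleO
  have h2 : (fun w => (fderiv ℝ om w - fderiv ℝ om z₀) (w - z₀)) =o[𝓝 z₀] fun w => w - z₀ := by
    have h3 : Tendsto (fun w => fderiv ℝ om w - fderiv ℝ om z₀) (𝓝 z₀) (𝓝 0) := by
      have h4 : ContinuousAt (fderiv ℝ om) z₀ :=
        (hom.fderiv_right (m := 0) (by simp)).continuousAt
      have := h4.tendsto.sub (tendsto_const_nhds (x := fderiv ℝ om z₀))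
      rwa [sub_self] at this
    have h5 : (fun w => fderiv ℝ om w - fderiv ℝ om z₀) =o[𝓝 z₀] fun _ => (1:ℝ) :=
      (isLittleO_one_iff ℝ).2 h3
    have h6 : (fun w => (fderiv ℝ om w - fderiv ℝ om z₀) (w - z₀)) =O[𝓝 z₀]
        fun w => ‖fderiv ℝ om w - fderiv ℝ om z₀‖ * ‖w - z₀‖ := by
      refine IsBigO.of_bound 1 (Eventually.of_forall fun w => ?_)
      rw [one_mul, Real.norm_eq_abs, abs_of_nonneg (by positivity)]
      exact ContinuousLinearMap.le_opNorm _ _
    refine h6.trans_isLittleO ?_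
    have h7 := h5.norm_left.mul_isBigO (isBigO_refl (fun w : E => ‖w - z₀‖) (𝓝 z₀))
    simp only [one_mul] at h7
    exact h7.trans_isBigO (isBigO_refl _ _).norm_left
  have h3 := h1.sub h2
  refine h3.congr_left fun w => ?_
  rw [_root_.sub_apply]
  abel

theorem ball_of_ball [T2Space N] [SigmaCompactSpace N] {u : N → E}
    (hu : IsLocalDiffeomorph 𝓘(ℝ, E) 𝓘(ℝ, E) ∞ u) {ρ ρB : N → ℝ}
    (hρ : ContMDiff 𝓘(ℝ, E) 𝓘(ℝ, ℝ) ∞ ρ) (hρB : ContMDiff 𝓘(ℝ, E) 𝓘(ℝ, ℝ) ∞ ρB)
    (hcomp : IsCompact {x | ρ x ≤ 0}) (hregB : ∀ x, ρB x = 0 → gr u ρB x ≠ 0)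
    (hsub : ∀ x, ρB x ≤ 0 → ρ x < 0) (hball : IsBall E {x | ρB x ≤ 0}) {X : N → E}
    (hX : ContMDiff 𝓘(ℝ, E) 𝓘(ℝ, E) ∞ X) (hout : ∀ x, ρ x = 0 → 0 < ⟪gr u ρ x, X x⟫)
    (houtB : ∀ x, ρB x = 0 → 0 < ⟪gr u ρB x, X x⟫)
    (hreach : ∀ (X' : N → E) (Fl' : ℝ → N → N), ContMDiff 𝓘(ℝ, E) 𝓘(ℝ, E) ∞ X' →
      IsFlow u X' Fl' → (∀ x, ρ x ≤ 0 → 0 ≤ ρB x → X' x = X x) →
      ∀ x, ρ x ≤ 0 → ∃ t, 0 ≤ t ∧ ρB (Fl' (-t) x) < 0) :
    IsBall E {x | ρ x ≤ 0} := by
  have hus : ContMDiff 𝓘(ℝ, E) 𝓘(ℝ, E) ∞ u := hu.contMDiff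
  have huc : Continuous u := hus.continuous
  obtain ⟨Φ, he, hΦ, himg⟩ := hball
  obtain ⟨Ψ, hΨ, hi⟩ := exists_coord he hΦ
  set om : E → E := u ∘ Φ with hom
  have homs : ContDiff ℝ ∞ om := by
    rw [← contMDiff_iff_contDiff]
    exact hus.comp hΦ.contMDiff
  set nn : E → ℝ := fun z => ‖z‖ ^ 2 with hnn
  have hnns : ContDiff ℝ ∞ nn := contDiff_id.norm_sq ℝ
  set n : N → ℝ := nn ∘ Ψ with hn
  have hns : ContMDiff 𝓘(ℝ, E) 𝓘(ℝ, ℝ) ∞ n := hnns.contMDiff.comp hΨ
  have hgn : ∀ z ∈ ball (0:E) 2, ∀ w, ⟪gr u n (Φ z), fderiv ℝ om z w⟫ = 2 * ⟪z, w⟫ := by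
    intro z hz w
    rw [hn, hom, gr_coord hu hΦ hΨ hi hnns hz w, hnn, fderiv_normsq]
  set p₁ := Φ 0 with hp₁
  set z₁ := u p₁ with hz₁
  -- near the centre
  have hcen : ∀ᶠ x in 𝓝 p₁, x ≠ p₁ → 0 < ⟪gr u n x, u x - z₁⟫ := by
    have hgr0 : gr u n (Φ 0) = 0 := by
      obtain ⟨w, hw⟩ := surj_push hu hΦ 0 (gr u n (Φ 0))
      have h2 := hgn 0 (mem_ball_self two_pos) w
      rw [← hom] at hw
      rw [hw, inner_zero_left, mul_zero] at h2
      exact inner_self_eq_zero.1 h2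
    have hgd : ContDiff ℝ ∞ (fun w => gr u n (Φ w)) := by
      rw [← contMDiff_iff_contDiff]
      exact (gr_smooth hu hns).comp hΦ.contMDiff
    have h1 : (fun w => gr u n (Φ w)) =O[𝓝 (0:E)] fun w => w := by
      have h2 := ((hgd.differentiable (by simp)) 0).hasFDerivAt.isBigO_sub
      simp only [hgr0, sub_zero] at h2
      exact h2
    have h2 := expand (z₀ := (0:E)) homs.contDiffAt
    simp only [sub_zero] at h2
    have h3 : (fun w => ⟪gr u n (Φ w), om w - om 0 - fderiv ℝ om w w⟫) =o[𝓝 (0:E)]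
        fun w => ‖w‖ * ‖w‖ := by
      have h4 : (fun w => ⟪gr u n (Φ w), om w - om 0 - fderiv ℝ om w w⟫) =O[𝓝 (0:E)]
          fun w => ‖gr u n (Φ w)‖ * ‖om w - om 0 - fderiv ℝ om w w‖ := by
        refine IsBigO.of_bound 1 (Eventually.of_forall fun w => ?_)
        rw [one_mul, Real.norm_eq_abs, Real.norm_eq_abs, abs_of_nonneg
          (by positivity : 0 ≤ ‖gr u n (Φ w)‖ * ‖om w - om 0 - fderiv ℝ om w w‖)]
        exact abs_real_inner_le_norm _ _
      exact h4.trans_isLittleO (h1.norm_left.norm_right.mul_isLittleO h2.norm_left.norm_right)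
    have h4 : ∀ᶠ w in 𝓝 (0:E), w ≠ 0 → 0 < ⟪gr u n (Φ w), om w - om 0⟫ := by
      filter_upwards [h3.def one_pos, isOpen_ball.mem_nhds (mem_ball_self two_pos)] with w h5 hw hw0
      have h6 : ⟪gr u n (Φ w), om w - om 0⟫ = 2 * ⟪w, w⟫ +
          ⟪gr u n (Φ w), om w - om 0 - fderiv ℝ om w w⟫ := by
        rw [inner_sub_right (gr u n (Φ w)) (om w - om 0), hgn w hw w]
        ring
      rw [h6, real_inner_self_eq_norm_sq]
      rw [one_mul, Real.norm_eq_abs, Real.norm_eq_abs, abs_of_nonneg (by positivity :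
        0 ≤ ‖w‖ * ‖w‖)] at h5
      have h7 := (abs_le.1 h5).1
      have h8 : 0 < ‖w‖ := norm_pos_iff.2 hw0
      nlinarith
    have h5 : ∀ᶠ x in 𝓝 p₁, x ∈ Φ '' {w | w ≠ 0 → 0 < ⟪gr u n (Φ w), om w - om 0⟫} :=
      he.isOpenMap.image_mem_nhds h4
    filter_upwards [h5] with x hx hxp
    obtain ⟨w, hw, rfl⟩ := hx
    exact hw (fun h => hxp (by rw [h]))
  have hp₁B : ρB p₁ < 0 := by
    have h1 : ρB p₁ ≤ 0 := by
      have : Φ 0 ∈ Φ '' closedBall (0:E) 1 := ⟨0, mem_closedBall_self zero_le_one, rfl⟩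
      rw [himg] at this
      exact this
    rcases h1.eq_or_lt with h | h
    · -- then the gradient of `ρB` does not vanish at an interior point
      exfalso
      have h2 : ∀ᶠ x in 𝓝 p₁, ρB x ≤ 0 := by
        have h3 : Φ '' ball (0:E) 1 ∈ 𝓝 p₁ :=
          he.isOpenMap.image_mem_nhds (ball_mem_nhds _ one_pos)
        filter_upwards [h3] with x hx
        have : x ∈ Φ '' closedBall (0:E) 1 := image_mono ball_subset_closedBall hx
        rw [himg] at this
        exact this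
      set g : E → ℝ := ρB ∘ Φ with hg
      have hgs : ContDiff ℝ ∞ g := by
        rw [← contMDiff_iff_contDiff]
        exact hρB.comp hΦ.contMDiff
      have h3 : IsLocalMax g 0 := by
        have h4 : ∀ᶠ z in 𝓝 (0:E), ρB (Φ z) ≤ 0 := he.continuous.continuousAt.eventually h2
        filter_upwards [h4] with z hz
        show ρB (Φ z) ≤ ρB (Φ 0)
        rw [← hp₁, h]
        exact hz
      have h4 := h3.fderiv_eq_zero
      apply hregB p₁ h
      obtain ⟨w, hw⟩ := surj_push hu hΦ 0 (gr u ρB (Φ 0))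
      have h5 := gr_push hu (g := ρB) (hΦ.contMDiff.mdifferentiableAt (by simp) : MDifferentiableAt
        𝓘(ℝ, E) 𝓘(ℝ, E) Φ 0) (hρB.mdifferentiableAt (by simp)) w
      rw [hw, ← hg, h4] at h5
      exact inner_self_eq_zero.1 h5
    · exact h
  obtain ⟨σ, r, hr, hσ, hσp, hσW⟩ := exists_ball_sec hu p₁
    (Filter.inter_mem ((isOpen_lt hρB.continuous continuous_const).mem_nhds hp₁B) hcen)
  rw [← hz₁] at hσ hσp hσW
  have hr2 : 0 < r / 2 := by positivity
  have hcb : closedBall z₁ (r / 2) ⊆ ball z₁ r := closedBall_subset_ball (by linarith)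
  have hsec : Sec u (ball z₁ (r / 2)) σ := hσ.mono huc isOpen_ball
    (ball_subset_closedBall.trans hcb)
  set S₁ : Set N := σ '' closedBall z₁ (r / 2) with hS₁
  have hS₁c : IsCompact S₁ := (isCompact_closedBall z₁ (r / 2)).image_of_continuousOn
    (hσ.cont.mono hcb)
  set O : Set N := σ '' ball z₁ (r / 2) with hO
  have hOo : IsOpen O := hsec.image
  have hp₁O : p₁ ∈ O := ⟨z₁, mem_ball_self hr2, hσp⟩
  have hS₁B : ∀ x ∈ S₁, ρB x < 0 := fun x hx => (hσW (image_mono hcb hx)).1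
  obtain ⟨X', Fl', hX's, hFl', hX'1, hX'2, hX'K⟩ := exists_flow_field hu hcomp (ι := Unit)
    (K := fun _ => {x | ρB x ≤ 0} \ O) (fun _ => (isClosed_le hρB.continuous
      continuous_const).sdiff hOo) (c := fun _ => gr u n) (fun _ => (gr_smooth hu hns).continuous)
    (S₁ := S₁) (S₂ := {x | ρ x ≤ 0 ∧ 0 ≤ ρB x}) hS₁c.isClosed
    ((isClosed_le hρ.continuous continuous_const).inter
      (isClosed_le continuous_const hρB.continuous))
    (by
      rw [Set.disjoint_left]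
      intro x hx hx2
      exact absurd hx2.2 (not_le.2 (hS₁B x hx)))
    (Y₁ := fun x => u x - z₁) (Y₂ := X) (hus.sub contMDiff_const) hX
    (by
      intro x hx _ hxK
      exact (hσW (image_mono hcb hx)).2 (fun h => hxK.2 (by rw [h]; exact hp₁O)))
    (by
      rintro x hx _ ⟨hxB, -⟩
      have h0 : ρB x = 0 := le_antisymm hxB hx.2
      have hxi : x ∈ Φ '' closedBall (0:E) 1 := by rw [himg]; exact hxB
      obtain ⟨z, hz, rfl⟩ := hxi
      have hz1 : ‖z‖ = 1 := by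
        rw [mem_closedBall_zero_iff] at hz
        rcases hz.eq_or_lt with h | h
        · exact h
        · exfalso
          -- an interior point of the ball with `ρB = 0`
          set g : E → ℝ := ρB ∘ Φ with hg
          have h3 : IsLocalMax g z := by
            have h4 : ∀ᶠ y in 𝓝 z, ‖y‖ < 1 := ev_lt continuous_norm h
            filter_upwards [h4] with y hy
            have : Φ y ∈ Φ '' closedBall (0:E) 1 := ⟨y, mem_closedBall_zero_iff.2 hy.le, rfl⟩
            rw [himg] at this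
            show ρB (Φ y) ≤ ρB (Φ z)
            rw [h0]
            exact this
          have h4 := h3.fderiv_eq_zero
          apply hregB _ h0
          obtain ⟨w, hw⟩ := surj_push hu hΦ z (gr u ρB (Φ z))
          have h5 := gr_push hu (g := ρB) (hΦ.contMDiff.mdifferentiableAt (by simp) :
            MDifferentiableAt 𝓘(ℝ, E) 𝓘(ℝ, E) Φ z) (hρB.mdifferentiableAt (by simp)) w
          rw [hw, ← hg, h4] at h5
          exact inner_self_eq_zero.1 h5
      obtain ⟨-, κ, hκ, hκ'⟩ := bdry_grad hu hρB hregB he hΦ himg hz1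
      obtain ⟨w, hw⟩ := surj_push hu hΦ z (X (Φ z))
      have h1 := houtB _ h0
      rw [← hw, hκ' w] at h1
      have h2 : 0 < ⟪z, w⟫ := (mul_pos_iff_of_pos_left hκ).1 h1
      show 0 < ⟪gr u n (Φ z), X (Φ z)⟫
      rw [← hw]
      have h3 := hgn z (by rw [mem_ball_zero_iff, hz1]; norm_num) w
      rw [hom] at h3
      rw [h3]
      linarith)
    (by
      intro x hx1 hx2
      by_cases hxK : x ∈ {x | ρB x ≤ 0} \ O
      · refine ⟨gr u n x, fun _ _ => ?_⟩
        rw [real_inner_self_eq_norm_sq]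
        have hxi : x ∈ Φ '' closedBall (0:E) 1 := by rw [himg]; exact hxK.1
        obtain ⟨z, hz, rfl⟩ := hxi
        rw [mem_closedBall_zero_iff] at hz
        have hz0 : z ≠ 0 := by
          rintro rfl
          exact hxK.2 hp₁O
        have h3 := hgn z (by rw [mem_ball_zero_iff]; linarith) z
        rw [real_inner_self_eq_norm_sq] at h3
        have h4 : gr u n (Φ z) ≠ 0 := by
          intro h
          rw [h, inner_zero_left] at h3
          have := norm_pos_iff.2 hz0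
          nlinarith
        have := norm_pos_iff.2 h4
        positivity
      · exact ⟨0, fun _ h => absurd h hxK⟩)
  have hX'X : ∀ x, ρ x ≤ 0 → 0 ≤ ρB x → X' x = X x := fun x h1 h2 => hX'2 x ⟨h1, h2⟩ h1
  have hout' : ∀ x, ρ x = 0 → 0 < ⟪gr u ρ x, X' x⟫ := by
    intro x hx
    rw [hX'X x hx.le (by
      by_contra h
      exact absurd (hsub x (not_le.1 h).le) (by rw [hx]; exact lt_irrefl 0))]
    exact hout x hx
  have hcompB : IsCompact {x | ρB x ≤ 0} := by
    rw [← himg]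
    exact (isCompact_closedBall 0 1).image he.continuous
  have hsrc : Src u X' (ball z₁ (r / 2)) σ z₁ := by
    refine ⟨hsec, convex_ball _ _, mem_ball_self hr2, ?_⟩
    intro z hz
    have hz' : z ∈ closedBall z₁ (r / 2) := ball_subset_closedBall hz
    have h1 : σ z ∈ S₁ := ⟨z, hz', rfl⟩
    rw [hX'1 _ h1 (hsub _ (hS₁B _ h1).le).le, hσ.right z (hcb hz')]
  refine core hu hFl' hρ hcomp hsrc (by rw [hσp]; exact hsub _ hp₁B.le) hout' ?_
  intro x hx
  obtain ⟨t, ht, htB⟩ := hreach X' Fl' hX's hFl' hX'X x hx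
  obtain ⟨s, hs, hsO⟩ := reach' hu hX's.continuous hFl' hρB hcompB hOo (x := Fl' (-t) x)
    (fun y hy _ => by
      rw [hX'X y (hsub y hy.le).le hy.ge]
      exact houtB y hy) hns
    (fun y hy hyO => hX'K () y ⟨hy, hyO⟩ (hsub y hy).le) htB.le
  refine ⟨s + t, by positivity, ?_⟩
  rw [show -(s + t) = -s + -t by ring, hFl'.add]
  exact hsO

end Pool.Agent.Q196.XF
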