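import Pool.Agent.Q196.XF.Lvl

/-! Embedded simply connected hypersurfaces which bound a ball are standard spheres. -/

set_option autoImplicit false
set_option linter.unusedSectionVars false

open scoped Topology ContDiff Manifold RealInnerProductSpace Gradient
open Set Metric Filter Module Pool.Agent.Q196.XB

noncomputable section

namespace Pool.Agent.Q196.XF

section general

variable {V : Type} [NormedAddCommGroup V] [InnerProductSpace ℝ V] [FiniteDimensional ℝ V]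

lemma id_ld' : IsLocalDiffeomorph 𝓘(ℝ, V) 𝓘(ℝ, V) ∞ (id : V → V) := by
  intro x
  exact (Diffeomorph.refl 𝓘(ℝ, V) V ∞).isLocalDiffeomorph x

lemma sec_id' : Sec (id : V → V) univ id where
  isOpen := isOpen_univ
  right := fun _ _ => rfl
  smooth := contMDiff_id.contMDiffOn
  image := by simp

lemma gr_id' {g : V → ℝ} (hg : ContDiff ℝ ∞ g) (x : V) : gr (id : V → V) g x = ∇ g x :=
  gr_comp id_ld' x (hg.differentiable (by simp) x)

lemma hb_id' {g : V → ℝ} (hg : ContDiff ℝ ∞ g) (x v w : V) :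
    hb (id : V → V) g x v w = ⟪fderiv ℝ (∇ g) x v, w⟫ :=
  hb_sec id_ld' hg.contMDiff sec_id' (by simp) v w

/-- the boundary of the ball -/
lemma sphere_iff {ρ : V → ℝ} (hρ : ContDiff ℝ ∞ ρ) (hreg : ∀ x, ρ x = 0 → ∇ ρ x ≠ 0)
    {Φ : V → V} (he : Topology.IsOpenEmbedding Φ) (hΦ : IsLocalDiffeomorph 𝓘(ℝ, V) 𝓘(ℝ, V) ∞ Φ)
    (himg : Φ '' closedBall 0 1 = {x | ρ x ≤ 0}) :
    (∀ z, ‖z‖ = 1 → ρ (Φ z) = 0) ∧ ∀ x, ρ x = 0 → ∃ z, ‖z‖ = 1 ∧ Φ z = x := by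
  have hreg' : ∀ x, ρ x = 0 → gr (id : V → V) ρ x ≠ 0 := fun x hx => by
    rw [gr_id' hρ]; exact hreg x hx
  constructor
  · intro z hz
    have h1 : Φ z ∈ {x | ρ x ≤ 0} := by
      rw [← himg]; exact ⟨z, mem_closedBall_zero_iff.2 hz.le, rfl⟩
    have h1' : ρ (Φ z) ≤ 0 := h1
    by_contra hne
    have h2 : ρ (Φ z) < 0 := lt_of_le_of_ne h1' hne
    have h3 : ContinuousAt (fun t : ℝ => ρ (Φ (t • z))) 1 := by
      have : Continuous (fun t : ℝ => ρ (Φ (t • z))) :=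
        hρ.continuous.comp (he.continuous.comp (by fun_prop))
      exact this.continuousAt
    have h4 : ∀ᶠ t : ℝ in 𝓝 1, ρ (Φ (t • z)) < 0 :=
      h3.eventually_lt_const (by
        show ρ (Φ ((1:ℝ) • z)) < 0
        rw [one_smul]; exact h2)
    obtain ⟨ε, hε, hε'⟩ := Metric.eventually_nhds_iff.1 h4
    have h5 := hε' (y := 1 + ε / 2) (by
      rw [Real.dist_eq, add_sub_cancel_left, abs_of_pos (by positivity)]
      linarith)
    have h6 : Φ ((1 + ε / 2) • z) ∈ Φ '' closedBall 0 1 := by rw [himg]; exact h5.le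
    obtain ⟨z', hz', hzz'⟩ := h6
    have h7 := he.injective hzz'
    rw [h7, mem_closedBall_zero_iff, norm_smul, hz, Real.norm_eq_abs,
      abs_of_pos (by positivity)] at hz'
    linarith
  · intro x hx
    have h1 : x ∈ Φ '' closedBall 0 1 := by rw [himg]; exact hx.le
    obtain ⟨z, hz, rfl⟩ := h1
    refine ⟨z, ?_, rfl⟩
    rcases (mem_closedBall_zero_iff.1 hz).eq_or_lt with h | h
    · exact h
    · have := ball_int id_ld' hρ.contMDiff hreg' hΦ himg h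
      linarith

end general

variable {n : ℕ} {X : Type} [TopologicalSpace X] [ChartedSpace (EuclideanSpace ℝ (Fin n)) X]
  [IsManifold (𝓡 n) ∞ X]

/-- **An embedded hypersurface which bounds a ball is diffeomorphic to the sphere.** -/
theorem diffeo_of_ball {j : X → EuclideanSpace ℝ (Fin (n + 1))}
    (hj : Manifold.IsSmoothEmbedding (𝓡 n) (𝓡 (n + 1)) ∞ j)
    {ρ : EuclideanSpace ℝ (Fin (n + 1)) → ℝ} (hρ : ContDiff ℝ ∞ ρ)
    (hreg : ∀ x, ρ x = 0 → ∇ ρ x ≠ 0) (hr : range j = {x | ρ x = 0})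
    (hb : IsBall (EuclideanSpace ℝ (Fin (n + 1))) {x | ρ x ≤ 0}) :
    Nonempty (X ≃ₘ⟮𝓡 n, 𝓡 n⟯ sphere (0 : EuclideanSpace ℝ (Fin (n + 1))) 1) := by
  haveI : Fact (finrank ℝ (EuclideanSpace ℝ (Fin (n + 1))) = n + 1) :=
    ⟨finrank_euclideanSpace_fin⟩
  obtain ⟨Φ, he, hΦ, himg⟩ := hb
  obtain ⟨h1, h2⟩ := sphere_iff hρ hreg he hΦ himg
  obtain ⟨Ψ, hΨ, hi⟩ := exists_coord he hΦ
  have hb2 : ∀ z : EuclideanSpace ℝ (Fin (n + 1)), ‖z‖ = 1 → z ∈ ball 0 2 := fun z hz => by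
    rw [mem_ball_zero_iff, hz]; norm_num
  have hj0 : ∀ x, ρ (j x) = 0 := fun x => by
    have : j x ∈ {x | ρ x = 0} := by rw [← hr]; exact ⟨x, rfl⟩
    exact this
  have hk : ∀ x, Ψ (j x) ∈ sphere (0 : EuclideanSpace ℝ (Fin (n + 1))) 1 := by
    intro x
    obtain ⟨z, hz, hzx⟩ := h2 (j x) (hj0 x)
    rw [← hzx, hi z (hb2 z hz)]
    exact mem_sphere_zero_iff_norm.2 hz
  have hΦk : ∀ x, Φ (Ψ (j x)) = j x := by
    intro x
    obtain ⟨z, hz, hzx⟩ := h2 (j x) (hj0 x)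
    rw [← hzx, hi z (hb2 z hz)]
  have hks : ContMDiff (𝓡 n) (𝓡 (n + 1)) ∞ (fun x => Ψ (j x)) := hΨ.comp hj.contMDiff
  have hh := hks.codRestrict_sphere (n := n) hk
  -- the inverse
  have hex : ∀ z : sphere (0 : EuclideanSpace ℝ (Fin (n + 1))) 1, ∃ x, j x = Φ z := by
    intro z
    have : Φ z ∈ range j := by
      rw [hr]; exact h1 z (mem_sphere_zero_iff_norm.1 z.2)
    exact this
  choose g hg using hex
  have hΦs : ContMDiff (𝓡 n) (𝓡 (n + 1)) ∞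
      (fun z : sphere (0 : EuclideanSpace ℝ (Fin (n + 1))) 1 => Φ z) :=
    hΦ.contMDiff.comp contMDiff_coe_sphere
  have hjg : j ∘ g = fun z : sphere (0 : EuclideanSpace ℝ (Fin (n + 1))) 1 => Φ z := funext hg
  have hgc : Continuous g := by
    rw [hj.isEmbedding.continuous_iff, hjg]
    exact hΦs.continuous
  have hgs : ContMDiff (𝓡 n) (𝓡 n) ∞ g :=
    (ContMDiff.iff_comp_isImmersion hj.isImmersion).2 ⟨hgc, by rw [hjg]; exact hΦs⟩
  refine ⟨⟨⟨Set.codRestrict _ _ hk, g, ?_, ?_⟩, hh, hgs⟩⟩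
  · intro x
    apply hj.isEmbedding.injective
    rw [hg]
    exact hΦk x
  · intro z
    apply Subtype.ext
    show Ψ (j (g z)) = z
    rw [hg, hi _ (hb2 _ (mem_sphere_zero_iff_norm.1 z.2))]

/-- the lifting property of the domain bounded by an embedded simply connected manifold -/
theorem lifts_of_embedded [SimplyConnectedSpace X] {j : X → EuclideanSpace ℝ (Fin (n + 1))}
    (hj : Topology.IsEmbedding j) {ρ : EuclideanSpace ℝ (Fin (n + 1)) → ℝ}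
    (hρ : Continuous ρ) (hr : range j = {x | ρ x = 0}) : Lifts {x | ρ x ≤ 0} := by
  haveI : LocallyPathConnectedSpace X :=
    ChartedSpace.locallyPathConnectedSpace (EuclideanSpace ℝ (Fin n)) X
  refine lifts_fill hρ ?_
  rw [← hr]
  have e : X ≃ₜ range j := hj.toHomeomorph
  haveI : SimplyConnectedSpace (range j) := e.symm.toHomotopyEquiv.simplyConnectedSpace
  haveI : LocallyPathConnectedSpace (range j) := e.symm.isOpenEmbedding.locallyPathConnectedSpace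
  exact lifts_of_sc

/-- **Gauss map.** -/
theorem hyp_gauss [SimplyConnectedSpace X] {j : X → EuclideanSpace ℝ (Fin (n + 1))}
    (hj : Manifold.IsSmoothEmbedding (𝓡 n) (𝓡 (n + 1)) ∞ j)
    {ρ : EuclideanSpace ℝ (Fin (n + 1)) → ℝ} (hρ : ContDiff ℝ ∞ ρ)
    (hreg : ∀ x, ρ x = 0 → ∇ ρ x ≠ 0) (hcomp : IsCompact {x | ρ x ≤ 0})
    (hconn : IsConnected {x | ρ x ≤ 0}) (hr : range j = {x | ρ x = 0})
    {e : EuclideanSpace ℝ (Fin (n + 1))} (he : ‖e‖ = 1)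
    (h : ∀ x, ρ x = 0 → ∀ c : ℝ, 0 < c → ∇ ρ x = c • e → ∀ v w, ‖v‖ = 1 → ‖w‖ = 1 → ⟪v, w⟫ = 0 →
      ⟪∇ ρ x, v⟫ = 0 → ⟪∇ ρ x, w⟫ = 0 → ∃ a b : ℝ,
        0 < ⟪fderiv ℝ (∇ ρ) x (a • v + b • w), a • v + b • w⟫) :
    Nonempty (X ≃ₘ⟮𝓡 n, 𝓡 n⟯ sphere (0 : EuclideanSpace ℝ (Fin (n + 1))) 1) := by
  by_cases hb : IsBall (EuclideanSpace ℝ (Fin (n + 1))) {x | ρ x ≤ 0}
  · exact diffeo_of_ball hj hρ hreg hr hb
  · exfalso
    obtain ⟨x, hx, c, hc, hg, v, w, hv, hw, hvw, h1, h2, h3⟩ :=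
      gauss_two id_ld' hρ.contMDiff hcomp hconn.nonempty hconn.isPreconnected
        (lifts_of_embedded hj.isEmbedding hρ.continuous hr)
        (fun x hx => by rw [gr_id' hρ]; exact hreg x hx) hb he
    rw [gr_id' hρ] at hg h1 h2
    obtain ⟨a, b, hab⟩ := h x hx c hc hg v w hv hw hvw h1 h2
    have := h3 a b
    rw [hb_id' hρ] at this
    linarith

/-- **Normal rays.** -/
theorem hyp_rays [SimplyConnectedSpace X] {j : X → EuclideanSpace ℝ (Fin (n + 1))}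
    (hj : Manifold.IsSmoothEmbedding (𝓡 n) (𝓡 (n + 1)) ∞ j)
    {ρ : EuclideanSpace ℝ (Fin (n + 1)) → ℝ} (hρ : ContDiff ℝ ∞ ρ)
    (hreg : ∀ x, ρ x = 0 → ∇ ρ x ≠ 0) (hcomp : IsCompact {x | ρ x ≤ 0})
    (hconn : IsConnected {x | ρ x ≤ 0}) (hr : range j = {x | ρ x = 0})
    (p : EuclideanSpace ℝ (Fin (n + 1)))
    (h : ∀ x, ρ x = 0 → ∀ s : ℝ, 0 < s → x + s • ∇ ρ x = p → ∀ v w, ‖v‖ = 1 → ‖w‖ = 1 →
      ⟪v, w⟫ = 0 → ⟪∇ ρ x, v⟫ = 0 → ⟪∇ ρ x, w⟫ = 0 → ∃ a b : ℝ,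
        -(a ^ 2 + b ^ 2) < s * ⟪fderiv ℝ (∇ ρ) x (a • v + b • w), a • v + b • w⟫) :
    Nonempty (X ≃ₘ⟮𝓡 n, 𝓡 n⟯ sphere (0 : EuclideanSpace ℝ (Fin (n + 1))) 1) := by
  by_cases hb : IsBall (EuclideanSpace ℝ (Fin (n + 1))) {x | ρ x ≤ 0}
  · exact diffeo_of_ball hj hρ hreg hr hb
  · exfalso
    obtain ⟨x, hx, s, hs, hg, v, w, hv, hw, hvw, h1, h2, h3⟩ :=
      rays_two id_ld' hρ.contMDiff hcomp hconn.nonempty hconn.isPreconnected
        (lifts_of_embedded hj.isEmbedding hρ.continuous hr)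
        (fun x hx => by rw [gr_id' hρ]; exact hreg x hx) hb p
    rw [gr_id' hρ] at hg h1 h2
    obtain ⟨a, b, hab⟩ := h x hx s hs hg v w hv hw hvw h1 h2
    have := h3 a b
    rw [hb_id' hρ] at this
    linarith

end Pool.Agent.Q196.XF
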