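import Pool.Agent.Q196.XF.Quad

/-! Domains with a defining function all of whose critical points have index at most one. -/

set_option autoImplicit false
set_option linter.unusedSectionVars false

open scoped Topology ContDiff Manifold RealInnerProductSpace Gradient
open Set Metric Filter Bundle Pool.Agent.Q196.XB Asymptotics

noncomputable section

namespace Pool.Agent.Q196.XF

variable {E : Type} [NormedAddCommGroup E] [InnerProductSpace ℝ E] [FiniteDimensional ℝ E]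
  {N : Type} [TopologicalSpace N] [ChartedSpace E N] [IsManifold 𝓘(ℝ, E) ∞ N]

/-- **A domain whose highest critical point is a nondegenerate minimum is a ball.** -/
theorem top_min [T2Space N] [SigmaCompactSpace N] {u : N → E}
    (hu : IsLocalDiffeomorph 𝓘(ℝ, E) 𝓘(ℝ, E) ∞ u) {ρ : N → ℝ}
    (hρ : ContMDiff 𝓘(ℝ, E) 𝓘(ℝ, ℝ) ∞ ρ) (hcomp : IsCompact {x | ρ x ≤ 0})
    (hconn : IsPreconnected {x | ρ x ≤ 0}) {p : N} {σ : E → N} {r : ℝ} {A : E →L[ℝ] E}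
    (hr : 0 < r) (hσ : Sec u (ball (u p) r) σ) (hσp : σ (u p) = p)
    (hquad : ∀ z ∈ ball (u p) r, ρ (σ z) = ρ p + ⟪A (z - u p), z - u p⟫ / 2)
    (hsym : ∀ v w, ⟪A v, w⟫ = ⟪A w, v⟫) {β : ℝ} (hβ : 0 < β)
    (hpos : ∀ y, β * ‖y‖ ^ 2 ≤ ⟪A y, y⟫) {c₁ : ℝ} (hc₁ : c₁ < ρ p) (hp0 : ρ p < 0)
    (hcrit : ∀ x, ρ x ≤ 0 → c₁ ≤ ρ x → gr u ρ x = 0 → x = p) : IsBall E {x | ρ x ≤ 0} := by
  have huc : Continuous u := hu.contMDiff.continuous
  set z₀ := u p with hz₀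
  have hz₀r : z₀ ∈ ball z₀ r := mem_ball_self hr
  have hgr : ∀ z ∈ ball z₀ r, gr u ρ (σ z) = A (z - z₀) := by
    intro z hz
    rw [gr_sec' hu hρ hσ hz]
    have h1 : (ρ ∘ σ) =ᶠ[𝓝 z] fun z => ρ p + ⟪A (z - z₀), z - z₀⟫ / 2 := by
      filter_upwards [isOpen_ball.mem_nhds hz] with y hy using hquad y hy
    unfold gradient
    rw [h1.fderiv_eq, ((quad_deriv hsym z₀ z).const_add (ρ p)).fderiv,
      LinearIsometryEquiv.symm_apply_apply]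
  -- a small ball
  obtain ⟨r₁, hr₁, hr₁r, hneg⟩ : ∃ r₁, 0 < r₁ ∧ r₁ < r ∧ ∀ z ∈ closedBall z₀ r₁, ρ (σ z) < 0 := by
    have h1 : ContinuousAt (fun z => ρ (σ z)) z₀ :=
      ContinuousAt.comp (g := ρ) hρ.continuous.continuousAt (hσ.contAt hz₀r)
    have h2 : ∀ᶠ z in 𝓝 z₀, ρ (σ z) < 0 := h1.eventually_lt_const (by
      show ρ (σ z₀) < 0
      rw [hσp]; exact hp0)
    obtain ⟨s, hs, hs'⟩ := Metric.eventually_nhds_iff_ball.1 h2
    refine ⟨min s r / 2, by positivity, ?_, fun z hz => hs' z ?_⟩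
    · have := min_le_right s r
      linarith
    · have h3 := mem_closedBall.1 hz
      have h4 := min_le_left s r
      have h5 : 0 < min s r := lt_min hs hr
      rw [mem_ball]
      linarith
  set r₀ := r₁ / 2 with hr₀
  have hr₀0 : 0 < r₀ := by positivity
  have hB : closedBall z₀ r₁ ⊆ ball z₀ r := closedBall_subset_ball hr₁r
  have hB1 : ball z₀ r₁ ⊆ closedBall z₀ r₁ := ball_subset_closedBall
  have hB0 : ball z₀ r₀ ⊆ ball z₀ r₁ := ball_subset_ball (by rw [hr₀]; linarith)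
  have hσ1 : Sec u (ball z₀ r₁) σ := hσ.mono huc isOpen_ball (hB1.trans hB)
  have hσ0 : Sec u (ball z₀ r₀) σ := hσ1.mono huc isOpen_ball hB0
  set S₁ : Set N := σ '' closedBall z₀ r₁ with hS₁
  have hS₁c : IsCompact S₁ := (isCompact_closedBall z₀ r₁).image_of_continuousOn (hσ.cont.mono hB)
  set K : Set N := {x | ρ x ≤ 0} ∩ {x | c₁ ≤ ρ x} ∩ (σ '' ball z₀ r₀)ᶜ with hK
  have hKc : IsClosed K := (hcomp.isClosed.inter
    (isClosed_le continuous_const hρ.continuous)).inter hσ0.image.isClosed_compl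
  have hge : ∀ z ∈ ball z₀ r, ρ p ≤ ρ (σ z) := by
    intro z hz
    rw [hquad z hz]
    have h1 := hpos (z - z₀)
    have h2 : 0 ≤ β * ‖z - z₀‖ ^ 2 := by positivity
    linarith
  obtain ⟨X, Fl, hX, hFl, hXS, -, hXK⟩ := exists_flow_field hu hcomp (ι := Unit)
    (K := fun _ => K) (fun _ => hKc) (c := fun _ => gr u ρ) (fun _ => (gr_smooth hu hρ).continuous)
    (S₁ := S₁) (S₂ := ∅) hS₁c.isClosed isClosed_empty (disjoint_empty _)
    (Y₁ := fun x => u x - z₀) (Y₂ := fun _ => 0) (hu.contMDiff.sub contMDiff_const)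
    contMDiff_const
    (by
      rintro x ⟨z, hz, rfl⟩ - hxK
      rw [hgr z (hB hz), hσ.right z (hB hz)]
      have hne : z ≠ z₀ := by
        rintro rfl
        exact hxK.2 ⟨z₀, mem_ball_self hr₀0, rfl⟩
      have h1 := hpos (z - z₀)
      have h2 : 0 < ‖z - z₀‖ := norm_pos_iff.2 (sub_ne_zero.2 hne)
      have h3 : 0 < β * ‖z - z₀‖ ^ 2 := by positivity
      linarith)
    (fun x hx => absurd hx (notMem_empty _))
    (by
      intro x hx _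
      refine ⟨gr u ρ x, fun _ hxK => ?_⟩
      have h1 : gr u ρ x ≠ 0 := by
        intro h0
        have := hcrit x hxK.1.1 hxK.1.2 h0
        apply hx
        rw [this]
        exact ⟨z₀, mem_closedBall_self hr₁.le, hσp⟩
      rw [real_inner_self_eq_norm_sq]
      have := norm_pos_iff.2 h1
      positivity)
  have hinc : ∀ x, ρ x ≤ 0 → c₁ ≤ ρ x → x ∉ σ '' ball z₀ r₀ → 0 < ⟪gr u ρ x, X x⟫ :=
    fun x h1 h2 h3 => hXK () x ⟨⟨h1, h2⟩, h3⟩ h1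
  have hsrc : Src u X (ball z₀ r₁) σ z₀ := by
    refine ⟨hσ1, convex_ball _ _, mem_ball_self hr₁, fun z hz => ?_⟩
    have h1 := hXS (σ z) ⟨z, hB1 hz, rfl⟩ (hneg z (hB1 hz)).le
    rw [h1, hσ1.right z hz]
  have hlt : c₁ < 0 := hc₁.trans hp0
  have hout : ∀ x, ρ x = 0 → 0 < ⟪gr u ρ x, X x⟫ := by
    intro x hx
    refine hinc x hx.le (by rw [hx]; exact hlt.le) ?_
    rintro ⟨z, hz, rfl⟩
    have := hneg z (hB1 (hB0 hz))
    linarith
  set U₁ : Set N := {x | ∃ t, 0 ≤ t ∧ Fl (-t) x ∈ σ '' ball z₀ r₁} with hU₁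
  set U₂ : Set N := {x | ∃ t, 0 ≤ t ∧ Fl (-t) x ∈ {y | ρ y < c₁}} with hU₂
  have hlev : IsOpen {y | ρ y < c₁} := isOpen_lt hρ.continuous continuous_const
  have hU₁o : IsOpen U₁ := CutF.entry_open hFl hσ1.image
  have hU₂o : IsOpen U₂ := CutF.entry_open hFl hlev
  have hcov : {x | ρ x ≤ 0} ⊆ U₁ ∪ U₂ := by
    intro x hx
    obtain ⟨t, ht, h⟩ := reach' hu hX.continuous hFl hρ hcomp (O := σ '' ball z₀ r₁ ∪ {y | ρ y < c₁})
      (hσ1.image.union hlev) (fun x hx _ => hout x hx) (f := ρ) hρ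
      (fun x hx hxO => hinc x hx (not_lt.1 fun h => hxO (Or.inr h))
        (fun h => hxO (Or.inl (image_mono hB0 h)))) hx
    rcases h with h | h
    · exact Or.inl ⟨t, ht, h⟩
    · exact Or.inr ⟨t, ht, h⟩
  have hstay : ∀ x, ρ x ≤ 0 → ∀ t, 0 ≤ t → ρ (Fl (-t) x) ≤ 0 := fun x hx t ht =>
    hFl.stay hρ hx (fun s _ _ _ hs => hout _ hs) t ⟨ht, le_rfl⟩
  have hdis : ∀ x, ρ x ≤ 0 → x ∈ U₁ → x ∈ U₂ → False := by
    rintro x hx ⟨t₁, ht₁, h1⟩ ⟨t₂, ht₂, h2⟩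
    have h2' : ρ (Fl (-t₂) x) < c₁ := h2
    set T := t₁ + t₂ with hT
    have e1 : Fl (-T) x = Fl (-t₂) (Fl (-t₁) x) := by
      rw [← hFl.add]; congr 1; rw [hT]; ring
    have e2 : Fl (-T) x = Fl (-t₁) (Fl (-t₂) x) := by
      rw [← hFl.add]; congr 1; rw [hT]; ring
    have h3 : ρ p ≤ ρ (Fl (-T) x) := by
      have h4 := src_stay hFl hsrc h1 ht₂
      rw [← e1] at h4
      obtain ⟨z, hz, hz'⟩ := h4
      rw [← hz']
      exact hge z (hB (hB1 hz))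
    have h4 : ρ (Fl (-T) x) < c₁ := by
      rw [e2]
      rcases ht₁.eq_or_lt with h5 | h5
      · rw [← h5, neg_zero, hFl.zero]; exact h2'
      · refine stay_level hFl hρ hρ hout (c := c₁) (fun y hy hyc => ?_) (hstay x hx t₂ ht₂) h2'.le h5
        refine hinc y hy hyc.ge ?_
        rintro ⟨z, hz, rfl⟩
        have := hge z (hB (hB1 (hB0 hz)))
        linarith
    linarith
  have hpU : p ∈ U₁ := ⟨0, le_rfl, by
    rw [neg_zero, hFl.zero]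
    exact ⟨z₀, mem_ball_self hr₁, hσp⟩⟩
  have hall : ∀ x, ρ x ≤ 0 → x ∈ U₁ := by
    intro x hx
    rcases hcov hx with h | h
    · exact h
    · exfalso
      obtain ⟨y, hy1, hy2, hy3⟩ := hconn U₁ U₂ hU₁o hU₂o hcov ⟨p, hp0.le, hpU⟩ ⟨x, hx, h⟩
      exact hdis y hy1 hy2 hy3
  exact core hu hFl hρ hcomp hsrc (by rw [hσp]; exact hp0) hout hall

/-- A connected compact domain with a defining function all of whose critical points are
nondegenerate, finite in number, and do not have two independent nonpositive directions. -/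
structure MD (u : N → E) (ρ : N → ℝ) : Prop where
  smooth : ContMDiff 𝓘(ℝ, E) 𝓘(ℝ, ℝ) ∞ ρ
  comp : IsCompact {x | ρ x ≤ 0}
  nonempty : {x | ρ x ≤ 0}.Nonempty
  conn : IsPreconnected {x | ρ x ≤ 0}
  lifts : Lifts {x | ρ x ≤ 0}
  reg : ∀ x, ρ x = 0 → gr u ρ x ≠ 0
  fin : {x | ρ x ≤ 0 ∧ gr u ρ x = 0}.Finite
  nondeg : ∀ x, ρ x ≤ 0 → gr u ρ x = 0 → ∀ v, v ≠ 0 → ∃ w, hb u ρ x v w ≠ 0
  index : ∀ x, ρ x ≤ 0 → gr u ρ x = 0 → ∀ v w : E, ‖v‖ = 1 → ‖w‖ = 1 → ⟪v, w⟫ = 0 →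
    ∃ a b : ℝ, 0 < hb u ρ x (a • v + b • w) (a • v + b • w)

lemma exists_crit {u : N → E} (hu : IsLocalDiffeomorph 𝓘(ℝ, E) 𝓘(ℝ, E) ∞ u) {ρ : N → ℝ}
    (hρ : ContMDiff 𝓘(ℝ, E) 𝓘(ℝ, ℝ) ∞ ρ) (hcomp : IsCompact {x | ρ x ≤ 0})
    (hne : {x | ρ x ≤ 0}.Nonempty) : ∃ x, ρ x ≤ 0 ∧ gr u ρ x = 0 := by
  obtain ⟨x, hx, hmin⟩ := hcomp.exists_isMinOn hne hρ.continuous.continuousOn
  have hx' : ρ x ≤ 0 := hx
  have hglob : ∀ y, ρ x ≤ ρ y := by
    intro y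
    rcases le_or_gt (ρ y) 0 with h | h
    · exact isMinOn_iff.1 hmin y h
    · linarith
  refine ⟨x, hx, ?_⟩
  obtain ⟨U, σ, h, hxU, hσx⟩ := exists_sec hu x
  have h1 := gr_sec' hu hρ h hxU
  rw [hσx] at h1
  rw [h1]
  have h2 : IsLocalMin (ρ ∘ σ) (u x) := by
    refine Filter.Eventually.of_forall fun z => ?_
    show ρ (σ (u x)) ≤ ρ (σ z)
    rw [hσx]; exact hglob _
  unfold gradient
  rw [h2.fderiv_eq_zero, map_zero]

theorem MD.ball_aux [T2Space N] [SigmaCompactSpace N] {u : N → E}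
    (hu : IsLocalDiffeomorph 𝓘(ℝ, E) 𝓘(ℝ, E) ∞ u) : ∀ (n : ℕ) (ρ : N → ℝ), MD u ρ →
      {x | ρ x ≤ 0 ∧ gr u ρ x = 0}.ncard = n → IsBall E {x | ρ x ≤ 0} := by
  intro n
  induction n using Nat.strong_induction_on with
  | _ n ih =>
  intro ρ D hn
  haveI : LocallyCompactSpace N := ChartedSpace.locallyCompactSpace E N
  haveI : NormalSpace N := inferInstance
  obtain ⟨p, ⟨hp1, hp2⟩, hpmax⟩ := Set.exists_max_image _ ρ D.fin (exists_crit hu D.smooth D.comp D.nonempty)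
  have hp0 : ρ p < 0 := lt_of_le_of_ne hp1 (fun h => D.reg p h hp2)
  obtain ⟨ρ', σ, r, A, hρ', hle, hzero, hcr, hnear, hr, htop, hp0', hσ, hσp, hquad, hsym, hAhb⟩ :=
    quad_N hu D.smooth hp0 hp2 (D.nondeg p hp1 hp2)
  have hset : {x | ρ' x ≤ 0} = {x | ρ x ≤ 0} := by
    ext x; exact hle x
  have hcomp' : IsCompact {x | ρ' x ≤ 0} := by rw [hset]; exact D.comp
  have hconn' : IsPreconnected {x | ρ' x ≤ 0} := by rw [hset]; exact D.conn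
  have hL' : Lifts {x | ρ' x ≤ 0} := by rw [hset]; exact D.lifts
  have hcrit0 : ∀ x, ρ' x ≤ 0 → gr u ρ' x = 0 → x ≠ p → ρ' x ≤ ρ p := by
    intro x h1 h2 h3
    have h4 := (hcr x).1 h2
    rw [(hnear x h4 h3).eq_of_nhds]
    exact hpmax x ⟨(hle x).1 h1, h4⟩
  have hnd : ∀ v, v ≠ 0 → A v ≠ 0 := by
    intro v hv h
    obtain ⟨w, hw⟩ := D.nondeg p hp1 hp2 v hv
    apply hw
    rw [← hAhb, h, inner_zero_left]
  have hind : ∀ v w : E, ‖v‖ = 1 → ‖w‖ = 1 → ⟪v, w⟫ = 0 → ∃ a b : ℝ,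
      0 < ⟪A (a • v + b • w), a • v + b • w⟫ := by
    intro v w h1 h2 h3
    obtain ⟨a, b, hab⟩ := D.index p hp1 hp2 v w h1 h2 h3
    exact ⟨a, b, by rw [hAhb]; exact hab⟩
  rw [← hset]
  rcases sym_cases hsym hnd hind with ⟨β, hβ, hpos⟩ | ⟨e, α, β, he, hAe, hα, hβ, hpos⟩
  · refine top_min hu hρ' hcomp' hconn' hr hσ hσp hquad hsym hβ hpos
      (c₁ := (ρ p + ρ' p) / 2) (by linarith) hp0' ?_
    intro x h1 h2 h3
    by_contra hne
    have := hcrit0 x h1 h3 hne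
    linarith
  -- the saddle
  have S : Saddle u ρ' p σ r e α β (‖A‖ + 1) A := by
    refine ⟨hr, hσ, hσp, hquad, hsym, he, hAe, hα, hpos, hβ, ?_, by positivity⟩
    intro y
    calc ⟪A y, y⟫ ≤ ‖A y‖ * ‖y‖ := real_inner_le_norm _ _
      _ ≤ (‖A‖ * ‖y‖) * ‖y‖ := by gcongr; exact A.le_opNorm y
      _ = ‖A‖ * ‖y‖ ^ 2 := by ring
      _ ≤ (‖A‖ + 1) * ‖y‖ ^ 2 := by gcongr; linarith
  set a := r / 2 with ha
  have ha0 : 0 < a := by positivity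
  have har : a < r := by rw [ha]; linarith
  set c₁ := max ((ρ p + ρ' p) / 2) (ρ' p - α * a ^ 2 / 4) with hc₁d
  have hαa : 0 < α * a ^ 2 := by positivity
  have hc₁ : c₁ < ρ' p := max_lt (by linarith) (by linarith)
  have hc₁' : ρ p < c₁ := lt_of_lt_of_le (by linarith) (le_max_left _ _)
  have hac : 2 * (ρ' p - c₁) < α * a ^ 2 := by
    have := le_max_right ((ρ p + ρ' p) / 2) (ρ' p - α * a ^ 2 / 4)
    rw [← hc₁d] at this
    linarith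
  have hcrit : ∀ x, ρ' x ≤ 0 → c₁ ≤ ρ' x → gr u ρ' x = 0 → x = p := by
    intro x h1 h2 h3
    by_contra hne
    have := hcrit0 x h1 h3 hne
    linarith
  have hc₁0 : c₁ < 0 := hc₁.trans hp0'
  have hcompc : IsCompact {x | ρ' x ≤ c₁} := hcomp'.of_isClosed_subset
    (isClosed_le hρ'.continuous continuous_const) (fun x (hx : ρ' x ≤ c₁) => hx.trans hc₁0.le)
  obtain ⟨b, X, Fl, C⟩ := exists_cut hu hρ' hcomp' S hc₁ hp0' hcrit ha0 har hac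
  obtain ⟨O₁, O₂, hO₁, hO₂, hd, hcov, hm, hp, hpre1, hpre2⟩ := C.split hconn' hL'
  have hl2 := C.lifts_piece hL' hO₁ hO₂ hd hcov hm hp
  have hl1 := C.flip.lifts_piece hL' hO₂ hO₁ hd.symm (fun x hx => (hcov x hx).symm)
    (by rw [neg_neg]; exact hp) hm
  have hface : ∀ e' : E, (e' = e ∨ e' = -e) → ρ' (σ (u p + a • e')) ≤ c₁ := by
    intro e' he'
    have hn : ‖e'‖ = 1 := by
      rcases he' with rfl | rfl
      · exact he
      · rw [norm_neg, he]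
    have h1 : u p + a • e' ∈ ball (u p) r := by
      rw [mem_ball_iff_norm, add_sub_cancel_left, norm_smul, hn, Real.norm_eq_abs, abs_of_pos ha0]
      linarith
    rw [hquad _ h1, add_sub_cancel_left]
    have h2 : ⟪A (a • e'), a • e'⟫ = -(α * a ^ 2) := by
      rcases he' with rfl | rfl
      · rw [map_smul, hAe, inner_smul_left, inner_smul_right, inner_neg_left, inner_smul_left,
          real_inner_self_eq_norm_sq, he]
        simp only [conj_trivial]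
        ring
      · rw [map_smul, map_neg, hAe, neg_neg, inner_smul_left, inner_smul_right, inner_neg_right,
          inner_smul_left, real_inner_self_eq_norm_sq, he]
        simp only [conj_trivial]
        ring
    rw [h2]
    linarith
  -- the two pieces
  have piece : ∀ O O' : Set N, IsOpen O → IsOpen O' → Disjoint O O' →
      (∀ x, ρ' x ≤ c₁ → x ∈ O ∨ x ∈ O') → IsPreconnected ({x | ρ' x ≤ c₁} ∩ O) →
      Lifts ({x | ρ' x ≤ c₁} ∩ O) → ({x | ρ' x ≤ c₁} ∩ O).Nonempty →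
      ∃ ρ₁ : N → ℝ, ContMDiff 𝓘(ℝ, E) 𝓘(ℝ, ℝ) ∞ ρ₁ ∧ {x | ρ₁ x ≤ 0} = {x | ρ' x ≤ c₁} ∩ O ∧
        (∀ x, ρ₁ x ≤ 0 → ρ₁ =ᶠ[𝓝 x] fun y => ρ' y - c₁) ∧ IsBall E {x | ρ₁ x ≤ 0} := by
    intro O O' hO hO' hd hcov hpre hlift hne
    obtain ⟨ρ₁, hρ₁, hset₁, hc, hnear₁⟩ := loc hρ' hcompc hO hO' hd hcov
    refine ⟨ρ₁, hρ₁, hset₁, hnear₁, ?_⟩
    have hgr₁ : ∀ x, ρ₁ x ≤ 0 → gr u ρ₁ x = gr u ρ' x := fun x hx => by
      rw [gr_congr (hnear₁ x hx), gr_sub_const hu hρ']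
    have hlec : ∀ x, ρ₁ x ≤ 0 → ρ' x ≤ c₁ := fun x hx => by
      have : x ∈ {x | ρ' x ≤ c₁} ∩ O := by rw [← hset₁]; exact hx
      exact this.1
    have hxp : ∀ x, ρ₁ x ≤ 0 → x ≠ p := by
      rintro x hx rfl
      have := hlec x hx
      linarith
    have hcrρ : ∀ x, ρ₁ x ≤ 0 → gr u ρ₁ x = 0 → ρ x ≤ 0 ∧ gr u ρ x = 0 := by
      intro x hx h0
      rw [hgr₁ x hx] at h0
      exact ⟨(hle x).1 ((hlec x hx).trans hc₁0.le), (hcr x).1 h0⟩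
    have hhb : ∀ x, ρ₁ x ≤ 0 → gr u ρ₁ x = 0 → ∀ v w, hb u ρ₁ x v w = hb u ρ x v w := by
      intro x hx h0 v w
      rw [hb_congr (hnear₁ x hx), hb_sub_const hu hρ',
        hb_congr (hnear x (hcrρ x hx h0).2 (hxp x hx))]
    have hsub : {x | ρ₁ x ≤ 0 ∧ gr u ρ₁ x = 0} ⊆ {x | ρ x ≤ 0 ∧ gr u ρ x = 0} :=
      fun x hx => hcrρ x hx.1 hx.2
    have hss : {x | ρ₁ x ≤ 0 ∧ gr u ρ₁ x = 0} ⊂ {x | ρ x ≤ 0 ∧ gr u ρ x = 0} := by
      refine ⟨hsub, fun h => ?_⟩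
      have : p ∈ {x | ρ₁ x ≤ 0 ∧ gr u ρ₁ x = 0} := h ⟨hp1, hp2⟩
      exact hxp p this.1 rfl
    have hmd : MD u ρ₁ := by
      refine ⟨hρ₁, hc, by rw [hset₁]; exact hne, by rw [hset₁]; exact hpre,
        by rw [hset₁]; exact hlift, ?_, D.fin.subset hsub, ?_, ?_⟩
      · intro x hx h0
        rw [hgr₁ x hx.le] at h0
        have h1 := (hnear₁ x hx.le).eq_of_nhds
        have h2 := hlec x hx.le
        have h3 := hcrit x (h2.trans hc₁0.le) (by rw [hx] at h1; linarith) h0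
        exact hxp x hx.le h3
      · intro x hx h0 v hv
        obtain ⟨w, hw⟩ := D.nondeg x (hcrρ x hx h0).1 (hcrρ x hx h0).2 v hv
        exact ⟨w, by rw [hhb x hx h0]; exact hw⟩
      · intro x hx h0 v w h1 h2 h3
        obtain ⟨a, b, hab⟩ := D.index x (hcrρ x hx h0).1 (hcrρ x hx h0).2 v w h1 h2 h3
        exact ⟨a, b, by rw [hhb x hx h0]; exact hab⟩
    exact ih _ (by rw [← hn]; exact Set.ncard_lt_ncard hss D.fin) ρ₁ hmd rfl
  obtain ⟨ρ₁, hρ₁, hs₁, hn₁, hb₁⟩ := piece O₁ O₂ hO₁ hO₂ hd hcov hpre1 hl1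
    ⟨_, hface (-e) (Or.inr rfl), hm⟩
  obtain ⟨ρ₂, hρ₂, hs₂, hn₂, hb₂⟩ := piece O₂ O₁ hO₂ hO₁ hd.symm (fun x hx => (hcov x hx).symm)
    hpre2 hl2 ⟨_, hface e (Or.inl rfl), hp⟩
  have m₁ : ∀ x, ρ₁ x ≤ 0 ↔ ρ' x ≤ c₁ ∧ x ∈ O₁ := fun x => by
    have : x ∈ {x | ρ₁ x ≤ 0} ↔ x ∈ {x | ρ' x ≤ c₁} ∩ O₁ := by rw [hs₁]
    exact this
  have m₂ : ∀ x, ρ₂ x ≤ 0 ↔ ρ' x ≤ c₁ ∧ x ∈ O₂ := fun x => by
    have : x ∈ {x | ρ₂ x ≤ 0} ↔ x ∈ {x | ρ' x ≤ c₁} ∩ O₂ := by rw [hs₂]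
    exact this
  refine merge hu hρ' hcomp' S hc₁ hp0' hcrit hρ₁ hρ₂ ?_ ?_ hn₁ hn₂ ha0 har hac
    ((m₁ _).2 ⟨hface (-e) (Or.inr rfl), hm⟩) ((m₂ _).2 ⟨hface e (Or.inl rfl), hp⟩) hb₁ hb₂
  · intro x hx
    rcases hcov x hx with h | h
    · exact Or.inl ((m₁ x).2 ⟨hx, h⟩)
    · exact Or.inr ((m₂ x).2 ⟨hx, h⟩)
  · intro x h1 h2
    exact Set.disjoint_left.1 hd ((m₁ x).1 h1).2 ((m₂ x).1 h2).2

/-- **A domain with a defining function all of whose critical points are nondegenerate of index at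
most one, on which every map to the circle has a lift, is a ball.** -/
theorem MD.ball [T2Space N] [SigmaCompactSpace N] {u : N → E}
    (hu : IsLocalDiffeomorph 𝓘(ℝ, E) 𝓘(ℝ, E) ∞ u) {ρ : N → ℝ} (D : MD u ρ) :
    IsBall E {x | ρ x ≤ 0} := MD.ball_aux hu _ ρ D rfl

end Pool.Agent.Q196.XF
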