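import Pool.Agent.Q196.XF.SC

/-! Regular level sets are locally path connected; a domain whose boundary is simply connected has
the lifting property. -/

set_option autoImplicit false
set_option linter.unusedSectionVars false

open scoped Topology ContDiff Manifold RealInnerProductSpace Gradient
open Set Metric Filter Bundle Pool.Agent.Q196.XB Asymptotics

noncomputable section

namespace Pool.Agent.Q196.XF

/-- a continuous flow, run backwards with `Fl (-t)` -/
structure CFlow {Y : Type} [TopologicalSpace Y] (Fl : ℝ → Y → Y) : Prop where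
  zero : ∀ x, Fl 0 x = x
  add : ∀ s t x, Fl (s + t) x = Fl s (Fl t x)
  cont : Continuous (fun p : ℝ × Y => Fl p.1 p.2)

section

variable {Y : Type} [TopologicalSpace Y] {ρ : Y → ℝ} {c : ℝ} {Fl : ℝ → Y → Y}

/-- the first time at which the backward orbit is in the sublevel set -/
def hitC (ρ : Y → ℝ) (c : ℝ) (Fl : ℝ → Y → Y) (x : Y) : ℝ :=
  sInf {t | 0 ≤ t ∧ ρ (Fl (-t) x) ≤ c}

/-- the point at which the backward orbit enters the sublevel set -/
def retC (ρ : Y → ℝ) (c : ℝ) (Fl : ℝ → Y → Y) (x : Y) : Y := Fl (-(hitC ρ c Fl x)) x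

lemma CFlow.cont_t (hF : CFlow Fl) (x : Y) : Continuous fun t => Fl t x :=
  hF.cont.comp (continuous_id.prodMk continuous_const)

lemma CFlow.cont_x (hF : CFlow Fl) (t : ℝ) : Continuous (Fl t) :=
  hF.cont.comp (continuous_const.prodMk continuous_id)

lemma hitC_spec (hF : CFlow Fl) (hρ : Continuous ρ) {x : Y}
    (h : ∃ t, 0 ≤ t ∧ ρ (Fl (-t) x) ≤ c) :
    0 ≤ hitC ρ c Fl x ∧ ρ (Fl (-(hitC ρ c Fl x)) x) ≤ c ∧
      ∀ t, 0 ≤ t → t < hitC ρ c Fl x → c < ρ (Fl (-t) x) := by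
  set S : Set ℝ := {t | 0 ≤ t ∧ ρ (Fl (-t) x) ≤ c} with hS
  have hSc : IsClosed S := (isClosed_le continuous_const continuous_id).inter
    (isClosed_le (hρ.comp ((hF.cont_t x).comp continuous_neg)) continuous_const)
  have hSb : BddBelow S := ⟨0, fun t ht => ht.1⟩
  have hmem : sInf S ∈ S := hSc.csInf_mem h hSb
  refine ⟨hmem.1, hmem.2, fun t ht htl => ?_⟩
  by_contra hle
  have : hitC ρ c Fl x ≤ t := csInf_le hSb ⟨ht, not_lt.1 hle⟩
  linarith

lemma hitC_cont (hF : CFlow Fl) (hρ : Continuous ρ) {V : Set Y}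
    (hV : ∀ x ∈ V, ∃ t, 0 ≤ t ∧ ρ (Fl (-t) x) ≤ c)
    (low : ∀ y, ρ y ≤ c → ∀ t, 0 < t → ρ (Fl (-t) y) < c) : ContinuousOn (hitC ρ c Fl) V := by
  intro x hx
  obtain ⟨h3, h4, h5⟩ := hitC_spec hF hρ (hV x hx)
  set τ := hitC ρ c Fl x with hτ
  have hcs : ∀ s, Continuous fun y => ρ (Fl (-s) y) := fun s => hρ.comp (hF.cont_x (-s))
  rw [ContinuousWithinAt, tendsto_order]
  constructor
  · intro v hv
    rcases lt_or_ge v 0 with h0 | h0
    · filter_upwards [self_mem_nhdsWithin] with y hy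
      exact h0.trans_le (hitC_spec hF hρ (hV y hy)).1
    · have h6 := h5 v h0 hv
      filter_upwards [self_mem_nhdsWithin, nhdsWithin_le_nhds (ev_gt (hcs v) h6)] with y hy hyv
      by_contra hle
      push Not at hle
      obtain ⟨g1, g2, -⟩ := hitC_spec hF hρ (hV y hy)
      rcases hle.eq_or_lt with h7 | h7
      · rw [h7] at g2; linarith
      · have h8 := low _ g2 _ (sub_pos.2 h7)
        rw [← hF.add, show -(v - hitC ρ c Fl y) + -(hitC ρ c Fl y) = -v by ring] at h8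
        linarith
  · intro v hv
    set w := (τ + v) / 2 with hw
    have hw1 : τ < w := by rw [hw]; linarith
    have hw2 : w < v := by rw [hw]; linarith
    have h6 : ρ (Fl (-w) x) < c := by
      have h8 := low _ h4 _ (sub_pos.2 hw1)
      rwa [← hF.add, show -(w - τ) + -τ = -w by ring] at h8
    filter_upwards [nhdsWithin_le_nhds (ev_lt (hcs w) h6)] with y hy
    refine lt_of_le_of_lt ?_ hw2
    exact csInf_le ⟨0, fun t ht => ht.1⟩ ⟨by linarith, hy.le⟩

lemma retC_cont (hF : CFlow Fl) (hρ : Continuous ρ) {V : Set Y}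
    (hV : ∀ x ∈ V, ∃ t, 0 ≤ t ∧ ρ (Fl (-t) x) ≤ c)
    (low : ∀ y, ρ y ≤ c → ∀ t, 0 < t → ρ (Fl (-t) y) < c) : ContinuousOn (retC ρ c Fl) V := by
  have h1 : ContinuousOn (fun x => (-(hitC ρ c Fl x), x)) V :=
    (hitC_cont hF hρ hV low).neg.prodMk continuousOn_id
  exact hF.cont.comp_continuousOn h1

lemma retC_of_le (hF : CFlow Fl) (hρ : Continuous ρ) {x : Y} (hx : ρ x ≤ c) :
    retC ρ c Fl x = x := by
  have h0 : hitC ρ c Fl x = 0 := by
    obtain ⟨h3, h4, h5⟩ := hitC_spec (c := c) hF hρ ⟨0, le_rfl, by rw [neg_zero, hF.zero]; exact hx⟩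
    by_contra hne
    have h6 := h5 0 le_rfl (lt_of_le_of_ne h3 (Ne.symm hne))
    rw [neg_zero, hF.zero] at h6
    linarith
  unfold retC
  rw [h0, neg_zero, hF.zero]

/-- a point outside the sublevel set enters it at the level `c` -/
lemma retC_level (hF : CFlow Fl) (hρ : Continuous ρ) {x : Y}
    (h : ∃ t, 0 ≤ t ∧ ρ (Fl (-t) x) ≤ c) (hx : c ≤ ρ x) : ρ (retC ρ c Fl x) = c := by
  obtain ⟨h3, h4, h5⟩ := hitC_spec hF hρ h
  refine le_antisymm h4 ?_
  rcases h3.eq_or_lt with h0 | h0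
  · unfold retC
    rw [← h0, neg_zero, hF.zero]
    exact hx
  · have h6 : Tendsto (fun t => ρ (Fl (-t) x)) (𝓝[<] (hitC ρ c Fl x))
        (𝓝 (ρ (Fl (-(hitC ρ c Fl x)) x))) :=
      ((hρ.comp ((hF.cont_t x).comp continuous_neg)).tendsto _).mono_left nhdsWithin_le_nhds
    refine ge_of_tendsto h6 ?_
    have h7 : ∀ᶠ t in 𝓝[<] (hitC ρ c Fl x), 0 < t := nhdsWithin_le_nhds (lt_mem_nhds h0)
    filter_upwards [h7, self_mem_nhdsWithin] with t ht1 ht2
    exact (h5 t ht1.le ht2).le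

/-- the zero set is a retract of an open neighbourhood -/
theorem lpc_level_aux [LocallyPathConnectedSpace Y] (hF : CFlow Fl) (hρ : Continuous ρ)
    (low : ∀ y, ρ y ≤ 0 → ∀ t, 0 < t → ρ (Fl (-t) y) < 0) :
    LocallyPathConnectedSpace {x | ρ x = 0} := by
  -- the reversed flow
  set Gl : ℝ → Y → Y := fun t => Fl (-t) with hGl
  have hG : CFlow Gl := by
    refine ⟨fun x => ?_, fun s t x => ?_, ?_⟩
    · simp only [hGl]; rw [neg_zero, hF.zero]
    · simp only [hGl]; rw [neg_add, hF.add]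
    · exact hF.cont.comp ((continuous_fst.neg).prodMk continuous_snd)
  have lowG : ∀ y, -ρ y ≤ 0 → ∀ t, 0 < t → -ρ (Gl (-t) y) < 0 := by
    intro y hy t ht
    simp only [hGl, neg_neg]
    by_contra hle
    have h1 := low (Fl t y) (by linarith) t ht
    rw [← hF.add, neg_add_cancel, hF.zero] at h1
    linarith
  have hρn : Continuous fun y => -ρ y := hρ.neg
  -- first retraction
  set V₁ : Set Y := {x | ρ (Fl (-1) x) < 0} with hV₁
  have hV₁o : IsOpen V₁ := isOpen_lt (hρ.comp (hF.cont_x (-1))) continuous_const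
  have hV₁h : ∀ x ∈ V₁, ∃ t, 0 ≤ t ∧ ρ (Fl (-t) x) ≤ 0 :=
    fun x hx => ⟨1, zero_le_one, le_of_lt hx⟩
  set r₁ := retC ρ 0 Fl with hr₁
  have hr₁c : ContinuousOn r₁ V₁ := retC_cont hF hρ hV₁h low
  -- second retraction
  set V₂ : Set Y := {x | 0 < ρ (Fl 1 x)} with hV₂
  have hV₂o : IsOpen V₂ := isOpen_lt continuous_const (hρ.comp (hF.cont_x 1))
  have hV₂h : ∀ x ∈ V₂, ∃ t, 0 ≤ t ∧ -ρ (Gl (-t) x) ≤ 0 := by
    intro x hx
    refine ⟨1, zero_le_one, ?_⟩
    simp only [hGl, neg_neg]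
    have : 0 < ρ (Fl 1 x) := hx
    linarith
  set r₂ := retC (fun y => -ρ y) 0 Gl with hr₂
  have hr₂c : ContinuousOn r₂ V₂ := retC_cont hG hρn hV₂h lowG
  -- the composition
  set V : Set Y := V₁ ∩ r₁ ⁻¹' V₂ with hV
  have hVo : IsOpen V := hr₁c.isOpen_inter_preimage hV₁o hV₂o
  haveI : LocallyPathConnectedSpace V := hVo.locallyPathConnectedSpace
  have hrc : ContinuousOn (fun x => r₂ (r₁ x)) V :=
    hr₂c.comp (hr₁c.mono inter_subset_left) (fun x hx => hx.2)
  have hr0 : ∀ x ∈ V, ρ (r₂ (r₁ x)) = 0 := by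
    intro x hx
    have h1 : ρ (r₁ x) ≤ 0 := (hitC_spec hF hρ (hV₁h x hx.1)).2.1
    have h2 := retC_level (ρ := fun y => -ρ y) (c := 0) hG hρn (hV₂h _ hx.2) (by
      show (0:ℝ) ≤ -ρ (r₁ x)
      linarith)
    have h3 : -ρ (r₂ (r₁ x)) = 0 := h2
    linarith
  have hmem : ∀ x, ρ x = 0 → x ∈ V := by
    intro x hx
    have h1 : r₁ x = x := retC_of_le hF hρ hx.le
    refine ⟨low x hx.le 1 one_pos, ?_⟩
    show r₁ x ∈ V₂
    rw [h1]
    have h2 := lowG x (by rw [hx]; simp) 1 one_pos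
    simp only [hGl, neg_neg] at h2
    show 0 < ρ (Fl 1 x)
    linarith
  let q : V → {x | ρ x = 0} := fun x => ⟨r₂ (r₁ x), hr0 x x.2⟩
  let i : {x | ρ x = 0} → V := fun x => ⟨x, hmem x x.2⟩
  have hq : Continuous q := (continuousOn_iff_continuous_restrict.1 hrc).subtype_mk _
  have hi : Continuous i := continuous_subtype_val.subtype_mk _
  have hqi : Function.LeftInverse q i := by
    intro x
    apply Subtype.ext
    show r₂ (r₁ x) = x
    have hx : ρ (x:Y) = 0 := x.2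
    have h2 : r₂ x = x := retC_of_le (ρ := fun y => -ρ y) (c := 0) hG hρn (by
      show -ρ (x:Y) ≤ 0
      rw [hx]; simp)
    rw [hr₁, retC_of_le hF hρ hx.le, h2]
  exact (Topology.IsQuotientMap.of_inverse hi hq hqi).locallyPathConnectedSpace

/-- **Filling in.** -/
theorem lifts_fill [NormalSpace Y] [SimplyConnectedSpace Y] [LocallyPathConnectedSpace Y]
    (hρ : Continuous ρ) (hL : Lifts {x | ρ x = 0}) : Lifts {x | ρ x ≤ 0} := by
  classical
  intro f hf h1
  have hX : IsClosed {x | ρ x = 0} := isClosed_eq hρ continuous_const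
  obtain ⟨θ, hθ, hθ'⟩ := hL f (hf.mono fun x (hx : ρ x = 0) => hx.le) (fun x hx => h1 x (le_of_eq hx))
  let θ₀ : C({x | ρ x = 0}, ℝ) := ⟨_, continuousOn_iff_continuous_restrict.1 hθ⟩
  obtain ⟨Θ, hΘ⟩ := θ₀.exists_restrict_eq hX
  have hΘ' : ∀ x, ρ x = 0 → Θ x = θ x := fun x hx => by
    have := DFunLike.congr_fun hΘ ⟨x, hx⟩
    exact this
  set F : Y → ℂ := fun x => if ρ x ≤ 0 then f x else Complex.exp (Θ x * Complex.I) with hF
  have hF1 : ∀ x, ρ x ≤ 0 → F x = f x := fun x hx => by simp only [hF, if_pos hx]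
  have hF2 : ∀ x, 0 ≤ ρ x → F x = Complex.exp (Θ x * Complex.I) := by
    intro x hx
    by_cases h : ρ x ≤ 0
    · have h0 : ρ x = 0 := le_antisymm h hx
      rw [hF1 x h, hθ' x h0, hΘ' x h0]
    · simp only [hF, if_neg h]
  have hFc : Continuous F := by
    rw [← continuousOn_univ]
    have hcov : (univ : Set Y) = {x | ρ x ≤ 0} ∪ {x | 0 ≤ ρ x} := by
      ext x
      simp only [mem_univ, mem_union, mem_setOf_eq, true_iff]
      exact le_total _ _
    rw [hcov]
    refine ContinuousOn.union_of_isClosed ?_ ?_ (isClosed_le hρ continuous_const)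
      (isClosed_le continuous_const hρ)
    · exact hf.congr fun x hx => hF1 x hx
    · have : ContinuousOn (fun x => Complex.exp (Θ x * Complex.I)) {x | 0 ≤ ρ x} := by
        have h2 : Continuous fun x => Complex.exp (Θ x * Complex.I) := by
          have := Θ.continuous
          fun_prop
        exact h2.continuousOn
      exact this.congr fun x hx => hF2 x hx
  have hFn : ∀ x, ‖F x‖ = 1 := by
    intro x
    by_cases h : ρ x ≤ 0
    · rw [hF1 x h]; exact h1 x h
    · rw [hF2 x (not_le.1 h).le, Complex.norm_exp_ofReal_mul_I]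
  obtain ⟨θ', hθ'c, hθ'e⟩ := lift_circle hFc hFn
  exact ⟨θ', hθ'c.continuousOn, fun x hx => by rw [← hF1 x hx]; exact hθ'e x⟩

end

variable {E : Type} [NormedAddCommGroup E] [InnerProductSpace ℝ E] [FiniteDimensional ℝ E]
  {N : Type} [TopologicalSpace N] [ChartedSpace E N] [IsManifold 𝓘(ℝ, E) ∞ N]

/-- Compact regular boundaries are locally path connected. -/
theorem lpc_level [T2Space N] [SigmaCompactSpace N] {u : N → E}
    (hu : IsLocalDiffeomorph 𝓘(ℝ, E) 𝓘(ℝ, E) ∞ u) {ρ : N → ℝ}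
    (hρ : ContMDiff 𝓘(ℝ, E) 𝓘(ℝ, ℝ) ∞ ρ) (hcomp : IsCompact {x | ρ x ≤ 0})
    (hreg : ∀ x, ρ x = 0 → gr u ρ x ≠ 0) : LocallyPathConnectedSpace {x | ρ x = 0} := by
  haveI : LocallyPathConnectedSpace N := ChartedSpace.locallyPathConnectedSpace E N
  obtain ⟨X, Fl, hFl, low⟩ := exists_push hu hρ hcomp hreg
  exact lpc_level_aux ⟨hFl.zero, hFl.add, hFl.cont⟩ hρ.continuous low

/-- **A domain of Euclidean space whose boundary is simply connected has the lifting property.** -/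
theorem lifts_of_boundary {ρ : E → ℝ} (hρ : ContDiff ℝ ∞ ρ) (hcomp : IsCompact {x | ρ x ≤ 0})
    (hreg : ∀ x, ρ x = 0 → gr (id : E → E) ρ x ≠ 0) [SimplyConnectedSpace {x | ρ x = 0}] :
    Lifts {x | ρ x ≤ 0} := by
  have hu : IsLocalDiffeomorph 𝓘(ℝ, E) 𝓘(ℝ, E) ∞ (id : E → E) := by
    intro x
    exact (Diffeomorph.refl 𝓘(ℝ, E) E ∞).isLocalDiffeomorph x
  haveI := lpc_level hu hρ.contMDiff hcomp hreg
  exact lifts_fill hρ.continuous lifts_of_sc

end Pool.Agent.Q196.XF
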