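import Pool.Agent.Q196.XF.Tube

/-! Two balls joined at a saddle form a ball. -/

set_option autoImplicit false
set_option linter.unusedSectionVars false

open scoped Topology ContDiff Manifold RealInnerProductSpace Gradient
open Set Metric Filter Bundle Pool.Agent.Q196.XB Asymptotics

noncomputable section

namespace Pool.Agent.Q196.XF

variable {E : Type} [NormedAddCommGroup E] [InnerProductSpace ℝ E] [FiniteDimensional ℝ E]
  {N : Type} [TopologicalSpace N] [ChartedSpace E N] [IsManifold 𝓘(ℝ, E) ∞ N]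

variable {u : N → E} {ρ : N → ℝ} {p : N} {σ : E → N} {r : ℝ} {e : E} {α β Λ : ℝ} {A : E →L[ℝ] E}

theorem merge [T2Space N] [SigmaCompactSpace N]
    (hu : IsLocalDiffeomorph 𝓘(ℝ, E) 𝓘(ℝ, E) ∞ u) (hρ : ContMDiff 𝓘(ℝ, E) 𝓘(ℝ, ℝ) ∞ ρ)
    (hcomp : IsCompact {x | ρ x ≤ 0}) (S : Saddle u ρ p σ r e α β Λ A) {c₁ : ℝ} (hc₁ : c₁ < ρ p)
    (hp0 : ρ p < 0) (hcrit : ∀ x, ρ x ≤ 0 → c₁ ≤ ρ x → gr u ρ x = 0 → x = p)
    {ρ₁ ρ₂ : N → ℝ} (hρ₁ : ContMDiff 𝓘(ℝ, E) 𝓘(ℝ, ℝ) ∞ ρ₁)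
    (hρ₂ : ContMDiff 𝓘(ℝ, E) 𝓘(ℝ, ℝ) ∞ ρ₂)
    (hcov : ∀ x, ρ x ≤ c₁ → ρ₁ x ≤ 0 ∨ ρ₂ x ≤ 0) (hdis : ∀ x, ρ₁ x ≤ 0 → ρ₂ x ≤ 0 → False)
    (h₁ : ∀ x, ρ₁ x ≤ 0 → ρ₁ =ᶠ[𝓝 x] fun y => ρ y - c₁)
    (h₂ : ∀ x, ρ₂ x ≤ 0 → ρ₂ =ᶠ[𝓝 x] fun y => ρ y - c₁)
    {a : ℝ} (ha : 0 < a) (har : a < r) (hac : 2 * (ρ p - c₁) < α * a ^ 2)
    (ha₁ : ρ₁ (σ (u p + a • (-e))) ≤ 0) (ha₂ : ρ₂ (σ (u p + a • e)) ≤ 0)
    (hb₁ : IsBall E {x | ρ₁ x ≤ 0}) (hb₂ : IsBall E {x | ρ₂ x ≤ 0}) : IsBall E {x | ρ x ≤ 0} := by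
  have hus : ContMDiff 𝓘(ℝ, E) 𝓘(ℝ, E) ∞ u := hu.contMDiff
  have huc : Continuous u := hus.continuous
  have hg1 : ∀ x, ρ₁ x ≤ 0 → gr u ρ₁ x = gr u ρ x := fun x hx => by
    rw [gr_congr (h₁ x hx), gr_sub_const hu hρ]
  have hg2 : ∀ x, ρ₂ x ≤ 0 → gr u ρ₂ x = gr u ρ x := fun x hx => by
    rw [gr_congr (h₂ x hx), gr_sub_const hu hρ]
  have hv1 : ∀ x, ρ₁ x ≤ 0 → ρ₁ x = ρ x - c₁ := fun x hx => (h₁ x hx).eq_of_nhds
  have hv2 : ∀ x, ρ₂ x ≤ 0 → ρ₂ x = ρ x - c₁ := fun x hx => (h₂ x hx).eq_of_nhds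
  have hle1 : ∀ x, ρ₁ x ≤ 0 → ρ x ≤ c₁ := fun x hx => by linarith [hv1 x hx]
  have hle2 : ∀ x, ρ₂ x ≤ 0 → ρ x ≤ c₁ := fun x hx => by linarith [hv2 x hx]
  have hreg : ∀ x, ρ x ≤ 0 → c₁ ≤ ρ x → x ≠ p → gr u ρ x ≠ 0 :=
    fun x h1 h2 h3 h4 => h3 (hcrit x h1 h2 h4)
  have hreg1 : ∀ x, ρ₁ x = 0 → gr u ρ₁ x ≠ 0 := by
    intro x hx
    have h3 := hv1 x hx.le
    rw [hg1 x hx.le]
    refine hreg x (by linarith) (by linarith) ?_
    rintro rfl
    linarith
  have hreg2 : ∀ x, ρ₂ x = 0 → gr u ρ₂ x ≠ 0 := by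
    intro x hx
    have h3 := hv2 x hx.le
    rw [hg2 x hx.le]
    refine hreg x (by linarith) (by linarith) ?_
    rintro rfl
    linarith
  have hα := S.αpos
  have hβ := S.βpos
  have hΛ := S.Λpos
  -- the boundary point on the axis
  set x₀ : ℝ := √(2 * (ρ p - c₁) / α) with hx₀d
  have hpos : 0 < 2 * (ρ p - c₁) / α := div_pos (by linarith) hα
  have hx₀ : 0 < x₀ := Real.sqrt_pos.2 hpos
  have hx₀sq : α * x₀ ^ 2 = 2 * (ρ p - c₁) := by
    rw [hx₀d, Real.sq_sqrt hpos.le]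
    field_simp
  have hx₀a : x₀ < a := by
    have h1 : x₀ ^ 2 < a ^ 2 := by
      have : α * x₀ ^ 2 < α * a ^ 2 := by rw [hx₀sq]; exact hac
      exact lt_of_mul_lt_mul_left this hα.le
    exact lt_of_pow_lt_pow_left₀ 2 ha.le h1
  obtain ⟨Φ, he, hΦ, himg⟩ := hb₂
  obtain ⟨Ψ, hΨ, hi⟩ := exists_coord he hΦ
  set z₀ := u p with hz₀
  have he0 : ⟪e, (0:E)⟫ = 0 := inner_zero_right _
  have haxis : z₀ + (x₀ • e + (0:E)) ∈ ball z₀ r := by
    rw [mem_ball, dist_eq_norm, add_zero, add_sub_cancel_left, norm_smul, S.unit, mul_one,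
      Real.norm_eq_abs, abs_of_pos hx₀]
    linarith
  have hρq : ρ (σ (z₀ + (x₀ • e + (0:E)))) = c₁ := by
    rw [S.val' he0 haxis, map_zero, inner_zero_left, hx₀sq]
    ring
  have hq' : ρ₂ (σ (z₀ + (x₀ • e + (0:E)))) ≤ 0 :=
    mem_side S hρ₁.continuous hρ₂.continuous hcov hdis ha har ha₂ he0 hx₀.le hx₀a.le haxis hρq.le
  have hq0 : ρ₂ (σ (z₀ + (x₀ • e + (0:E)))) = 0 := by rw [hv2 _ hq', hρq, sub_self]
  obtain ⟨q, hqc, hqσ⟩ : σ (z₀ + (x₀ • e + (0:E))) ∈ Φ '' closedBall (0:E) 1 := by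
    rw [himg]; exact hq'
  have hnorm1 : ∀ z, ‖z‖ ≤ 1 → ρ₂ (Φ z) = 0 → ‖z‖ = 1 := by
    intro z hz h0
    rcases hz.eq_or_lt with h | h
    · exact h
    · have := ball_int hu hρ₂ hreg2 hΦ himg h
      linarith
  have hq1 : ‖q‖ = 1 := hnorm1 q (mem_closedBall_zero_iff.1 hqc) (by rw [hqσ, hq0])
  obtain ⟨hκ, hcor⟩ := corner hu hρ S hρ₂ hreg2 he hΦ himg hx₀ (by simpa using haxis) hq1
    (by simpa using hqσ) (hg2 _ (by rw [hqσ]; exact hq'))
  have hdir := corner_dir hu S hΦ hΨ hi hx₀ hq1 hκ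
  set l : N → ℝ := (fun z : E => -⟪z, q⟫) ∘ Ψ with hl
  have hld : ContDiff ℝ ∞ (fun z : E => -⟪z, q⟫) := (contDiff_id.inner ℝ contDiff_const).neg
  have hls : ContMDiff 𝓘(ℝ, E) 𝓘(ℝ, ℝ) ∞ l := hld.contMDiff.comp hΨ
  have hlder : ∀ z w : E, fderiv ℝ (fun z : E => -⟪z, q⟫) z w = -⟪w, q⟫ := by
    intro z w
    have : HasFDerivAt (fun z : E => -⟪z, q⟫) (-(innerSL ℝ q)) z := by
      have h4 := (innerSL ℝ q).hasFDerivAt (x := z)
      have h5 : (fun z : E => -⟪z, q⟫) = fun z => -((innerSL ℝ q) z) := by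
        funext z
        rw [innerSL_apply_apply, real_inner_comm]
      rw [h5]
      exact h4.neg
    rw [this.fderiv]
    simp [real_inner_comm]
  have hgl : ∀ z ∈ ball (0:E) 2, ∀ w, ⟪gr u l (Φ z), fderiv ℝ (u ∘ Φ) z w⟫ = -⟪w, q⟫ := by
    intro z hz w
    rw [hl, gr_coord hu hΦ hΨ hi hld hz w, hlder]
  -- a small neighbourhood of the boundary point on the axis
  have hev1 : ∀ᶠ x in 𝓝 (Φ q), x ∈ Φ '' {z | (‖z‖ = 1 → z ≠ q →
      0 < ⟪pe e (u (Φ z) - u p), fderiv ℝ (u ∘ Φ) z (tq q z)⟫ ∧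
      0 < ⟪A (pe e (u (Φ z) - u p)), fderiv ℝ (u ∘ Φ) z (tq q z)⟫) ∧ 0 < ⟪z, q⟫} := by
    refine he.isOpenMap.image_mem_nhds (hcor.and ?_)
    refine ev_gt (f := fun z : E => ⟪z, q⟫) (by fun_prop) ?_
    show 0 < ⟪q, q⟫
    rw [real_inner_self_eq_norm_sq, hq1]
    norm_num
  have hσc : ContinuousAt σ (z₀ + (x₀ • e + (0:E))) := S.sec.contAt haxis
  have hev2 : ∀ᶠ z in 𝓝 (z₀ + (x₀ • e + (0:E))), (σ z ∈ Φ '' {z | (‖z‖ = 1 → z ≠ q →
      0 < ⟪pe e (u (Φ z) - u p), fderiv ℝ (u ∘ Φ) z (tq q z)⟫ ∧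
      0 < ⟪A (pe e (u (Φ z) - u p)), fderiv ℝ (u ∘ Φ) z (tq q z)⟫) ∧ 0 < ⟪z, q⟫}) ∧
      0 < ⟪gr u l (σ z), e⟫ := by
    have := hev1.and hdir
    rw [hqσ] at this
    exact hσc.eventually this
  obtain ⟨η, hη, hη'⟩ := Metric.eventually_nhds_iff_ball.1 hev2
  -- the dimensions of the tube
  obtain ⟨a', ha'1, ha'2, ha'3⟩ : ∃ a' : ℝ, x₀ < a' ∧ a' ≤ a ∧ a' ≤ x₀ + η / 4 :=
    ⟨min a (x₀ + η / 4), lt_min hx₀a (by linarith), min_le_left _ _, min_le_right _ _⟩
  have ha'0 : 0 < a' := hx₀.trans ha'1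
  have ha'r : a' < r := ha'2.trans_lt har
  obtain ⟨b, hb0, hb1, hb2, hb3, hb4⟩ : ∃ b : ℝ, 0 < b ∧ b < η / 4 ∧
      Λ * b ^ 2 < α * (a' ^ 2 - x₀ ^ 2) ∧ Λ * b ^ 2 < -(2 * ρ p) ∧ a' ^ 2 + b ^ 2 < r ^ 2 := by
    have e1 : ∀ᶠ b in 𝓝[>] (0:ℝ), b < η / 4 := nhdsWithin_le_nhds (gt_mem_nhds (by positivity))
    have e2 : ∀ᶠ b in 𝓝[>] (0:ℝ), Λ * b ^ 2 < α * (a' ^ 2 - x₀ ^ 2) := by
      refine nhdsWithin_le_nhds (ev_lt (f := fun b : ℝ => Λ * b ^ 2) (by fun_prop) ?_)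
      have : 0 < a' ^ 2 - x₀ ^ 2 := by nlinarith
      simpa using mul_pos hα this
    have e3 : ∀ᶠ b in 𝓝[>] (0:ℝ), Λ * b ^ 2 < -(2 * ρ p) := by
      refine nhdsWithin_le_nhds (ev_lt (f := fun b : ℝ => Λ * b ^ 2) (by fun_prop) ?_)
      simp only [ne_eq, OfNat.ofNat_ne_zero, not_false_eq_true, zero_pow, mul_zero]
      linarith
    have e4 : ∀ᶠ b in 𝓝[>] (0:ℝ), a' ^ 2 + b ^ 2 < r ^ 2 := by
      refine nhdsWithin_le_nhds (ev_lt (f := fun b : ℝ => a' ^ 2 + b ^ 2) (by fun_prop) ?_)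
      have : a' ^ 2 < r ^ 2 := by nlinarith
      simpa using this
    obtain ⟨b, ⟨h1, h2, h3, h4⟩, h5⟩ :=
      ((e1.and (e2.and (e3.and e4))).and self_mem_nhdsWithin).exists
    exact ⟨b, h5, h1, h2, h3, h4⟩
  have hTB : ∀ z, |⟪e, z - z₀⟫| ≤ a' → ‖pe e (z - z₀)‖ ≤ b → z ∈ ball z₀ r := by
    intro z hz1 hz2
    rw [mem_ball, dist_eq_norm]
    have h1 := pe_norm_sq S.unit (z - z₀)
    have h2 : ⟪e, z - z₀⟫ ^ 2 ≤ a' ^ 2 := by
      rw [← sq_abs]
      have := abs_nonneg ⟪e, z - z₀⟫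
      nlinarith
    have h3 : ‖pe e (z - z₀)‖ ^ 2 ≤ b ^ 2 := by
      have := norm_nonneg (pe e (z - z₀))
      nlinarith
    have h4 := S.rpos
    exact lt_of_pow_lt_pow_left₀ 2 h4.le (by linarith)
  set T : Set N := Tub σ z₀ e a' b with hT
  set TO : Set N := TubO σ z₀ e a' b with hTO
  set TL : Set N := TubL σ z₀ e a' b with hTL
  have hTc : IsCompact T := Tub_compact huc S.sec hTB
  have hTLc : IsCompact TL := TubL_compact huc S.sec hTB
  have hTOo : IsOpen TO := TubO_open huc S.sec hTB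
  have mT : ∀ x, x ∈ T ↔ x ∈ σ '' ball z₀ r ∧ |⟪e, u x - z₀⟫| ≤ a' ∧ ‖pe e (u x - z₀)‖ ≤ b :=
    fun x => mem_Tub huc S.sec hTB
  have mTO : ∀ x, x ∈ TO ↔ x ∈ σ '' ball z₀ r ∧ |⟪e, u x - z₀⟫| < a' ∧ ‖pe e (u x - z₀)‖ < b :=
    fun x => mem_TubO huc S.sec hTB
  have mTL : ∀ x, x ∈ TL ↔ x ∈ σ '' ball z₀ r ∧ |⟪e, u x - z₀⟫| ≤ a' ∧ ‖pe e (u x - z₀)‖ = b :=
    fun x => mem_TubL huc S.sec hTB
  have hTOT : ∀ x ∈ TO, x ∈ T := fun x hx => (mT x).2 ⟨((mTO x).1 hx).1, ((mTO x).1 hx).2.1.le,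
    ((mTO x).1 hx).2.2.le⟩
  have hTLT : ∀ x ∈ TL, x ∈ T := fun x hx => (mT x).2 ⟨((mTL x).1 hx).1, ((mTL x).1 hx).2.1,
    ((mTL x).1 hx).2.2.le⟩
  -- the value of `ρ` in the tube
  have hval : ∀ x ∈ T, ρ x = ρ p + (-(α * ⟪e, u x - z₀⟫ ^ 2) +
      ⟪A (pe e (u x - z₀)), pe e (u x - z₀)⟫) / 2 := by
    intro x hx
    have h1 := ((mT x).1 hx).1
    have h2 := S.val (S.sec.mem h1)
    rwa [S.sec.left h1] at h2
  have hAy0 : ∀ x, 0 ≤ ⟪A (pe e (u x - z₀)), pe e (u x - z₀)⟫ := by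
    intro x
    have h1 := S.pos _ (pe_orth S.unit (u x - z₀))
    have : 0 ≤ β * ‖pe e (u x - z₀)‖ ^ 2 := by positivity
    linarith
  have hAyb : ∀ x ∈ T, ⟪A (pe e (u x - z₀)), pe e (u x - z₀)⟫ ≤ Λ * b ^ 2 := by
    intro x hx
    have h1 := S.bound (pe e (u x - z₀))
    have h2 := ((mT x).1 hx).2.2
    have h3 : Λ * ‖pe e (u x - z₀)‖ ^ 2 ≤ Λ * b ^ 2 := by gcongr
    linarith
  have hTneg : ∀ x ∈ T, ρ x < 0 := by
    intro x hx
    have h1 := hval x hx
    have h2 := hAyb x hx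
    have h3 : 0 ≤ α * ⟪e, u x - z₀⟫ ^ 2 := by positivity
    linarith
  have hface : ∀ x ∈ T, |⟪e, u x - z₀⟫| = a' → ρ x < c₁ := by
    intro x hx hxa
    have h1 := hval x hx
    have h2 := hAyb x hx
    rw [← sq_abs, hxa] at h1
    have h3 : α * (a' ^ 2 - x₀ ^ 2) = α * a' ^ 2 - 2 * (ρ p - c₁) := by rw [← hx₀sq]; ring
    linarith
  have hdecomp : ∀ x, z₀ + (⟪e, u x - z₀⟫ • e + pe e (u x - z₀)) = u x := by
    intro x
    rw [← pe_split]; abel
  have hT2 : ∀ x ∈ T, ρ x ≤ c₁ → 0 ≤ ⟪e, u x - z₀⟫ → ρ₂ x ≤ 0 := by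
    intro x hx hxc hs
    have h1 := (mT x).1 hx
    have h2 := mem_side S hρ₁.continuous hρ₂.continuous hcov hdis ha har ha₂
      (s := ⟪e, u x - z₀⟫) (y := pe e (u x - z₀)) (pe_orth S.unit _) hs
      (((abs_le.1 h1.2.1).2).trans ha'2) (by rw [hdecomp]; exact S.sec.mem h1.1)
      (by rw [hdecomp, S.sec.left h1.1]; exact hxc)
    rwa [hdecomp, S.sec.left h1.1] at h2
  have hT1 : ∀ x ∈ T, ρ x ≤ c₁ → ⟪e, u x - z₀⟫ ≤ 0 → ρ₁ x ≤ 0 := by
    intro x hx hxc hs
    have h1 := (mT x).1 hx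
    have hd : z₀ + ((-⟪e, u x - z₀⟫) • (-e) + pe e (u x - z₀)) = u x := by
      rw [smul_neg, neg_smul, neg_neg]; exact hdecomp x
    have h2 := mem_side S.flip hρ₂.continuous hρ₁.continuous (fun x hx => (hcov x hx).symm)
      (fun x h1 h2 => hdis x h2 h1) ha har ha₁
      (s := -⟪e, u x - z₀⟫) (y := pe e (u x - z₀))
      (by rw [inner_neg_left, pe_orth S.unit, neg_zero]) (by linarith)
      (by have := (abs_le.1 h1.2.1).1; linarith) (by rw [hd]; exact S.sec.mem h1.1)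
      (by rw [hd, S.sec.left h1.1]; exact hxc)
    rwa [hd, S.sec.left h1.1] at h2
  have hTs : ∀ x ∈ T, ρ x ≤ c₁ → x₀ ≤ |⟪e, u x - z₀⟫| := by
    intro x hx hxc
    have h1 := hval x hx
    have h2 := hAy0 x
    have h3 : α * x₀ ^ 2 ≤ α * ⟪e, u x - z₀⟫ ^ 2 := by rw [hx₀sq]; linarith
    have h4 : x₀ ^ 2 ≤ |⟪e, u x - z₀⟫| ^ 2 := by
      rw [sq_abs]; exact le_of_mul_le_mul_left h3 hα
    exact le_of_sq_le_sq h4 (abs_nonneg _)
  have hTpos : ∀ x ∈ T, ρ₂ x ≤ 0 → x₀ ≤ ⟪e, u x - z₀⟫ := by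
    intro x hx hx2
    have h1 := hTs x hx (hle2 x hx2)
    rcases le_or_gt 0 ⟪e, u x - z₀⟫ with h | h
    · rwa [abs_of_nonneg h] at h1
    · exact absurd (hT1 x hx (hle2 x hx2) h.le) (fun h' => hdis x h' hx2)
  have hTη : ∀ x ∈ T, ρ₂ x ≤ 0 → u x ∈ ball (z₀ + (x₀ • e + (0:E))) η := by
    intro x hx hx2
    have h1 := hTpos x hx hx2
    have h2 := (mT x).1 hx
    have h3 : u x - (z₀ + (x₀ • e + (0:E))) = (⟪e, u x - z₀⟫ - x₀) • e + pe e (u x - z₀) := by
      have h4 := hdecomp x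
      generalize ⟪e, u x - z₀⟫ = s at h4 ⊢
      generalize pe e (u x - z₀) = y at h4 ⊢
      rw [← h4, sub_smul]
      abel
    rw [mem_ball, dist_eq_norm, h3]
    refine (norm_add_le _ _).trans_lt ?_
    rw [norm_smul, S.unit, mul_one, Real.norm_eq_abs, abs_of_nonneg (by linarith)]
    have h4 := (abs_le.1 h2.2.1).2
    linarith [h2.2.2]
  have hTq : σ (z₀ + (x₀ • e + (0:E))) ∈ TO := by
    rw [mTO, S.sec.right _ haxis]
    refine ⟨⟨_, haxis, rfl⟩, ?_, ?_⟩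
    · rw [(S.coord he0).1, abs_of_pos hx₀]; exact ha'1
    · rw [(S.coord he0).2, norm_zero]; exact hb0
  have hpT : p ∈ TO := by
    rw [mTO]
    refine ⟨⟨z₀, mem_ball_self S.rpos, S.base⟩, ?_, ?_⟩
    · rw [← hz₀, sub_self, inner_zero_right, abs_zero]; exact ha'0
    · rw [← hz₀, sub_self]
      simp only [pe, inner_zero_right, zero_smul, sub_zero, norm_zero]
      exact hb0
  -- the cap
  obtain ⟨δ, hδ, hδ'⟩ : ∃ δ : ℝ, 0 < δ ∧ ∀ z, ‖z‖ = 1 → Φ z ∉ TO → (1 + δ) * ⟪z, q⟫ < 1 := by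
    have h1 : Φ ⁻¹' TO ∈ 𝓝 q := he.continuous.continuousAt.preimage_mem_nhds
      (hTOo.mem_nhds (by rw [hqσ]; exact hTq))
    obtain ⟨δ', hδ1, hδ2⟩ := Metric.mem_nhds_iff.1 h1
    refine ⟨δ' ^ 2 / 4, by positivity, fun z hz hzT => ?_⟩
    have h2 : δ' ≤ ‖z - q‖ := by
      by_contra h
      push Not at h
      exact hzT (hδ2 (by rw [mem_ball, dist_eq_norm]; exact h))
    have h3 : δ' ^ 2 ≤ 2 - 2 * ⟪z, q⟫ := by
      have h4 : ‖z - q‖ ^ 2 = 2 - 2 * ⟪z, q⟫ := by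
        rw [norm_sub_sq_real, hz, hq1]; ring
      rw [← h4]
      nlinarith
    have h5 : 0 < δ' ^ 2 := by positivity
    nlinarith
  set lam : ℝ := (α * a' + 1) / (β * b ^ 2) with hlam
  have hlam0 : 0 < lam := by positivity
  have hlamb : lam * (β * b ^ 2) = α * a' + 1 := by
    rw [hlam]; field_simp
  -- pointwise solution of the conditions
  have hgρT : ∀ x ∈ T, gr u ρ x = A (u x - z₀) := by
    intro x hx
    have h1 := ((mT x).1 hx).1
    have h2 := S.gr_eq hu hρ (S.sec.mem h1)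
    rwa [S.sec.left h1] at h2
  have hpt : ∀ x, ∃ v : E, (x ∈ T → 0 < ⟪e, v⟫) ∧ (x ∈ TL → 0 < ⟪pe e (u x - z₀), v⟫) ∧
      (x ∈ {x | ρ₂ x ≤ 0} \ TO → 0 < ⟪gr u l x, v⟫) ∧
      (x ∈ {x | c₁ ≤ ρ x ∧ ρ x ≤ 0} \ TO → 0 < ⟪gr u ρ x, v⟫) ∧
      (x ∈ {x | ρ₁ x ≤ 0 ∧ ρ x = c₁} → 0 < ⟪gr u ρ x, v⟫) := by
    intro x
    by_cases hxT : x ∈ T
    · have hmT := (mT x).1 hxT
      set s : ℝ := ⟪e, u x - z₀⟫ with hs
      set y : E := pe e (u x - z₀) with hy
      have hye : ⟪e, y⟫ = 0 := pe_orth S.unit _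
      have hAye : ⟪e, A y⟫ = 0 := S.orth hye
      by_cases hx2 : ρ₂ x ≤ 0
      · have hs0 : x₀ ≤ s := hTpos x hxT hx2
        obtain ⟨⟨z', hz', hzx⟩, hdx⟩ := hη' _ (hTη x hxT hx2)
        rw [S.sec.left hmT.1] at hzx hdx
        have hx1 : ¬ρ₁ x ≤ 0 := fun h => hdis x h hx2
        by_cases hxO : x ∈ TO
        · refine ⟨e, fun _ => ?_, fun h => ?_, fun h => absurd hxO h.2, fun h => absurd hxO h.2,
            fun h => absurd h.1 hx1⟩
          · rw [real_inner_self_eq_norm_sq, S.unit]; norm_num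
          · exact absurd ((mTL x).1 h).2.2 ((mTO x).1 hxO).2.2.ne
        · rcases (hle2 x hx2).lt_or_eq with hxc | hxc
          · -- inside the ball
            have h1 : ∀ᶠ t in 𝓝[>] (0:ℝ), 0 < ⟪gr u l x, e⟫ + t * ⟪gr u l x, y⟫ := by
              refine nhdsWithin_le_nhds (ev_gt
                (f := fun t : ℝ => ⟪gr u l x, e⟫ + t * ⟪gr u l x, y⟫) (by fun_prop) ?_)
              simpa using hdx
            obtain ⟨t, ht1, ht2⟩ := (h1.and self_mem_nhdsWithin).exists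
            have ht0 : 0 < t := ht2
            refine ⟨e + t • y, fun _ => ?_, fun h => ?_, fun _ => ?_,
              fun h => absurd h.1.1 (not_le.2 hxc), fun h => absurd h.1 hx1⟩
            · rw [inner_add_right, inner_smul_right, hye, real_inner_self_eq_norm_sq, S.unit]
              norm_num
            · have h2 : ‖y‖ = b := ((mTL x).1 h).2.2
              rw [inner_add_right, inner_smul_right, real_inner_comm, hye,
                real_inner_self_eq_norm_sq, h2]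
              positivity
            · rw [inner_add_right, inner_smul_right]; exact ht1
          · -- the corner
            have hyb : ‖y‖ = b := by
              rcases (hmT.2.2).eq_or_lt with h | h
              · exact h
              · exfalso
                rcases (hmT.2.1).eq_or_lt with h' | h'
                · have := hface x hxT h'
                  linarith
                · exact hxO ((mTO x).2 ⟨hmT.1, h', h⟩)
            have hz1 : ‖z'‖ = 1 := by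
              refine hnorm1 z' ?_ ?_
              · have : Φ z' ∈ Φ '' closedBall (0:E) 1 := by
                  rw [himg, hzx]; exact hx2
                exact mem_closedBall_zero_iff.1 (he.injective.mem_set_image.1 this)
              · rw [hzx, hv2 x hx2, hxc, sub_self]
            have hzq : z' ≠ q := by
              rintro rfl
              rw [hqσ] at hzx
              have h1 : y = 0 := by
                rw [hy, ← hzx, S.sec.right _ haxis, (S.coord he0).2]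
              rw [h1, norm_zero] at hyb
              linarith
            obtain ⟨hc1, hc2⟩ := hz'.1 hz1 hzq
            rw [hzx] at hc1 hc2
            obtain ⟨-, κ, hκ0, hκ'⟩ := bdry_grad hu hρ₂ hreg2 he hΦ himg hz1
            set v₀ := fderiv ℝ (u ∘ Φ) z' (tq q z') with hv₀
            set v₁ := fderiv ℝ (u ∘ Φ) z' z' with hv₁
            have hzb : z' ∈ ball (0:E) 2 := by rw [mem_ball_zero_iff, hz1]; norm_num
            have hl0 : 0 < ⟪gr u l x, v₀⟫ := by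
              have h1 := hgl z' hzb (tq q z')
              rw [hzx] at h1
              rw [hv₀, h1]
              have := tq_q hq1 hz1 hzq hz'.2
              linarith
            have hr0 : ⟪gr u ρ x, v₀⟫ = 0 := by
              have h1 := hκ' (tq q z')
              rw [hzx, hg2 x hx2, tq_orth hz1, mul_zero] at h1
              exact h1
            have hr1 : ⟪gr u ρ x, v₁⟫ = κ := by
              have h1 := hκ' z'
              rw [hzx, hg2 x hx2, real_inner_self_eq_norm_sq, hz1] at h1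
              rw [hv₁, h1]; ring
            have f1 : ∀ᶠ t in 𝓝[>] (0:ℝ), 0 < ⟪y, v₀⟫ + t * ⟪y, v₁⟫ := by
              refine nhdsWithin_le_nhds (ev_gt
                (f := fun t : ℝ => ⟪y, v₀⟫ + t * ⟪y, v₁⟫) (by fun_prop) ?_)
              simpa using hc1
            have f2 : ∀ᶠ t in 𝓝[>] (0:ℝ), 0 < ⟪gr u l x, v₀⟫ + t * ⟪gr u l x, v₁⟫ := by
              refine nhdsWithin_le_nhds (ev_gt
                (f := fun t : ℝ => ⟪gr u l x, v₀⟫ + t * ⟪gr u l x, v₁⟫) (by fun_prop) ?_)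
              simpa using hl0
            have f3 : ∀ᶠ t in 𝓝[>] (0:ℝ), 0 < ⟪A y, v₀⟫ + t * (⟪A y, v₁⟫ - κ) := by
              refine nhdsWithin_le_nhds (ev_gt
                (f := fun t : ℝ => ⟪A y, v₀⟫ + t * (⟪A y, v₁⟫ - κ)) (by fun_prop) ?_)
              simpa using hc2
            obtain ⟨t, ⟨g1, g2, g3⟩, ht2⟩ := ((f1.and (f2.and f3)).and self_mem_nhdsWithin).exists
            have ht0 : 0 < t := ht2
            refine ⟨v₀ + t • v₁, fun _ => ?_, fun _ => ?_, fun _ => ?_, fun _ => ?_,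
              fun h => absurd h.1 hx1⟩
            · have h1 := S.inner_A (u x - z₀) (v₀ + t • v₁)
              rw [← hgρT x hxT, inner_add_right, inner_smul_right, hr0, hr1, ← hs, ← hy,
                inner_add_right (A y), inner_smul_right] at h1
              have h2 : 0 < (α * s) * ⟪e, v₀ + t • v₁⟫ := by linarith
              have h3 : 0 < α * s := by
                have : 0 < s := hx₀.trans_le hs0
                positivity
              exact (mul_pos_iff_of_pos_left h3).1 h2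
            · rw [inner_add_right, inner_smul_right]; exact g1
            · rw [inner_add_right, inner_smul_right]; exact g2
            · rw [inner_add_right, inner_smul_right, hr0, hr1]
              have := mul_pos ht0 hκ0
              linarith
      · -- in the tube, outside of the second ball
        have hgv : ⟪gr u ρ x, e + lam • y⟫ = -(α * s) + lam * ⟪A y, y⟫ := by
          rw [hgρT x hxT, S.inner_A, ← hs, ← hy]
          rw [inner_add_right, inner_add_right, inner_smul_right, inner_smul_right, hye,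
            real_inner_self_eq_norm_sq, S.unit, real_inner_comm e (A y), hAye]
          ring
        refine ⟨e + lam • y, fun _ => ?_, fun h => ?_, fun h => absurd h.1 hx2, fun h => ?_,
          fun h => ?_⟩
        · rw [inner_add_right, inner_smul_right, hye, real_inner_self_eq_norm_sq, S.unit]
          norm_num
        · have h2 : ‖y‖ = b := ((mTL x).1 h).2.2
          rw [inner_add_right, inner_smul_right, real_inner_comm, hye,
            real_inner_self_eq_norm_sq, h2]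
          positivity
        · have hyb : ‖y‖ = b := by
            rcases (hmT.2.2).eq_or_lt with h3 | h3
            · exact h3
            · exfalso
              rcases (hmT.2.1).eq_or_lt with h' | h'
              · have := hface x hxT h'
                linarith [h.1.1]
              · exact h.2 ((mTO x).2 ⟨hmT.1, h', h3⟩)
          rw [hgv]
          have h4 := S.pos y hye
          rw [hyb] at h4
          have h5 : lam * (β * b ^ 2) ≤ lam * ⟪A y, y⟫ := by gcongr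
          have h6 : α * s ≤ α * a' := by
            have := (abs_le.1 hmT.2.1).2
            gcongr
          linarith
        · rw [hgv]
          have h3 : s < 0 := by
            have h4 := hTs x hxT h.2.le
            by_contra h5
            push Not at h5
            exact hx2 (hT2 x hxT h.2.le h5)
          have h4 : 0 ≤ ⟪A y, y⟫ := hAy0 x
          have h5 : 0 ≤ lam * ⟪A y, y⟫ := mul_nonneg hlam0.le h4
          have h6 : 0 < -(α * s) := by nlinarith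
          linarith
    · have hxTO : x ∉ TO := fun h => hxT (hTOT x h)
      have hxTL : x ∉ TL := fun h => hxT (hTLT x h)
      by_cases hx2 : ρ₂ x ≤ 0
      · have hx1 : ¬ρ₁ x ≤ 0 := fun h => hdis x h hx2
        obtain ⟨z, hz, rfl⟩ : x ∈ Φ '' closedBall (0:E) 1 := by rw [himg]; exact hx2
        rw [mem_closedBall_zero_iff] at hz
        refine ⟨fderiv ℝ (u ∘ Φ) z (z - (1 + δ) • q), fun h => absurd h hxT,
          fun h => absurd h hxTL, fun _ => ?_, fun h => ?_, fun h => absurd h.1 hx1⟩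
        · rw [hgl z (by rw [mem_ball_zero_iff]; linarith), inner_sub_left, inner_smul_left,
            real_inner_self_eq_norm_sq, hq1]
          simp only [conj_trivial]
          have h3 : ⟪z, q⟫ ≤ 1 := by
            have := real_inner_le_norm z q
            rw [hq1, mul_one] at this
            linarith
          linarith
        · have hxc : ρ (Φ z) = c₁ := le_antisymm (hle2 _ hx2) h.1.1
          have hz1 : ‖z‖ = 1 := hnorm1 z hz (by rw [hv2 _ hx2, hxc, sub_self])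
          obtain ⟨-, κ, hκ0, hκ'⟩ := bdry_grad hu hρ₂ hreg2 he hΦ himg hz1
          rw [← hg2 _ hx2, hκ']
          refine mul_pos hκ0 ?_
          rw [inner_sub_right, inner_smul_right, real_inner_self_eq_norm_sq, hz1]
          have := hδ' z hz1 hxTO
          linarith
      · by_cases hxm : c₁ ≤ ρ x ∧ ρ x ≤ 0
        · have hne : gr u ρ x ≠ 0 := hreg x hxm.2 hxm.1 (by
            rintro rfl
            exact hxTO hpT)
          have hpos' : 0 < ⟪gr u ρ x, gr u ρ x⟫ := by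
            rw [real_inner_self_eq_norm_sq]
            have := norm_pos_iff.2 hne
            positivity
          exact ⟨gr u ρ x, fun h => absurd h hxT, fun h => absurd h hxTL, fun h => absurd h.1 hx2,
            fun _ => hpos', fun _ => hpos'⟩
        · exact ⟨0, fun h => absurd h hxT, fun h => absurd h hxTL, fun h => absurd h.1 hx2,
            fun h => absurd h.1 hxm, fun h => absurd (⟨h.2.ge, by
              rw [h.2]; linarith⟩ : c₁ ≤ ρ x ∧ ρ x ≤ 0) hxm⟩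
  -- the field
  obtain ⟨X, Fl, hXs, hFl, -, -, hXK⟩ := exists_flow_field hu hcomp (ι := Fin 5)
    (K := ![T, TL, {x | ρ₂ x ≤ 0} \ TO, {x | c₁ ≤ ρ x ∧ ρ x ≤ 0} \ TO,
      {x | ρ₁ x ≤ 0 ∧ ρ x = c₁}])
    (by
      intro i
      fin_cases i
      · exact hTc.isClosed
      · exact hTLc.isClosed
      · exact (isClosed_le hρ₂.continuous continuous_const).sdiff hTOo
      · exact ((isClosed_le continuous_const hρ.continuous).inter
          (isClosed_le hρ.continuous continuous_const)).sdiff hTOo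
      · exact (isClosed_le hρ₁.continuous continuous_const).inter
          (isClosed_eq hρ.continuous continuous_const))
    (c := ![fun _ => e, fun x => pe e (u x - z₀), gr u l, gr u ρ, gr u ρ])
    (by
      intro i
      fin_cases i
      · exact continuous_const
      · exact (pe_cont e).comp (huc.sub continuous_const)
      · exact (gr_smooth hu hls).continuous
      · exact (gr_smooth hu hρ).continuous
      · exact (gr_smooth hu hρ).continuous)
    (S₁ := ∅) (S₂ := ∅) isClosed_empty isClosed_empty (disjoint_empty _)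
    (Y₁ := fun _ => 0) (Y₂ := fun _ => 0) contMDiff_const contMDiff_const
    (fun x hx => absurd hx (notMem_empty x)) (fun x hx => absurd hx (notMem_empty x))
    (by
      intro x _ _
      obtain ⟨v, k1, k2, k3, k4, k5⟩ := hpt x
      refine ⟨v, fun i => ?_⟩
      fin_cases i
      · exact k1
      · exact k2
      · exact k3
      · exact k4
      · exact k5)
  have hk1 : ∀ x ∈ T, 0 < ⟪e, X x⟫ := fun x hx => hXK 0 x hx (hTneg x hx).le
  have hk2 : ∀ x ∈ TL, 0 < ⟪pe e (u x - z₀), X x⟫ := fun x hx =>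
    hXK 1 x hx (hTneg x (hTLT x hx)).le
  have hk3 : ∀ x, ρ₂ x ≤ 0 → x ∉ TO → 0 < ⟪gr u l x, X x⟫ := fun x hx hx' =>
    hXK 2 x ⟨hx, hx'⟩ (by show ρ x ≤ 0; linarith [hle2 x hx])
  have hk4 : ∀ x, c₁ ≤ ρ x → ρ x ≤ 0 → x ∉ TO → 0 < ⟪gr u ρ x, X x⟫ := fun x h1 h2 h3 =>
    hXK 3 x ⟨⟨h1, h2⟩, h3⟩ h2
  have hk5 : ∀ x, ρ₁ x ≤ 0 → ρ x = c₁ → 0 < ⟪gr u ρ x, X x⟫ := fun x h1 h2 =>
    hXK 4 x ⟨h1, h2⟩ (by show ρ x ≤ 0; rw [h2]; linarith)
  have hcomp2 : IsCompact {x | ρ₂ x ≤ 0} := by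
    rw [← himg]
    exact (isCompact_closedBall 0 1).image he.continuous
  refine ball_of_ball hu hρ hρ₁ hcomp hreg1 (fun x hx => by linarith [hle1 x hx]) hb₁ hXs
    (fun x hx => hk4 x (by rw [hx]; linarith) hx.le (fun h => by
      have := hTneg x (hTOT x h)
      linarith))
    (fun x hx => by
      rw [hg1 x hx.le]
      exact hk5 x hx.le (by linarith [hv1 x hx.le])) ?_
  intro X' Fl' hX's hFl' hX'X x hx
  -- stage 1
  have hstage3 : ∀ y ∈ TO, ∃ t, 0 ≤ t ∧ ρ₁ (Fl' (-t) y) < 0 := by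
    intro y hy
    refine in_tube huc S.sec hTB S.unit hXs.continuous hFl' hk1 hk2 ?_ ?_ (hTOT y hy)
    · intro x hx hx1
      exact hX'X x (hTneg x hx).le hx1
    · intro x hx hxa
      have h1 : |⟪e, u x - z₀⟫| = a' := by rw [hxa, abs_neg, abs_of_pos ha'0]
      have h2 := hface x hx h1
      have h3 := hT1 x hx h2.le (by rw [hxa]; linarith)
      linarith [hv1 x h3]
  have hstage2 : ∀ y, ρ₂ y ≤ 0 → ∃ t, 0 ≤ t ∧ Fl' (-t) y ∈ TO := by
    intro y hy
    refine reach' hu hX's.continuous hFl' hρ₂ hcomp2 hTOo ?_ hls ?_ hy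
    · intro x hx hxO
      have h1 := hle2 x hx.le
      have h2 := hv2 x hx.le
      have h3 : 0 ≤ ρ₁ x := by
        by_contra h
        exact hdis x (not_le.1 h).le hx.le
      rw [hX'X x (by linarith) h3, hg2 x hx.le]
      exact hk4 x (by linarith) (by linarith) hxO
    · intro x hx hxO
      have h1 := hle2 x hx
      have h3 : 0 ≤ ρ₁ x := by
        by_contra h
        exact hdis x (not_le.1 h).le hx
      rw [hX'X x (by linarith) h3]
      exact hk3 x hx hxO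
  obtain ⟨t₁, ht₁, hmem⟩ := reach' hu hX's.continuous hFl' hρ hcomp
    (O := TO ∪ {x | ρ x < c₁}) (hTOo.union (isOpen_lt hρ.continuous continuous_const))
    (fun y hy hyO => by
      have h1 : y ∉ TO := fun h => hyO (Or.inl h)
      have h3 : 0 ≤ ρ₁ y := by
        by_contra h
        have := hle1 y (not_le.1 h).le
        linarith
      rw [hX'X y hy.le h3]
      exact hk4 y (by linarith) hy.le h1) hρ
    (fun y hy hyO => by
      have h1 : y ∉ TO := fun h => hyO (Or.inl h)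
      have h2 : c₁ ≤ ρ y := not_lt.1 fun h => hyO (Or.inr h)
      have h3 : 0 ≤ ρ₁ y := by
        by_contra h
        have h4 := hv1 y (not_le.1 h).le
        linarith [not_le.1 h]
      rw [hX'X y hy h3]
      exact hk4 y h2 hy h1) hx
  have hcombine : ∀ y t s, 0 ≤ t → 0 ≤ s → ρ₁ (Fl' (-s) (Fl' (-t) y)) < 0 →
      ∃ t', 0 ≤ t' ∧ ρ₁ (Fl' (-t') y) < 0 := by
    intro y t s ht hs h
    refine ⟨s + t, by positivity, ?_⟩
    rwa [show -(s + t) = -s + -t by ring, hFl'.add]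
  rcases hmem with h1 | h1
  · obtain ⟨s, hs, h2⟩ := hstage3 _ h1
    exact hcombine x t₁ s ht₁ hs h2
  · have h1' : ρ (Fl' (-t₁) x) < c₁ := h1
    rcases hcov _ h1'.le with h2 | h2
    · exact ⟨t₁, ht₁, by linarith [hv1 _ h2]⟩
    · obtain ⟨s, hs, h3⟩ := hstage2 _ h2
      obtain ⟨s', hs', h4⟩ := hstage3 _ h3
      have h5 : ρ₁ (Fl' (-(s' + s)) (Fl' (-t₁) x)) < 0 := by
        rwa [show -(s' + s) = -s' + -s by ring, hFl'.add]
      exact hcombine x t₁ (s' + s) ht₁ (by positivity) h5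

end Pool.Agent.Q196.XF
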