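import Pool.Agent.Q196.XF.Corner

/-! The two sides of a saddle. -/

set_option autoImplicit false
set_option linter.unusedSectionVars false

open scoped Topology ContDiff Manifold RealInnerProductSpace Gradient
open Set Metric Filter Bundle Pool.Agent.Q196.XB Asymptotics

noncomputable section

namespace Pool.Agent.Q196.XF

variable {E : Type} [NormedAddCommGroup E] [InnerProductSpace ℝ E] [FiniteDimensional ℝ E]
  {N : Type} [TopologicalSpace N] [ChartedSpace E N] [IsManifold 𝓘(ℝ, E) ∞ N]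

lemma side {ρ₁ ρ₂ : N → ℝ} (h₁ : Continuous ρ₁) (h₂ : Continuous ρ₂) {K : Set N}
    (hK : IsPreconnected K) (hcov : ∀ x ∈ K, ρ₁ x ≤ 0 ∨ ρ₂ x ≤ 0)
    (hdis : ∀ x, ρ₁ x ≤ 0 → ρ₂ x ≤ 0 → False) {x y : N} (hx : x ∈ K) (hy : y ∈ K)
    (h : ρ₂ x ≤ 0) : ρ₂ y ≤ 0 := by
  by_contra hne
  have hy1 : ρ₁ y ≤ 0 := (hcov y hy).resolve_right hne
  have := (isPreconnected_closed_iff.1 hK) {x | ρ₁ x ≤ 0} {x | ρ₂ x ≤ 0}
    (isClosed_le h₁ continuous_const) (isClosed_le h₂ continuous_const) hcov ⟨y, hy, hy1⟩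
    ⟨x, hx, h⟩
  obtain ⟨w, -, hw1, hw2⟩ := this
  exact hdis w hw1 hw2

variable {u : N → E} {ρ : N → ℝ} {p : N} {σ : E → N} {r : ℝ} {e : E} {α β Λ : ℝ} {A : E →L[ℝ] E}

lemma Saddle.flip (S : Saddle u ρ p σ r e α β Λ A) : Saddle u ρ p σ r (-e) α β Λ A where
  rpos := S.rpos
  sec := S.sec
  base := S.base
  quad := S.quad
  symm := S.symm
  unit := by rw [norm_neg, S.unit]
  neg := by rw [map_neg, S.neg, smul_neg]
  αpos := S.αpos
  pos := fun y hy => S.pos y (by rw [inner_neg_left] at hy; linarith)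
  βpos := S.βpos
  bound := S.bound
  Λpos := S.Λpos

lemma Saddle.coord (S : Saddle u ρ p σ r e α β Λ A) {s : ℝ} {y : E} (hy : ⟪e, y⟫ = 0) :
    ⟪e, (u p + (s • e + y)) - u p⟫ = s ∧ pe e ((u p + (s • e + y)) - u p) = y := by
  have h1 : (u p + (s • e + y)) - u p = s • e + y := by abel
  rw [h1, pe_add, pe_smul, pe_self S.unit, pe_of_orth hy, inner_add_right, inner_smul_right,
    real_inner_self_eq_norm_sq, S.unit, hy]
  simp

lemma Saddle.val' (S : Saddle u ρ p σ r e α β Λ A) {s : ℝ} {y : E} (hy : ⟪e, y⟫ = 0)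
    (h : u p + (s • e + y) ∈ ball (u p) r) :
    ρ (σ (u p + (s • e + y))) = ρ p + (-(α * s ^ 2) + ⟪A y, y⟫) / 2 := by
  rw [S.val h, (S.coord hy).1, (S.coord hy).2]

lemma Saddle.norm_coord (S : Saddle u ρ p σ r e α β Λ A) {s : ℝ} {y : E} (hy : ⟪e, y⟫ = 0) :
    ‖(u p + (s • e + y)) - u p‖ ^ 2 = s ^ 2 + ‖y‖ ^ 2 := by
  rw [pe_norm_sq S.unit, (S.coord hy).1, (S.coord hy).2]

/-- points of the sublevel set on the positive side of the saddle belong to the second piece -/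
theorem mem_side (S : Saddle u ρ p σ r e α β Λ A) {c₁ : ℝ} {ρ₁ ρ₂ : N → ℝ} (h₁ : Continuous ρ₁)
    (h₂ : Continuous ρ₂) (hcov : ∀ x, ρ x ≤ c₁ → ρ₁ x ≤ 0 ∨ ρ₂ x ≤ 0)
    (hdis : ∀ x, ρ₁ x ≤ 0 → ρ₂ x ≤ 0 → False) {a : ℝ} (ha : 0 < a) (har : a < r)
    (ha₂ : ρ₂ (σ (u p + a • e)) ≤ 0) {s : ℝ} {y : E} (hy : ⟪e, y⟫ = 0) (hs : 0 ≤ s) (hsa : s ≤ a)
    (hb : u p + (s • e + y) ∈ ball (u p) r) (hle : ρ (σ (u p + (s • e + y))) ≤ c₁) :
    ρ₂ (σ (u p + (s • e + y))) ≤ 0 := by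
  have hv := S.val' hy hb
  rw [hv] at hle
  have hAy : 0 ≤ ⟪A y, y⟫ := by
    have h1 := S.pos y hy
    have h2 := S.βpos
    have : 0 ≤ β * ‖y‖ ^ 2 := by positivity
    linarith
  have he0 : ⟪e, (0:E)⟫ = 0 := inner_zero_right _
  have haxis : ∀ s' : ℝ, 0 ≤ s' → s' ≤ a → u p + (s' • e + (0:E)) ∈ ball (u p) r := by
    intro s' h1 h2
    rw [mem_ball, dist_eq_norm, add_zero, add_sub_cancel_left, norm_smul, S.unit, mul_one,
      Real.norm_eq_abs, abs_of_nonneg h1]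
    linarith
  have hr := S.rpos
  have hb' : ∀ t ∈ Icc (0:ℝ) 1, u p + (s • e + t • y) ∈ ball (u p) r := by
    intro t ht
    have hyt : ⟪e, t • y⟫ = 0 := by rw [inner_smul_right, hy, mul_zero]
    have h1 := S.norm_coord (s := s) hyt
    have h2 := S.norm_coord (s := s) hy
    rw [mem_ball, dist_eq_norm] at hb ⊢
    rw [norm_smul, Real.norm_eq_abs, abs_of_nonneg ht.1] at h1
    have h3 : (t * ‖y‖) ^ 2 ≤ ‖y‖ ^ 2 := by
      have : t * ‖y‖ ≤ 1 * ‖y‖ := by gcongr; exact ht.2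
      have h4 : 0 ≤ t * ‖y‖ := mul_nonneg ht.1 (norm_nonneg _)
      nlinarith
    have h5 := norm_nonneg ((u p + (s • e + t • y)) - u p)
    have h6 := norm_nonneg ((u p + (s • e + y)) - u p)
    nlinarith
  have hcont : ContinuousOn σ (ball (u p) r) := S.sec.cont
  -- first path
  have hp1 : IsPreconnected ((fun t : ℝ => σ (u p + (s • e + t • y))) '' Icc 0 1) := by
    refine isPreconnected_Icc.image _ (hcont.comp (Continuous.continuousOn (by fun_prop)) hb')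
  have hp2 : IsPreconnected ((fun t : ℝ => σ (u p + (t • e + (0:E)))) '' Icc s a) := by
    refine isPreconnected_Icc.image _ (hcont.comp (Continuous.continuousOn (by fun_prop)) ?_)
    intro t ht
    exact haxis t (hs.trans ht.1) ht.2
  have hm : ρ₂ (σ (u p + (s • e + (0:E)))) ≤ 0 := by
    refine side h₁ h₂ hp2 ?_ hdis (x := σ (u p + a • e)) ⟨a, ⟨hsa, le_rfl⟩, by simp⟩
      ⟨s, ⟨le_rfl, hsa⟩, rfl⟩ ha₂
    rintro _ ⟨t, ht, rfl⟩
    apply hcov
    show ρ (σ (u p + (t • e + (0:E)))) ≤ c₁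
    rw [S.val' he0 (haxis t (hs.trans ht.1) ht.2), map_zero, inner_zero_left]
    have h1 : s ^ 2 ≤ t ^ 2 := by
      have := ht.1
      nlinarith
    have h2 := S.αpos
    nlinarith
  refine side h₁ h₂ hp1 ?_ hdis (x := σ (u p + (s • e + (0:E)))) ⟨0, ⟨le_rfl, zero_le_one⟩, by simp⟩
    ⟨1, ⟨zero_le_one, le_rfl⟩, by simp⟩ hm
  rintro _ ⟨t, ht, rfl⟩
  apply hcov
  have hyt : ⟪e, t • y⟫ = 0 := by rw [inner_smul_right, hy, mul_zero]
  show ρ (σ (u p + (s • e + t • y))) ≤ c₁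
  rw [S.val' hyt (hb' t ht), map_smul, inner_smul_left, inner_smul_right]
  simp only [conj_trivial]
  have : t * (t * ⟪A y, y⟫) ≤ ⟪A y, y⟫ := by
    have h1 := ht.1
    have h2 := ht.2
    have h3 : t * t ≤ 1 := by nlinarith
    nlinarith
  linarith

end Pool.Agent.Q196.XF
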