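import Pool.Agent.Q196.XF.QuadE

/-! Quadratic model near a nondegenerate critical point, the two types of critical points,
and the pieces of a sublevel set. -/

set_option autoImplicit false
set_option linter.unusedSectionVars false

open scoped Topology ContDiff Manifold RealInnerProductSpace Gradient
open Set Metric Filter Bundle Pool.Agent.Q196.XB Asymptotics

noncomputable section

namespace Pool.Agent.Q196.XF

variable {E : Type} [NormedAddCommGroup E] [InnerProductSpace ℝ E] [FiniteDimensional ℝ E]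
  {N : Type} [TopologicalSpace N] [ChartedSpace E N] [IsManifold 𝓘(ℝ, E) ∞ N]

/-- the two types -/
theorem sym_cases {A : E →L[ℝ] E} (hA : ∀ v w, ⟪A v, w⟫ = ⟪A w, v⟫)
    (hnd : ∀ v, v ≠ 0 → A v ≠ 0)
    (hind : ∀ v w : E, ‖v‖ = 1 → ‖w‖ = 1 → ⟪v, w⟫ = 0 → ∃ a b : ℝ,
      0 < ⟪A (a • v + b • w), a • v + b • w⟫) :
    (∃ β, 0 < β ∧ ∀ y, β * ‖y‖ ^ 2 ≤ ⟪A y, y⟫) ∨
    ∃ (e : E) (α β : ℝ), ‖e‖ = 1 ∧ A e = -(α • e) ∧ 0 < α ∧ 0 < β ∧
      ∀ y, ⟪e, y⟫ = 0 → β * ‖y‖ ^ 2 ≤ ⟪A y, y⟫ := by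
  have hQc : Continuous fun y : E => ⟪A y, y⟫ := by fun_prop
  -- homogeneity
  have hom : ∀ (β : ℝ) (P : E → Prop), (∀ (c : ℝ) y, P y → P (c • y)) →
      (∀ y, ‖y‖ = 1 → P y → β ≤ ⟪A y, y⟫) → ∀ y, P y → β * ‖y‖ ^ 2 ≤ ⟪A y, y⟫ := by
    intro β P hP hβ y hy
    by_cases h0 : y = 0
    · subst h0; simp
    have hn : 0 < ‖y‖ := norm_pos_iff.2 h0
    have h1 := hβ (‖y‖⁻¹ • y) (by rw [norm_smul, norm_inv, norm_norm, inv_mul_cancel₀ hn.ne'])
      (hP _ _ hy)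
    rw [map_smul, inner_smul_left, inner_smul_right] at h1
    simp only [conj_trivial] at h1
    calc β * ‖y‖ ^ 2 ≤ (‖y‖⁻¹ * (‖y‖⁻¹ * ⟪A y, y⟫)) * ‖y‖ ^ 2 := by gcongr
      _ = ⟪A y, y⟫ := by field_simp
  by_cases hS : (sphere (0:E) 1).Nonempty
  · obtain ⟨e, he, hemin⟩ := (isCompact_sphere (0:E) 1).exists_isMinOn hS hQc.continuousOn
    have he1 : ‖e‖ = 1 := mem_sphere_zero_iff_norm.1 he
    set μ : ℝ := ⟪A e, e⟫ with hμ
    have hmin : ∀ y, μ * ‖y‖ ^ 2 ≤ ⟪A y, y⟫ := fun y =>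
      hom μ (fun _ => True) (fun _ _ _ => trivial)
        (fun y hy _ => isMinOn_iff.1 hemin y (mem_sphere_zero_iff_norm.2 hy)) y trivial
    -- the eigenvector equation
    have hei : A e = μ • e := by
      rw [← sub_eq_zero]
      set g := A e - μ • e with hg
      by_contra hne
      have hgn : 0 < ‖g‖ ^ 2 := by
        have := norm_pos_iff.2 hne
        positivity
      have h1 : ∀ t : ℝ, 0 ≤ 2 * t * ‖g‖ ^ 2 + t ^ 2 * (⟪A g, g⟫ - μ * ‖g‖ ^ 2) := by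
        intro t
        have h2 := hmin (e + t • g)
        have h3 : ⟪A (e + t • g), e + t • g⟫ = μ + 2 * t * ⟪A e, g⟫ + t ^ 2 * ⟪A g, g⟫ := by
          rw [map_add, map_smul, inner_add_left, inner_add_right, inner_add_right]
          simp only [inner_smul_left, inner_smul_right, conj_trivial]
          rw [hA g e, ← hμ]; ring
        have h4 : ‖e + t • g‖ ^ 2 = 1 + 2 * t * ⟪e, g⟫ + t ^ 2 * ‖g‖ ^ 2 := by
          rw [norm_add_sq_real, he1, inner_smul_right, norm_smul, mul_pow, Real.norm_eq_abs, sq_abs]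
          ring
        have h5 : ⟪A e, g⟫ - μ * ⟪e, g⟫ = ‖g‖ ^ 2 := by
          rw [← real_inner_self_eq_norm_sq]
          nth_rewrite 3 [hg]
          rw [inner_sub_left, inner_smul_left]
          simp only [conj_trivial]
        rw [h3, h4] at h2
        have h6 : 2 * t * ‖g‖ ^ 2 = 2 * t * (⟪A e, g⟫ - μ * ⟪e, g⟫) := by rw [h5]
        rw [h6]
        linarith
      set c := ⟪A g, g⟫ - μ * ‖g‖ ^ 2 with hc
      have h2 := h1 (-(‖g‖ ^ 2 / (|c| + 1)))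
      have hcp : 0 < |c| + 1 := by positivity
      have h3 : (‖g‖ ^ 2 / (|c| + 1)) ^ 2 * c ≤ (‖g‖ ^ 2 / (|c| + 1)) * ‖g‖ ^ 2 := by
        have h4 : (‖g‖ ^ 2 / (|c| + 1)) * c ≤ ‖g‖ ^ 2 := by
          rw [div_mul_eq_mul_div, div_le_iff₀ hcp]
          have := le_abs_self c
          nlinarith
        calc (‖g‖ ^ 2 / (|c| + 1)) ^ 2 * c = (‖g‖ ^ 2 / (|c| + 1)) * ((‖g‖ ^ 2 / (|c| + 1)) * c) := by
              ring
          _ ≤ (‖g‖ ^ 2 / (|c| + 1)) * ‖g‖ ^ 2 := by gcongr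
      have h5 : 0 < (‖g‖ ^ 2 / (|c| + 1)) * ‖g‖ ^ 2 := by positivity
      nlinarith
    rcases lt_trichotomy μ 0 with h | h | h
    · right
      have hcl : IsCompact (sphere (0:E) 1 ∩ {y | ⟪e, y⟫ = 0}) :=
        (isCompact_sphere (0:E) 1).inter_right (isClosed_eq (by fun_prop) continuous_const)
      by_cases hne : (sphere (0:E) 1 ∩ {y | ⟪e, y⟫ = 0}).Nonempty
      · obtain ⟨w, hw, hwmin⟩ := hcl.exists_isMinOn hne hQc.continuousOn
        have hw1 : ‖w‖ = 1 := mem_sphere_zero_iff_norm.1 hw.1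
        have hw2 : ⟪e, w⟫ = 0 := hw.2
        refine ⟨e, -μ, ⟪A w, w⟫, he1, by rw [neg_smul, neg_neg]; exact hei, by linarith, ?_, ?_⟩
        · by_contra hle
          obtain ⟨a, b, hab⟩ := hind e w he1 hw1 hw2
          have h3 : ⟪A (a • e + b • w), a • e + b • w⟫ = a ^ 2 * μ + b ^ 2 * ⟪A w, w⟫ := by
            rw [map_add, map_smul, map_smul, inner_add_left, inner_add_right, inner_add_right]
            simp only [inner_smul_left, inner_smul_right, conj_trivial]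
            rw [hA w e, hei]
            simp only [inner_smul_left, conj_trivial, hw2, real_inner_self_eq_norm_sq, he1]
            ring
          rw [h3] at hab
          have h4 : a ^ 2 * μ ≤ 0 := by nlinarith [sq_nonneg a]
          have h5 : b ^ 2 * ⟪A w, w⟫ ≤ 0 := by nlinarith [sq_nonneg b]
          linarith
        · intro y hy
          refine hom _ (fun y => ⟪e, y⟫ = 0) (fun c y hy => by
            rw [inner_smul_right, hy, mul_zero]) (fun y hy hy2 => ?_) y hy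
          exact isMinOn_iff.1 hwmin y ⟨mem_sphere_zero_iff_norm.2 hy, hy2⟩
      · refine ⟨e, -μ, 1, he1, by rw [neg_smul, neg_neg]; exact hei, by linarith, one_pos, ?_⟩
        intro y hy
        refine hom _ (fun y => ⟪e, y⟫ = 0) (fun c y hy => by
            rw [inner_smul_right, hy, mul_zero]) (fun y hy hy2 => ?_) y hy
        exact absurd ⟨y, mem_sphere_zero_iff_norm.2 hy, hy2⟩ hne
    · exfalso
      rw [h, zero_smul] at hei
      refine hnd e (fun h0 => ?_) hei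
      rw [h0, norm_zero] at he1
      exact zero_ne_one he1
    · exact Or.inl ⟨μ, h, hmin⟩
  · left
    refine ⟨1, one_pos, fun y => ?_⟩
    refine hom 1 (fun _ => True) (fun _ _ _ => trivial) (fun y hy _ => ?_) y trivial
    exact absurd ⟨y, mem_sphere_zero_iff_norm.2 hy⟩ hS

lemma hb_congr {u : N → E} {g g' : N → ℝ} {x : N} (h : g =ᶠ[𝓝 x] g') (v w : E) :
    hb u g x v w = hb u g' x v w := by
  have h1 : gr u g =ᶠ[𝓝 x] gr u g' := by
    filter_upwards [h.eventuallyEq_nhds] with y hy using gr_congr hy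
  unfold hb
  rw [h1.mfderiv_eq]

lemma hb_sub_const {u : N → E} (hu : IsLocalDiffeomorph 𝓘(ℝ, E) 𝓘(ℝ, E) ∞ u) {g : N → ℝ}
    (hg : ContMDiff 𝓘(ℝ, E) 𝓘(ℝ, ℝ) ∞ g) (c : ℝ) (x : N) (v w : E) :
    hb u (fun y => g y - c) x v w = hb u g x v w := by
  have h1 : gr u (fun y => g y - c) = gr u g := by
    funext y; exact gr_sub_const hu hg c y
  unfold hb
  rw [h1]

/-- Quadratic model near a nondegenerate critical point. -/
theorem quad_N [T2Space N] [SigmaCompactSpace N] {u : N → E}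
    (hu : IsLocalDiffeomorph 𝓘(ℝ, E) 𝓘(ℝ, E) ∞ u) {ρ : N → ℝ}
    (hρ : ContMDiff 𝓘(ℝ, E) 𝓘(ℝ, ℝ) ∞ ρ) {p : N} (hp : ρ p < 0) (hcr : gr u ρ p = 0)
    (hnd : ∀ v, v ≠ 0 → ∃ w, hb u ρ p v w ≠ 0) :
    ∃ (ρ' : N → ℝ) (σ : E → N) (r : ℝ) (A : E →L[ℝ] E), ContMDiff 𝓘(ℝ, E) 𝓘(ℝ, ℝ) ∞ ρ' ∧
      (∀ x, ρ' x ≤ 0 ↔ ρ x ≤ 0) ∧ (∀ x, ρ' x = 0 → ρ x = 0) ∧
      (∀ x, gr u ρ' x = 0 ↔ gr u ρ x = 0) ∧ (∀ x, gr u ρ x = 0 → x ≠ p → ρ' =ᶠ[𝓝 x] ρ) ∧
      0 < r ∧ ρ p < ρ' p ∧ ρ' p < 0 ∧ Sec u (ball (u p) r) σ ∧ σ (u p) = p ∧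
      (∀ z ∈ ball (u p) r, ρ' (σ z) = ρ' p + ⟪A (z - u p), z - u p⟫ / 2) ∧
      (∀ v w, ⟪A v, w⟫ = ⟪A w, v⟫) ∧ ∀ v w, ⟪A v, w⟫ = hb u ρ p v w := by
  classical
  have huc : Continuous u := hu.contMDiff.continuous
  have hW : {x | ρ x < ρ p / 2} ∈ 𝓝 p := (isOpen_lt hρ.continuous continuous_const).mem_nhds (by
    show ρ p < ρ p / 2; linarith)
  obtain ⟨σ, r, hr, hσ, hσp, hσW⟩ := exists_ball_sec hu p hW
  set z₀ := u p with hz₀
  set h : E → ℝ := ρ ∘ σ with hh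
  have hhs : ContDiffOn ℝ ∞ h (ball z₀ r) := by
    rw [← contMDiffOn_iff_contDiffOn]
    exact hρ.comp_contMDiffOn hσ.smooth
  have hz₀b : z₀ ∈ ball z₀ r := mem_ball_self hr
  have hpm : p ∈ σ '' ball z₀ r := ⟨z₀, hz₀b, hσp⟩
  have hg0 : ∇ h z₀ = 0 := by
    rw [← gr_sec' hu hρ hσ hz₀b, hσp, hcr]
  set A : E →L[ℝ] E := fderiv ℝ (∇ h) z₀ with hA
  have hAhb : ∀ v w, ⟪A v, w⟫ = hb u ρ p v w := fun v w => (hb_sec hu hρ hσ hpm v w).symm
  have hsym : ∀ v w, ⟪A v, w⟫ = ⟪A w, v⟫ := fun v w =>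
    grad_symm (hhs.contDiffAt (isOpen_ball.mem_nhds hz₀b)) v w
  obtain ⟨m, hm, hmA⟩ : ∃ m : ℝ, 0 < m ∧ ∀ w, m * ‖w‖ ≤ ‖A w‖ := by
    have hker : LinearMap.ker (A : E →ₗ[ℝ] E) = ⊥ := by
      rw [LinearMap.ker_eq_bot']
      intro v hv
      by_contra hne
      obtain ⟨w, hw⟩ := hnd v hne
      apply hw
      rw [← hAhb]
      have : A v = 0 := hv
      rw [this, inner_zero_left]
    obtain ⟨K, hK, hKA⟩ := LinearMap.exists_antilipschitzWith (A : E →ₗ[ℝ] E) hker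
    refine ⟨(K:ℝ)⁻¹, by positivity, fun w => ?_⟩
    have h1 := hKA.le_mul_dist w 0
    rw [map_zero, dist_zero_right, dist_zero_right] at h1
    have h2 : ‖w‖ ≤ K * ‖A w‖ := h1
    have hK' : (0:ℝ) < K := hK
    rw [inv_mul_le_iff₀ hK']
    exact h2
  obtain ⟨s, δ, ψ, hs, hsr, hδ, hδη, hψ, hψ0, hψ1, hn1, hn2, hn3⟩ := quad_E hr hhs hg0 hm hmA
    (η := -(ρ p) / 4) (by linarith)
  have hhz₀ : h z₀ = ρ p := by rw [hh]; show ρ (σ z₀) = _; rw [hσp]
  rw [hhz₀, ← hA] at hn2 hn3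
  -- the cutoff on `N`
  set K : Set N := σ '' closedBall z₀ s with hK
  have hKsub : closedBall z₀ s ⊆ ball z₀ r := closedBall_subset_ball hsr
  have hKc : IsCompact K := (isCompact_closedBall z₀ s).image_of_continuousOn (hσ.cont.mono hKsub)
  obtain ⟨κ, K', hκ, hK', hK'U, hκ1, hκ0⟩ := Helper186.exists_cutoff 𝓘(ℝ, E) hKc hσ.image
    (image_mono hKsub)
  set q : E → ℝ := fun z => ρ p + δ + ⟪A (z - z₀), z - z₀⟫ / 2 with hq
  have hqs : ContDiff ℝ ∞ q := by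
    have : ContDiff ℝ ∞ (fun z : E => ⟪A (z - z₀), z - z₀⟫) :=
      ContDiff.inner ℝ (A.contDiff.comp (contDiff_id.sub contDiff_const))
        (contDiff_id.sub contDiff_const)
    exact contDiff_const.add (this.div_const 2)
  set ρ' : N → ℝ := fun x => ρ x + κ x * ψ (u x) * (q (u x) - ρ x) with hρ'
  have hρ's : ContMDiff 𝓘(ℝ, E) 𝓘(ℝ, ℝ) ∞ ρ' :=
    hρ.add ((hκ.mul (hψ.contMDiff.comp hu.contMDiff)).mul
      ((hqs.contMDiff.comp hu.contMDiff).sub hρ))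
  -- the value on the sheet
  have hval : ∀ z ∈ ball z₀ r, ρ' (σ z) = h z + ψ z * (ρ p + δ + ⟪A (z - z₀), z - z₀⟫ / 2 - h z) := by
    intro z hz
    have hu' : u (σ z) = z := hσ.right z hz
    simp only [hρ', hq]
    rw [hu']
    by_cases hzs : ‖z - z₀‖ ≤ s
    · have h1 : κ (σ z) = 1 := hκ1.self_of_nhdsSet _ ⟨z, mem_closedBall_iff_norm.2 hzs, rfl⟩
      rw [h1, one_mul]
      rfl
    · rw [hψ0 z (not_le.1 hzs).le]
      simp only [mul_zero, zero_mul]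
      rfl
  -- outside
  have hout : ∀ x, x ∉ K → ρ' =ᶠ[𝓝 x] ρ := by
    intro x hx
    have h1 : Kᶜ ∈ 𝓝 x := hKc.isClosed.isOpen_compl.mem_nhds hx
    filter_upwards [h1] with y hy
    simp only [hρ']
    by_cases hyU : y ∈ σ '' ball z₀ r
    · have hyψ : ψ (u y) = 0 := by
        apply hψ0
        by_contra hlt
        apply hy
        exact ⟨u y, mem_closedBall_iff_norm.2 (not_le.1 hlt).le, hσ.left hyU⟩
      rw [hyψ]; ring
    · have : κ y = 0 := hκ0 y (fun h => hyU (hK'U h))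
      rw [this]; ring
  have hneg : ∀ x ∈ K, ρ x < 0 ∧ ρ' x < 0 := by
    rintro _ ⟨z, hz, rfl⟩
    have h1 : ρ (σ z) < ρ p / 2 := hσW ⟨z, hKsub hz, rfl⟩
    have h2 := hn3 z (mem_closedBall_iff_norm.1 hz)
    refine ⟨by linarith, ?_⟩
    rw [hval z (hKsub hz)]
    have h3 := (abs_le.1 h2).2
    have h4 : h z = ρ (σ z) := rfl
    linarith
  have hψz : ψ z₀ = 1 := hψ1 z₀ (by rw [sub_self, norm_zero]; positivity)
  have hρ'p : ρ' p = ρ p + δ := by
    have := hval z₀ hz₀b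
    rw [hσp, hψz, hhz₀, sub_self, map_zero, inner_zero_left] at this
    rw [this]; ring
  have hquad : ∀ z ∈ ball z₀ (s / 2), ρ' (σ z) = ρ' p + ⟪A (z - z₀), z - z₀⟫ / 2 := by
    intro z hz
    have hz' : ‖z - z₀‖ < s / 2 := mem_ball_iff_norm.1 hz
    rw [hval z (hKsub (mem_closedBall_iff_norm.2 (by linarith))), hψ1 z hz'.le, hρ'p]
    ring
  have hsub : ball z₀ (s / 2) ⊆ ball z₀ r := ball_subset_ball (by linarith)
  have hgp : gr u ρ' p = 0 := by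
    have h1 := gr_sec' hu hρ's hσ hz₀b
    rw [hσp] at h1
    rw [h1]
    have h2 : (ρ' ∘ σ) =ᶠ[𝓝 z₀] fun z => ρ' p + ⟪A (z - z₀), z - z₀⟫ / 2 := by
      filter_upwards [ball_mem_nhds z₀ (half_pos hs)] with z hz using hquad z hz
    have h3 := ((quad_deriv hsym z₀ z₀).const_add (ρ' p))
    unfold gradient
    rw [h2.fderiv_eq, h3.fderiv, sub_self, map_zero, map_zero, map_zero]
  refine ⟨ρ', σ, s / 2, A, hρ's, ?_, ?_, ?_, ?_, half_pos hs, by linarith, (hneg p ?_).2,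
    hσ.mono huc isOpen_ball hsub, hσp, hquad, hsym, hAhb⟩
  · intro x
    by_cases hx : x ∈ K
    · obtain ⟨h1, h2⟩ := hneg x hx
      exact ⟨fun _ => h1.le, fun _ => h2.le⟩
    · rw [(hout x hx).eq_of_nhds]
  · intro x hx0
    by_cases hx : x ∈ K
    · exact absurd hx0 (hneg x hx).2.ne
    · rwa [← (hout x hx).eq_of_nhds]
  · intro x
    by_cases hx : x ∈ K
    · obtain ⟨z, hz, rfl⟩ := hx
      by_cases hzz : z = z₀
      · rw [hzz, hσp, hgp, hcr]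
      · have hzs := mem_closedBall_iff_norm.1 hz
        constructor
        · intro h0
          exfalso
          apply hn2 z hzs hzz
          rw [gr_sec' hu hρ's hσ (hKsub hz)] at h0
          have h1 : (ρ' ∘ σ) =ᶠ[𝓝 z] fun z => h z + ψ z *
              (ρ p + δ + ⟪A (z - z₀), z - z₀⟫ / 2 - h z) := by
            filter_upwards [isOpen_ball.mem_nhds (hKsub hz)] with y hy using hval y hy
          rw [← h0]
          unfold gradient
          rw [h1.fderiv_eq]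
        · intro h0
          exfalso
          apply hn1 z hzs hzz
          rwa [gr_sec' hu hρ hσ (hKsub hz)] at h0
    · rw [gr_congr (hout x hx)]
  · intro x hx hxp
    apply hout
    rintro ⟨z, hz, rfl⟩
    have hzz : z ≠ z₀ := by
      rintro rfl
      exact hxp hσp
    apply hn1 z (mem_closedBall_iff_norm.1 hz) hzz
    rwa [gr_sec' hu hρ hσ (hKsub hz)] at hx
  · exact ⟨z₀, mem_closedBall_self hs.le, hσp⟩

/-- **Pieces of a sublevel set.** -/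
theorem loc [T2Space N] [SigmaCompactSpace N] {ρ : N → ℝ}
    (hρ : ContMDiff 𝓘(ℝ, E) 𝓘(ℝ, ℝ) ∞ ρ) {c : ℝ} (hcomp : IsCompact {x | ρ x ≤ c}) {O O' : Set N}
    (hO : IsOpen O) (hO' : IsOpen O') (hd : Disjoint O O') (hcov : ∀ x, ρ x ≤ c → x ∈ O ∨ x ∈ O') :
    ∃ ρ₁ : N → ℝ, ContMDiff 𝓘(ℝ, E) 𝓘(ℝ, ℝ) ∞ ρ₁ ∧ {x | ρ₁ x ≤ 0} = {x | ρ x ≤ c} ∩ O ∧
      IsCompact {x | ρ₁ x ≤ 0} ∧ ∀ x, ρ₁ x ≤ 0 → ρ₁ =ᶠ[𝓝 x] fun y => ρ y - c := by
  set K : Set N := {x | ρ x ≤ c} ∩ O with hK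
  have hKe : K = {x | ρ x ≤ c} \ O' := by
    ext x
    constructor
    · rintro ⟨hx1, hx2⟩
      exact ⟨hx1, fun h => Set.disjoint_left.1 hd hx2 h⟩
    · rintro ⟨hx1, hx2⟩
      exact ⟨hx1, (hcov x hx1).resolve_right hx2⟩
  have hKc : IsCompact K := by rw [hKe]; exact hcomp.diff hO'
  obtain ⟨χ, K', hχ, hK', hK'O, hχ1, hχ0⟩ := Helper186.exists_cutoff 𝓘(ℝ, E) hKc hO
    inter_subset_right
  set ρ₁ : N → ℝ := fun x => χ x ^ 2 * (ρ x - c) + (1 - χ x) ^ 2 with hρ₁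
  have hin : ∀ x ∈ K, ρ₁ =ᶠ[𝓝 x] fun y => ρ y - c := by
    intro x hx
    have h1 : ∀ᶠ y in 𝓝 x, χ y = 1 := (eventually_nhdsSet_iff_forall.1 hχ1) x hx
    filter_upwards [h1] with y hy
    simp only [hρ₁]
    rw [hy]; ring
  have hset : {x | ρ₁ x ≤ 0} = K := by
    ext x
    constructor
    · intro hx
      have hx' : ρ₁ x ≤ 0 := hx
      simp only [hρ₁] at hx'
      have hχx : χ x ≠ 0 := by
        intro h
        rw [h] at hx'
        norm_num at hx'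
      have hxO : x ∈ O := by
        by_contra h
        exact hχx (hχ0 x (fun h' => h (hK'O h')))
      refine ⟨?_, hxO⟩
      show ρ x ≤ c
      by_contra hlt
      push Not at hlt
      have h1 : 0 < χ x ^ 2 * (ρ x - c) := by
        have h2 : 0 < χ x ^ 2 := by positivity
        exact mul_pos h2 (by linarith)
      have h3 : 0 ≤ (1 - χ x) ^ 2 := sq_nonneg _
      linarith
    · intro hx
      show ρ₁ x ≤ 0
      rw [(hin x hx).eq_of_nhds]
      have : ρ x ≤ c := hx.1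
      linarith
  refine ⟨ρ₁, ?_, hset, by rw [hset]; exact hKc, fun x hx => hin x (by rw [← hset]; exact hx)⟩
  exact ((hχ.pow 2).mul (hρ.sub contMDiff_const)).add ((contMDiff_const.sub hχ).pow 2)

end Pool.Agent.Q196.XF
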