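import Pool.Agent.Q196.XF.CutC

/-! Replacing a function near a nondegenerate critical point by its quadratic part. -/

set_option autoImplicit false
set_option linter.unusedSectionVars false

open scoped Topology ContDiff Manifold RealInnerProductSpace Gradient
open Set Metric Filter Bundle Pool.Agent.Q196.XB Asymptotics

noncomputable section

namespace Pool.Agent.Q196.XF

variable {E : Type} [NormedAddCommGroup E] [InnerProductSpace ℝ E] [FiniteDimensional ℝ E]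

lemma quad_deriv {A : E →L[ℝ] E} (hA : ∀ v w, ⟪A v, w⟫ = ⟪A w, v⟫) (z₀ z : E) :
    HasFDerivAt (fun z => ⟪A (z - z₀), z - z₀⟫ / 2)
      ((InnerProductSpace.toDual ℝ E) (A (z - z₀))) z := by
  have h3 : HasFDerivAt (fun z : E => z - z₀) (ContinuousLinearMap.id ℝ E) z :=
    (hasFDerivAt_id z).sub_const z₀
  have h4 : HasFDerivAt (fun z : E => A (z - z₀)) A z := by
    have := A.hasFDerivAt.comp z h3
    rwa [ContinuousLinearMap.comp_id] at this
  have h5 := h4.inner ℝ h3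
  have h6 := h5.mul_const (1 / 2 : ℝ)
  have h7 : (fun z => ⟪A (z - z₀), z - z₀⟫ / 2) =
      fun z => ⟪A (z - z₀), z - z₀⟫ * (1 / 2) := by
    funext z; ring
  rw [h7]
  refine h6.congr_fderiv ?_
  ext v
  simp only [_root_.smul_apply, ContinuousLinearMap.comp_apply, ContinuousLinearMap.prod_apply,
    fderivInnerCLM_apply, ContinuousLinearMap.id_apply, InnerProductSpace.toDual_apply_apply,
    smul_eq_mul]
  rw [hA v (z - z₀)]
  ring

/-- a bump function at scale `s` with a bound for its derivative -/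
lemma exists_bump : ∃ C : ℝ, 1 ≤ C ∧ ∀ (z₀ : E) (s : ℝ), 0 < s → ∃ ψ : E → ℝ, ContDiff ℝ ∞ ψ ∧
    (∀ z, s ≤ ‖z - z₀‖ → ψ z = 0) ∧ (∀ z, ‖z - z₀‖ ≤ s / 2 → ψ z = 1) ∧
    (∀ z, 0 ≤ ψ z ∧ ψ z ≤ 1) ∧ ∀ z, ‖fderiv ℝ ψ z‖ ≤ C / s := by
  let f : ContDiffBump (0 : E) := ⟨1 / 2, 1, by norm_num, by norm_num⟩
  have hf : ContDiff ℝ ∞ (f : E → ℝ) := f.contDiff
  have hc : Continuous (fderiv ℝ (f : E → ℝ)) := hf.continuous_fderiv (by simp)
  obtain ⟨C, hC⟩ := hc.bounded_above_of_compact_support (f.hasCompactSupport.fderiv ℝ)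
  refine ⟨max C 1, le_max_right _ _, fun z₀ s hs => ?_⟩
  have hlin : ∀ z, HasFDerivAt (fun z : E => s⁻¹ • (z - z₀)) (s⁻¹ • ContinuousLinearMap.id ℝ E) z :=
    fun z => ((hasFDerivAt_id z).sub_const z₀).const_smul s⁻¹
  refine ⟨fun z => f (s⁻¹ • (z - z₀)), ?_, ?_, ?_, ?_, ?_⟩
  · exact hf.comp (by fun_prop)
  · intro z hz
    apply f.zero_of_le_dist
    show (1:ℝ) ≤ dist (s⁻¹ • (z - z₀)) 0
    rw [dist_zero_right, norm_smul, norm_inv, Real.norm_eq_abs, abs_of_pos hs,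
      inv_mul_eq_div, le_div_iff₀ hs]
    linarith
  · intro z hz
    apply f.one_of_mem_closedBall
    show s⁻¹ • (z - z₀) ∈ closedBall (0:E) (1 / 2)
    rw [mem_closedBall_zero_iff, norm_smul, norm_inv, Real.norm_eq_abs, abs_of_pos hs,
      inv_mul_eq_div, div_le_iff₀ hs]
    linarith
  · intro z
    exact ⟨f.nonneg, f.le_one⟩
  · intro z
    have h1 : HasFDerivAt (fun z => f (s⁻¹ • (z - z₀)))
        ((fderiv ℝ (f : E → ℝ) (s⁻¹ • (z - z₀))).comp (s⁻¹ • ContinuousLinearMap.id ℝ E)) z :=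
      (hf.differentiable (by simp)).differentiableAt.hasFDerivAt.comp z (hlin z)
    rw [h1.fderiv, ContinuousLinearMap.comp_smul, ContinuousLinearMap.comp_id, norm_smul, norm_inv,
      Real.norm_eq_abs, abs_of_pos hs, inv_mul_eq_div]
    gcongr
    exact (hC _).trans (le_max_left _ _)

theorem quad_E {h : E → ℝ} {z₀ : E} {r : ℝ} (hr : 0 < r) (hh : ContDiffOn ℝ ∞ h (ball z₀ r))
    (hgr : ∇ h z₀ = 0) {m : ℝ} (hm : 0 < m) (hA : ∀ w, m * ‖w‖ ≤ ‖fderiv ℝ (∇ h) z₀ w‖) {η : ℝ}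
    (hη : 0 < η) :
    ∃ (s δ : ℝ) (ψ : E → ℝ), 0 < s ∧ s < r ∧ 0 < δ ∧ δ ≤ η ∧ ContDiff ℝ ∞ ψ ∧
      (∀ z, s ≤ ‖z - z₀‖ → ψ z = 0) ∧ (∀ z, ‖z - z₀‖ ≤ s / 2 → ψ z = 1) ∧
      (∀ z, ‖z - z₀‖ ≤ s → z ≠ z₀ → ∇ h z ≠ 0) ∧
      (∀ z, ‖z - z₀‖ ≤ s → z ≠ z₀ → ∇ (fun z => h z + ψ z *
        (h z₀ + δ + ⟪fderiv ℝ (∇ h) z₀ (z - z₀), z - z₀⟫ / 2 - h z)) z ≠ 0) ∧
      (∀ z, ‖z - z₀‖ ≤ s → |ψ z *
        (h z₀ + δ + ⟪fderiv ℝ (∇ h) z₀ (z - z₀), z - z₀⟫ / 2 - h z)| ≤ η) := by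
  obtain ⟨C, hC1, hC⟩ := exists_bump (E := E)
  have hC0 : 0 < C := by linarith
  have hz₀ : z₀ ∈ ball z₀ r := mem_ball_self hr
  set A := fderiv ℝ (∇ h) z₀ with hAd
  have hat : ContDiffAt ℝ ∞ h z₀ := hh.contDiffAt (isOpen_ball.mem_nhds hz₀)
  have hsym : ∀ v w, ⟪A v, w⟫ = ⟪A w, v⟫ := fun v w => grad_symm hat v w
  have hdg : DifferentiableAt ℝ (∇ h) z₀ := by
    have h3 : ContDiffAt ℝ ∞ (∇ h) z₀ := by
      unfold gradient
      exact (InnerProductSpace.toDual ℝ E).symm.contDiff.contDiffAt.comp z₀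
        (hat.fderiv_right (m := ∞) (by simp))
    exact h3.differentiableAt (by simp)
  set ε : ℝ := m / (4 * (1 + C)) with hε
  have hε0 : 0 < ε := by positivity
  have hlit := hdg.hasFDerivAt.isLittleO.def hε0
  obtain ⟨s₁, hs₁, hs₁'⟩ := Metric.eventually_nhds_iff.1 hlit
  -- the scale
  obtain ⟨s, hs0, hs1, hs2, hs3⟩ : ∃ s : ℝ, 0 < s ∧ s < s₁ ∧ s < r ∧ ε * s ^ 2 < η / 2 := by
    have e2 : ∀ᶠ s in 𝓝[>] (0:ℝ), ε * s ^ 2 < η / 2 := by
      refine nhdsWithin_le_nhds (ev_lt (f := fun b : ℝ => ε * b ^ 2) (by fun_prop) ?_)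
      simp only [ne_eq, OfNat.ofNat_ne_zero, not_false_eq_true, zero_pow, mul_zero]
      linarith
    have e3 : ∀ᶠ s in 𝓝[>] (0:ℝ), s < s₁ := nhdsWithin_le_nhds (gt_mem_nhds hs₁)
    have e4 : ∀ᶠ s in 𝓝[>] (0:ℝ), s < r := nhdsWithin_le_nhds (gt_mem_nhds hr)
    obtain ⟨s, ⟨h2, h3, h4⟩, h5⟩ := ((e2.and (e3.and e4)).and self_mem_nhdsWithin).exists
    exact ⟨s, h5, h3, h4, h2⟩
  obtain ⟨ψ, hψ, hψ0, hψ1, hψb, hψd⟩ := hC z₀ s hs0
  set δ : ℝ := min (m * s ^ 2 / (16 * C)) (η / 2) with hδ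
  have hδ0 : 0 < δ := by
    rw [hδ]
    exact lt_min (by positivity) (by positivity)
  have hδ1 : δ ≤ m * s ^ 2 / (16 * C) := min_le_left _ _
  have hδ2 : δ ≤ η / 2 := min_le_right _ _
  set q : E → ℝ := fun z => ⟪A (z - z₀), z - z₀⟫ / 2 with hq
  have hqd : ∀ z, HasFDerivAt q ((InnerProductSpace.toDual ℝ E) (A (z - z₀))) z :=
    fun z => quad_deriv hsym z₀ z
  have hhd : ∀ z, ‖z - z₀‖ ≤ s → HasFDerivAt h (fderiv ℝ h z) z := by
    intro z hz
    have hzb : z ∈ ball z₀ r := by rw [mem_ball, dist_eq_norm]; linarith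
    exact ((hh.contDiffAt (isOpen_ball.mem_nhds hzb)).differentiableAt (by simp)).hasFDerivAt
  have hgrad : ∀ z, ‖∇ h z - A (z - z₀)‖ = ‖fderiv ℝ h z - (InnerProductSpace.toDual ℝ E) (A (z - z₀))‖ := by
    intro z
    rw [← LinearIsometryEquiv.norm_map (InnerProductSpace.toDual ℝ E) (∇ h z - A (z - z₀)), map_sub]
    unfold gradient
    rw [LinearIsometryEquiv.apply_symm_apply]
  have hRd : ∀ z, ‖z - z₀‖ ≤ s →
      ‖fderiv ℝ h z - (InnerProductSpace.toDual ℝ E) (A (z - z₀))‖ ≤ ε * ‖z - z₀‖ := by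
    intro z hz
    have h1 := hs₁' (y := z) (by rw [dist_eq_norm]; linarith)
    rw [hgr, sub_zero] at h1
    rw [← hgrad]
    exact h1
  set R : E → ℝ := fun z => h z - h z₀ - q z with hR
  have hRder : ∀ z, ‖z - z₀‖ ≤ s → HasFDerivAt R
      (fderiv ℝ h z - (InnerProductSpace.toDual ℝ E) (A (z - z₀))) z :=
    fun z hz => ((hhd z hz).sub_const (h z₀)).sub (hqd z)
  have hq0 : q z₀ = 0 := by simp [hq]
  have hR0 : R z₀ = 0 := by
    simp only [hR]; rw [hq0]; ring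
  have hRb : ∀ z, ‖z - z₀‖ ≤ s → |R z| ≤ ε * ‖z - z₀‖ ^ 2 := by
    intro z hz
    have h1 := (convex_closedBall z₀ ‖z - z₀‖).norm_image_sub_le_of_norm_hasFDerivWithin_le
      (f := R) (f' := fun y => fderiv ℝ h y - (InnerProductSpace.toDual ℝ E) (A (y - z₀)))
      (C := ε * ‖z - z₀‖) (x := z₀) (y := z)
      (fun y hy => (hRder y ((mem_closedBall_iff_norm.1 hy).trans hz)).hasFDerivWithinAt)
      (fun y hy => by
        have h2 : ‖y - z₀‖ ≤ ‖z - z₀‖ := mem_closedBall_iff_norm.1 hy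
        refine (hRd y (h2.trans hz)).trans ?_
        gcongr)
      (mem_closedBall_self (norm_nonneg _)) (mem_closedBall_iff_norm.2 le_rfl)
    rw [hR0, sub_zero, Real.norm_eq_abs] at h1
    calc |R z| ≤ ε * ‖z - z₀‖ * ‖z - z₀‖ := h1
      _ = ε * ‖z - z₀‖ ^ 2 := by ring
  refine ⟨s, δ, ψ, hs0, hs2, hδ0, by linarith, hψ, hψ0, hψ1, ?_, ?_, ?_⟩
  · intro z hz hne h0
    have hw : 0 < ‖z - z₀‖ := norm_pos_iff.2 (sub_ne_zero.2 hne)
    have h1 := hRd z hz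
    rw [← hgrad, h0, zero_sub, norm_neg] at h1
    have h2 := hA (z - z₀)
    have h3 : ε ≤ m / 4 := by
      rw [hε]
      gcongr
      linarith
    have h4 : ε * ‖z - z₀‖ ≤ m / 4 * ‖z - z₀‖ := by gcongr
    have h5 : 0 < m * ‖z - z₀‖ := by positivity
    linarith
  · intro z hz hne h0
    have hw : 0 < ‖z - z₀‖ := norm_pos_iff.2 (sub_ne_zero.2 hne)
    set L := (InnerProductSpace.toDual ℝ E) (A (z - z₀)) with hL
    have hF : HasFDerivAt (fun z => h z + ψ z * (h z₀ + δ + q z - h z))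
        (fderiv ℝ h z + (ψ z • (L - fderiv ℝ h z) + (h z₀ + δ + q z - h z) • fderiv ℝ ψ z)) z := by
      have h1 : HasFDerivAt (fun z => h z₀ + δ + q z - h z) (L - fderiv ℝ h z) z :=
        ((hqd z).const_add (h z₀ + δ)).sub (hhd z hz)
      have h2 : HasFDerivAt ψ (fderiv ℝ ψ z) z :=
        (hψ.differentiable (by simp)).differentiableAt.hasFDerivAt
      exact (hhd z hz).add (h2.mul h1)
    have hF0 : fderiv ℝ h z + (ψ z • (L - fderiv ℝ h z) + (h z₀ + δ + q z - h z) • fderiv ℝ ψ z)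
        = 0 := by
      rw [← hF.fderiv]
      have : (InnerProductSpace.toDual ℝ E) (∇ (fun z => h z + ψ z * (h z₀ + δ + q z - h z)) z) = 0 := by
        rw [h0, map_zero]
      unfold gradient at this
      rwa [LinearIsometryEquiv.apply_symm_apply] at this
    have hLn : ‖L‖ = ‖A (z - z₀)‖ := LinearIsometryEquiv.norm_map _ _
    have e1 : L = -((1 - ψ z) • (fderiv ℝ h z - L) + (δ - R z) • fderiv ℝ ψ z) := by
      have e2 : h z₀ + δ + q z - h z = δ - R z := by simp only [hR]; ring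
      rw [e2] at hF0
      have e3 : fderiv ℝ h z + (ψ z • (L - fderiv ℝ h z) + (δ - R z) • fderiv ℝ ψ z) =
          L + ((1 - ψ z) • (fderiv ℝ h z - L) + (δ - R z) • fderiv ℝ ψ z) := by
        module
      rw [e3] at hF0
      exact eq_neg_of_add_eq_zero_left hF0
    have h3 : ‖L‖ ≤ ε * ‖z - z₀‖ + (C * ε * ‖z - z₀‖ + m / 8 * ‖z - z₀‖) := by
      rw [e1, norm_neg]
      refine (norm_add_le _ _).trans (add_le_add ?_ ?_)
      · rw [norm_smul, Real.norm_eq_abs, abs_of_nonneg (by linarith [(hψb z).2])]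
        calc (1 - ψ z) * ‖fderiv ℝ h z - L‖ ≤ 1 * (ε * ‖z - z₀‖) := by
              gcongr
              · linarith [(hψb z).1]
              · exact hRd z hz
          _ = ε * ‖z - z₀‖ := one_mul _
      · rcases lt_or_ge ‖z - z₀‖ (s / 2) with h4 | h4
        · have h5 : ψ =ᶠ[𝓝 z] fun _ => 1 := by
            have : ∀ᶠ y in 𝓝 z, ‖y - z₀‖ < s / 2 := ev_lt (f := fun y => ‖y - z₀‖) (by fun_prop) h4
            filter_upwards [this] with y hy using hψ1 y hy.le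
          rw [h5.fderiv_eq]
          simp only [fderiv_fun_const, Pi.zero_apply, smul_zero, norm_zero]
          positivity
        · rw [norm_smul, Real.norm_eq_abs]
          have h5 : |δ - R z| ≤ δ + ε * ‖z - z₀‖ ^ 2 := by
            have := abs_sub δ (R z)
            rw [abs_of_pos hδ0] at this
            linarith [hRb z hz]
          calc |δ - R z| * ‖fderiv ℝ ψ z‖ ≤ (δ + ε * ‖z - z₀‖ ^ 2) * (C / s) := by
                gcongr
                exact hψd z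
            _ ≤ C * ε * ‖z - z₀‖ + m / 8 * ‖z - z₀‖ := by
                have h6 : ε * ‖z - z₀‖ ^ 2 * (C / s) ≤ C * ε * ‖z - z₀‖ := by
                  rw [mul_div_assoc', div_le_iff₀ hs0]
                  have : ‖z - z₀‖ * ‖z - z₀‖ ≤ ‖z - z₀‖ * s := by gcongr
                  calc ε * ‖z - z₀‖ ^ 2 * C = C * ε * (‖z - z₀‖ * ‖z - z₀‖) := by ring
                    _ ≤ C * ε * (‖z - z₀‖ * s) := by gcongr
                    _ = C * ε * ‖z - z₀‖ * s := by ring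
                have h7 : δ * (C / s) ≤ m / 8 * ‖z - z₀‖ := by
                  calc δ * (C / s) ≤ m * s ^ 2 / (16 * C) * (C / s) := by gcongr
                    _ = m / 8 * (s / 2) := by field_simp; ring
                    _ ≤ m / 8 * ‖z - z₀‖ := by gcongr
                linarith [add_mul δ (ε * ‖z - z₀‖ ^ 2) (C / s)]
    have h4 : m * ‖z - z₀‖ ≤ ‖L‖ := by rw [hLn]; exact hA _
    have h5 : ε * ‖z - z₀‖ + C * ε * ‖z - z₀‖ = m / 4 * ‖z - z₀‖ := by
      rw [hε]; field_simp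
    have h6 : 0 < m * ‖z - z₀‖ := by positivity
    linarith
  · intro z hz
    have e2 : h z₀ + δ + ⟪A (z - z₀), z - z₀⟫ / 2 - h z = δ - R z := by simp only [hR, hq]; ring
    rw [e2, abs_mul, abs_of_nonneg (hψb z).1]
    have h5 : |δ - R z| ≤ δ + ε * ‖z - z₀‖ ^ 2 := by
      have := abs_sub δ (R z)
      rw [abs_of_pos hδ0] at this
      linarith [hRb z hz]
    have h6 : ε * ‖z - z₀‖ ^ 2 ≤ ε * s ^ 2 := by gcongr
    calc ψ z * |δ - R z| ≤ 1 * (δ + ε * ‖z - z₀‖ ^ 2) := by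
          gcongr
          exact (hψb z).2
      _ ≤ η := by linarith

end Pool.Agent.Q196.XF
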