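import Pool.Agent.Q196.XF.Ind

/-! The barrier function `ρ exp (-(f + ⟪b, u⟫) / τ)` of a domain. -/

set_option autoImplicit false
set_option linter.unusedSectionVars false

open scoped Topology ContDiff Manifold RealInnerProductSpace Gradient
open Set Metric Filter Bundle Pool.Agent.Q196.XB Asymptotics

noncomputable section

namespace Pool.Agent.Q196.XF

variable {E : Type} [NormedAddCommGroup E] [InnerProductSpace ℝ E] [FiniteDimensional ℝ E]
  {N : Type} [TopologicalSpace N] [ChartedSpace E N] [IsManifold 𝓘(ℝ, E) ∞ N]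

/-! ### the Hessian as an operator -/

/-- the Hessian as an operator -/
def HE (u : N → E) (g : N → ℝ) (x : N) : E →L[ℝ] E :=
  (show E →L[ℝ] E from mfderiv 𝓘(ℝ, E) 𝓘(ℝ, E) (gr u g) x) ∘L dI u x

lemma HE_inner (u : N → E) (g : N → ℝ) (x : N) (v w : E) : ⟪HE u g x v, w⟫ = hb u g x v w := rfl

lemma HE_sec {u : N → E} (hu : IsLocalDiffeomorph 𝓘(ℝ, E) 𝓘(ℝ, E) ∞ u) {g : N → ℝ}
    (hg : ContMDiff 𝓘(ℝ, E) 𝓘(ℝ, ℝ) ∞ g) {U : Set E} {σ : E → N} (h : Sec u U σ) {x : N}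
    (hx : x ∈ σ '' U) : HE u g x = fderiv ℝ (∇ (g ∘ σ)) (u x) := by
  ext v
  refine ext_inner_right ℝ fun w => ?_
  rw [HE_inner, hb_sec hu hg h hx]

lemma sec_smooth {g : N → ℝ} (hg : ContMDiff 𝓘(ℝ, E) 𝓘(ℝ, ℝ) ∞ g) {u : N → E} {U : Set E}
    {σ : E → N} (h : Sec u U σ) {z : E} (hz : z ∈ U) : ContDiffAt ℝ ∞ (g ∘ σ) z := by
  have h2 : ContDiffOn ℝ ∞ (g ∘ σ) U := by
    rw [← contMDiffOn_iff_contDiffOn]
    exact hg.comp_contMDiffOn h.smooth
  exact h2.contDiffAt (h.isOpen.mem_nhds hz)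

lemma grad_smooth {g : E → ℝ} {z : E} (hg : ContDiffAt ℝ ∞ g z) : ContDiffAt ℝ ∞ (∇ g) z := by
  unfold gradient
  exact (InnerProductSpace.toDual ℝ E).symm.contDiff.contDiffAt.comp z
    (hg.fderiv_right (m := ∞) (by simp))

lemma HE_cont {u : N → E} (hu : IsLocalDiffeomorph 𝓘(ℝ, E) 𝓘(ℝ, E) ∞ u) {g : N → ℝ}
    (hg : ContMDiff 𝓘(ℝ, E) 𝓘(ℝ, ℝ) ∞ g) : Continuous (HE u g) := by
  rw [continuous_iff_continuousAt]
  intro x
  obtain ⟨U, σ, h, hxU, hσx⟩ := exists_sec hu x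
  have hx' : x ∈ σ '' U := ⟨u x, hxU, hσx⟩
  have h1 : HE u g =ᶠ[𝓝 x] fun y => fderiv ℝ (∇ (g ∘ σ)) (u y) := by
    filter_upwards [h.image.mem_nhds hx'] with y hy using HE_sec hu hg h hy
  have h2 : ContinuousAt (fderiv ℝ (∇ (g ∘ σ))) (u x) :=
    ((grad_smooth (sec_smooth hg h hxU)).fderiv_right (m := ∞) (by simp)).continuousAt
  exact (ContinuousAt.comp (g := fderiv ℝ (∇ (g ∘ σ))) h2
    hu.contMDiff.continuous.continuousAt).congr h1.symm

/-! ### finiteness -/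

lemma fin_of_nondeg [T2Space N] {u : N → E} (hu : IsLocalDiffeomorph 𝓘(ℝ, E) 𝓘(ℝ, E) ∞ u)
    {g : N → ℝ} (hg : ContMDiff 𝓘(ℝ, E) 𝓘(ℝ, ℝ) ∞ g) (hcomp : IsCompact {x | g x ≤ 0})
    (hnd : ∀ x, g x ≤ 0 → gr u g x = 0 → ∀ v, v ≠ 0 → ∃ w, hb u g x v w ≠ 0) :
    {x | g x ≤ 0 ∧ gr u g x = 0}.Finite := by
  have hK : IsCompact {x | g x ≤ 0 ∧ gr u g x = 0} :=
    hcomp.inter_right (isClosed_eq (gr_smooth hu hg).continuous continuous_const)
  have hiso : ∀ x ∈ {x | g x ≤ 0 ∧ gr u g x = 0}, ∃ U ∈ 𝓝 x, ∀ y ∈ U, gr u g y = 0 → y = x := by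
    rintro x ⟨hx1, hx2⟩
    obtain ⟨U, σ, h, hxU, hσx⟩ := exists_sec hu x
    have hx' : x ∈ σ '' U := ⟨u x, hxU, hσx⟩
    set A := fderiv ℝ (∇ (g ∘ σ)) (u x) with hA
    have hker : LinearMap.ker (A : E →ₗ[ℝ] E) = ⊥ := by
      rw [LinearMap.ker_eq_bot']
      intro v hv
      by_contra hne
      obtain ⟨w, hw⟩ := hnd x hx1 hx2 v hne
      apply hw
      rw [hb_sec hu hg h hx', ← hA]
      have : A v = 0 := hv
      rw [this, inner_zero_left]
    obtain ⟨K, hK, hKA⟩ := LinearMap.exists_antilipschitzWith (A : E →ₗ[ℝ] E) hker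
    have hd : HasFDerivAt (∇ (g ∘ σ)) A (u x) :=
      ((grad_smooth (sec_smooth hg h hxU)).differentiableAt (by simp)).hasFDerivAt
    have h1 : ∀ᶠ z in 𝓝[≠] (u x), ∇ (g ∘ σ) z ≠ 0 := by
      exact hd.eventually_ne ⟨K, hKA⟩
    rw [eventually_nhdsWithin_iff] at h1
    have h2 : ∀ᶠ y in 𝓝 x, u y ∈ ({u x}ᶜ : Set E) → ∇ (g ∘ σ) (u y) ≠ 0 :=
      hu.contMDiff.continuous.continuousAt.eventually h1
    refine ⟨_, h2.and (h.image.mem_nhds hx'), ?_⟩
    rintro y ⟨hy1, hy2⟩ hy0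
    by_contra hne
    have h3 : u y ≠ u x := fun h' => hne (h.inj hy2 hx' h')
    apply hy1 h3
    rw [← gr_sec hu h hy2 (hg.mdifferentiableAt (by simp))]
    exact hy0
  choose! U hU hU' using hiso
  obtain ⟨t, ht, hcov⟩ := hK.elim_nhds_subcover U (fun x hx => hU x hx)
  refine t.finite_toSet.subset fun y hy => ?_
  obtain ⟨x, hx, hyx⟩ := mem_iUnion₂.1 (hcov hy)
  have := hU' x (ht x hx) y hyx hy.2
  rw [this]
  exact hx

/-! ### local computations -/

section barrier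

variable {R F : E → ℝ} {z b : E} {τ : ℝ}

/-- the vector field whose values are the parameters -/
def Gm (R F : E → ℝ) (τ : ℝ) (z : E) : E := ∇ F z - (τ / R z) • ∇ R z

/-- the barrier function -/
def Ps (R F : E → ℝ) (τ : ℝ) (b : E) (z : E) : ℝ := R z * Real.exp (-(F z + ⟪b, z⟫) / τ)

lemma hasFDerivAt_of_grad {g : E → ℝ} (hg : DifferentiableAt ℝ g z) :
    HasFDerivAt g ((InnerProductSpace.toDual ℝ E) (∇ g z)) z := by
  have := hg.hasFDerivAt
  unfold gradient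
  rwa [LinearIsometryEquiv.apply_symm_apply]

lemma Gm_deriv (hR : ContDiffAt ℝ ∞ R z) (hF : ContDiffAt ℝ ∞ F z) (hneg : R z ≠ 0) :
    HasFDerivAt (Gm R F τ) (fderiv ℝ (∇ F) z - ((τ / R z) • fderiv ℝ (∇ R) z +
      ((-(τ / R z ^ 2)) • (InnerProductSpace.toDual ℝ E) (∇ R z)).smulRight (∇ R z))) z := by
  have h1 := ((grad_smooth hF).differentiableAt (by simp)).hasFDerivAt
  have h2 := ((grad_smooth hR).differentiableAt (by simp)).hasFDerivAt
  have h3 := hasFDerivAt_of_grad (hR.differentiableAt (by simp))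
  have h4 : HasFDerivAt (fun z => τ / R z) ((-(τ / R z ^ 2)) •
      (InnerProductSpace.toDual ℝ E) (∇ R z)) z := by
    have h5 : HasDerivAt (fun t : ℝ => τ / t) (-(τ / R z ^ 2)) (R z) := by
      have := (hasDerivAt_inv hneg).const_mul τ
      refine (this.congr_deriv ?_).congr_of_eventuallyEq ?_
      · field_simp
      · exact Filter.Eventually.of_forall fun t => by simp [div_eq_mul_inv]
    exact h5.comp_hasFDerivAt z h3
  exact h1.sub (h4.smul h2)

lemma Ps_grad (hR : DifferentiableAt ℝ R z) (hF : DifferentiableAt ℝ F z) :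
    ∇ (Ps R F τ b) z = Real.exp (-(F z + ⟪b, z⟫) / τ) • (∇ R z - (R z / τ) • (∇ F z + b)) := by
  have h1 := hasFDerivAt_of_grad hR
  have h2 := hasFDerivAt_of_grad hF
  have h3 : HasFDerivAt (fun z : E => ⟪b, z⟫) ((InnerProductSpace.toDual ℝ E) b) z :=
    ((InnerProductSpace.toDual ℝ E) b).hasFDerivAt
  have h4 := ((h2.add h3).neg.mul_const (τ⁻¹)).exp
  have h5 := h1.mul h4
  have h6 : HasFDerivAt (Ps R F τ b) (R z • Real.exp (-(F z + ⟪b, z⟫) * τ⁻¹) •
      τ⁻¹ • -((InnerProductSpace.toDual ℝ E) (∇ F z) + (InnerProductSpace.toDual ℝ E) b) +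
      Real.exp (-(F z + ⟪b, z⟫) * τ⁻¹) • (InnerProductSpace.toDual ℝ E) (∇ R z)) z := by
    refine h5.congr_of_eventuallyEq (Filter.Eventually.of_forall fun y => ?_)
    simp [Ps, div_eq_mul_inv]
  have h7 : ∇ (Ps R F τ b) z = (InnerProductSpace.toDual ℝ E).symm (fderiv ℝ (Ps R F τ b) z) := rfl
  rw [h7, h6.fderiv]
  apply (InnerProductSpace.toDual ℝ E).injective
  rw [LinearIsometryEquiv.apply_symm_apply]
  ext y
  simp only [_root_.add_apply, _root_.smul_apply, _root_.neg_apply, smul_eq_mul,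
    InnerProductSpace.toDual_apply_apply, inner_smul_left, inner_sub_left, inner_add_left,
    conj_trivial]
  rw [div_eq_mul_inv, div_eq_mul_inv]
  ring

/-- At a critical point of the barrier function the Hessian is a positive multiple of the derivative
of the vector field `Gm`. -/
lemma Ps_hess (hR : ContDiffAt ℝ ∞ R z) (hF : ContDiffAt ℝ ∞ F z) (hneg : R z < 0) (hτ : 0 < τ)
    (hcr : ∇ F z + b = (τ / R z) • ∇ R z) : ∃ κ : ℝ, 0 < κ ∧
      fderiv ℝ (∇ (Ps R F τ b)) z = κ • fderiv ℝ (Gm R F τ) z := by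
  have h1 := ((grad_smooth hF).differentiableAt (by simp)).hasFDerivAt
  have h2 := ((grad_smooth hR).differentiableAt (by simp)).hasFDerivAt
  have h3 := hasFDerivAt_of_grad (hR.differentiableAt (by simp))
  have hE : DifferentiableAt ℝ (fun z => Real.exp (-(F z + ⟪b, z⟫) / τ)) z := by
    have h5 := hF.differentiableAt (by simp : (∞ : WithTop ℕ∞) ≠ 0)
    have h6 : DifferentiableAt ℝ (fun z : E => ⟪b, z⟫) z :=
      ((InnerProductSpace.toDual ℝ E) b).differentiableAt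
    have h7 : DifferentiableAt ℝ (fun z : E => -(F z + ⟪b, z⟫)) z := (h5.add h6).neg
    have h8 : DifferentiableAt ℝ (fun z : E => -(F z + ⟪b, z⟫) / τ) z := by
      simpa only [div_eq_mul_inv] using h7.mul_const τ⁻¹
    exact h8.exp
  have h4 : HasFDerivAt (fun z => ∇ R z - (R z / τ) • (∇ F z + b))
      (fderiv ℝ (∇ R) z - ((R z / τ) • fderiv ℝ (∇ F) z +
        ((τ⁻¹) • (InnerProductSpace.toDual ℝ E) (∇ R z)).smulRight (∇ F z + b))) z := by
    have h5 : HasFDerivAt (fun z => R z / τ) ((τ⁻¹) • (InnerProductSpace.toDual ℝ E) (∇ R z)) z := by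
      have := h3.mul_const (τ⁻¹)
      refine this.congr_of_eventuallyEq (Filter.Eventually.of_forall fun y => ?_)
      simp [div_eq_mul_inv]
    exact h2.sub (h5.smul (h1.add_const b))
  have hV0 : ∇ R z - (R z / τ) • (∇ F z + b) = 0 := by
    rw [hcr, smul_smul]
    have : R z / τ * (τ / R z) = 1 := by
      have := hneg.ne
      field_simp
    rw [this, one_smul, sub_self]
  have h6 : HasFDerivAt (∇ (Ps R F τ b)) (Real.exp (-(F z + ⟪b, z⟫) / τ) •
      (fderiv ℝ (∇ R) z - ((R z / τ) • fderiv ℝ (∇ F) z +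
        ((τ⁻¹) • (InnerProductSpace.toDual ℝ E) (∇ R z)).smulRight (∇ F z + b)))) z := by
    have h7 := hE.hasFDerivAt.smul h4
    rw [hV0] at h7
    have h8 : ∇ (Ps R F τ b) =ᶠ[𝓝 z] fun z => Real.exp (-(F z + ⟪b, z⟫) / τ) •
        (∇ R z - (R z / τ) • (∇ F z + b)) := by
      have e1 : ∀ᶠ y in 𝓝 z, ContDiffAt ℝ 1 R y :=
        (hR.of_le (by norm_num : (1 : WithTop ℕ∞) ≤ ∞)).eventually (by simp)
      have e2 : ∀ᶠ y in 𝓝 z, ContDiffAt ℝ 1 F y :=
        (hF.of_le (by norm_num : (1 : WithTop ℕ∞) ≤ ∞)).eventually (by simp)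
      filter_upwards [e1, e2] with y h9 h10
      exact Ps_grad (h9.differentiableAt (by simp)) (h10.differentiableAt (by simp))
    refine (h7.congr_of_eventuallyEq h8).congr_fderiv ?_
    ext v
    simp
  refine ⟨Real.exp (-(F z + ⟪b, z⟫) / τ) * (-(R z) / τ), mul_pos (Real.exp_pos _)
    (div_pos (by linarith) hτ), ?_⟩
  rw [h6.fderiv, (Gm_deriv hR hF hneg.ne).fderiv]
  ext v
  have hR0 := hneg.ne
  have hτ0 := hτ.ne'
  simp only [_root_.smul_apply, _root_.sub_apply, _root_.add_apply,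
    ContinuousLinearMap.smulRight_apply, InnerProductSpace.toDual_apply_apply, hcr, smul_eq_mul]
  simp only [smul_sub, smul_add, smul_smul]
  have c1 : Real.exp (-(F z + ⟪b, z⟫) / τ) * (-(R z) / τ) * (τ / R z) =
      -Real.exp (-(F z + ⟪b, z⟫) / τ) := by field_simp
  have c2 : Real.exp (-(F z + ⟪b, z⟫) / τ) * (-(R z) / τ) * (-(τ / R z ^ 2) * ⟪∇ R z, v⟫) =
      Real.exp (-(F z + ⟪b, z⟫) / τ) * (τ⁻¹ * ⟪∇ R z, v⟫ * (τ / R z)) := by field_simp
  rw [c1, c2]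
  module

end barrier

end Pool.Agent.Q196.XF
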