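import Pool.Agent.Q196.XF.Red

/-! Every function on a domain which is not a ball has a critical point with two nonpositive
directions. -/

set_option autoImplicit false
set_option linter.unusedSectionVars false

open scoped Topology ContDiff Manifold RealInnerProductSpace Gradient
open Set Metric Filter Bundle Pool.Agent.Q196.XB Asymptotics

noncomputable section

namespace Pool.Agent.Q196.XF

variable {E : Type} [NormedAddCommGroup E] [InnerProductSpace ℝ E] [FiniteDimensional ℝ E]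
  {N : Type} [TopologicalSpace N] [ChartedSpace E N] [IsManifold 𝓘(ℝ, E) ∞ N]

/-- `x` is a critical point of `f` on the domain `{ρ ≤ 0}` at which the second variation is
nonpositive on a plane. -/
def Crit2 (u : N → E) (ρ f : N → ℝ) (x : N) : Prop :=
  ρ x ≤ 0 ∧ ∃ s, 0 ≤ s ∧ s * ρ x = 0 ∧ gr u f x + s • gr u ρ x = 0 ∧ ∃ v w : E, ‖v‖ = 1 ∧ ‖w‖ = 1 ∧
    ⟪v, w⟫ = 0 ∧ s * ⟪gr u ρ x, v⟫ = 0 ∧ s * ⟪gr u ρ x, w⟫ = 0 ∧ ∀ a c : ℝ,
      hb u f x (a • v + c • w) (a • v + c • w) + s * hb u ρ x (a • v + c • w) (a • v + c • w) ≤ 0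

lemma ultra_lim {X : Type} [TopologicalSpace X] {K : Set X} (hK : IsCompact K) {s : ℕ → X}
    (hs : ∀ n, s n ∈ K) : ∃ x ∈ K, Tendsto s (hyperfilter ℕ : Filter ℕ) (𝓝 x) := by
  obtain ⟨x, hx, h⟩ := hK.ultrafilter_le_nhds ((hyperfilter ℕ).map s) (by
    rw [le_principal_iff]
    show s ⁻¹' K ∈ (hyperfilter ℕ : Filter ℕ)
    exact Filter.univ_mem' hs)
  exact ⟨x, hx, h⟩

lemma tendsto_clm {ι : Type} {l : Filter ι} {A : ι → E →L[ℝ] E} {A₀ : E →L[ℝ] E} {y : ι → E}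
    {y₀ : E} (hA : Tendsto A l (𝓝 A₀)) (hy : Tendsto y l (𝓝 y₀)) :
    Tendsto (fun n => A n (y n)) l (𝓝 (A₀ y₀)) :=
  ((isBoundedBilinearMap_apply (𝕜 := ℝ) (E := E) (F := E)).continuous.tendsto (A₀, y₀)).comp
    (hA.prodMk_nhds hy)

theorem exists_tau {u : N → E} (hu : IsLocalDiffeomorph 𝓘(ℝ, E) 𝓘(ℝ, E) ∞ u) {ρ f : N → ℝ}
    (hρ : ContMDiff 𝓘(ℝ, E) 𝓘(ℝ, ℝ) ∞ ρ) (hf : ContMDiff 𝓘(ℝ, E) 𝓘(ℝ, ℝ) ∞ f)
    (hcomp : IsCompact {x | ρ x ≤ 0}) (hreg : ∀ x, ρ x = 0 → gr u ρ x ≠ 0)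
    (hno : ¬ ∃ x, Crit2 u ρ f x) : ∃ τ₀, 0 < τ₀ ∧ ∀ τ, 0 < τ → τ < τ₀ → ∀ b : E, ‖b‖ < τ₀ →
      ∀ x, ρ x < 0 → gr u f x + b = (τ / ρ x) • gr u ρ x →
      ∀ v w : E, ‖v‖ = 1 → ‖w‖ = 1 → ⟪v, w⟫ = 0 → ∃ a c : ℝ,
        0 < hb u f x (a • v + c • w) (a • v + c • w) +
          -(τ / ρ x) * hb u ρ x (a • v + c • w) (a • v + c • w) +
          τ / ρ x ^ 2 * ⟪gr u ρ x, a • v + c • w⟫ ^ 2 := by
  by_contra hcon
  push Not at hcon
  have hcon' : ∀ n : ℕ, ∃ (τ : ℝ) (b : E) (x : N) (v w : E), 0 < τ ∧ τ < 1 / ((n:ℝ) + 1) ∧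
      ‖b‖ < 1 / ((n:ℝ) + 1) ∧ ρ x < 0 ∧ gr u f x + b = (τ / ρ x) • gr u ρ x ∧ ‖v‖ = 1 ∧ ‖w‖ = 1 ∧
      ⟪v, w⟫ = 0 ∧ ∀ a c : ℝ, hb u f x (a • v + c • w) (a • v + c • w) +
          -(τ / ρ x) * hb u ρ x (a • v + c • w) (a • v + c • w) +
          τ / ρ x ^ 2 * ⟪gr u ρ x, a • v + c • w⟫ ^ 2 ≤ 0 := by
    intro n
    obtain ⟨τ, h1, h2, b, h3, x, h4, h5, v, w, h6, h7, h8, h9⟩ := hcon (1 / ((n:ℝ) + 1)) (by positivity)
    exact ⟨τ, b, x, v, w, h1, h2, h3, h4, h5, h6, h7, h8, h9⟩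
  choose τ b x v w h1 h2 h3 h4 h5 h6 h7 h8 h9 using hcon'
  have hgρ := (gr_smooth hu hρ).continuous
  have hgf := (gr_smooth hu hf).continuous
  have hHρ := HE_cont hu hρ
  have hHf := HE_cont hu hf
  have hMne : {x | ρ x ≤ 0}.Nonempty := ⟨x 0, (h4 0).le⟩
  -- constants
  obtain ⟨m, hm, hm'⟩ : ∃ m, 0 < m ∧ ∀ x, ρ x ≤ 0 → m ≤ -(ρ x) + ‖gr u ρ x‖ := by
    obtain ⟨y, hy, hmin⟩ := hcomp.exists_isMinOn hMne
      (f := fun x => -(ρ x) + ‖gr u ρ x‖) (hρ.continuous.neg.add hgρ.norm).continuousOn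
    have hy' : ρ y ≤ 0 := hy
    refine ⟨_, ?_, fun x hx => isMinOn_iff.1 hmin x hx⟩
    rcases hy'.eq_or_lt with h | h
    · have := norm_pos_iff.2 (hreg y h)
      rw [h]; linarith
    · have := norm_nonneg (gr u ρ y)
      linarith
  obtain ⟨C, hC⟩ := hcomp.exists_bound_of_continuousOn hgf.continuousOn
  have hC' : ∀ n, ‖gr u f (x n)‖ ≤ C := fun n => hC _ (h4 n).le
  have hC0 : 0 ≤ C := (norm_nonneg _).trans (hC' 0)
  set s : ℕ → ℝ := fun n => -(τ n / ρ (x n)) with hs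
  have hle1 : ∀ n : ℕ, 1 / ((n:ℝ) + 1) ≤ 1 := fun n => by
    rw [div_le_one (by positivity)]
    linarith [(Nat.cast_nonneg n : (0:ℝ) ≤ n)]
  have hs0 : ∀ n, 0 < s n := fun n => by
    simp only [hs]
    rw [neg_pos]
    exact div_neg_of_pos_of_neg (h1 n) (h4 n)
  have hsρ : ∀ n, s n * ρ (x n) = -(τ n) := fun n => by
    simp only [hs]
    have := (h4 n).ne
    field_simp
  have hgrad : ∀ n, gr u f (x n) + b n + s n • gr u ρ (x n) = 0 := fun n => by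
    rw [h5 n]
    simp only [hs]
    rw [neg_smul, add_neg_cancel]
  have hsb : ∀ n, s n ∈ Icc 0 ((C + 2) / m) := by
    intro n
    refine ⟨(hs0 n).le, ?_⟩
    rw [le_div_iff₀ hm]
    have e1 : s n * m ≤ s n * (-(ρ (x n)) + ‖gr u ρ (x n)‖) := by
      have := hm' _ (h4 n).le
      have := (hs0 n).le
      gcongr
    have e2 : s n * ‖gr u ρ (x n)‖ = ‖gr u f (x n) + b n‖ := by
      have : s n • gr u ρ (x n) = -(gr u f (x n) + b n) :=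
        (neg_eq_of_add_eq_zero_right (hgrad n)).symm
      rw [← norm_neg (gr u f (x n) + b n), ← this, norm_smul, Real.norm_eq_abs, abs_of_pos (hs0 n)]
    have e3 : ‖gr u f (x n) + b n‖ ≤ C + 1 :=
      (norm_add_le _ _).trans (add_le_add (hC' n) ((h3 n).le.trans (hle1 n)))
    have e4 := (h2 n).le.trans (hle1 n)
    have e5 := hsρ n
    calc s n * m ≤ s n * (-(ρ (x n)) + ‖gr u ρ (x n)‖) := e1
      _ = -(s n * ρ (x n)) + s n * ‖gr u ρ (x n)‖ := by ring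
      _ ≤ C + 2 := by rw [e5, e2]; linarith
  -- limits
  obtain ⟨x₀, hx₀, tx⟩ := ultra_lim hcomp (s := x) (fun n => (h4 n).le)
  obtain ⟨s₀, hs₀, ts⟩ := ultra_lim isCompact_Icc hsb
  obtain ⟨v₀, hv₀, tv⟩ := ultra_lim (isCompact_sphere (0:E) 1) (s := v)
    (fun n => mem_sphere_zero_iff_norm.2 (h6 n))
  obtain ⟨w₀, hw₀, tw⟩ := ultra_lim (isCompact_sphere (0:E) 1) (s := w)
    (fun n => mem_sphere_zero_iff_norm.2 (h7 n))
  have hlim : Tendsto (fun n : ℕ => 1 / ((n:ℝ) + 1)) (hyperfilter ℕ : Filter ℕ) (𝓝 0) :=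
    tendsto_one_div_add_atTop_nhds_zero_nat.mono_left Nat.hyperfilter_le_atTop
  have tτ : Tendsto τ (hyperfilter ℕ : Filter ℕ) (𝓝 0) :=
    squeeze_zero (fun n => (h1 n).le) (fun n => (h2 n).le) hlim
  have tb : Tendsto b (hyperfilter ℕ : Filter ℕ) (𝓝 0) :=
    squeeze_zero_norm (fun n => (h3 n).le) hlim
  have tρ : Tendsto (fun n => ρ (x n)) (hyperfilter ℕ : Filter ℕ) (𝓝 (ρ x₀)) :=
    (hρ.continuous.tendsto x₀).comp tx
  have tgρ : Tendsto (fun n => gr u ρ (x n)) (hyperfilter ℕ : Filter ℕ) (𝓝 (gr u ρ x₀)) :=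
    (hgρ.tendsto x₀).comp tx
  have tgf : Tendsto (fun n => gr u f (x n)) (hyperfilter ℕ : Filter ℕ) (𝓝 (gr u f x₀)) :=
    (hgf.tendsto x₀).comp tx
  have tHρ : Tendsto (fun n => HE u ρ (x n)) (hyperfilter ℕ : Filter ℕ) (𝓝 (HE u ρ x₀)) :=
    (hHρ.tendsto x₀).comp tx
  have tHf : Tendsto (fun n => HE u f (x n)) (hyperfilter ℕ : Filter ℕ) (𝓝 (HE u f x₀)) :=
    (hHf.tendsto x₀).comp tx
  have hplane : ∀ a c : ℝ, hb u f x₀ (a • v₀ + c • w₀) (a • v₀ + c • w₀) +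
      s₀ * hb u ρ x₀ (a • v₀ + c • w₀) (a • v₀ + c • w₀) ≤ 0 ∧
      s₀ * ⟪gr u ρ x₀, a • v₀ + c • w₀⟫ = 0 := by
    intro a c
    set y : ℕ → E := fun n => a • v n + c • w n with hy
    have ty : Tendsto y (hyperfilter ℕ : Filter ℕ) (𝓝 (a • v₀ + c • w₀)) :=
      (tv.const_smul a).add (tw.const_smul c)
    have tQ : Tendsto (fun n => ⟪HE u f (x n) (y n), y n⟫ + s n * ⟪HE u ρ (x n) (y n), y n⟫)
        (hyperfilter ℕ : Filter ℕ) (𝓝 (⟪HE u f x₀ (a • v₀ + c • w₀), a • v₀ + c • w₀⟫ +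
          s₀ * ⟪HE u ρ x₀ (a • v₀ + c • w₀), a • v₀ + c • w₀⟫)) :=
      ((tendsto_clm tHf ty).inner ty).add (ts.mul ((tendsto_clm tHρ ty).inner ty))
    have tI : Tendsto (fun n => s n ^ 2 * ⟪gr u ρ (x n), y n⟫ ^ 2)
        (hyperfilter ℕ : Filter ℕ) (𝓝 (s₀ ^ 2 * ⟪gr u ρ x₀, a • v₀ + c • w₀⟫ ^ 2)) :=
      (ts.pow 2).mul ((tgρ.inner ty).pow 2)
    have key : ∀ n, ⟪HE u f (x n) (y n), y n⟫ + s n * ⟪HE u ρ (x n) (y n), y n⟫ +
        τ n / ρ (x n) ^ 2 * ⟪gr u ρ (x n), y n⟫ ^ 2 ≤ 0 := fun n => h9 n a c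
    constructor
    · refine le_of_tendsto tQ (Filter.Eventually.of_forall fun n => ?_)
      have e1 := key n
      have e2 : 0 ≤ τ n / ρ (x n) ^ 2 * ⟪gr u ρ (x n), y n⟫ ^ 2 := by
        have := h1 n
        positivity
      linarith
    · have e3 : s₀ ^ 2 * ⟪gr u ρ x₀, a • v₀ + c • w₀⟫ ^ 2 ≤ 0 := by
        have e4 : Tendsto (fun n => s n ^ 2 * ⟪gr u ρ (x n), y n⟫ ^ 2 + τ n *
            (⟪HE u f (x n) (y n), y n⟫ + s n * ⟪HE u ρ (x n) (y n), y n⟫))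
            (hyperfilter ℕ : Filter ℕ) (𝓝 (s₀ ^ 2 * ⟪gr u ρ x₀, a • v₀ + c • w₀⟫ ^ 2 + 0 *
            (⟪HE u f x₀ (a • v₀ + c • w₀), a • v₀ + c • w₀⟫ +
          s₀ * ⟪HE u ρ x₀ (a • v₀ + c • w₀), a • v₀ + c • w₀⟫))) := tI.add (tτ.mul tQ)
        rw [zero_mul, add_zero] at e4
        refine le_of_tendsto e4 (Filter.Eventually.of_forall fun n => ?_)
        have e5 := key n
        have e6 : s n ^ 2 = τ n * (τ n / ρ (x n) ^ 2) := by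
          simp only [hs]
          have := (h4 n).ne
          field_simp
        rw [e6]
        have e7 := h1 n
        nlinarith
      have e8 : (s₀ * ⟪gr u ρ x₀, a • v₀ + c • w₀⟫) ^ 2 ≤ 0 := by rw [mul_pow]; exact e3
      exact pow_eq_zero_iff (two_ne_zero) |>.1 (le_antisymm e8 (sq_nonneg _))
  apply hno
  refine ⟨x₀, hx₀, s₀, hs₀.1, ?_, ?_, v₀, w₀, mem_sphere_zero_iff_norm.1 hv₀,
    mem_sphere_zero_iff_norm.1 hw₀, ?_, ?_, ?_, fun a c => (hplane a c).1⟩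
  · have e1 : Tendsto (fun n => s n * ρ (x n)) (hyperfilter ℕ : Filter ℕ) (𝓝 (s₀ * ρ x₀)) :=
      ts.mul tρ
    have e2 : Tendsto (fun n => s n * ρ (x n)) (hyperfilter ℕ : Filter ℕ) (𝓝 0) := by
      have e3 : (fun n => s n * ρ (x n)) = fun n => -(τ n) := funext hsρ
      rw [e3]
      simpa using tτ.neg
    exact tendsto_nhds_unique e1 e2
  · have e1 : Tendsto (fun n => gr u f (x n) + b n + s n • gr u ρ (x n))
        (hyperfilter ℕ : Filter ℕ) (𝓝 (gr u f x₀ + 0 + s₀ • gr u ρ x₀)) :=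
      (tgf.add tb).add (ts.smul tgρ)
    rw [add_zero] at e1
    have e2 : (fun n => gr u f (x n) + b n + s n • gr u ρ (x n)) = fun _ => 0 := funext hgrad
    rw [e2] at e1
    exact tendsto_nhds_unique e1 tendsto_const_nhds
  · have e1 : Tendsto (fun n => ⟪v n, w n⟫) (hyperfilter ℕ : Filter ℕ) (𝓝 ⟪v₀, w₀⟫) := tv.inner tw
    have e2 : (fun n => ⟪v n, w n⟫) = fun _ => (0:ℝ) := funext h8
    rw [e2] at e1
    exact tendsto_nhds_unique e1 tendsto_const_nhds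
  · have := (hplane 1 0).2
    simpa using this
  · have := (hplane 0 1).2
    simpa using this

/-- Generic parameters. -/
theorem exists_b [SigmaCompactSpace N] {u : N → E}
    (hu : IsLocalDiffeomorph 𝓘(ℝ, E) 𝓘(ℝ, E) ∞ u) {ρ f : N → ℝ}
    (hρ : ContMDiff 𝓘(ℝ, E) 𝓘(ℝ, ℝ) ∞ ρ) (hf : ContMDiff 𝓘(ℝ, E) 𝓘(ℝ, ℝ) ∞ f) {τ ε : ℝ}
    (hε : 0 < ε) : ∃ b : E, ‖b‖ < ε ∧ ∀ x, ρ x < 0 → gr u f x + b = (τ / ρ x) • gr u ρ x →
      ∃ (U : Set E) (σ : E → N), Sec u U σ ∧ u x ∈ U ∧ σ (u x) = x ∧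
        ∀ v, fderiv ℝ (Gm (ρ ∘ σ) (f ∘ σ) τ) (u x) v = 0 → v = 0 := by
  classical
  letI : MeasurableSpace E := borel E
  haveI : BorelSpace E := ⟨rfl⟩
  set μ : MeasureTheory.Measure E := MeasureTheory.Measure.addHaar with hμ
  have hsec := fun x : N => exists_sec hu x
  choose U σ hσ hU hσx using hsec
  obtain ⟨S, hSc, hS⟩ := countable_cover_nhds_of_sigmaCompact
    (f := fun x => σ x '' U x) (fun x => (hσ x).image.mem_nhds ⟨u x, hU x, hσx x⟩)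
  set B : N → Set E := fun x => Gm (ρ ∘ σ x) (f ∘ σ x) τ ''
    {z | z ∈ U x ∧ ρ (σ x z) < 0 ∧ (fderiv ℝ (Gm (ρ ∘ σ x) (f ∘ σ x) τ) z).det = 0} with hB
  have hB0 : ∀ x, μ (B x) = 0 := by
    intro x
    apply MeasureTheory.addHaar_image_eq_zero_of_det_fderivWithin_eq_zero μ
      (f' := fun z => fderiv ℝ (Gm (ρ ∘ σ x) (f ∘ σ x) τ) z)
    · rintro z ⟨hz1, hz2, hz3⟩
      have := Gm_deriv (τ := τ) (sec_smooth hρ (hσ x) hz1) (sec_smooth hf (hσ x) hz1)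
        (by exact hz2.ne)
      exact this.differentiableAt.hasFDerivAt.hasFDerivWithinAt
    · rintro z ⟨hz1, hz2, hz3⟩
      exact hz3
  have hBu : μ (⋃ x ∈ S, B x) = 0 := (MeasureTheory.measure_biUnion_null_iff hSc).2 fun x _ => hB0 x
  obtain ⟨b', hb1, hb2⟩ : ∃ b' ∈ ball (0:E) ε, b' ∉ ⋃ x ∈ S, B x := by
    by_contra hcon
    push Not at hcon
    have h1 : μ (ball (0:E) ε) ≤ μ (⋃ x ∈ S, B x) := MeasureTheory.measure_mono hcon
    rw [hBu] at h1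
    exact absurd h1 (not_le.2 (measure_ball_pos μ 0 hε))
  refine ⟨-b', by rw [norm_neg]; exact mem_ball_zero_iff.1 hb1, fun x hx hxb => ?_⟩
  obtain ⟨y, hy, hxy⟩ : ∃ y ∈ S, x ∈ σ y '' U y := by
    have : x ∈ ⋃ y ∈ S, σ y '' U y := by rw [hS]; trivial
    simpa using this
  have hxU := (hσ y).mem hxy
  have hσ' := (hσ y).left hxy
  refine ⟨U y, σ y, hσ y, hxU, hσ', ?_⟩
  have hval : Gm (ρ ∘ σ y) (f ∘ σ y) τ (u x) = b' := by
    have h1 : ∇ (f ∘ σ y) (u x) = gr u f x :=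
      (gr_sec hu (hσ y) hxy (hf.mdifferentiableAt (by simp))).symm
    have h2 : ∇ (ρ ∘ σ y) (u x) = gr u ρ x :=
      (gr_sec hu (hσ y) hxy (hρ.mdifferentiableAt (by simp))).symm
    unfold Gm
    rw [h1, h2]
    show gr u f x - (τ / ρ (σ y (u x))) • gr u ρ x = b'
    rw [hσ', ← hxb]
    abel
  have hdet : (fderiv ℝ (Gm (ρ ∘ σ y) (f ∘ σ y) τ) (u x)).det ≠ 0 := by
    intro h0
    apply hb2
    simp only [mem_iUnion]
    exact ⟨y, hy, u x, ⟨hxU, by rw [hσ']; exact hx, h0⟩, hval⟩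
  intro v hv
  set A := fderiv ℝ (Gm (ρ ∘ σ y) (f ∘ σ y) τ) (u x) with hA
  have hunit : IsUnit (A : E →ₗ[ℝ] E) := (LinearMap.isUnit_iff_isUnit_det _).2 (isUnit_iff_ne_zero.2 hdet)
  have hinj : Function.Injective (A : E →ₗ[ℝ] E) :=
    (Module.End.isUnit_iff _).1 hunit |>.injective
  apply hinj
  rw [map_zero]
  exact hv

/-- **Critical points with two nonpositive directions.** -/
theorem exists_crit2 [T2Space N] [SigmaCompactSpace N] {u : N → E}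
    (hu : IsLocalDiffeomorph 𝓘(ℝ, E) 𝓘(ℝ, E) ∞ u) {ρ : N → ℝ}
    (hρ : ContMDiff 𝓘(ℝ, E) 𝓘(ℝ, ℝ) ∞ ρ) (hcomp : IsCompact {x | ρ x ≤ 0})
    (hne : {x | ρ x ≤ 0}.Nonempty) (hconn : IsPreconnected {x | ρ x ≤ 0})
    (hL : Lifts {x | ρ x ≤ 0}) (hreg : ∀ x, ρ x = 0 → gr u ρ x ≠ 0)
    (hball : ¬ IsBall E {x | ρ x ≤ 0}) {f : N → ℝ} (hf : ContMDiff 𝓘(ℝ, E) 𝓘(ℝ, ℝ) ∞ f) :
    ∃ x, Crit2 u ρ f x := by
  by_contra hno
  obtain ⟨τ₀, hτ₀, hind⟩ := exists_tau hu hρ hf hcomp hreg hno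
  set τ := τ₀ / 2 with hτd
  have hτ : 0 < τ := by positivity
  obtain ⟨b, hbn, hgen⟩ := exists_b hu hρ hf (τ := τ) hτ₀
  set ψ : N → ℝ := fun x => ρ x * Real.exp (-(f x + ⟪b, u x⟫) / τ) with hψ
  have hbu : ContMDiff 𝓘(ℝ, E) 𝓘(ℝ, ℝ) ∞ (fun x => ⟪b, u x⟫) :=
    ((InnerProductSpace.toDual ℝ E) b).contDiff.contMDiff.comp hu.contMDiff
  have hψs : ContMDiff 𝓘(ℝ, E) 𝓘(ℝ, ℝ) ∞ ψ := by
    refine hρ.mul ?_
    have h1 : ContMDiff 𝓘(ℝ, E) 𝓘(ℝ, ℝ) ∞ (fun x => -(f x + ⟪b, u x⟫) / τ) := by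
      have := ((hf.add hbu).neg).mul (contMDiff_const (c := τ⁻¹))
      refine this.congr fun x => ?_
      simp [div_eq_mul_inv]
    exact Real.contDiff_exp.contMDiff.comp h1
  have hψle : ∀ x, ψ x ≤ 0 ↔ ρ x ≤ 0 := fun x => by
    simp only [hψ]
    have := Real.exp_pos (-(f x + ⟪b, u x⟫) / τ)
    constructor
    · intro h
      by_contra hlt
      push Not at hlt
      have := mul_pos hlt this
      linarith
    · intro h
      exact mul_nonpos_of_nonpos_of_nonneg h this.le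
  have hψ0 : ∀ x, ψ x = 0 → ρ x = 0 := fun x h => by
    simp only [hψ] at h
    rcases mul_eq_zero.1 h with h1 | h1
    · exact h1
    · exact absurd h1 (Real.exp_pos _).ne'
  have hset : {x | ψ x ≤ 0} = {x | ρ x ≤ 0} := by
    ext x; exact hψle x
  have hsecψ : ∀ (U : Set E) (σ : E → N), Sec u U σ → ∀ z ∈ U,
      (ψ ∘ σ) =ᶠ[𝓝 z] Ps (ρ ∘ σ) (f ∘ σ) τ b := by
    intro U σ h z hz
    filter_upwards [h.isOpen.mem_nhds hz] with y hy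
    show ρ (σ y) * Real.exp (-(f (σ y) + ⟪b, u (σ y)⟫) / τ) =
      ρ (σ y) * Real.exp (-(f (σ y) + ⟪b, y⟫) / τ)
    rw [h.right y hy]
  have hgr : ∀ x, gr u ψ x = Real.exp (-(f x + ⟪b, u x⟫) / τ) •
      (gr u ρ x - (ρ x / τ) • (gr u f x + b)) := by
    intro x
    obtain ⟨U, σ, h, hxU, hσx⟩ := exists_sec hu x
    have h1 := gr_sec' hu hψs h hxU
    have h2 := gr_sec' hu hρ h hxU
    have h3 := gr_sec' hu hf h hxU
    rw [hσx] at h1 h2 h3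
    have h4 := Ps_grad (R := ρ ∘ σ) (F := f ∘ σ) (τ := τ) (b := b) (z := u x)
      ((sec_smooth hρ h hxU).differentiableAt (by simp))
      ((sec_smooth hf h hxU).differentiableAt (by simp))
    have h5 : ∇ (ψ ∘ σ) (u x) = ∇ (Ps (ρ ∘ σ) (f ∘ σ) τ b) (u x) := by
      unfold gradient
      rw [(hsecψ U σ h (u x) hxU).fderiv_eq]
    rw [h1, h5, h4, ← h2, ← h3]
    show Real.exp (-(f (σ (u x)) + ⟪b, u x⟫) / τ) • (gr u ρ x - (ρ (σ (u x)) / τ) • _) = _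
    rw [hσx]
  have hcrit : ∀ x, ψ x ≤ 0 → gr u ψ x = 0 → ρ x < 0 ∧ gr u f x + b = (τ / ρ x) • gr u ρ x := by
    intro x hx h0
    rw [hgr, smul_eq_zero] at h0
    have h1 : gr u ρ x - (ρ x / τ) • (gr u f x + b) = 0 :=
      h0.resolve_left (Real.exp_pos _).ne'
    have h2 : ρ x < 0 := by
      refine lt_of_le_of_ne ((hψle x).1 hx) fun h => ?_
      rw [h, zero_div, zero_smul, sub_zero] at h1
      exact hreg x h h1
    refine ⟨h2, ?_⟩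
    rw [sub_eq_zero] at h1
    rw [h1, smul_smul]
    have : τ / ρ x * (ρ x / τ) = 1 := by
      have := h2.ne
      field_simp
    rw [this, one_smul]
  have hhb : ∀ x, ψ x ≤ 0 → gr u ψ x = 0 → ∃ (κ : ℝ) (A : E →L[ℝ] E), 0 < κ ∧
      (∀ v, A v = 0 → v = 0) ∧ (∀ v w, hb u ψ x v w = κ * ⟪A v, w⟫) ∧
      ∀ v w, ⟪A v, w⟫ = hb u f x v w + -(τ / ρ x) * hb u ρ x v w +
        τ / ρ x ^ 2 * (⟪gr u ρ x, v⟫ * ⟪gr u ρ x, w⟫) := by
    intro x hx h0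
    obtain ⟨hneg, heq⟩ := hcrit x hx h0
    obtain ⟨U, σ, h, hxU, hσx, hinj⟩ := hgen x hneg heq
    have hx' : x ∈ σ '' U := ⟨u x, hxU, hσx⟩
    have hρx : (ρ ∘ σ) (u x) = ρ x := by show ρ (σ (u x)) = _; rw [hσx]
    have h2 := gr_sec' hu hρ h hxU
    have h3 := gr_sec' hu hf h hxU
    rw [hσx] at h2 h3
    obtain ⟨κ, hκ, hκ'⟩ := Ps_hess (R := ρ ∘ σ) (F := f ∘ σ) (τ := τ) (b := b) (z := u x)
      (sec_smooth hρ h hxU) (sec_smooth hf h hxU) (by rw [hρx]; exact hneg) hτ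
      (by rw [hρx, ← h2, ← h3]; exact heq)
    refine ⟨κ, fderiv ℝ (Gm (ρ ∘ σ) (f ∘ σ) τ) (u x), hκ, hinj, fun v w => ?_, fun v w => ?_⟩
    · rw [hb_sec hu hψs h hx']
      have h5 : ∇ (ψ ∘ σ) =ᶠ[𝓝 (u x)] ∇ (Ps (ρ ∘ σ) (f ∘ σ) τ b) := by
        filter_upwards [(hsecψ U σ h (u x) hxU).eventuallyEq_nhds] with z hz
        unfold gradient
        rw [hz.fderiv_eq]
      rw [h5.fderiv_eq, hκ', _root_.smul_apply, inner_smul_left]
      simp only [conj_trivial]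
    · rw [(Gm_deriv (τ := τ) (sec_smooth hρ h hxU) (sec_smooth hf h hxU)
        (by rw [hρx]; exact hneg.ne)).fderiv]
      rw [hb_sec hu hf h hx', hb_sec hu hρ h hx', hρx, ← h2]
      simp only [_root_.sub_apply, _root_.add_apply, _root_.smul_apply,
        ContinuousLinearMap.smulRight_apply, InnerProductSpace.toDual_apply_apply, smul_eq_mul,
        inner_sub_left, inner_add_left, inner_smul_left, conj_trivial]
      ring
  have hnd : ∀ x, ψ x ≤ 0 → gr u ψ x = 0 → ∀ v, v ≠ 0 → ∃ w, hb u ψ x v w ≠ 0 := by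
    intro x hx h0 v hv
    obtain ⟨κ, A, hκ, hinj, h1, -⟩ := hhb x hx h0
    refine ⟨A v, ?_⟩
    rw [h1, real_inner_self_eq_norm_sq]
    have h2 : A v ≠ 0 := fun h => hv (hinj v h)
    have := norm_pos_iff.2 h2
    positivity
  have hcompψ : IsCompact {x | ψ x ≤ 0} := by rw [hset]; exact hcomp
  have hmd : MD u ψ := by
    refine ⟨hψs, hcompψ, by rw [hset]; exact hne, by rw [hset]; exact hconn,
      by rw [hset]; exact hL, ?_, fin_of_nondeg hu hψs hcompψ hnd, hnd, ?_⟩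
    · intro x hx h0
      have := (hcrit x hx.le h0).1
      rw [hψ0 x hx] at this
      exact lt_irrefl _ this
    · intro x hx h0 v w hv hw hvw
      obtain ⟨hneg, heq⟩ := hcrit x hx h0
      obtain ⟨κ, A, hκ, hinj, h1, h2⟩ := hhb x hx h0
      obtain ⟨a, c, hac⟩ := hind τ hτ (by rw [hτd]; linarith) b hbn x hneg heq v w hv hw hvw
      refine ⟨a, c, ?_⟩
      rw [h1, h2]
      refine mul_pos hκ ?_
      rw [← sq]
      exact hac
  apply hball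
  have := hmd.ball hu
  rwa [hset] at this

end Pool.Agent.Q196.XF
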