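import Pool.Agent.Q196.XF.Red2

/-! Simply connected domains have the lifting property. -/

set_option autoImplicit false
set_option linter.unusedSectionVars false

open scoped Topology ContDiff Manifold RealInnerProductSpace Gradient
open Set Metric Filter Bundle Pool.Agent.Q196.XB Asymptotics

noncomputable section

namespace Pool.Agent.Q196.XF

variable {E : Type} [NormedAddCommGroup E] [InnerProductSpace ℝ E] [FiniteDimensional ℝ E]
  {N : Type} [TopologicalSpace N] [ChartedSpace E N] [IsManifold 𝓘(ℝ, E) ∞ N]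

/-- lifting through the covering of the circle -/
lemma lift_circle {A : Type} [TopologicalSpace A] [SimplyConnectedSpace A]
    [LocallyPathConnectedSpace A] {f : A → ℂ} (hf : Continuous f) (h1 : ∀ x, ‖f x‖ = 1) :
    ∃ θ : A → ℝ, Continuous θ ∧ ∀ x, f x = Complex.exp (θ x * Complex.I) := by
  have hmem : ∀ x, f x ∈ Submonoid.unitSphere ℂ := fun x => by
    show f x ∈ sphere (0:ℂ) 1
    exact mem_sphere_zero_iff_norm.2 (h1 x)
  let g : C(A, Circle) := ⟨fun x => ⟨f x, hmem x⟩, hf.subtype_mk _⟩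
  obtain ⟨a₀⟩ : Nonempty A := inferInstance
  obtain ⟨F, ⟨-, hF⟩, -⟩ := Circle.isCoveringMap_exp.existsUnique_continuousMap_lifts g a₀
    (Complex.arg (g a₀)) (Circle.exp_arg _)
  refine ⟨F, F.continuous, fun x => ?_⟩
  have h2 : Circle.exp (F x) = g x := congrFun hF x
  have h3 : (g x : ℂ) = f x := rfl
  rw [← h3, ← h2, Circle.coe_exp]

lemma lifts_of_sc {Y : Type} [TopologicalSpace Y] {M : Set Y} [SimplyConnectedSpace M]
    [LocallyPathConnectedSpace M] : Lifts M := by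
  classical
  intro f hf h1
  obtain ⟨θ, hθ, hθ'⟩ := lift_circle (A := M) (f := fun x : M => f x)
    (continuousOn_iff_continuous_restrict.1 hf) (fun x => h1 x x.2)
  refine ⟨fun x => if h : x ∈ M then θ ⟨x, h⟩ else 0, ?_, fun x hx => ?_⟩
  · rw [continuousOn_iff_continuous_restrict]
    refine hθ.congr fun x => ?_
    show θ x = if h : (x : Y) ∈ M then θ ⟨x, h⟩ else 0
    rw [dif_pos x.2]
  · simp only [dif_pos hx]
    exact hθ' ⟨x, hx⟩

/-! ### a domain is a retract of a neighbourhood -/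

section

variable {u : N → E} {ρ : N → ℝ} {c : ℝ} {X : N → E} {Fl : ℝ → N → N}

lemma hit_spec' (hF : IsFlow u X Fl) (hρ : Continuous ρ) {x : N}
    (h : ∃ t, 0 ≤ t ∧ ρ (Fl (-t) x) ≤ c) :
    0 ≤ hit ρ c Fl x ∧ ρ (Fl (-(hit ρ c Fl x)) x) ≤ c ∧
      ∀ t, 0 ≤ t → t < hit ρ c Fl x → c < ρ (Fl (-t) x) := by
  set S : Set ℝ := {t | 0 ≤ t ∧ ρ (Fl (-t) x) ≤ c} with hS
  have hSc : IsClosed S := (isClosed_le continuous_const continuous_id).inter
    (isClosed_le (hρ.comp ((hF.cont_t x).comp continuous_neg)) continuous_const)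
  have hSb : BddBelow S := ⟨0, fun t ht => ht.1⟩
  have hmem : sInf S ∈ S := hSc.csInf_mem h hSb
  refine ⟨hmem.1, hmem.2, fun t ht htl => ?_⟩
  by_contra hle
  have : hit ρ c Fl x ≤ t := csInf_le hSb ⟨ht, not_lt.1 hle⟩
  linarith

lemma hit_cont' (hF : IsFlow u X Fl) (hρ : Continuous ρ) {V : Set N}
    (hV : ∀ x ∈ V, ∃ t, 0 ≤ t ∧ ρ (Fl (-t) x) ≤ c)
    (low : ∀ y, ρ y ≤ c → ∀ t, 0 < t → ρ (Fl (-t) y) < c) : ContinuousOn (hit ρ c Fl) V := by
  intro x hx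
  obtain ⟨h3, h4, h5⟩ := hit_spec' hF hρ (hV x hx)
  set τ := hit ρ c Fl x with hτ
  have hcs : ∀ s, Continuous fun y => ρ (Fl (-s) y) := fun s => hρ.comp (hF.cont_x (-s))
  rw [ContinuousWithinAt, tendsto_order]
  constructor
  · intro v hv
    rcases lt_or_ge v 0 with h0 | h0
    · filter_upwards [self_mem_nhdsWithin] with y hy
      exact h0.trans_le (hit_spec' hF hρ (hV y hy)).1
    · have h6 := h5 v h0 hv
      filter_upwards [self_mem_nhdsWithin, nhdsWithin_le_nhds (ev_gt (hcs v) h6)] with y hy hyv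
      by_contra hle
      push Not at hle
      obtain ⟨g1, g2, -⟩ := hit_spec' hF hρ (hV y hy)
      rcases hle.eq_or_lt with h7 | h7
      · rw [h7] at g2; linarith
      · have h8 := low _ g2 _ (sub_pos.2 h7)
        rw [← hF.add, show -(v - hit ρ c Fl y) + -(hit ρ c Fl y) = -v by ring] at h8
        linarith
  · intro v hv
    set w := (τ + v) / 2 with hw
    have hw1 : τ < w := by rw [hw]; linarith
    have hw2 : w < v := by rw [hw]; linarith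
    have h6 : ρ (Fl (-w) x) < c := by
      have h8 := low _ h4 _ (sub_pos.2 hw1)
      rwa [← hF.add, show -(w - τ) + -τ = -w by ring] at h8
    filter_upwards [nhdsWithin_le_nhds (ev_lt (hcs w) h6)] with y hy
    refine lt_of_le_of_lt ?_ hw2
    exact csInf_le ⟨0, fun t ht => ht.1⟩ ⟨by linarith, hy.le⟩

end

/-- A flow which pushes the domain into its interior. -/
theorem exists_push [T2Space N] [SigmaCompactSpace N] {u : N → E}
    (hu : IsLocalDiffeomorph 𝓘(ℝ, E) 𝓘(ℝ, E) ∞ u) {ρ : N → ℝ}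
    (hρ : ContMDiff 𝓘(ℝ, E) 𝓘(ℝ, ℝ) ∞ ρ) (hcomp : IsCompact {x | ρ x ≤ 0})
    (hreg : ∀ x, ρ x = 0 → gr u ρ x ≠ 0) : ∃ (X : N → E) (Fl : ℝ → N → N), IsFlow u X Fl ∧
      ∀ y, ρ y ≤ 0 → ∀ t, 0 < t → ρ (Fl (-t) y) < 0 := by
  obtain ⟨X, Fl, hX, hFl, -, -, hXK⟩ := exists_flow_field hu hcomp (ι := Unit)
    (K := fun _ => {x | ρ x = 0}) (fun _ => isClosed_eq hρ.continuous continuous_const)
    (c := fun _ => gr u ρ) (fun _ => (gr_smooth hu hρ).continuous)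
    (S₁ := ∅) (S₂ := ∅) isClosed_empty isClosed_empty (disjoint_empty _)
    (Y₁ := fun _ => 0) (Y₂ := fun _ => 0) contMDiff_const contMDiff_const
    (fun x hx => absurd hx (notMem_empty _)) (fun x hx => absurd hx (notMem_empty _))
    (by
      intro x _ _
      refine ⟨gr u ρ x, fun _ hx => ?_⟩
      rw [real_inner_self_eq_norm_sq]
      have := norm_pos_iff.2 (hreg x hx)
      positivity)
  have hout : ∀ x, ρ x = 0 → 0 < ⟪gr u ρ x, X x⟫ := fun x hx => hXK () x hx hx.le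
  exact ⟨X, Fl, hFl, fun y hy t ht => stay_level hFl hρ hρ hout (c := 0)
    (fun x _ hx => hout x hx) hy hy ht⟩

theorem lpc_domain [T2Space N] [SigmaCompactSpace N] {u : N → E}
    (hu : IsLocalDiffeomorph 𝓘(ℝ, E) 𝓘(ℝ, E) ∞ u) {ρ : N → ℝ}
    (hρ : ContMDiff 𝓘(ℝ, E) 𝓘(ℝ, ℝ) ∞ ρ) (hcomp : IsCompact {x | ρ x ≤ 0})
    (hreg : ∀ x, ρ x = 0 → gr u ρ x ≠ 0) : LocallyPathConnectedSpace {x | ρ x ≤ 0} := by
  haveI : LocallyPathConnectedSpace N := ChartedSpace.locallyPathConnectedSpace E N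
  obtain ⟨X, Fl, hFl, low⟩ := exists_push hu hρ hcomp hreg
  set V : Set N := {x | ρ (Fl (-1) x) < 0} with hV
  have hVo : IsOpen V := isOpen_lt (hρ.continuous.comp (hFl.cont_x (-1))) continuous_const
  haveI : LocallyPathConnectedSpace V := hVo.locallyPathConnectedSpace
  have hVh : ∀ x ∈ V, ∃ t, 0 ≤ t ∧ ρ (Fl (-t) x) ≤ 0 := fun x hx => ⟨1, zero_le_one, le_of_lt hx⟩
  have hMV : ∀ x, ρ x ≤ 0 → x ∈ V := fun x hx => low x hx 1 one_pos
  have hhc := hit_cont' hFl hρ.continuous hVh low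
  have hrc : ContinuousOn (ret ρ 0 Fl) V := by
    have h1 : ContinuousOn (fun x => (-(hit ρ 0 Fl x), x)) V := hhc.neg.prodMk continuousOn_id
    exact hFl.cont.comp_continuousOn h1
  let q : V → {x | ρ x ≤ 0} := fun x => ⟨ret ρ 0 Fl x, (hit_spec' hFl hρ.continuous (hVh x x.2)).2.1⟩
  let i : {x | ρ x ≤ 0} → V := fun x => ⟨x, hMV x x.2⟩
  have hq : Continuous q := (continuousOn_iff_continuous_restrict.1 hrc).subtype_mk _
  have hi : Continuous i := continuous_subtype_val.subtype_mk _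
  have hqi : Function.LeftInverse q i := by
    intro x
    apply Subtype.ext
    show ret ρ 0 Fl x = x
    have hx : ρ (x:N) ≤ 0 := x.2
    have h0 : hit ρ 0 Fl (x:N) = 0 := by
      obtain ⟨h3, h4, h5⟩ := hit_spec' hFl hρ.continuous (hVh _ (hMV _ hx))
      by_contra hne
      have h6 := h5 0 le_rfl (lt_of_le_of_ne h3 (Ne.symm hne))
      rw [neg_zero, hFl.zero] at h6
      linarith
    unfold ret
    rw [h0, neg_zero, hFl.zero]
  exact (Topology.IsQuotientMap.of_inverse hi hq hqi).locallyPathConnectedSpace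

/-- **Simply connected domains have the lifting property.** -/
theorem lifts_domain [T2Space N] [SigmaCompactSpace N] {u : N → E}
    (hu : IsLocalDiffeomorph 𝓘(ℝ, E) 𝓘(ℝ, E) ∞ u) {ρ : N → ℝ}
    (hρ : ContMDiff 𝓘(ℝ, E) 𝓘(ℝ, ℝ) ∞ ρ) (hcomp : IsCompact {x | ρ x ≤ 0})
    (hreg : ∀ x, ρ x = 0 → gr u ρ x ≠ 0) [SimplyConnectedSpace {x | ρ x ≤ 0}] :
    Lifts {x | ρ x ≤ 0} := by
  haveI := lpc_domain hu hρ hcomp hreg
  exact lifts_of_sc

/-! ### Hessians of linear functions and distance functions -/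

lemma hb_ht {u : N → E} (hu : IsLocalDiffeomorph 𝓘(ℝ, E) 𝓘(ℝ, E) ∞ u) (e : E) (x : N) (v w : E) :
    hb u (ht u e) x v w = 0 := by
  have h1 : gr u (ht u e) = fun _ => e := funext fun y => gr_ht hu e y
  unfold hb
  rw [h1, mfderiv_const]
  exact inner_zero_left _

lemma hb_fd {u : N → E} (hu : IsLocalDiffeomorph 𝓘(ℝ, E) 𝓘(ℝ, E) ∞ u) (p : E) (x : N) (v w : E) :
    hb u (fd u p) x v w = ⟪v, w⟫ := by
  obtain ⟨U, σ, h, hxU, hσx⟩ := exists_sec hu x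
  have hx' : x ∈ σ '' U := ⟨u x, hxU, hσx⟩
  rw [hb_sec hu (fd_smooth hu.contMDiff p) h hx']
  have h1 : ∇ (fd u p ∘ σ) =ᶠ[𝓝 (u x)] fun z => z - p := by
    filter_upwards [h.isOpen.mem_nhds hxU] with z hz
    rw [← gr_sec' hu (fd_smooth hu.contMDiff p) h hz, gr_fd hu, h.right z hz]
  have h2 : HasFDerivAt (fun z : E => z - p) (ContinuousLinearMap.id ℝ E) (u x) :=
    (hasFDerivAt_id (u x)).sub_const p
  rw [h1.fderiv_eq, h2.fderiv]
  rfl

/-- **Gauss map.** -/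
theorem gauss_two [T2Space N] [SigmaCompactSpace N] {u : N → E}
    (hu : IsLocalDiffeomorph 𝓘(ℝ, E) 𝓘(ℝ, E) ∞ u) {ρ : N → ℝ}
    (hρ : ContMDiff 𝓘(ℝ, E) 𝓘(ℝ, ℝ) ∞ ρ) (hcomp : IsCompact {x | ρ x ≤ 0})
    (hne : {x | ρ x ≤ 0}.Nonempty) (hconn : IsPreconnected {x | ρ x ≤ 0})
    (hL : Lifts {x | ρ x ≤ 0}) (hreg : ∀ x, ρ x = 0 → gr u ρ x ≠ 0)
    (hball : ¬ IsBall E {x | ρ x ≤ 0}) {e : E} (he : ‖e‖ = 1) :
    ∃ x, ρ x = 0 ∧ ∃ c : ℝ, 0 < c ∧ gr u ρ x = c • e ∧ ∃ v w : E, ‖v‖ = 1 ∧ ‖w‖ = 1 ∧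
      ⟪v, w⟫ = 0 ∧ ⟪gr u ρ x, v⟫ = 0 ∧ ⟪gr u ρ x, w⟫ = 0 ∧
      ∀ a c : ℝ, hb u ρ x (a • v + c • w) (a • v + c • w) ≤ 0 := by
  obtain ⟨x, hx, s, hs, hsρ, hg, v, w, hv, hw, hvw, h1, h2, h3⟩ :=
    exists_crit2 hu hρ hcomp hne hconn hL hreg hball (ht_smooth hu.contMDiff (-e))
  rw [gr_ht hu] at hg
  have hs0 : s ≠ 0 := by
    rintro rfl
    rw [zero_smul, add_zero, neg_eq_zero] at hg
    rw [hg, norm_zero] at he
    exact zero_ne_one he
  have hsp : 0 < s := lt_of_le_of_ne hs (Ne.symm hs0)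
  have hx0 : ρ x = 0 := (mul_eq_zero.1 hsρ).resolve_left hs0
  have hge : gr u ρ x = s⁻¹ • e := by
    have h4 : s • gr u ρ x = e := by
      have := neg_eq_of_add_eq_zero_right hg
      rw [neg_neg] at this
      exact this.symm
    rw [← h4, smul_smul, inv_mul_cancel₀ hs0, one_smul]
  refine ⟨x, hx0, s⁻¹, inv_pos.2 hsp, hge, v, w, hv, hw, hvw, (mul_eq_zero.1 h1).resolve_left hs0,
    (mul_eq_zero.1 h2).resolve_left hs0, fun a c => ?_⟩
  have h5 := h3 a c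
  rw [hb_ht hu, zero_add] at h5
  by_contra hlt
  push Not at hlt
  have := mul_pos hsp hlt
  linarith

/-- **Normal rays.** -/
theorem rays_two [T2Space N] [SigmaCompactSpace N] {u : N → E}
    (hu : IsLocalDiffeomorph 𝓘(ℝ, E) 𝓘(ℝ, E) ∞ u) {ρ : N → ℝ}
    (hρ : ContMDiff 𝓘(ℝ, E) 𝓘(ℝ, ℝ) ∞ ρ) (hcomp : IsCompact {x | ρ x ≤ 0})
    (hne : {x | ρ x ≤ 0}.Nonempty) (hconn : IsPreconnected {x | ρ x ≤ 0})
    (hL : Lifts {x | ρ x ≤ 0}) (hreg : ∀ x, ρ x = 0 → gr u ρ x ≠ 0)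
    (hball : ¬ IsBall E {x | ρ x ≤ 0}) (p : E) :
    ∃ x, ρ x = 0 ∧ ∃ s : ℝ, 0 < s ∧ u x + s • gr u ρ x = p ∧ ∃ v w : E, ‖v‖ = 1 ∧ ‖w‖ = 1 ∧
      ⟪v, w⟫ = 0 ∧ ⟪gr u ρ x, v⟫ = 0 ∧ ⟪gr u ρ x, w⟫ = 0 ∧
      ∀ a c : ℝ, s * hb u ρ x (a • v + c • w) (a • v + c • w) ≤ -(a ^ 2 + c ^ 2) := by
  obtain ⟨x, hx, s, hs, hsρ, hg, v, w, hv, hw, hvw, h1, h2, h3⟩ :=
    exists_crit2 hu hρ hcomp hne hconn hL hreg hball (fd_smooth hu.contMDiff p)
  rw [gr_fd hu] at hg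
  have hwv : ⟪w, v⟫ = 0 := by rw [real_inner_comm]; exact hvw
  have hnorm : ∀ a c : ℝ, ⟪a • v + c • w, a • v + c • w⟫ = a ^ 2 + c ^ 2 := by
    intro a c
    rw [inner_add_left, inner_add_right, inner_add_right]
    simp only [inner_smul_left, inner_smul_right, conj_trivial, real_inner_self_eq_norm_sq, hv, hw,
      hvw, hwv]
    ring
  have h4 : ∀ a c : ℝ, s * hb u ρ x (a • v + c • w) (a • v + c • w) ≤ -(a ^ 2 + c ^ 2) := by
    intro a c
    have h5 := h3 a c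
    rw [hb_fd hu, hnorm] at h5
    linarith
  have hs0 : s ≠ 0 := by
    rintro rfl
    have := h4 1 0
    norm_num at this
  have hsp : 0 < s := lt_of_le_of_ne hs (Ne.symm hs0)
  refine ⟨x, (mul_eq_zero.1 hsρ).resolve_left hs0, s, hsp, ?_, v, w, hv, hw, hvw,
    (mul_eq_zero.1 h1).resolve_left hs0, (mul_eq_zero.1 h2).resolve_left hs0, h4⟩
  have h6 : u x + s • gr u ρ x - p = 0 := by rw [← hg]; abel
  exact sub_eq_zero.1 h6

end Pool.Agent.Q196.XF
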