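import Pool.Agent.Q196.XF.MergeA

/-! The tube around the descending arc. -/

set_option autoImplicit false
set_option linter.unusedSectionVars false

open scoped Topology ContDiff Manifold RealInnerProductSpace Gradient
open Set Metric Filter Bundle Pool.Agent.Q196.XB Asymptotics

noncomputable section

namespace Pool.Agent.Q196.XF

variable {E : Type} [NormedAddCommGroup E] [InnerProductSpace ℝ E] [FiniteDimensional ℝ E]
  {N : Type} [TopologicalSpace N] [ChartedSpace E N] [IsManifold 𝓘(ℝ, E) ∞ N]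

/-- the closed tube -/
def Tub (σ : E → N) (z₀ e : E) (a b : ℝ) : Set N :=
  σ '' {z | |⟪e, z - z₀⟫| ≤ a ∧ ‖pe e (z - z₀)‖ ≤ b}

/-- the open tube -/
def TubO (σ : E → N) (z₀ e : E) (a b : ℝ) : Set N :=
  σ '' {z | |⟪e, z - z₀⟫| < a ∧ ‖pe e (z - z₀)‖ < b}

/-- the lateral boundary of the tube -/
def TubL (σ : E → N) (z₀ e : E) (a b : ℝ) : Set N :=
  σ '' {z | |⟪e, z - z₀⟫| ≤ a ∧ ‖pe e (z - z₀)‖ = b}

lemma c_lin (e z₀ : E) : Continuous fun z : E => |⟪e, z - z₀⟫| := by fun_prop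

lemma c_pe (e z₀ : E) : Continuous fun z : E => ‖pe e (z - z₀)‖ :=
  ((pe_cont e).comp (continuous_id.sub continuous_const)).norm

section

variable {u : N → E} (huc : Continuous u) {σ : E → N} {z₀ e : E} {r a b : ℝ}
  (hsec : Sec u (ball z₀ r) σ)
  (hTB : ∀ z, |⟪e, z - z₀⟫| ≤ a → ‖pe e (z - z₀)‖ ≤ b → z ∈ ball z₀ r)
include huc hsec hTB

lemma Tub_compact : IsCompact (Tub σ z₀ e a b) := by
  have h1 : IsClosed {z : E | |⟪e, z - z₀⟫| ≤ a ∧ ‖pe e (z - z₀)‖ ≤ b} := by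
    exact (isClosed_le (c_lin e z₀) continuous_const).inter
      (isClosed_le (c_pe e z₀) continuous_const)
  have h2 : IsCompact {z : E | |⟪e, z - z₀⟫| ≤ a ∧ ‖pe e (z - z₀)‖ ≤ b} :=
    (isCompact_closedBall z₀ r).of_isClosed_subset h1
      (fun z hz => ball_subset_closedBall (hTB z hz.1 hz.2))
  exact h2.image_of_continuousOn (hsec.cont.mono fun z hz => hTB z hz.1 hz.2)

lemma TubL_compact : IsCompact (TubL σ z₀ e a b) := by
  have h1 : IsClosed {z : E | |⟪e, z - z₀⟫| ≤ a ∧ ‖pe e (z - z₀)‖ = b} := by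
    exact (isClosed_le (c_lin e z₀) continuous_const).inter
      (isClosed_eq (c_pe e z₀) continuous_const)
  have h2 : IsCompact {z : E | |⟪e, z - z₀⟫| ≤ a ∧ ‖pe e (z - z₀)‖ = b} :=
    (isCompact_closedBall z₀ r).of_isClosed_subset h1
      (fun z hz => ball_subset_closedBall (hTB z hz.1 hz.2.le))
  exact h2.image_of_continuousOn (hsec.cont.mono fun z hz => hTB z hz.1 hz.2.le)

lemma TubO_open : IsOpen (TubO σ z₀ e a b) := by
  have h1 : IsOpen {z : E | |⟪e, z - z₀⟫| < a ∧ ‖pe e (z - z₀)‖ < b} := by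
    exact (isOpen_lt (c_lin e z₀) continuous_const).inter
      (isOpen_lt (c_pe e z₀) continuous_const)
  exact (hsec.mono huc h1 (fun z hz => hTB z hz.1.le hz.2.le)).image

lemma mem_Tub {x : N} : x ∈ Tub σ z₀ e a b ↔ x ∈ σ '' ball z₀ r ∧ |⟪e, u x - z₀⟫| ≤ a ∧
    ‖pe e (u x - z₀)‖ ≤ b := by
  constructor
  · rintro ⟨z, hz, rfl⟩
    have h1 := hTB z hz.1 hz.2
    rw [hsec.right z h1]
    exact ⟨⟨z, h1, rfl⟩, hz⟩
  · rintro ⟨⟨z, hz, rfl⟩, h⟩
    rw [hsec.right z hz] at h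
    exact ⟨z, h, rfl⟩

lemma mem_TubO {x : N} : x ∈ TubO σ z₀ e a b ↔ x ∈ σ '' ball z₀ r ∧ |⟪e, u x - z₀⟫| < a ∧
    ‖pe e (u x - z₀)‖ < b := by
  constructor
  · rintro ⟨z, hz, rfl⟩
    have h1 := hTB z hz.1.le hz.2.le
    rw [hsec.right z h1]
    exact ⟨⟨z, h1, rfl⟩, hz⟩
  · rintro ⟨⟨z, hz, rfl⟩, h⟩
    rw [hsec.right z hz] at h
    exact ⟨z, h, rfl⟩

lemma mem_TubL {x : N} : x ∈ TubL σ z₀ e a b ↔ x ∈ σ '' ball z₀ r ∧ |⟪e, u x - z₀⟫| ≤ a ∧
    ‖pe e (u x - z₀)‖ = b := by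
  constructor
  · rintro ⟨z, hz, rfl⟩
    have h1 := hTB z hz.1 hz.2.le
    rw [hsec.right z h1]
    exact ⟨⟨z, h1, rfl⟩, hz⟩
  · rintro ⟨⟨z, hz, rfl⟩, h⟩
    rw [hsec.right z hz] at h
    exact ⟨z, h, rfl⟩

/-- Backward orbits in the tube leave it through the left end. -/
theorem in_tube [T2Space N] (he : ‖e‖ = 1) {X X' : N → E} (hX : Continuous X)
    {Fl : ℝ → N → N} (h : IsFlow u X' Fl) {ρ₁ : N → ℝ}
    (H1 : ∀ x ∈ Tub σ z₀ e a b, 0 < ⟪e, X x⟫)
    (H2 : ∀ x ∈ TubL σ z₀ e a b, 0 < ⟪pe e (u x - z₀), X x⟫)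
    (H3 : ∀ x ∈ Tub σ z₀ e a b, 0 ≤ ρ₁ x → X' x = X x)
    (H4 : ∀ x ∈ Tub σ z₀ e a b, ⟪e, u x - z₀⟫ = -a → ρ₁ x < 0) {y : N}
    (hy : y ∈ Tub σ z₀ e a b) : ∃ t, 0 ≤ t ∧ ρ₁ (Fl (-t) y) < 0 := by
  by_contra hne
  push Not at hne
  set F : ℝ → N := fun t => Fl (-t) y with hF
  have hFc : Continuous F := (h.cont_t y).comp continuous_neg
  have hTc := Tub_compact huc hsec hTB
  have hpc := pe_cont e
  have hds : ∀ t, HasDerivAt (fun t => ⟪e, u (F t) - z₀⟫) (-⟪e, X' (F t)⟫) t := by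
    intro t
    have h1 := ((h.deriv_u_neg y t).sub_const z₀)
    have h2 := (hasDerivAt_const t e).inner ℝ h1
    refine h2.congr_deriv ?_
    simp [hF]
  have hdp : ∀ t, HasDerivAt (fun t => ‖pe e (u (F t) - z₀)‖ ^ 2)
      (-(2 * ⟪pe e (u (F t) - z₀), X' (F t)⟫)) t := by
    intro t
    have h1 := ((h.deriv_u_neg y t).sub_const z₀)
    have h2 : HasDerivAt (fun t => pe e (u (F t) - z₀)) (pe e (-(X' (F t)))) t := by
      unfold pe
      have h3 := (hds t).smul_const e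
      have h4 := h1.sub h3
      refine h4.congr_deriv ?_
      rw [inner_neg_right]
    have h5 := h2.norm_sq
    refine h5.congr_deriv ?_
    rw [← pe_inner he, inner_neg_right]
    ring
  -- the orbit stays in the tube
  have hstay : ∀ τ, 0 ≤ τ → ∀ t ∈ Icc 0 τ, F t ∈ Tub σ z₀ e a b := by
    intro τ hτ
    have hcl : IsClosed ({t | F t ∈ Tub σ z₀ e a b} ∩ Icc 0 τ) :=
      (hTc.isClosed.preimage hFc).inter isClosed_Icc
    refine hcl.Icc_subset_of_forall_mem_nhdsWithin ?_ ?_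
    · show F 0 ∈ Tub σ z₀ e a b
      rw [hF]
      simp only
      rw [neg_zero, h.zero]
      exact hy
    · rintro t ⟨ht1, ht2⟩
      have ht1' : F t ∈ Tub σ z₀ e a b := ht1
      have ht3 := (mem_Tub huc hsec hTB).1 ht1'
      have hX'X : X' (F t) = X (F t) := H3 _ ht1' (hne t ht2.1)
      have e1 : ∀ᶠ s in 𝓝[>] t, F s ∈ σ '' ball z₀ r :=
        nhdsWithin_le_nhds (hFc.continuousAt.eventually (hsec.image.mem_nhds ht3.1))
      have hsc : Continuous (fun t => ⟪e, u (F t) - z₀⟫) := by fun_prop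
      have hpc' : Continuous (fun t => ‖pe e (u (F t) - z₀)‖ ^ 2) := by fun_prop
      have e2 : ∀ᶠ s in 𝓝[>] t, ⟪e, u (F s) - z₀⟫ ≤ a := by
        rcases ((abs_le.1 ht3.2.1).2).eq_or_lt with h1 | h1
        · have h6 : ∀ᶠ s in 𝓝[>] t, slope (fun t => ⟪e, u (F t) - z₀⟫) t s < 0 := by
            refine (hasDerivWithinAt_iff_tendsto_slope' (s := Ioi t) self_notMem_Ioi).1
              (hds t).hasDerivWithinAt |>.eventually_lt_const ?_
            rw [hX'X]
            linarith [H1 _ ht1']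
          filter_upwards [h6, self_mem_nhdsWithin] with s h7 hs
          have hs' : t < s := hs
          rw [slope_def_field, div_lt_iff₀ (by linarith), h1] at h7
          linarith
        · exact nhdsWithin_le_nhds ((ev_lt hsc h1).mono fun s hs => hs.le)
      have e3 : ∀ᶠ s in 𝓝[>] t, -a ≤ ⟪e, u (F s) - z₀⟫ := by
        rcases ((abs_le.1 ht3.2.1).1).eq_or_lt with h1 | h1
        · exact absurd (H4 _ ht1' h1.symm) (not_lt.2 (hne t ht2.1))
        · exact nhdsWithin_le_nhds ((ev_gt hsc h1).mono fun s hs => hs.le)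
      have hb0 : 0 ≤ b := (norm_nonneg _).trans ht3.2.2
      have e4 : ∀ᶠ s in 𝓝[>] t, ‖pe e (u (F s) - z₀)‖ ≤ b := by
        rcases (ht3.2.2).eq_or_lt with h1 | h1
        · have hL : F t ∈ TubL σ z₀ e a b := (mem_TubL huc hsec hTB).2 ⟨ht3.1, ht3.2.1, h1⟩
          have h6 : ∀ᶠ s in 𝓝[>] t, slope (fun t => ‖pe e (u (F t) - z₀)‖ ^ 2) t s < 0 := by
            refine (hasDerivWithinAt_iff_tendsto_slope' (s := Ioi t) self_notMem_Ioi).1
              (hdp t).hasDerivWithinAt |>.eventually_lt_const ?_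
            rw [hX'X]
            linarith [H2 _ hL]
          filter_upwards [h6, self_mem_nhdsWithin] with s h7 hs
          have hs' : t < s := hs
          rw [slope_def_field, div_lt_iff₀ (by linarith), h1] at h7
          have h8 : ‖pe e (u (F s) - z₀)‖ ^ 2 < b ^ 2 := by linarith
          exact (lt_of_pow_lt_pow_left₀ 2 hb0 h8).le
        · have : Continuous (fun t => ‖pe e (u (F t) - z₀)‖) := by fun_prop
          exact nhdsWithin_le_nhds ((ev_lt this h1).mono fun s hs => hs.le)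
      filter_upwards [e1, e2, e3, e4] with s g1 g2 g3 g4
      exact (mem_Tub huc hsec hTB).2 ⟨g1, abs_le.2 ⟨g3, g2⟩, g4⟩
  -- but the first coordinate decreases at a definite rate
  obtain ⟨w, hw, hwmin⟩ := hTc.exists_isMinOn ⟨y, hy⟩ (f := fun x => ⟪e, X x⟫)
    (Continuous.continuousOn (by fun_prop))
  set m : ℝ := ⟪e, X w⟫ with hm
  have hm0 : 0 < m := H1 w hw
  have hbound : ∀ t, 0 ≤ t → ⟪e, u (F t) - z₀⟫ ≤ ⟪e, u y - z₀⟫ - m * t := by
    intro t ht
    have h1 := image_le_of_deriv_right_le_deriv_boundary (f := fun t => ⟪e, u (F t) - z₀⟫)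
      (f' := fun t => -⟪e, X' (F t)⟫) (a := 0) (b := t)
      (B := fun t => ⟪e, u y - z₀⟫ - m * t) (B' := fun _ => -m)
      (fun s _ => (hds s).continuousAt.continuousWithinAt)
      (fun s _ => (hds s).hasDerivWithinAt)
      (by simp [hF, h.zero])
      (fun s _ => by
        have h2 : ContinuousAt (fun t : ℝ => ⟪e, u y - z₀⟫ - m * t) s := by fun_prop
        exact h2.continuousWithinAt)
      (fun s _ => by
        have := ((hasDerivAt_id s).const_mul m).const_sub ⟪e, u y - z₀⟫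
        simp only [mul_one] at this
        exact this.hasDerivWithinAt)
      (fun s hs => by
        have hsT := hstay t ht s ⟨hs.1, hs.2.le⟩
        have h3 : m ≤ ⟪e, X (F s)⟫ := isMinOn_iff.1 hwmin _ hsT
        rw [← H3 _ hsT (hne s hs.1)] at h3
        linarith)
    exact h1 ⟨ht, le_rfl⟩
  have hy' := (mem_Tub huc hsec hTB).1 hy
  have ha0 : 0 ≤ a := (abs_nonneg _).trans hy'.2.1
  set τ : ℝ := (2 * a + 1) / m with hτ
  have hτ0 : 0 ≤ τ := by positivity
  have h1 := hbound τ hτ0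
  have h2 := (mem_Tub huc hsec hTB).1 (hstay τ hτ0 τ ⟨hτ0, le_rfl⟩)
  have h3 : m * τ = 2 * a + 1 := by rw [hτ]; field_simp
  have h4 := (abs_le.1 h2.2.1).1
  have h5 := (abs_le.1 hy'.2.1).2
  linarith

end

end Pool.Agent.Q196.XF
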