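import Pool.Agent.Q196.XF.Merge

/-! Sets on which every map to the circle has a lift, and unicoherence. -/

set_option autoImplicit false
set_option linter.unusedSectionVars false

open scoped Topology ContDiff Manifold RealInnerProductSpace Gradient
open Set Metric Filter Bundle Pool.Agent.Q196.XB Asymptotics

noncomputable section

namespace Pool.Agent.Q196.XF

/-- Every continuous map from `M` to the unit circle has a continuous argument. -/
def Lifts {N : Type} [TopologicalSpace N] (M : Set N) : Prop :=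
  ∀ f : N → ℂ, ContinuousOn f M → (∀ x ∈ M, ‖f x‖ = 1) →
    ∃ θ : N → ℝ, ContinuousOn θ M ∧ ∀ x ∈ M, f x = Complex.exp (θ x * Complex.I)

/-- The property is inherited by retracts. -/
lemma Lifts.retract {N : Type} [TopologicalSpace N] {M B : Set N} (h : Lifts M) {R : N → N}
    (hR : ContinuousOn R M) (hRM : ∀ x ∈ M, R x ∈ B) (hBM : B ⊆ M) (hRB : ∀ x ∈ B, R x = x) :
    Lifts B := by
  intro f hf hf1
  obtain ⟨θ, hθ, hθ'⟩ := h (f ∘ R) (hf.comp hR hRM) (fun x hx => hf1 _ (hRM x hx))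
  refine ⟨θ, hθ.mono hBM, fun x hx => ?_⟩
  rw [← hθ' x (hBM hx)]
  show f x = f (R x)
  rw [hRB x hx]

lemma int_const {N : Type} [TopologicalSpace N] {S : Set N} (hS : IsPreconnected S) {h : N → ℝ}
    (hc : ContinuousOn h S) (hi : ∀ x ∈ S, ∃ n : ℤ, h x = n) : ∀ x ∈ S, ∀ y ∈ S, h x = h y := by
  have key : ∀ x ∈ S, ∀ y ∈ S, ¬h x < h y := by
    intro x hx y hy hlt
    obtain ⟨m, hm⟩ := hi x hx
    obtain ⟨n, hn⟩ := hi y hy
    have hmn : m < n := by
      rw [hm, hn] at hlt
      exact_mod_cast hlt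
    have h1 : (h '' S).OrdConnected := (hS.image h hc).ordConnected
    have h2 : (m:ℝ) + 1 / 2 ∈ h '' S := by
      refine h1.out ⟨x, hx, rfl⟩ ⟨y, hy, rfl⟩ ⟨by rw [hm]; linarith, ?_⟩
      rw [hn]
      have : (m:ℝ) + 1 ≤ n := by exact_mod_cast hmn
      linarith
    obtain ⟨z, hz, hzm⟩ := h2
    obtain ⟨k, hk⟩ := hi z hz
    rw [hk] at hzm
    have h3 : (2 * k : ℝ) = 2 * m + 1 := by linarith
    have h4 : 2 * k = 2 * m + 1 := by exact_mod_cast h3
    omega
  intro x hx y hy
  rcases lt_trichotomy (h x) (h y) with h1 | h1 | h1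
  · exact absurd h1 (key x hx y hy)
  · exact h1
  · exact absurd h1 (key y hy x hx)

lemma exp_int {t s : ℝ} (h : Complex.exp (t * Complex.I) =
    Complex.exp (2 * Real.pi * s * Complex.I)) : ∃ n : ℤ, t / (2 * Real.pi) - s = n := by
  obtain ⟨n, hn⟩ := Complex.exp_eq_exp_iff_exists_int.1 h
  refine ⟨n, ?_⟩
  have h2 : (t:ℂ) = (2 * Real.pi * s + n * (2 * Real.pi)) := by
    have h3 : (t:ℂ) * Complex.I = (2 * Real.pi * s + n * (2 * Real.pi)) * Complex.I := by
      rw [hn]; ring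
    exact mul_right_cancel₀ Complex.I_ne_zero h3
  have h4 : t = 2 * Real.pi * s + n * (2 * Real.pi) := by exact_mod_cast h2
  have h5 := Real.pi_pos
  rw [h4]
  field_simp
  ring

/-- **Unicoherence.** -/
theorem uni {N : Type} [TopologicalSpace N] [NormalSpace N] {M U V O₁ O₂ : Set N}
    (hM : IsClosed M) (hL : Lifts M) (hU : IsOpen U) (hV : IsOpen V) (h1 : IsOpen O₁)
    (h2 : IsOpen O₂) (hcov : M ⊆ U ∪ V) (hMU : IsPreconnected (M ∩ U))
    (hMV : IsPreconnected (M ∩ V)) (hO : M ∩ U ∩ V ⊆ O₁ ∪ O₂)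
    (hd : ∀ x ∈ M ∩ U ∩ V, x ∈ O₁ → x ∈ O₂ → False) {x₁ x₂ : N} (hx₁ : x₁ ∈ M ∩ U ∩ V)
    (hx₂ : x₂ ∈ M ∩ U ∩ V) (hx₁' : x₁ ∈ O₁) (hx₂' : x₂ ∈ O₂) : False := by
  classical
  obtain ⟨χ, hχ0, hχ1, -⟩ := exists_continuous_zero_one_of_isClosed (s := M \ V) (t := M \ U)
    (hM.sdiff hV) (hM.sdiff hU) (by
      rw [Set.disjoint_left]
      rintro x ⟨hx1, hx2⟩ ⟨-, hx3⟩
      rcases hcov hx1 with h | h
      · exact hx3 h
      · exact hx2 h)
  set P : Set N := M ∩ U ∩ V ∩ O₁ with hP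
  set gU : N → ℝ := fun x => if x ∈ P then χ x else 0 with hgU
  set gV : N → ℝ := fun x => if x ∈ P then χ x - 1 else 0 with hgV
  have hnear : ∀ x ∈ P, ∀ᶠ y in 𝓝[M] x, y ∈ P := by
    intro x hx
    filter_upwards [self_mem_nhdsWithin, nhdsWithin_le_nhds (hU.mem_nhds hx.1.1.2),
      nhdsWithin_le_nhds (hV.mem_nhds hx.1.2), nhdsWithin_le_nhds (h1.mem_nhds hx.2)]
      with y a b c d using ⟨⟨⟨a, b⟩, c⟩, d⟩
  have hfar : ∀ x ∈ M, x ∈ U → x ∈ V → x ∉ P → ∀ᶠ y in 𝓝[M] x, y ∉ P := by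
    intro x hx hxU hxV hxP
    have hx2 : x ∈ O₂ := (hO ⟨⟨hx, hxU⟩, hxV⟩).resolve_left fun h => hxP ⟨⟨⟨hx, hxU⟩, hxV⟩, h⟩
    filter_upwards [nhdsWithin_le_nhds (h2.mem_nhds hx2)] with y hy hyP
    exact hd y hyP.1 hyP.2 hy
  have hcU : ∀ x ∈ M, x ∈ U → ContinuousWithinAt gU M x := by
    intro x hx hxU
    by_cases hxP : x ∈ P
    · have h3 : ContinuousWithinAt χ M x := χ.continuous.continuousWithinAt
      refine h3.congr_of_eventuallyEq ?_ (by simp only [hgU, if_pos hxP])
      filter_upwards [hnear x hxP] with y hy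
      simp only [hgU, if_pos hy]
    · by_cases hxV : x ∈ V
      · refine (continuousWithinAt_const (b := (0:ℝ))).congr_of_eventuallyEq ?_
          (by simp only [hgU, if_neg hxP])
        filter_upwards [hfar x hx hxU hxV hxP] with y hy
        simp only [hgU, if_neg hy]
      · have hχx : χ x = 0 := hχ0 ⟨hx, hxV⟩
        have hgx : gU x = 0 := by simp only [hgU, if_neg hxP]
        show Tendsto gU (𝓝[M] x) (𝓝 (gU x))
        rw [hgx]
        have h3 : Tendsto (fun y => ‖χ y‖) (𝓝[M] x) (𝓝 0) := by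
          have : ContinuousAt (fun y => ‖χ y‖) x := χ.continuous.continuousAt.norm
          have h4 := this.tendsto
          rw [hχx, norm_zero] at h4
          exact h4.mono_left nhdsWithin_le_nhds
        refine squeeze_zero_norm (fun y => ?_) h3
        by_cases hy : y ∈ P
        · simp only [hgU, if_pos hy]; exact le_rfl
        · simp only [hgU, if_neg hy, norm_zero]; exact norm_nonneg _
  have hcV : ∀ x ∈ M, x ∈ V → ContinuousWithinAt gV M x := by
    intro x hx hxV
    by_cases hxP : x ∈ P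
    · have h3 : ContinuousWithinAt (fun y => χ y - 1) M x :=
        (χ.continuous.sub continuous_const).continuousWithinAt
      refine h3.congr_of_eventuallyEq ?_ (by simp only [hgV, if_pos hxP])
      filter_upwards [hnear x hxP] with y hy
      simp only [hgV, if_pos hy]
    · by_cases hxU : x ∈ U
      · refine (continuousWithinAt_const (b := (0:ℝ))).congr_of_eventuallyEq ?_
          (by simp only [hgV, if_neg hxP])
        filter_upwards [hfar x hx hxU hxV hxP] with y hy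
        simp only [hgV, if_neg hy]
      · have hχx : χ x = 1 := hχ1 ⟨hx, hxU⟩
        have hgx : gV x = 0 := by simp only [hgV, if_neg hxP]
        show Tendsto gV (𝓝[M] x) (𝓝 (gV x))
        rw [hgx]
        have h3 : Tendsto (fun y => ‖χ y - 1‖) (𝓝[M] x) (𝓝 0) := by
          have : ContinuousAt (fun y => ‖χ y - 1‖) x :=
            (χ.continuous.sub continuous_const).continuousAt.norm
          have h4 := this.tendsto
          rw [hχx, sub_self, norm_zero] at h4
          exact h4.mono_left nhdsWithin_le_nhds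
        refine squeeze_zero_norm (fun y => ?_) h3
        by_cases hy : y ∈ P
        · simp only [hgV, if_pos hy]; exact le_rfl
        · simp only [hgV, if_neg hy, norm_zero]; exact norm_nonneg _
  set f : N → ℂ := fun x => Complex.exp (2 * Real.pi * gU x * Complex.I) with hf
  have hfV : ∀ x, f x = Complex.exp (2 * Real.pi * gV x * Complex.I) := by
    intro x
    by_cases hx : x ∈ P
    · simp only [hf, hgU, hgV, if_pos hx]
      rw [Complex.exp_eq_exp_iff_exists_int]
      refine ⟨1, ?_⟩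
      push_cast
      ring
    · simp only [hf, hgU, hgV, if_neg hx]
  have hfc : ContinuousOn f M := by
    intro x hx
    rcases hcov hx with h | h
    · have h3 := hcU x hx h
      have h4 : Continuous (fun t : ℝ => Complex.exp (2 * Real.pi * t * Complex.I)) := by fun_prop
      exact h4.continuousAt.comp_continuousWithinAt h3
    · have h3 := hcV x hx h
      have h4 : Continuous (fun t : ℝ => Complex.exp (2 * Real.pi * t * Complex.I)) := by fun_prop
      have h5 := h4.continuousAt.comp_continuousWithinAt h3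
      exact h5.congr (fun y _ => hfV y) (hfV x)
  have hf1 : ∀ x ∈ M, ‖f x‖ = 1 := by
    intro x _
    simp only [hf]
    rw [show (2 * Real.pi * gU x * Complex.I : ℂ) = ((2 * Real.pi * gU x : ℝ) : ℂ) * Complex.I by
      push_cast; ring]
    exact Complex.norm_exp_ofReal_mul_I _
  obtain ⟨θ, hθ, hθ'⟩ := hL f hfc hf1
  have hkU := int_const hMU (h := fun x => θ x / (2 * Real.pi) - gU x)
    (fun x hx => (((hθ x hx.1).div_const _).sub (hcU x hx.1 hx.2)).mono inter_subset_left)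
    (fun x hx => exp_int (by rw [← hθ' x hx.1]))
  have hkV := int_const hMV (h := fun x => θ x / (2 * Real.pi) - gV x)
    (fun x hx => (((hθ x hx.1).div_const _).sub (hcV x hx.1 hx.2)).mono inter_subset_left)
    (fun x hx => exp_int (by rw [← hθ' x hx.1, hfV]))
  have e1 := hkU x₁ hx₁.1 x₂ hx₂.1
  have e2 := hkV x₁ ⟨hx₁.1.1, hx₁.2⟩ x₂ ⟨hx₂.1.1, hx₂.2⟩
  have p1 : x₁ ∈ P := ⟨hx₁, hx₁'⟩
  have p2 : x₂ ∉ P := fun h => hd x₂ hx₂ h.2 hx₂'
  simp only [hgU, hgV, if_pos p1, if_neg p2] at e1 e2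
  linarith

/-- a set which flows backwards into a preconnected subset is preconnected -/
theorem pre_of_flow {N : Type} [TopologicalSpace N] {Fl : ℝ → N → N}
    (hc : ∀ x, Continuous fun t => Fl t x) (h0 : ∀ x, Fl 0 x = x) {P Q : Set N} (hQP : Q ⊆ P)
    (hQ : IsPreconnected Q) (h : ∀ x ∈ P, ∃ t, 0 ≤ t ∧ Fl (-t) x ∈ Q ∧
      ∀ s ∈ Icc 0 t, Fl (-s) x ∈ P) : IsPreconnected P := by
  rcases P.eq_empty_or_nonempty with hP | ⟨x₀, hx₀⟩
  · rw [hP]; exact isPreconnected_empty
  obtain ⟨t₀, ht₀, hq₀, -⟩ := h x₀ hx₀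
  refine isPreconnected_of_forall (Fl (-t₀) x₀) fun x hx => ?_
  obtain ⟨t, ht, hq, hs⟩ := h x hx
  refine ⟨((fun s => Fl (-s) x) '' Icc 0 t) ∪ Q, ?_, Or.inr hq₀, Or.inl ⟨0, ⟨le_rfl, ht⟩, by
    simp [h0]⟩, ?_⟩
  · rintro y (⟨s, hs', rfl⟩ | hy)
    · exact hs s hs'
    · exact hQP hy
  · refine IsPreconnected.union (Fl (-t) x) ⟨t, ⟨ht, le_rfl⟩, rfl⟩ hq ?_ hQ
    exact isPreconnected_Icc.image _ ((hc x).comp continuous_neg).continuousOn

end Pool.Agent.Q196.XF
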